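import Mathlib

set_option autoImplicit false

namespace Pool.Agent.Lib.MP_7fdcdd_gt.Vol

open Finset MeasureTheory Module

section Lex

variable {ι : Type} [Fintype ι] {E : Type} [NormedAddCommGroup E] [NormedSpace ℝ E]

/-- `l` is a convex representation of `x` by the labelled points `p`. -/
def Rep (p : ι → E) (x : E) (l : ι → ℝ) : Prop :=
  (∀ i, 0 ≤ l i) ∧ ∑ i, l i = 1 ∧ ∑ i, l i • p i = x

/-- the hull of the points with labels in `σ` -/
def cell (p : ι → E) (σ : Finset ι) : Set E :=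
  {x | ∃ l, Rep p x l ∧ ∀ i, i ∉ σ → l i = 0}

def LexPos (ord : ι → ℕ) (β : ι → ℝ) : Prop :=
  ∃ i, 0 < β i ∧ ∀ j, ord j < ord i → β j = 0

def IsMax (p : ι → E) (ord : ι → ℕ) (x : E) (l : ι → ℝ) : Prop :=
  Rep p x l ∧ ∀ m, Rep p x m → ¬ LexPos ord (m - l)

lemma cell_subset {p : ι → E} {σ : Finset ι} {K : Set E} (hK : Convex ℝ K)
    (h : ∀ i ∈ σ, p i ∈ K) : cell p σ ⊆ K := by
  classical
  rintro x ⟨l, ⟨h0, h1, h2⟩, h3⟩
  have e1 : ∑ i ∈ σ, l i = 1 := by
    rw [← h1]
    exact Finset.sum_subset (subset_univ _) (fun i _ hi => h3 i hi)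
  have e2 : ∑ i ∈ σ, l i • p i = x := by
    rw [← h2]
    exact Finset.sum_subset (subset_univ _) (fun i _ hi => by rw [h3 i hi, zero_smul])
  rw [← e2]
  exact hK.sum_mem (fun i _ => h0 i) e1 h

lemma convex_cell (p : ι → E) (σ : Finset ι) : Convex ℝ (cell p σ) := by
  rintro x ⟨l, ⟨h0, h1, h2⟩, h3⟩ y ⟨m, ⟨g0, g1, g2⟩, g3⟩ a b ha hb hab
  refine ⟨fun i => a * l i + b * m i, ⟨fun i => ?_, ?_, ?_⟩, fun i hi => ?_⟩
  · exact add_nonneg (mul_nonneg ha (h0 i)) (mul_nonneg hb (g0 i))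
  · rw [sum_add_distrib, ← mul_sum, ← mul_sum, h1, g1]; linarith
  · simp only [add_smul, mul_smul]
    rw [sum_add_distrib, ← smul_sum, ← smul_sum, h2, g2]
  · simp [h3 i hi, g3 i hi]

lemma mem_cell {p : ι → E} {σ : Finset ι} {i : ι} (hi : i ∈ σ) : p i ∈ cell p σ := by
  classical
  refine ⟨fun j => if j = i then 1 else 0, ⟨fun j => ?_, ?_, ?_⟩, fun j hj => ?_⟩
  · dsimp only; split_ifs <;> norm_num
  · simp
  · simp [ite_smul]
  · have : j ≠ i := fun h => hj (h ▸ hi)
    simp [this]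

lemma cell_eq (p : ι → E) (σ : Finset ι) : cell p σ = convexHull ℝ (p '' (σ : Set ι)) := by
  apply Set.Subset.antisymm
  · exact cell_subset (convex_convexHull ℝ _)
      (fun i hi => subset_convexHull ℝ _ ⟨i, hi, rfl⟩)
  · apply convexHull_min _ (convex_cell p σ)
    rintro _ ⟨i, hi, rfl⟩
    exact mem_cell hi

lemma isCompact_cell (p : ι → E) (σ : Finset ι) : IsCompact (cell p σ) := by
  rw [cell_eq]
  exact ((σ.finite_toSet).image p).isCompact_convexHull ℝ

lemma exists_eps (l β : ι → ℝ) (h0 : ∀ i, 0 ≤ l i) (h1 : ∀ i, l i = 0 → 0 ≤ β i) :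
    ∃ ε : ℝ, 0 < ε ∧ ∀ i, 0 ≤ l i + ε * β i := by
  have h : ∀ i, ∀ᶠ ε in nhdsWithin (0 : ℝ) (Set.Ioi 0), 0 ≤ l i + ε * β i := by
    intro i
    rcases (h0 i).eq_or_lt with h | h
    · filter_upwards [self_mem_nhdsWithin] with ε hε
      have := h1 i h.symm
      have : 0 ≤ ε * β i := mul_nonneg (le_of_lt hε) this
      linarith
    · apply Filter.Eventually.filter_mono nhdsWithin_le_nhds
      have hc : Continuous (fun ε : ℝ => l i + ε * β i) := by fun_prop
      have := hc.continuousAt (x := 0)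
      have h2 : (0 : ℝ) < l i + 0 * β i := by simpa using h
      exact (this.eventually (lt_mem_nhds h2)).mono (fun ε hε => le_of_lt hε)
  obtain ⟨ε, hε1, hε2⟩ := ((Filter.eventually_all.mpr h).and self_mem_nhdsWithin).exists
  exact ⟨ε, hε2, hε1⟩

lemma IsMax.ex {p : ι → E} {ord : ι → ℕ} {x : E} {l : ι → ℝ} (h : IsMax p ord x l)
    (β : ι → ℝ) (s0 : ∑ i, β i = 0) (s1 : ∑ i, β i • p i = 0) (hb : ∀ i, l i = 0 → 0 ≤ β i) :
    ¬ LexPos ord β := by
  rintro ⟨i, hi, hj⟩
  obtain ⟨⟨h0, h1, h2⟩, h3⟩ := h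
  obtain ⟨ε, hε, he⟩ := exists_eps l β h0 hb
  refine h3 (fun i => l i + ε * β i) ⟨he, ?_, ?_⟩ ⟨i, ?_, fun j hlt => ?_⟩
  · rw [sum_add_distrib, ← mul_sum, h1, s0]; ring
  · simp only [add_smul, mul_smul]
    rw [sum_add_distrib, ← smul_sum, h2, s1]; simp
  · simpa using mul_pos hε hi
  · simp [hj j hlt]

lemma IsMax.hered {p : ι → E} {ord : ι → ℕ} {x y : E} {l m : ι → ℝ} (h : IsMax p ord x l)
    (hm : Rep p y m) (hs : ∀ i, l i = 0 → m i = 0) : IsMax p ord y m := by
  refine ⟨hm, fun k hk => ?_⟩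
  apply h.ex
  · simp [sum_sub_distrib, hk.2.1, hm.2.1]
  · simp [sub_smul, sum_sub_distrib, hk.2.2, hm.2.2]
  · intro i hi
    simpa [hs i hi] using hk.1 i

lemma lexPos_or {ord : ι → ℕ} (β : ι → ℝ) (hb : ∃ i, β i ≠ 0) :
    ∃ i, β i ≠ 0 ∧ ∀ j, ord j < ord i → β j = 0 := by
  classical
  obtain ⟨i, hi, hmin⟩ := Finset.exists_min_image (univ.filter (fun i => β i ≠ 0)) ord
    (by obtain ⟨i, hi⟩ := hb; exact ⟨i, by simpa using hi⟩)
  refine ⟨i, by simpa using hi, fun j hj => ?_⟩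
  by_contra h
  exact absurd (hmin j (by simpa using h)) (by omega)

lemma IsMax.unique {p : ι → E} {ord : ι → ℕ} {x : E} {l m : ι → ℝ} (h : IsMax p ord x l)
    (g : IsMax p ord x m) : l = m := by
  by_contra hne
  have : ∃ i, (m - l) i ≠ 0 := by
    by_contra hc
    push Not at hc
    exact hne (funext fun i => by have := hc i; simp at this; linarith)
  obtain ⟨i, hi, hj⟩ := lexPos_or (ord := ord) _ this
  rcases lt_or_gt_of_ne hi with h1 | h1
  · refine g.2 l h.1 ⟨i, ?_, fun j hlt => ?_⟩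
    · simp at h1 ⊢; linarith
    · have := hj j hlt
      simp at this ⊢; linarith
  · exact h.2 m g.1 ⟨i, h1, hj⟩

lemma exists_isMax (p : ι → E) (ord : ι → ℕ) (hord : Function.Injective ord) (x : E)
    (hx : ∃ l, Rep p x l) : ∃ l, IsMax p ord x l := by
  classical
  have key : ∀ k : ℕ, ∃ l, Rep p x l ∧ ∀ m, Rep p x m → ∀ i, ord i < k →
      (∀ j, ord j < ord i → m j = l j) → m i ≤ l i := by
    intro k
    induction k with
    | zero =>
      obtain ⟨l, hl⟩ := hx
      exact ⟨l, hl, fun m _ i hi => absurd hi (by omega)⟩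
    | succ k ih =>
      obtain ⟨l, hl, hmax⟩ := ih
      by_cases hk : ∃ i0, ord i0 = k
      · obtain ⟨i0, hi0⟩ := hk
        let S : Set (ι → ℝ) := {m | Rep p x m ∧ ∀ j, ord j < k → m j = l j}
        have hS : IsCompact S := by
          have e : S = stdSimplex ℝ ι ∩ ({m | ∑ i, m i • p i = x} ∩
              ⋂ j, {m | ord j < k → m j = l j}) := by
            ext m
            simp only [S, Rep, stdSimplex, Set.mem_ofPred_eq, Set.mem_inter_iff, Set.mem_iInter]
            tauto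
          rw [e]
          apply (isCompact_stdSimplex ℝ ι).inter_right
          apply IsClosed.inter
          · exact isClosed_eq (by fun_prop) continuous_const
          · apply isClosed_iInter
            intro j
            by_cases hj : ord j < k
            · simpa [hj] using isClosed_eq (continuous_apply j) continuous_const
            · simp [hj]
        obtain ⟨l', hl', hm⟩ := hS.exists_isMaxOn ⟨l, hl, fun _ _ => rfl⟩
          (continuous_apply i0).continuousOn
        refine ⟨l', hl'.1, fun m hm1 i hi hag => ?_⟩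
        rcases Nat.lt_succ_iff_lt_or_eq.mp hi with h1 | h1
        · rw [hl'.2 i h1]
          exact hmax m hm1 i h1 (fun j hj => by rw [hag j hj, hl'.2 j (by omega)])
        · have : i = i0 := hord (by omega)
          subst this
          exact hm (a := m) ⟨hm1, fun j hj => by rw [hag j (by omega), hl'.2 j hj]⟩
      · refine ⟨l, hl, fun m hm i hi => hmax m hm i ?_⟩
        rcases Nat.lt_succ_iff_lt_or_eq.mp hi with h1 | h1
        · exact h1
        · exact absurd ⟨i, h1⟩ hk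
  obtain ⟨l, hl, hmax⟩ := key (univ.sup ord + 1)
  refine ⟨l, hl, fun m hm ⟨i, hi, hj⟩ => ?_⟩
  have := hmax m hm i (Nat.lt_succ_of_le (le_sup (f := ord) (mem_univ i)))
    (fun j hlt => by have := hj j hlt; simp at this; linarith)
  simp at hi
  linarith

/-- five labels always carry a relation in dimension three -/
lemma exists_rel [FiniteDimensional ℝ E] (hE : finrank ℝ E = 3) (p : ι → E) (s : Finset ι)
    (hs : 5 ≤ s.card) : ∃ β : ι → ℝ, ∑ i, β i = 0 ∧ ∑ i, β i • p i = 0 ∧ (∀ i, i ∉ s → β i = 0) ∧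
      ∃ i, β i ≠ 0 := by
  classical
  have h : ¬ LinearIndepOn ℝ (fun i => ((1 : ℝ), p i)) (s : Set ι) := by
    intro h
    have := LinearIndependent.fintype_card_le_finrank h
    simp [finrank_prod, hE] at this
    omega
  obtain ⟨f, hf, i, hi, hne⟩ := not_linearIndepOn_finset_iff.mp h
  refine ⟨fun i => if i ∈ s then f i else 0, ?_, ?_, fun i hi => by simp [hi], i, by simpa [hi]⟩
  · have := congrArg Prod.fst hf
    simpa [Prod.fst_sum, Finset.sum_ite_mem] using this
  · have := congrArg Prod.snd hf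
    simpa [Prod.snd_sum, ite_smul, Finset.sum_ite_mem] using this

variable [FiniteDimensional ℝ E] [MeasurableSpace E] [BorelSpace E]

lemma cell_null (hE : finrank ℝ E = 3) (μ : Measure E) [μ.IsAddHaarMeasure] (p : ι → E)
    (τ : Finset ι) (hτ : τ.card ≤ 3) : μ (cell p τ) = 0 := by
  classical
  rcases τ.eq_empty_or_nonempty with rfl | hne
  · rw [cell_eq]; simp
  obtain ⟨n, hn⟩ : ∃ n, τ.card = n + 1 := ⟨τ.card - 1, by have := hne.card_pos; omega⟩
  have h1 := finrank_vectorSpan_image_finset_le ℝ p τ hn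
  have h2 : affineSpan ℝ (p '' (τ : Set ι)) ≠ ⊤ := by
    intro h
    have h3 : vectorSpan ℝ (p '' (τ : Set ι)) = ⊤ := by
      rw [← direction_affineSpan, h, AffineSubspace.direction_top]
    rw [Finset.coe_image, h3, finrank_top, hE] at h1
    omega
  apply measure_mono_null _ (Measure.addHaar_affineSubspace μ _ h2)
  rw [cell_eq]
  exact convexHull_subset_affineSpan _

/-- Pulling triangulation of the hull of a labelled family of points, for a given priority `ty`. -/
theorem exists_tri (hE : finrank ℝ E = 3) (μ : Measure E) [μ.IsAddHaarMeasure] (p : ι → E)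
    (ty : ι → ℕ) : ∃ C : Finset (Finset ι),
    (∀ σ ∈ C, σ.card = 4) ∧
    (∀ σ ∈ C, ∀ β : ι → ℝ, ∑ i, β i = 0 → ∑ i, β i • p i = 0 → (∀ i, i ∉ σ → β i = 0) →
      ∀ i, β i = 0) ∧
    (∀ σ ∈ C, ∀ β : ι → ℝ, ∑ i, β i = 0 → ∑ i, β i • p i = 0 → (∀ i, i ∉ σ → 0 ≤ β i) →
      (∀ j, β j < 0 → ∃ i, 0 < β i ∧ ty i < ty j) → ∀ i, β i = 0) ∧
    μ (cell p univ \ ⋃ σ ∈ C, cell p σ) = 0 ∧
    (∀ σ ∈ C, ∀ τ ∈ C, σ ≠ τ → μ (cell p σ ∩ cell p τ) = 0) := by
  classical
  let N := Fintype.card ι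
  let ord : ι → ℕ := fun i => ty i * N + (Fintype.equivFin ι i : ℕ)
  have hlt : ∀ i j, ty i < ty j → ord i < ord j := by
    intro i j h
    have h1 : ((Fintype.equivFin ι i : Fin N) : ℕ) < N := (Fintype.equivFin ι i).2
    have h2 : (ty i + 1) * N ≤ ty j * N := Nat.mul_le_mul_right _ h
    simp only [ord]
    nlinarith
  have hord : Function.Injective ord := by
    intro i j h
    rcases lt_trichotomy (ty i) (ty j) with h1 | h1 | h1
    · exact absurd (hlt i j h1) (by omega)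
    · simp only [ord, h1] at h
      exact (Fintype.equivFin ι).injective (Fin.ext (by omega))
    · exact absurd (hlt j i h1) (by omega)
  let sp : (ι → ℝ) → Finset ι := fun l => univ.filter (fun i => l i ≠ 0)
  have hsp : ∀ l i, i ∉ sp l ↔ l i = 0 := by intro l i; simp [sp]
  have ind : ∀ x l, IsMax p ord x l → ∀ β : ι → ℝ, ∑ i, β i = 0 → ∑ i, β i • p i = 0 →
      (∀ i, i ∉ sp l → β i = 0) → ∀ i, β i = 0 := by
    intro x l hl β s0 s1 hb
    by_contra hc
    push Not at hc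
    obtain ⟨i, hi, hj⟩ := lexPos_or (ord := ord) β hc
    rcases lt_or_gt_of_ne hi with h1 | h1
    · refine hl.ex (-β) (by simp [s0]) (by simp [s1]) (fun i hi => ?_) ⟨i, by simpa, fun j h => ?_⟩
      · simp [hb i ((hsp l i).mpr hi)]
      · simp [hj j h]
    · exact hl.ex β s0 s1 (fun i hi => (hb i ((hsp l i).mpr hi)).ge) ⟨i, h1, hj⟩
  refine ⟨univ.filter (fun σ => σ.card = 4 ∧ ∃ x l, IsMax p ord x l ∧ sp l = σ), ?_, ?_, ?_, ?_, ?_⟩
  · intro σ hσ
    exact (mem_filter.mp hσ).2.1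
  · intro σ hσ
    obtain ⟨x, l, hl, rfl⟩ := (mem_filter.mp hσ).2.2
    exact ind x l hl
  · intro σ hσ β s0 s1 hb hneg
    obtain ⟨x, l, hl, rfl⟩ := (mem_filter.mp hσ).2.2
    by_contra hc
    push Not at hc
    obtain ⟨i, hi, hj⟩ := lexPos_or (ord := ord) β hc
    rcases lt_or_gt_of_ne hi with h1 | h1
    · obtain ⟨k, hk, hk2⟩ := hneg i h1
      have := hj k (hlt k i hk2)
      linarith
    · exact hl.ex β s0 s1 (fun i hi => hb i ((hsp l i).mpr hi)) ⟨i, h1, hj⟩
  · have hnull : μ (⋃ τ ∈ univ.filter (fun τ : Finset ι => τ.card ≤ 3), cell p τ) = 0 := by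
      apply le_antisymm _ (zero_le)
      refine (measure_biUnion_finset_le _ _).trans (le_of_eq ?_)
      exact Finset.sum_eq_zero (fun τ hτ => cell_null hE μ p τ (by simpa using hτ))
    apply measure_mono_null _ hnull
    rintro x ⟨⟨l0, hl0, -⟩, hx⟩
    obtain ⟨l, hl⟩ := exists_isMax p ord hord x ⟨l0, hl0⟩
    have hm : x ∈ cell p (sp l) := ⟨l, hl.1, fun i hi => (hsp l i).mp hi⟩
    have h5 : (sp l).card < 5 := by
      by_contra h
      obtain ⟨β, s0, s1, hb, i, hi⟩ := exists_rel hE p (sp l) (by omega)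
      exact hi (ind x l hl β s0 s1 hb i)
    have h4 : (sp l).card ≠ 4 := by
      intro h
      apply hx
      simp only [Set.mem_iUnion]
      exact ⟨sp l, by simp only [mem_filter, mem_univ, true_and]; exact ⟨h, x, l, hl, rfl⟩, hm⟩
    simp only [Set.mem_iUnion]
    exact ⟨sp l, by simp only [mem_filter, mem_univ, true_and]; omega, hm⟩
  · intro σ hσ τ hτ hne
    obtain ⟨h4, x, l, hl, rfl⟩ := (mem_filter.mp hσ).2
    obtain ⟨g4, y, m, hm, rfl⟩ := (mem_filter.mp hτ).2
    have hc : (sp l ∩ sp m).card ≤ 3 := by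
      by_contra h
      have h1 : sp l ∩ sp m = sp l := eq_of_subset_of_card_le inter_subset_left (by omega)
      have h2 : sp l ∩ sp m = sp m := eq_of_subset_of_card_le inter_subset_right (by omega)
      exact hne (h1.symm.trans h2)
    apply measure_mono_null _ (cell_null hE μ p _ hc)
    rintro z ⟨⟨a, ha, ha2⟩, ⟨b, hb, hb2⟩⟩
    have e1 := hl.hered ha (fun i hi => ha2 i ((hsp l i).mpr hi))
    have e2 := hm.hered hb (fun i hi => hb2 i ((hsp m i).mpr hi))
    have e := e1.unique e2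
    refine ⟨a, ha, fun i hi => ?_⟩
    rw [mem_inter, not_and_or] at hi
    rcases hi with hi | hi
    · exact ha2 i hi
    · rw [e]; exact hb2 i hi

end Lex

end Pool.Agent.Lib.MP_7fdcdd_gt.Vol
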