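import Mathlib
import Pool.Agent.Lib.MP_7fdcdd_gt.Vol1

set_option autoImplicit false

namespace Pool.Agent.Lib.MP_7fdcdd_gt.Vol

open Finset MeasureTheory Module

section Simp

variable {E : Type} [NormedAddCommGroup E] [NormedSpace ℝ E]

/-- the tetrahedron with vertices `o`, `o + w 0`, `o + w 1`, `o + w 2` -/
def tet (o : E) (w : Fin 3 → E) : Set E :=
  {x | ∃ t : Fin 3 → ℝ, (∀ i, 0 ≤ t i) ∧ ∑ i, t i ≤ 1 ∧ x = o + ∑ i, t i • w i}

lemma convex_tet (o : E) (w : Fin 3 → E) : Convex ℝ (tet o w) := by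
  rintro x ⟨s, s0, s1, rfl⟩ y ⟨t, t0, t1, rfl⟩ a b ha hb hab
  refine ⟨fun i => a * s i + b * t i, fun i => ?_, ?_, ?_⟩
  · exact add_nonneg (mul_nonneg ha (s0 i)) (mul_nonneg hb (t0 i))
  · rw [sum_add_distrib, ← mul_sum, ← mul_sum]; nlinarith
  · obtain rfl : b = 1 - a := by linarith
    simp only [Fin.sum_univ_three]
    module

lemma tet_subset {o : E} {w : Fin 3 → E} {K : Set E} (hK : Convex ℝ K) (h0 : o ∈ K)
    (h : ∀ i, o + w i ∈ K) : tet o w ⊆ K := by
  rintro x ⟨t, t0, t1, rfl⟩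
  have := hK.sum_mem (t := (univ : Finset (Fin 4))) (w := ![1 - ∑ i, t i, t 0, t 1, t 2])
    (z := ![o, o + w 0, o + w 1, o + w 2])
    (by intro i _; fin_cases i <;> simp [t0, t1])
    (by simp [Fin.sum_univ_four, Fin.sum_univ_three]; ring)
    (by intro i _; fin_cases i <;> simp [h0, h])
  convert this using 1
  simp only [Fin.sum_univ_four, Fin.sum_univ_three, Matrix.cons_val_zero, Matrix.cons_val_one,
    Matrix.cons_val]
  module

lemma base_mem_tet (o : E) (w : Fin 3 → E) : o ∈ tet o w :=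
  ⟨0, fun _ => le_rfl, by simp, by simp⟩

lemma add_mem_tet (o : E) (w : Fin 3 → E) (i : Fin 3) : o + w i ∈ tet o w := by
  refine ⟨Pi.single i 1, fun j => ?_, by simp, ?_⟩
  · by_cases h : j = i
    · subst h; simp
    · simp [h]
  · congr 1
    rw [Finset.sum_eq_single i (fun j _ h => by simp [h]) (by simp)]
    simp

lemma cell_four {ι : Type} [Fintype ι] [DecidableEq ι] (p : ι → E) (z i j k : ι) :
    cell p {z, i, j, k} = tet (p z) ![p i - p z, p j - p z, p k - p z] := by
  apply Set.Subset.antisymm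
  · apply cell_subset (convex_tet _ _)
    intro l hl
    simp only [mem_insert, mem_singleton] at hl
    rcases hl with rfl | rfl | rfl | rfl
    · exact base_mem_tet _ _
    · simpa using add_mem_tet (p z) ![p l - p z, p j - p z, p k - p z] 0
    · simpa using add_mem_tet (p z) ![p i - p z, p l - p z, p k - p z] 1
    · simpa using add_mem_tet (p z) ![p i - p z, p j - p z, p l - p z] 2
  · apply tet_subset (convex_cell _ _) (mem_cell (by simp))
    intro l
    fin_cases l <;> simp <;> exact mem_cell (by simp)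

variable [FiniteDimensional ℝ E] [MeasurableSpace E] [BorelSpace E]

lemma vol_tet (μ : Measure E) [μ.IsAddHaarMeasure] (e : Basis (Fin 3) ℝ E) (o : E)
    (w : Fin 3 → E) : μ.real (tet o w) = |e.det w| * μ.real (tet 0 e) := by
  have h1 : tet o w = (fun x => o + x) '' ((e.constr ℝ w) '' tet 0 e) := by
    ext x
    constructor
    · rintro ⟨t, t0, t1, rfl⟩
      refine ⟨_, ⟨_, ⟨t, t0, t1, rfl⟩, rfl⟩, ?_⟩
      simp [map_sum]
    · rintro ⟨_, ⟨_, ⟨t, t0, t1, rfl⟩, rfl⟩, rfl⟩
      exact ⟨t, t0, t1, by simp [map_sum]⟩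
  have h2 : LinearMap.det (e.constr ℝ w) = e.det w := by
    have := e.det_comp (e.constr ℝ w) e
    rw [e.det_self, mul_one] at this
    rw [← this]
    congr 1
    funext i
    simp
  rw [h1, Measure.real, Set.image_add_left, measure_preimage_add,
    Measure.addHaar_image_linearMap, h2, ENNReal.toReal_mul,
    ENNReal.toReal_ofReal (abs_nonneg _), Measure.real]

omit [FiniteDimensional ℝ E] [MeasurableSpace E] [BorelSpace E] in
lemma det_scale (e : Basis (Fin 3) ℝ E) (a b c : ℝ) (u v w : E) :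
    e.det ![a • u, b • v, c • w] = a * b * c * e.det ![u, v, w] := by
  have := e.det.toMultilinearMap.map_smul_univ ![a, b, c] ![u, v, w]
  simp only [Fin.prod_univ_three, Matrix.cons_val_zero, Matrix.cons_val_one, Matrix.cons_val,
    smul_eq_mul] at this
  refine Eq.trans ?_ this
  show e.det _ = e.det _
  congr 1
  funext i
  fin_cases i <;> simp

end Simp

section Centred

variable {ι : Type} [Fintype ι] [DecidableEq ι] {E : Type} [NormedAddCommGroup E]
  [NormedSpace ℝ E]

lemma sum_single_smul (p : ι → E) (i : ι) (c : ℝ) :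
    ∑ l, (Pi.single i c : ι → ℝ) l • p l = c • p i := by
  rw [Finset.sum_eq_single i (fun j _ h => by simp [h]) (by simp)]
  simp



/-- affine coordinates with respect to an independent cell -/
lemma exists_coord (hE : finrank ℝ E = 3) (p : ι → E) (z i j k : ι) (hzi : z ≠ i) (hzj : z ≠ j)
    (hzk : z ≠ k) (hij : i ≠ j) (hik : i ≠ k) (hjk : j ≠ k)
    (ind : ∀ β : ι → ℝ, ∑ l, β l = 0 → ∑ l, β l • p l = 0 →
      (∀ l, l ∉ ({z, i, j, k} : Finset ι) → β l = 0) → ∀ l, β l = 0) :
    ∃ φ : E →ₗ[ℝ] ℝ, φ (p i - p z) = 1 ∧ φ (p j - p z) = 1 ∧ φ (p k - p z) = 1 ∧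
      ∀ x : E, ∃ a b c : ℝ, a + b + c = φ (x - p z) ∧
        x = (1 - (a + b + c)) • p z + a • p i + b • p j + c • p k := by
  let w : Fin 3 → E := ![p i - p z, p j - p z, p k - p z]
  have hw : LinearIndependent ℝ w := by
    rw [Fintype.linearIndependent_iff]
    intro t ht
    have h := ind (Pi.single z (-(t 0 + t 1 + t 2)) + Pi.single i (t 0) + Pi.single j (t 1) +
      Pi.single k (t 2)) (by simp [sum_add_distrib]; ring) ?_ ?_
    · intro l
      fin_cases l
      · simpa [hzi.symm, hij, hik] using h i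
      · simpa [hzj.symm, hij.symm, hjk] using h j
      · simpa [hzk.symm, hik.symm, hjk.symm] using h k
    · simp only [Pi.add_apply, add_smul, sum_add_distrib, sum_single_smul]
      rw [← ht]
      simp only [w, Fin.sum_univ_three, Matrix.cons_val_zero, Matrix.cons_val_one, Matrix.cons_val]
      module
    · intro l hl
      simp only [mem_insert, mem_singleton, not_or] at hl
      simp [hl]
  let b := basisOfLinearIndependentOfCardEqFinrank hw (by simp [hE])
  have hb : ∀ l, b l = w l := by intro l; simp [b]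
  refine ⟨b.sumCoords, ?_, ?_, ?_, fun x => ?_⟩
  · simpa [hb, w] using b.sumCoords_self_apply 0
  · simpa [hb, w] using b.sumCoords_self_apply 1
  · simpa [hb, w] using b.sumCoords_self_apply 2
  · refine ⟨b.repr (x - p z) 0, b.repr (x - p z) 1, b.repr (x - p z) 2, ?_, ?_⟩
    · simp [Fin.sum_univ_three]
    · have h := b.sum_repr (x - p z)
      simp only [Fin.sum_univ_three, hb, w, Matrix.cons_val_zero, Matrix.cons_val_one,
        Matrix.cons_val] at h
      generalize b.repr (x - p z) 0 = a at *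
      generalize b.repr (x - p z) 1 = a' at *
      generalize b.repr (x - p z) 2 = a'' at *
      have : x = p z + (x - p z) := by abel
      rw [this, ← h]
      module

variable [FiniteDimensional ℝ E] [MeasurableSpace E] [BorelSpace E]

/-- Triangulation with all cells through the label `z` of least priority value. -/
theorem centred_tri (hE : finrank ℝ E = 3) (μ : Measure E) [μ.IsAddHaarMeasure] (p : ι → E)
    (ty : ι → ℕ) (z : ι) (hz : ∀ i, i ≠ z → ty z < ty i) : ∃ C : Finset (Finset ι),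
    (∀ σ ∈ C, ∃ i j k, σ = {z, i, j, k} ∧ z ≠ i ∧ z ≠ j ∧ z ≠ k ∧ i ≠ j ∧ i ≠ k ∧ j ≠ k ∧
      ∃ φ : E →ₗ[ℝ] ℝ, φ (p i - p z) = 1 ∧ φ (p j - p z) = 1 ∧ φ (p k - p z) = 1 ∧
        (∀ l, φ (p l - p z) ≤ 1) ∧
        ∀ x : E, ∃ a b c : ℝ, a + b + c = φ (x - p z) ∧
          x = (1 - (a + b + c)) • p z + a • p i + b • p j + c • p k) ∧
    (∀ σ ∈ C, ∀ β : ι → ℝ, ∑ i, β i = 0 → ∑ i, β i • p i = 0 → (∀ i, i ∉ σ → 0 ≤ β i) →
      (∀ j, β j < 0 → ∃ i, 0 < β i ∧ ty i < ty j) → ∀ i, β i = 0) ∧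
    μ.real (cell p univ) = ∑ σ ∈ C, μ.real (cell p σ) ∧
    (∀ σ ∈ C, ∀ τ ∈ C, σ ≠ τ → μ (cell p σ ∩ cell p τ) = 0) ∧
    μ (cell p univ \ ⋃ σ ∈ C, cell p σ) = 0 ∧
    ∀ (a : ι → ℝ) (K : Set E), (∀ i, 0 ≤ a i) → (∀ i, a i ≤ 1) → Convex ℝ K → μ K ≠ ⊤ →
      p z ∈ K → (∀ i, p z + a i • (p i - p z) ∈ K) →
      ∑ σ ∈ C, (∏ i ∈ σ.erase z, a i) * μ.real (cell p σ) ≤ μ.real K := by
  obtain ⟨C, h4, ind, ex, cov, dis⟩ := exists_tri hE μ p ty
  have hzC : ∀ σ ∈ C, z ∈ σ := by
    intro σ hσ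
    by_contra hn
    obtain ⟨β, s0, s1, hb, i, hi⟩ := exists_rel hE p (insert z σ)
      (by rw [card_insert_of_notMem hn, h4 σ hσ])
    have key : ∀ β : ι → ℝ, ∑ i, β i = 0 → ∑ i, β i • p i = 0 →
        (∀ i, i ∉ insert z σ → β i = 0) → 0 < β z → False := by
      intro β s0 s1 hb hpos
      have := ex σ hσ β s0 s1 (fun l hl => ?_) (fun j hj => ⟨z, hpos, hz j ?_⟩) z
      · linarith
      · by_cases h : l = z
        · rw [h]; exact hpos.le
        · exact (hb l (by simp [h, hl])).ge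
      · rintro rfl; linarith
    rcases lt_trichotomy (β z) 0 with h | h | h
    · exact key (-β) (by simp [s0]) (by simp [s1]) (fun l hl => by simp [hb l hl]) (by simpa)
    · refine hi (ind σ hσ β s0 s1 (fun l hl => ?_) i)
      by_cases h' : l = z
      · rw [h', h]
      · exact hb l (by simp [h', hl])
    · exact key β s0 s1 hb h
  have hform : ∀ σ ∈ C, ∃ i j k, σ = {z, i, j, k} ∧ z ≠ i ∧ z ≠ j ∧ z ≠ k ∧ i ≠ j ∧ i ≠ k ∧
      j ≠ k := by
    intro σ hσ
    have h3 : (σ.erase z).card = 3 := by rw [card_erase_of_mem (hzC σ hσ), h4 σ hσ]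
    obtain ⟨i, j, k, hij, hik, hjk, he⟩ := Finset.card_eq_three.mp h3
    have hi : i ∈ σ.erase z := by rw [he]; simp
    have hj : j ∈ σ.erase z := by rw [he]; simp
    have hk : k ∈ σ.erase z := by rw [he]; simp
    refine ⟨i, j, k, ?_, (ne_of_mem_erase hi).symm, (ne_of_mem_erase hj).symm,
      (ne_of_mem_erase hk).symm, hij, hik, hjk⟩
    rw [← he, insert_erase (hzC σ hσ)]
  have hsum : ∀ (S : Finset ι → Set E), (∀ σ, IsCompact (S σ)) → (∀ σ ∈ C, S σ ⊆ cell p σ) →
      μ.real (⋃ σ ∈ C, S σ) = ∑ σ ∈ C, μ.real (S σ) := by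
    intro S hS hsub
    rw [Measure.real, measure_biUnion_finset₀, ENNReal.toReal_sum (fun σ _ => (hS σ).measure_lt_top.ne)]
    · rfl
    · intro σ hσ τ hτ hne
      exact measure_mono_null (Set.inter_subset_inter (hsub σ hσ) (hsub τ hτ)) (dis σ hσ τ hτ hne)
    · exact fun σ _ => (hS σ).measurableSet.nullMeasurableSet
  refine ⟨C, fun σ hσ => ?_, ex, ?_, dis, cov, ?_⟩
  · obtain ⟨i, j, k, rfl, hzi, hzj, hzk, hij, hik, hjk⟩ := hform σ hσ
    obtain ⟨φ, h1, h2, h3, hx⟩ := exists_coord hE p z i j k hzi hzj hzk hij hik hjk (ind _ hσ)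
    refine ⟨i, j, k, rfl, hzi, hzj, hzk, hij, hik, hjk, φ, h1, h2, h3, fun l => ?_, hx⟩
    by_contra hl
    push Not at hl
    obtain ⟨a, b, c, e1, e2⟩ := hx (p l)
    have hlz : l ≠ z := by rintro rfl; simp at hl; linarith
    have hpos : 0 < (Pi.single l 1 - (Pi.single z (1 - (a + b + c)) + Pi.single i a +
        Pi.single j b + Pi.single k c) : ι → ℝ) z := by
      simp [hzi, hzj, hzk, hlz.symm]; linarith
    have := ex _ hσ (Pi.single l 1 - (Pi.single z (1 - (a + b + c)) + Pi.single i a +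
      Pi.single j b + Pi.single k c)) (by simp [sum_add_distrib, sum_sub_distrib]; ring) ?_ ?_
      (fun m hm => ⟨z, hpos, hz m ?_⟩) z
    · linarith
    · simp only [Pi.add_apply, Pi.sub_apply, add_smul, sub_smul, sum_add_distrib, sum_sub_distrib,
        sum_single_smul]
      rw [one_smul]
      nth_rewrite 1 [e2]
      module
    · intro m hm
      simp only [mem_insert, mem_singleton, not_or] at hm
      simp only [Pi.sub_apply, Pi.add_apply, Pi.single_eq_of_ne hm.1, Pi.single_eq_of_ne hm.2.1,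
        Pi.single_eq_of_ne hm.2.2.1, Pi.single_eq_of_ne hm.2.2.2]
      by_cases h : m = l
      · subst h; simp
      · simp [h]
    · rintro rfl; linarith
  · rw [← hsum (cell p) (isCompact_cell p) (fun _ _ => subset_rfl)]
    apply measureReal_congr
    refine ⟨cov, ?_⟩ |> ae_eq_set.mpr
    rw [Set.sdiff_eq_empty.mpr, measure_empty]
    exact Set.iUnion₂_subset (fun σ _ => cell_subset (convex_cell _ _)
      (fun i _ => mem_cell (mem_univ i)))
  · intro a K a0 a1 hK hfin hzK haK
    let q : ι → E := fun i => p z + a i • (p i - p z)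
    have hq : q z = p z := by simp [q]
    have hsub : ∀ σ ∈ C, cell q σ ⊆ cell p σ := by
      intro σ hσ
      apply cell_subset (convex_cell _ _)
      intro i hi
      have := convex_cell p σ (mem_cell (hzC σ hσ)) (mem_cell hi) (a := 1 - a i) (b := a i)
        (by linarith [a1 i]) (a0 i) (by ring)
      convert this using 1
      simp only [q]
      module
    have e := Module.finBasisOfFinrankEq ℝ E hE
    have hvol : ∀ σ ∈ C, (∏ i ∈ σ.erase z, a i) * μ.real (cell p σ) = μ.real (cell q σ) := by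
      intro σ hσ
      obtain ⟨i, j, k, rfl, hzi, hzj, hzk, hij, hik, hjk⟩ := hform σ hσ
      rw [erase_insert (by simp [hzi, hzj, hzk]), prod_insert (by simp [hij, hik]),
        prod_insert (by simp [hjk]), prod_singleton, cell_four, cell_four, vol_tet μ e,
        vol_tet μ e (q z), hq]
      simp only [q, add_sub_cancel_left]
      rw [det_scale, abs_mul, abs_of_nonneg (mul_nonneg (mul_nonneg (a0 i) (a0 j)) (a0 k))]
      ring
    rw [Finset.sum_congr rfl hvol, ← hsum (cell q) (isCompact_cell q) hsub]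
    apply measureReal_mono _ hfin
    exact Set.iUnion₂_subset (fun σ _ => cell_subset hK (fun i _ => haK i))

end Centred

end Pool.Agent.Lib.MP_7fdcdd_gt.Vol
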