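import Mathlib
import Pool.Agent.Lib.MP_7fdcdd_gt.Vol2

set_option autoImplicit false

namespace Pool.Agent.Lib.MP_7fdcdd_gt.Vol

open Finset MeasureTheory Module

variable {E : Type} [NormedAddCommGroup E] [NormedSpace ℝ E]

lemma le_of_mem_hull {W : Set E} {x : E} (hx : x ∈ convexHull ℝ W) (u : E →ₗ[ℝ] ℝ) (m : ℝ)
    (h : ∀ v ∈ W, u v ≤ m) : u x ≤ m :=
  convexHull_min (t := {y | u y ≤ m}) h (convex_halfSpace_le u.isLinear m) hx

lemma exists_le_of_mem_hull {W : Finset E} {x : E} (hx : x ∈ convexHull ℝ (W : Set E))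
    (u : E →ₗ[ℝ] ℝ) : ∃ v ∈ W, u x ≤ u v := by
  rcases W.eq_empty_or_nonempty with rfl | hne
  · simp at hx
  obtain ⟨v, hv, hm⟩ := W.exists_max_image u hne
  exact ⟨v, hv, le_of_mem_hull hx u _ hm⟩

lemma mem_of_func {K : Set E} (hK : Convex ℝ K) (hc : IsClosed K) {x : E}
    (h : ∀ u : E →ₗ[ℝ] ℝ, ∃ v ∈ K, u x ≤ u v) : x ∈ K := by
  by_contra hx
  obtain ⟨f, c, h1, h2⟩ := geometric_hahn_banach_closed_point hK hc hx
  obtain ⟨v, hv, h3⟩ := h f.toLinearMap
  have := h1 v hv
  simp at h3
  linarith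

lemma isCompact_hull (W : Finset E) : IsCompact (convexHull ℝ (W : Set E)) :=
  W.finite_toSet.isCompact_convexHull ℝ

lemma mem_hull_of_func {W : Finset E} {x : E}
    (h : ∀ u : E →ₗ[ℝ] ℝ, ∃ v ∈ W, u x ≤ u v) : x ∈ convexHull ℝ (W : Set E) :=
  mem_of_func (convex_convexHull ℝ _) (isCompact_hull W).isClosed (fun u => by
    obtain ⟨v, hv, h1⟩ := h u
    exact ⟨v, subset_convexHull ℝ _ hv, h1⟩)

/-- a point of the hull on a supporting hyperplane is in the hull of the top vertices -/
lemma mem_hull_top {W : Finset E} {x : E} (hx : x ∈ convexHull ℝ (W : Set E)) (u : E →ₗ[ℝ] ℝ)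
    (m : ℝ) (h : ∀ v ∈ W, u v ≤ m) (hm : u x = m) :
    x ∈ convexHull ℝ ((W.filter (fun v => u v = m) : Finset E) : Set E) := by
  classical
  obtain ⟨w, w0, w1, w2⟩ := Finset.mem_convexHull'.mp hx
  have hz : ∀ v ∈ W, u v ≠ m → w v = 0 := by
    have e : ∑ v ∈ W, w v * (m - u v) = 0 := by
      have : u x = ∑ v ∈ W, w v * u v := by rw [← w2]; simp [map_sum]
      simp only [mul_sub, sum_sub_distrib, ← sum_mul, w1]
      linarith
    rw [Finset.sum_eq_zero_iff_of_nonneg
      (fun v hv => mul_nonneg (w0 v hv) (by linarith [h v hv]))] at e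
    intro v hv hne
    rcases mul_eq_zero.mp (e v hv) with h1 | h1
    · exact h1
    · exact absurd (by linarith) hne
  rw [Finset.mem_convexHull']
  refine ⟨w, fun v hv => w0 v (mem_filter.mp hv).1, ?_, ?_⟩
  · rw [← w1]
    exact Finset.sum_subset (filter_subset _ _)
      (fun v hv hn => hz v hv (fun h => hn (mem_filter.mpr ⟨hv, h⟩)))
  · rw [← w2]
    exact Finset.sum_subset (filter_subset _ _)
      (fun v hv hn => by rw [hz v hv (fun h => hn (mem_filter.mpr ⟨hv, h⟩)), zero_smul])

variable [FiniteDimensional ℝ E] [MeasurableSpace E] [BorelSpace E]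

lemma hull_null (hE : finrank ℝ E = 3) (μ : Measure E) [μ.IsAddHaarMeasure] (W : Finset E)
    (hW : W.card ≤ 3) : μ (convexHull ℝ (W : Set E)) = 0 := by
  have := cell_null hE μ (fun v : W => (v : E)) univ (by simpa using hW)
  rw [cell_eq] at this
  simpa using this

/-- total volume of the caps, given a centre `o` with cap ratio `G` -/
theorem caps_le [DecidableEq E] (hE : finrank ℝ E = 3) (μ : Measure E) [μ.IsAddHaarMeasure]
    (V : Finset E) (o : E) (ho : o ∈ convexHull ℝ (V : Set E)) (G : ℝ) (G0 : 0 ≤ G) (G1 : G ≤ 1)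
    (h : ∀ s ∈ V, ∀ u : E →ₗ[ℝ] ℝ, ∃ v ∈ V.erase s, u s - G * (u s - u o) ≤ u v) :
    ∑ s ∈ V, (μ.real (convexHull ℝ (V : Set E)) -
      μ.real (convexHull ℝ ((V.erase s : Finset E) : Set E))) ≤
      3 * G * μ.real (convexHull ℝ (V : Set E)) := by
  let p : Option V → E := fun l => l.elim o (fun v => v)
  obtain ⟨C, hC, -, hsum, -, -, hlow⟩ := centred_tri hE μ p (fun l => l.elim 0 (fun _ => 1)) none
    (by intro i hi; cases i <;> simp at hi ⊢)
  have hQ : cell p univ = convexHull ℝ (V : Set E) := by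
    apply Set.Subset.antisymm
    · apply cell_subset (convex_convexHull ℝ _)
      intro i _
      cases i with
      | none => exact ho
      | some v => exact subset_convexHull ℝ _ v.2
    · apply convexHull_min _ (convex_cell _ _)
      intro v hv
      exact mem_cell (p := p) (i := some ⟨v, hv⟩) (mem_univ _)
  rw [hQ] at hsum
  have key : ∀ s : V, μ.real (convexHull ℝ (V : Set E)) -
      μ.real (convexHull ℝ ((V.erase s : Finset E) : Set E)) ≤
      ∑ σ ∈ C, (if some s ∈ σ.erase none then G else 0) * μ.real (cell p σ) := by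
    intro s
    have ho' : o ∈ convexHull ℝ ((V.erase s : Finset E) : Set E) := by
      apply mem_hull_of_func
      intro u
      by_cases hu : u o ≤ u s
      · obtain ⟨v, hv, h1⟩ := h s s.2 u
        exact ⟨v, hv, by nlinarith⟩
      · obtain ⟨v, hv, h1⟩ := exists_le_of_mem_hull ho u
        exact ⟨v, mem_erase.mpr ⟨by rintro rfl; exact hu h1, hv⟩, h1⟩
    have := hlow (fun l => if l = some s then 1 - G else 1) _
      (fun l => by split_ifs <;> linarith)
      (fun l => by split_ifs <;> linarith) (convex_convexHull ℝ _)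
      (isCompact_hull (V.erase s)).measure_lt_top.ne ho' ?_
    · rw [hsum, sub_le_iff_le_add]
      refine le_trans ?_ (add_le_add_right this _)
      rw [← sum_add_distrib]
      apply le_of_eq
      apply Finset.sum_congr rfl
      intro σ _
      rw [Finset.prod_ite_eq']
      split_ifs <;> ring
    · intro l
      cases l with
      | none => simpa [p] using ho'
      | some v =>
        by_cases hv : v = s
        · subst hv
          apply mem_hull_of_func
          intro u
          obtain ⟨w, hw, h1⟩ := h v v.2 u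
          refine ⟨w, hw, ?_⟩
          simp [p]
          linarith
        · have : (v : E) ∈ V.erase s := mem_erase.mpr ⟨fun h => hv (Subtype.ext h), v.2⟩
          simpa [p, hv] using subset_convexHull ℝ _ this
  rw [← Finset.sum_coe_sort V]
  refine (Finset.sum_le_sum (fun s _ => key s)).trans ?_
  rw [Finset.sum_comm, hsum, mul_sum]
  apply Finset.sum_le_sum
  intro σ hσ
  rw [← sum_mul]
  apply mul_le_mul_of_nonneg_right _ measureReal_nonneg
  rw [← Finset.sum_filter, sum_const, nsmul_eq_mul]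
  apply mul_le_mul_of_nonneg_right _ G0
  obtain ⟨i, j, k, rfl, hzi, hzj, hzk, -⟩ := hC σ hσ
  rw [erase_insert (by simp [hzi, hzj, hzk])]
  have : (univ.filter (fun s : V => some s ∈ ({i, j, k} : Finset (Option V)))).card ≤
      ({i, j, k} : Finset (Option V)).card :=
    Finset.card_le_card_of_injOn some (fun s hs => by simpa using hs)
      (fun a _ b _ h => Option.some_injective _ h)
  exact_mod_cast this.trans card_le_three

/-- one midpoint step loses at most one eighth of the total cap volume -/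
theorem step_ge [DecidableEq E] (hE : finrank ℝ E = 3) (μ : Measure E) [μ.IsAddHaarMeasure]
    (V : Finset E) (hV : 2 ≤ V.card) (M : Set E) (hM : Convex ℝ M) (hc : IsCompact M)
    (h : ∀ a ∈ V, ∀ b ∈ V, a ≠ b → (1 / 2 : ℝ) • (a + b) ∈ M) :
    μ.real (convexHull ℝ (V : Set E)) - (1 / 8) * ∑ s ∈ V, (μ.real (convexHull ℝ (V : Set E)) -
      μ.real (convexHull ℝ ((V.erase s : Finset E) : Set E))) ≤ μ.real M := by
  let H : E → Set E := fun s => AffineMap.homothety s (1 / 2 : ℝ) ''
    (convexHull ℝ (V : Set E) \ convexHull ℝ ((V.erase s : Finset E) : Set E))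
  have hH : ∀ s, μ.real (H s) = (1 / 8) * (μ.real (convexHull ℝ (V : Set E)) -
      μ.real (convexHull ℝ ((V.erase s : Finset E) : Set E))) := by
    intro s
    rw [← measureReal_sdiff (convexHull_mono (by simp)) (isCompact_hull _).measurableSet
      (isCompact_hull _).measure_lt_top.ne]
    simp only [H, Measure.real]
    rw [Measure.addHaar_image_homothety, hE, ENNReal.toReal_mul,
      ENNReal.toReal_ofReal (abs_nonneg _)]
    norm_num
  have hfin : ∀ s, μ (H s) ≠ ⊤ := by
    intro s
    simp only [H]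
    rw [Measure.addHaar_image_homothety]
    exact ENNReal.mul_ne_top ENNReal.ofReal_ne_top
      (measure_ne_top_of_subset Set.sdiff_subset (isCompact_hull _).measure_lt_top.ne)
  have hcov : convexHull ℝ (V : Set E) ⊆ M ∪ ⋃ s ∈ V, H s := by
    intro x hx
    by_cases hxM : x ∈ M
    · exact Or.inl hxM
    right
    have : ¬ ∀ u : E →ₗ[ℝ] ℝ, ∃ v ∈ M, u x ≤ u v := fun hh => hxM (mem_of_func hM hc.isClosed hh)
    push Not at this
    obtain ⟨u, hu⟩ := this
    obtain ⟨s, hs, hms⟩ := V.exists_max_image u (card_pos.mp (by omega))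
    obtain ⟨t, ht, hmt⟩ := (V.erase s).exists_max_image u
      (card_pos.mp (by rw [card_erase_of_mem hs]; omega))
    have h1 := hu _ (h s hs t (mem_of_mem_erase ht) (ne_of_mem_erase ht).symm)
    simp only [map_smul, map_add, smul_eq_mul] at h1
    simp only [Set.mem_iUnion]
    refine ⟨s, hs, (2 : ℝ) • x - s, ⟨?_, fun hy => ?_⟩, ?_⟩
    · have hx' : x ∈ convexHull ℝ (insert s ((V.erase s : Finset E) : Set E)) := by
        rw [← Finset.coe_insert, insert_erase hs]; exact hx
      rw [convexHull_insert ⟨t, ht⟩] at hx'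
      simp only [mem_convexJoin, Set.mem_singleton_iff, exists_eq_left] at hx'
      obtain ⟨r, hr, a, b, ha, hb, hab, rfl⟩ := hx'
      have h2 := le_of_mem_hull hr u _ hmt
      have h3 := hms t (mem_of_mem_erase ht)
      simp only [map_smul, map_add, smul_eq_mul] at h1
      obtain rfl : b = 1 - a := by linarith
      have h4 : 1 / 2 ≤ a := by
        by_contra hn
        push Not at hn
        nlinarith
      have := (convex_convexHull ℝ (V : Set E)) (subset_convexHull ℝ _ hs)
        (convexHull_mono (by simp) hr) (a := 2 * a - 1) (b := 2 * (1 - a)) (by linarith)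
        (by linarith) (by ring)
      convert this using 1
      module
    · have := le_of_mem_hull hy u _ hmt
      simp only [map_smul, map_sub, smul_eq_mul] at this
      linarith
    · simp only [AffineMap.homothety_apply, vsub_eq_sub, vadd_eq_add]
      module
  have h1 := measureReal_mono hcov (μ := μ) (measure_union_ne_top hc.measure_lt_top.ne
    (measure_biUnion_ne_top V.finite_toSet (fun s _ => hfin s)))
  have h2 := measureReal_union_le (μ := μ) M (⋃ s ∈ V, H s)
  have h3 := measureReal_biUnion_finset_le (μ := μ) V H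
  rw [Finset.sum_congr rfl (fun s _ => hH s), ← mul_sum] at h3
  linarith

/-- flag lemma -/
theorem flag_ge [DecidableEq E] (hE : finrank ℝ E = 3) (μ : Measure E) [μ.IsAddHaarMeasure]
    (V : Finset E) (o : E) (ho : o ∈ convexHull ℝ (V : Set E)) (K : Set E) (hK : Convex ℝ K)
    (hc : IsCompact K) (hoK : o ∈ K) (a1 a2 : ℝ) (h0 : 0 ≤ a1) (h12 : a1 ≤ a2) (h1 : a2 ≤ 1)
    (H0 : ∀ (u : E →ₗ[ℝ] ℝ) (m : ℝ), (∀ v ∈ V, u v ≤ m) → u o < m →
      3 ≤ (V.filter (fun v => u v = m)).card →
      ∃ c ∈ K, c ∈ convexHull ℝ ((V.filter (fun v => u v = m) : Finset E) : Set E))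
    (H1 : ∀ u : E →ₗ[ℝ] ℝ, ∀ v ∈ V, ∃ c ∈ K, u o + a1 * (u v - u o) ≤ u c)
    (H2 : ∀ u : E →ₗ[ℝ] ℝ, ∀ v ∈ V, ∀ w ∈ V, v ≠ w →
      ∃ c ∈ K, u o + a2 * (min (u v) (u w) - u o) ≤ u c) :
    a1 * a2 * μ.real (convexHull ℝ (V : Set E)) ≤ μ.real K := by
  classical
  have hc1 : ∀ S : Finset E, ∃ c ∈ K, c ∈ convexHull ℝ (V : Set E) ∧
      (S ⊆ V → (∃ c ∈ K, c ∈ convexHull ℝ (S : Set E)) → c ∈ convexHull ℝ (S : Set E)) := by
    intro S
    by_cases h : S ⊆ V ∧ ∃ c ∈ K, c ∈ convexHull ℝ (S : Set E)
    · obtain ⟨hs, c, h1, h2⟩ := h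
      exact ⟨c, h1, convexHull_mono (by simpa using hs) h2, fun _ _ => h2⟩
    · exact ⟨o, hoK, ho, fun h1 h2 => absurd ⟨h1, h2⟩ h⟩
  choose c hcK hcV hcS using hc1
  have hy1 : ∀ v w : V, ∃ y, y ∈ convexHull ℝ (V : Set E) ∧ o + a2 • (y - o) ∈ K ∧
      (v ≠ w → ∃ t : ℝ, 0 ≤ t ∧ t ≤ 1 ∧ y = (1 - t) • (v : E) + t • (w : E)) := by
    intro v w
    by_cases hvw : v = w
    · exact ⟨o, ho, by simpa using hoK, fun h => absurd hvw h⟩
    have hnd : ¬ Disjoint (segment ℝ (o + a2 • ((v : E) - o)) (o + a2 • ((w : E) - o))) K := by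
      intro hd
      obtain ⟨f, r, r', f1, f2, f3⟩ := geometric_hahn_banach_closed_compact hK hc.isClosed
        (convex_segment _ _) (by rw [segment_eq_image]; exact isCompact_Icc.image (by fun_prop))
        hd.symm
      obtain ⟨k, hk, h3⟩ := H2 f.toLinearMap v v.2 w w.2 (fun h => hvw (Subtype.ext h))
      have g1 := f3 _ (left_mem_segment ℝ _ _)
      have g2 := f3 _ (right_mem_segment ℝ _ _)
      have g3 := f1 k hk
      simp only [map_add, map_smul, map_sub, smul_eq_mul, ContinuousLinearMap.coe_coe] at g1 g2 h3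
      rcases min_choice (f v) (f w) with h | h <;> rw [h] at h3 <;> linarith
    obtain ⟨x, ⟨s, t, hs, ht, hst, rfl⟩, hx⟩ := Set.not_disjoint_iff.mp hnd
    obtain rfl : s = 1 - t := by linarith
    refine ⟨(1 - t) • (v : E) + t • (w : E), (convex_convexHull ℝ (V : Set E))
      (subset_convexHull ℝ _ v.2) (subset_convexHull ℝ _ w.2) hs ht hst, ?_,
      fun _ => ⟨t, ht, by linarith, rfl⟩⟩
    convert hx using 1
    module
  choose y hyV hyK hyS using hy1
  let p : Option (V.powerset ⊕ (V × V) ⊕ V) → E := fun l => l.elim o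
    (Sum.elim (fun S => c S) (Sum.elim (fun vw => y vw.1 vw.2) (fun v => v)))
  let ty : Option (V.powerset ⊕ (V × V) ⊕ V) → ℕ := fun l => l.elim 0
    (Sum.elim (fun _ => 1) (Sum.elim (fun _ => 2) (fun _ => 3)))
  let a : Option (V.powerset ⊕ (V × V) ⊕ V) → ℝ := fun l => l.elim 1
    (Sum.elim (fun _ => 1) (Sum.elim (fun _ => a2) (fun _ => a1)))
  obtain ⟨C, hC, ex, hsum, -, -, hlow⟩ := centred_tri hE μ p ty none
    (by rintro (_ | _ | _ | _) hi <;> simp [ty] at hi ⊢)
  have hpV : ∀ l, p l ∈ convexHull ℝ (V : Set E) := by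
    rintro (_ | S | vw | v)
    · exact ho
    · exact hcV _
    · exact hyV _ _
    · exact subset_convexHull ℝ _ v.2
  have hQ : cell p univ = convexHull ℝ (V : Set E) := by
    apply Set.Subset.antisymm
    · exact cell_subset (convex_convexHull ℝ _) (fun l _ => hpV l)
    · apply convexHull_min _ (convex_cell _ _)
      intro v hv
      exact mem_cell (p := p) (i := some (Sum.inr (Sum.inr ⟨v, hv⟩))) (mem_univ _)
  rw [hQ] at hsum
  refine le_trans ?_ (hlow a K ?_ ?_ hK hc.measure_lt_top.ne hoK ?_)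
  rotate_left
  · rintro (_ | _ | _ | _) <;> simp [a] <;> linarith
  · rintro (_ | _ | _ | _) <;> simp [a] <;> linarith
  · rintro (_ | S | vw | v)
    · simpa [p] using hoK
    · simpa [p, a] using hcK _
    · simpa [p, a] using hyK _ _
    · apply mem_of_func hK hc.isClosed
      intro u
      obtain ⟨k, hk, h3⟩ := H1 u v v.2
      exact ⟨k, hk, by simpa [p, a] using h3⟩
  rw [hsum, mul_sum]
  apply Finset.sum_le_sum
  intro σ hσ
  have two : ∀ l ∈ σ, ∀ m ∈ σ, l ≠ m → a1 * a2 ≤ a l * a m := by
    have e1 : a1 * a2 ≤ a2 := by nlinarith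
    have e2 : a1 * a2 ≤ a1 := by nlinarith
    have e3 : a1 * a2 ≤ a2 * a2 := by nlinarith
    rintro (_ | _ | _ | v) hl (_ | _ | _ | w) hm hne <;> simp only [a, Option.elim, Sum.elim_inl,
      Sum.elim_inr] <;> try linarith
    exfalso
    have hvw : v ≠ w := fun h => hne (by rw [h])
    obtain ⟨t, t0, t1, ht⟩ := hyS v w hvw
    have := ex σ hσ (Pi.single (some (Sum.inr (Sum.inl (v, w)))) 1 -
      (Pi.single (some (Sum.inr (Sum.inr v))) (1 - t) + Pi.single (some (Sum.inr (Sum.inr w))) t))
      (by simp [sum_add_distrib, sum_sub_distrib]) ?_ ?_ ?_ (some (Sum.inr (Sum.inl (v, w))))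
    · simp at this
    · simp only [Pi.add_apply, Pi.sub_apply, add_smul, sub_smul, sum_add_distrib, sum_sub_distrib,
        sum_single_smul]
      simp only [p, Option.elim, Sum.elim_inl, Sum.elim_inr]
      rw [ht]
      module
    · intro i hi
      have h1 : i ≠ some (Sum.inr (Sum.inr v)) := by rintro rfl; exact hi hl
      have h2 : i ≠ some (Sum.inr (Sum.inr w)) := by rintro rfl; exact hi hm
      simp only [Pi.add_apply, Pi.sub_apply, Pi.single_eq_of_ne h1, Pi.single_eq_of_ne h2,
        Pi.single_apply]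
      split_ifs <;> norm_num
    · intro j hj
      refine ⟨some (Sum.inr (Sum.inl (v, w))), by simp, ?_⟩
      rcases j with _ | _ | _ | _ <;> simp [ty, Pi.single_apply] at hj ⊢
      split_ifs at hj <;> linarith
  obtain ⟨i, j, k, rfl, hzi, hzj, hzk, hij, hik, hjk, φ, fi, fj, fk, fl, fx⟩ := hC σ hσ
  rw [erase_insert (by simp [hzi, hzj, hzk]), prod_insert (by simp [hij, hik]),
    prod_insert (by simp [hjk]), prod_singleton]
  have hp0 : p none = o := rfl
  rw [hp0] at fi fj fk fl fx
  simp only [map_sub] at fi fj fk fl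
  have hle : ∀ v ∈ V, φ v ≤ 1 + φ o := fun v hv => by
    have := fl (some (Sum.inr (Sum.inr ⟨v, hv⟩)))
    simp only [p, Option.elim, Sum.elim_inr] at this
    linarith
  let S := V.filter (fun v => φ v = 1 + φ o)
  by_cases hS : 3 ≤ S.card
  swap
  · have hnull : μ (cell p {none, i, j, k}) = 0 := by
      apply measure_mono_null _ (hull_null hE μ (insert o S)
        ((card_insert_le _ _).trans (by omega)))
      apply cell_subset (convex_convexHull ℝ _)
      have : ∀ l, φ (p l) - φ o = 1 →
          p l ∈ convexHull ℝ ((insert o S : Finset E) : Set E) := fun l hl =>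
        convexHull_mono (Finset.coe_subset.mpr (subset_insert o S))
          (mem_hull_top (hpV l) φ _ hle (by linarith))
      intro l hl
      simp only [mem_insert, mem_singleton] at hl
      rcases hl with rfl | rfl | rfl | rfl
      · exact subset_convexHull ℝ _ (by simp [hp0])
      · exact this _ fi
      · exact this _ fj
      · exact this _ fk
    simp [Measure.real, hnull]
  apply mul_le_mul_of_nonneg_right _ measureReal_nonneg
  have hone : ty i = 1 ∨ ty j = 1 ∨ ty k = 1 := by
    by_contra hn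
    push Not at hn
    have hcm := hcS S (filter_subset _ _) (H0 φ _ hle (by linarith) hS)
    have hc1 : φ (c S - o) = 1 := by
      have e1 := le_of_mem_hull hcm φ (1 + φ o) (fun v hv => (mem_filter.mp hv).2.le)
      have e2 := le_of_mem_hull hcm (-φ) (-(1 + φ o))
        (fun v hv => by simp [(mem_filter.mp hv).2])
      simp at e2
      rw [map_sub]; linarith
    obtain ⟨x1, x2, x3, e1, e2⟩ := fx (c S)
    let cs : Option (V.powerset ⊕ (V × V) ⊕ V) :=
      some (Sum.inl ⟨S, mem_powerset.mpr (filter_subset _ _)⟩)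
    have hcs : ty cs = 1 := rfl
    have n1 : cs ≠ i := by rintro rfl; exact hn.1 hcs
    have n2 : cs ≠ j := by rintro rfl; exact hn.2.1 hcs
    have n3 : cs ≠ k := by rintro rfl; exact hn.2.2 hcs
    have hty : ∀ l, none ≠ l → ty l ≠ 1 → 1 < ty l := by
      rintro (_ | _ | _ | _) <;> simp [ty]
    have := ex _ hσ (Pi.single cs 1 - (Pi.single i x1 + Pi.single j x2 + Pi.single k x3))
      (by simp [sum_add_distrib, sum_sub_distrib]; linarith) ?_ ?_ ?_ cs
    · simp [n1, n2, n3] at this
    · simp only [Pi.add_apply, Pi.sub_apply, add_smul, sub_smul, sum_add_distrib, sum_sub_distrib,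
        sum_single_smul]
      have : p cs = c S := rfl
      rw [this, one_smul]
      nth_rewrite 1 [e2]
      rw [e1, hc1]
      module
    · intro l hl
      simp only [mem_insert, mem_singleton, not_or] at hl
      simp only [Pi.add_apply, Pi.sub_apply, Pi.single_eq_of_ne hl.2.1,
        Pi.single_eq_of_ne hl.2.2.1, Pi.single_eq_of_ne hl.2.2.2, Pi.single_apply]
      split_ifs <;> norm_num
    · intro l hl
      refine ⟨cs, by simp [n1, n2, n3], ?_⟩
      rw [hcs]
      by_cases l1 : l = i
      · rw [l1]; exact hty i hzi hn.1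
      by_cases l2 : l = j
      · rw [l2]; exact hty j hzj hn.2.1
      by_cases l3 : l = k
      · rw [l3]; exact hty k hzk hn.2.2
      exfalso
      simp only [Pi.add_apply, Pi.sub_apply, Pi.single_eq_of_ne l1,
        Pi.single_eq_of_ne l2, Pi.single_eq_of_ne l3, Pi.single_apply] at hl
      split_ifs at hl <;> norm_num at hl
  have ha : ∀ l, ty l = 1 → a l = 1 := by rintro (_ | _ | _ | _) <;> simp [ty, a]
  rcases hone with h | h | h
  · rw [ha _ h, one_mul]; exact two j (by simp) k (by simp) hjk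
  · rw [ha _ h, one_mul]; exact two i (by simp) k (by simp) hik
  · rw [ha _ h, mul_one]; exact two i (by simp) j (by simp) hij

end Pool.Agent.Lib.MP_7fdcdd_gt.Vol
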