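import Pool.Agent.Lib.MP_7fdcdd_gt.H77.SymMain
import Pool.Agent.Lib.MP_7fdcdd_gt.Vol3

/-! The second step keeps at least `11/16` of the volume. -/

namespace Pool.Agent.Lib.MP_7fdcdd_gt.Asm

open MeasureTheory H77

variable {V : Finset E}

/-- every vertex has a link facet: three neighbours tie for the second place -/
lemma link_facet (hV : CP V) (hS : Sp V) {s : E} (hs : s ∈ V) :
    ∃ (ζ : L) (a b c : E), Adj V s a ∧ Adj V s b ∧ Adj V s c ∧ a ≠ b ∧ a ≠ c ∧ b ≠ c ∧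
      (∀ v ∈ V, v ≠ s → ζ v ≤ ζ s - 1) ∧ ζ a = ζ s - 1 ∧ ζ b = ζ s - 1 ∧ ζ c = ζ s - 1 := by
  classical
  obtain ⟨χ, hχ⟩ := hV s hs
  obtain ⟨v0, hv0, hv0s, -⟩ := hS.exists_ne s s s
  obtain ⟨v1, hv1, hmax⟩ := Finset.exists_max_image (V.erase s) χ
    ⟨v0, Finset.mem_erase.2 ⟨hv0s, hv0⟩⟩
  rw [Finset.mem_erase] at hv1
  have hδ : 0 < χ s - χ v1 := sub_pos.2 (hχ v1 hv1.2 hv1.1)
  set W := (V.erase s).image (fun v => v - s) with hW
  have hWmem : ∀ w, w ∈ W ↔ ∃ v ∈ V, v ≠ s ∧ w = v - s := fun w => by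
    simp only [hW, Finset.mem_image, Finset.mem_erase]
    constructor
    · rintro ⟨v, h, rfl⟩; exact ⟨v, h.2, h.1, rfl⟩
    · rintro ⟨v, h1, h2, rfl⟩; exact ⟨v, ⟨h2, h1⟩, rfl⟩
  obtain ⟨ζ, h1, -, h3⟩ := grow W (-1) 0 (fun ω hω => by
      have : ∃ v ∈ V, ω v ≠ ω s := by
        by_contra hcon
        push Not at hcon
        exact hω (hS ω fun x hx y hy => (hcon x hx).trans (hcon y hy).symm)
      obtain ⟨v, hv, hne⟩ := this
      have hvs : v ≠ s := fun h => hne (by rw [h])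
      rcases lt_or_gt_of_ne hne with h | h
      · exact Or.inr ⟨v - s, (hWmem _).2 ⟨v, hv, hvs, rfl⟩, by rw [map_sub]; linarith, by simp⟩
      · exact Or.inl ⟨v - s, (hWmem _).2 ⟨v, hv, hvs, rfl⟩, by rw [map_sub]; linarith, by simp⟩)
    ((χ s - χ v1)⁻¹ • χ) (fun w hw => by
      obtain ⟨v, hv, hvs, rfl⟩ := (hWmem w).1 hw
      have := hmax v (Finset.mem_erase.2 ⟨hvs, hv⟩)
      rw [LinearMap.smul_apply, smul_eq_mul, map_sub, inv_mul_le_iff₀ hδ]
      linarith)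
  have hle : ∀ v ∈ V, v ≠ s → ζ v ≤ ζ s - 1 := fun v hv hvs => by
    have := h1 _ ((hWmem _).2 ⟨v, hv, hvs, rfl⟩)
    rw [map_sub] at this
    linarith
  obtain ⟨a', ha', b', hb', c', hc', n1, n2, n3, ea, eb, ec⟩ := three_of_span h3
  obtain ⟨a, ha, has, rfl⟩ := (hWmem _).1 ha'
  obtain ⟨b, hb, hbs, rfl⟩ := (hWmem _).1 hb'
  obtain ⟨c, hc, hcs, rfl⟩ := (hWmem _).1 hc'
  rw [map_sub] at ea eb ec
  have hadj : ∀ x ∈ V, x ≠ s → ζ x - ζ s = -1 → Adj V s x := fun x hx hxs ex =>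
    adj_of_second hV hs hx hxs (fun w hw hws => by linarith [hle w hw hws])
      (fun w hw hws => by linarith [hle w hw hws])
  exact ⟨ζ, a, b, c, hadj a ha has ea, hadj b hb hbs eb, hadj c hc hcs ec,
    fun h => n1 (by rw [h]), fun h => n2 (by rw [h]), fun h => n3 (by rw [h]), hle,
    by linarith, by linarith, by linarith⟩

/-- the arithmetic of the centre of the second step -/
lemma avg_ineq (n : ℕ) (h5 : 5 ≤ n) (h8 : n ≤ 8) (a1 a2 a3 z A : ℝ) (h12 : a2 ≤ a1)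
    (h23 : a3 ≤ a2) (hA : n * A ≤ a1 + a2 + (n - 4) * a3 + 2 * z) :
    (a1 + a2) / 2 - 5 / 6 * ((a1 + a2) / 2 - A) ≤ (a2 + a3) / 2 ∨
      (a1 + a2) / 2 - 5 / 6 * ((a1 + a2) / 2 - A) ≤ (a1 + z) / 2 := by
  by_contra hc
  push Not at hc
  obtain ⟨h1, h2⟩ := hc
  interval_cases n <;> push_cast at hA <;> linarith

lemma mid_ne {s x y : E} (h : x ≠ y) : midpoint ℝ s x ≠ midpoint ℝ s y := fun e => by
  have := (midpoint_eq_midpoint_iff_vsub_eq_vsub ℝ).1 e
  simp only [vsub_self] at this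
  exact h (vsub_eq_zero_iff_eq.1 this.symm).symm

/-- sum of a functional over a set containing two low points -/
lemma sum_bound [DecidableEq E] (U : Finset E) (hU : U ⊆ V) (h4 : 4 ≤ U.card) (u : L)
    {s t p q : E} {r z : ℝ}
    (h3 : ∀ w ∈ V, w ≠ s → w ≠ t → u w ≤ r) (hr : r ≤ u t) (hts : u t ≤ u s)
    (hp : p ∈ U) (hq : q ∈ U) (hpq : p ≠ q) (zp : u p ≤ z) (zq : u q ≤ z) :
    ∑ w ∈ U, u w ≤ u s + u t + ((U.card : ℝ) - 4) * r + 2 * z := by
  have hq' : q ∈ U.erase p := Finset.mem_erase.2 ⟨hpq.symm, hq⟩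
  rw [← Finset.add_sum_erase U _ hp, ← Finset.add_sum_erase _ _ hq']
  set R := (U.erase p).erase q with hR
  have hc : (R.card : ℝ) = U.card - 2 := by
    rw [hR, Finset.card_erase_of_mem hq', Finset.card_erase_of_mem hp]
    rw [Nat.cast_sub (by omega), Nat.cast_sub (by omega)]
    push_cast; ring
  have hRV : ∀ w ∈ R, w ∈ V := fun w hw =>
    hU (Finset.mem_of_mem_erase (Finset.mem_of_mem_erase hw))
  have key : ∑ w ∈ R, u w ≤ ∑ w ∈ R, (r + ((if w = s then u s - r else 0) +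
      (if w = t then u t - r else 0))) := by
    refine Finset.sum_le_sum fun w hw => ?_
    by_cases e1 : w = s
    · have : 0 ≤ (if w = t then u t - r else 0) := by split_ifs <;> linarith
      rw [if_pos e1, e1] at *
      linarith
    · by_cases e2 : w = t
      · rw [if_neg e1, if_pos e2, e2]; linarith
      · rw [if_neg e1, if_neg e2]; linarith [h3 w (hRV w hw) e1 e2]
  rw [Finset.sum_add_distrib, Finset.sum_add_distrib, Finset.sum_const, nsmul_eq_mul, hc,
    Finset.sum_ite_eq', Finset.sum_ite_eq'] at key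
  have e1 : (if s ∈ R then u s - r else 0) ≤ u s - r := by split_ifs <;> linarith
  have e2 : (if t ∈ R then u t - r else 0) ≤ u t - r := by split_ifs <;> linarith
  nlinarith

/-- the average of a set of points -/
noncomputable def avg (U : Finset E) : E := (U.card : ℝ)⁻¹ • ∑ w ∈ U, w

lemma map_avg (U : Finset E) (hU : 0 < U.card) (u : L) :
    (U.card : ℝ) * u (avg U) = ∑ w ∈ U, u w := by
  have : (U.card : ℝ) ≠ 0 := by positivity
  rw [avg, map_smul, map_sum, smul_eq_mul]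
  field_simp

lemma avg_mem (hV : CP V) (U : Finset E) (hU : U ⊆ V) (h2 : 2 ≤ U.card) :
    avg U ∈ cv (nxt V) := by
  classical
  by_contra hcon
  obtain ⟨l, c, h3, h4⟩ := separate (cv_convex _) (cv_compact _).isClosed hcon
  obtain ⟨a, ha, b, hb, hab⟩ := Finset.one_lt_card.1 (show 1 < U.card by omega)
  obtain ⟨s, t, hst, h5, h6⟩ := exists_top_edge hV l ⟨a, hU ha, b, hU hb, hab⟩
  have h7 := h3 _ (mem_cv_of_mem hst.mid_mem)
  rw [map_mid] at h7
  have h8 := map_avg U (by omega) l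
  have hts := h5 t hst.2.1
  have key : ∑ w ∈ U, l w ≤ ∑ w ∈ U, (l t + (if w = s then l s - l t else 0)) := by
    refine Finset.sum_le_sum fun w hw => ?_
    by_cases e1 : w = s
    · rw [if_pos e1, e1]; linarith
    · rw [if_neg e1]; linarith [h6 w (hU hw) e1]
  rw [Finset.sum_add_distrib, Finset.sum_const, nsmul_eq_mul, Finset.sum_ite_eq'] at key
  have e1 : (if s ∈ U then l s - l t else 0) ≤ l s - l t := by split_ifs <;> linarith
  have h9 : (2 : ℝ) ≤ U.card := by exact_mod_cast h2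
  nlinarith

/-- two lowest points -/
lemma exists_low (h5 : 4 < V.card) (u : L) : ∃ p ∈ V, ∃ q ∈ V, p ≠ q ∧ u q ≤ u p ∧
    ∀ w ∈ V, w ≠ q → u p ≤ u w := by
  classical
  obtain ⟨q, hq, h1⟩ := Finset.exists_min_image V u (Finset.card_pos.1 (by omega))
  obtain ⟨p, hp, h2⟩ := Finset.exists_min_image (V.erase q) u (Finset.card_pos.1 (by
    rw [Finset.card_erase_of_mem hq]; omega))
  rw [Finset.mem_erase] at hp
  exact ⟨p, hp.2, q, hq, hp.1, h1 p hp.2, fun w hw e => h2 w (Finset.mem_erase.2 ⟨e, hw⟩)⟩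

/-- the cap condition with ratio `5/6` for one direction -/
lemma avg_cap [DecidableEq E] (hV : CP V) (hS : Sp V) (U : Finset E) (hU : U ⊆ V)
    (h5 : 5 ≤ U.card) (h8 : U.card ≤ 8) (u : L) {p q : E} (hp : p ∈ U) (hq : q ∈ U) (hpq : p ≠ q)
    (hqp : u q ≤ u p) (hlow : ∀ w ∈ V, w ≠ q → u p ≤ u w) {σ : E} (hσ : σ ∈ nxt V) :
    ∃ v ∈ (nxt V).erase σ, u σ - 5 / 6 * (u σ - u (avg U)) ≤ u v := by
  obtain ⟨s, t, hst, h1, h2⟩ := exists_top_edge hV u ⟨p, hU hp, q, hU hq, hpq⟩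
  have hτ := hst.mid_mem
  have htop : ∀ x ∈ cv (nxt V), u x ≤ u (midpoint ℝ s t) := fun x hx =>
    le_of_mem_cv (fun v hv => by
      obtain ⟨a, b, hab, rfl⟩ := mem_nxt.1 hv
      have := pair_le_of_top h1 h2 hab.1 hab.2.1 hab.2.2.1
      rw [map_mid, map_mid]; linarith) hx
  by_cases hστ : σ = midpoint ℝ s t
  swap
  · refine ⟨_, Finset.mem_erase.2 ⟨fun h => hστ h.symm, hτ⟩, ?_⟩
    have := htop _ (mem_cv_of_mem hσ)
    have := htop _ (avg_mem hV U hU (by omega))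
    linarith
  subst hστ
  by_cases htie : ∃ v ∈ nxt V, v ≠ midpoint ℝ s t ∧ u (midpoint ℝ s t) ≤ u v
  · obtain ⟨v, hv, hne, hle⟩ := htie
    refine ⟨v, Finset.mem_erase.2 ⟨hne, hv⟩, ?_⟩
    have := htop _ (avg_mem hV U hU (by omega))
    linarith
  push Not at htie
  have htwo := hst.top_two hV htie
  obtain ⟨c0, hc0, hc0s, hc0t, -⟩ := hS.exists_ne s t t
  obtain ⟨r, hrs, hrt, hr, hmax⟩ := exists_third hV hst.1 hst.2.1 hst.2.2.1 htwo
    ⟨c0, hc0, hc0s, hc0t⟩
  have hrV : r ∈ V := by rcases hr with h | h <;> exact h.2.1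
  have hts := h1 t hst.2.1
  have hrt' := h2 r hrV hrs
  have hsum := sum_bound U hU (by omega) u hmax hrt' hts hp hq hpq le_rfl hqp
  rw [← map_avg U (by omega)] at hsum
  rw [map_mid]
  rcases avg_ineq U.card h5 h8 _ _ _ _ _ hts hrt' hsum with h | h
  · rcases hr with h' | h'
    · refine ⟨_, Finset.mem_erase.2 ⟨mid_ne hrt, h'.mid_mem⟩, ?_⟩
      rw [map_mid]; linarith
    · refine ⟨_, Finset.mem_erase.2 ⟨?_, h'.mid_mem⟩, ?_⟩
      · rw [midpoint_comm s t]; exact mid_ne hrs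
      · rw [map_mid]; linarith
  · obtain ⟨-, a, b, c, ha, hb, hc, hab, hac, hbc, -⟩ := link_facet hV hS hst.1
    obtain ⟨n, hn, hnt, hnq⟩ : ∃ n, Adj V s n ∧ n ≠ t ∧ n ≠ q := by
      by_cases e1 : a ≠ t ∧ a ≠ q
      · exact ⟨a, ha, e1⟩
      by_cases e2 : b ≠ t ∧ b ≠ q
      · exact ⟨b, hb, e2⟩
      refine ⟨c, hc, ?_⟩
      rw [not_and_or, not_not, not_not] at e1 e2
      constructor <;> rintro rfl <;> rcases e1 with rfl | rfl <;> rcases e2 with rfl | rfl <;>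
        simp_all
    refine ⟨_, Finset.mem_erase.2 ⟨mid_ne hnt, hn.mid_mem⟩, ?_⟩
    have := hlow n hn.2.1 hnq
    rw [map_mid]; linarith

lemma two_le_nxt (hV : CP V) (hS : Sp V) : 2 ≤ (nxt V).card := by
  obtain ⟨a, ha⟩ := (hS.nxt hV).nonempty
  obtain ⟨b, hb, hba, -⟩ := (hS.nxt hV).exists_ne a a a
  exact Finset.one_lt_card.2 ⟨b, hb, a, ha, hba⟩

lemma exists_centre [DecidableEq E] (hV : CP V) (hS : Sp V) (h5 : 4 < V.card) :
    ∃ o ∈ cv (nxt V), ∀ σ ∈ nxt V, ∀ u : L,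
      ∃ v ∈ (nxt V).erase σ, u σ - 5 / 6 * (u σ - u o) ≤ u v := by
  let F : L → Set E := fun u => cv (nxt V) ∩ ⋂ σ ∈ nxt V,
    {o | ∃ v ∈ (nxt V).erase σ, u σ - 5 / 6 * (u σ - u o) ≤ u v}
  have hhalf : ∀ (u : L), ∀ σ ∈ nxt V, ∃ c : ℝ,
      {o | ∃ v ∈ (nxt V).erase σ, u σ - 5 / 6 * (u σ - u o) ≤ u v} = {o | u o ≤ c} := by
    intro u σ hσ
    obtain ⟨v, hv, hm⟩ := Finset.exists_max_image ((nxt V).erase σ) u (Finset.card_pos.1 (by
      rw [Finset.card_erase_of_mem hσ]; have := two_le_nxt hV hS; omega))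
    refine ⟨(u v - u σ / 6) * (6 / 5), Set.ext fun o => ⟨?_, fun h => ⟨v, hv, ?_⟩⟩⟩
    · rintro ⟨w, hw, h⟩
      have := hm w hw
      show u o ≤ _
      linarith
    · have : u o ≤ _ := h
      linarith
  have h := Convex.helly_theorem_compact' (𝕜 := ℝ) (F := F) (fun u => by
      refine (cv_convex _).inter (convex_iInter₂ fun σ hσ => ?_)
      obtain ⟨c, hc⟩ := hhalf u σ hσ
      rw [hc]; exact convex_halfSpace_le u.isLinear c)
    (fun u => by
      refine (cv_compact _).inter_right (isClosed_biInter fun σ hσ => ?_)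
      obtain ⟨c, hc⟩ := hhalf u σ hσ
      rw [hc]; exact isClosed_le u.continuous_of_finiteDimensional continuous_const)
    (fun I hI => by
      rw [Module.finrank_fin_fun] at hI
      choose p hp q hq hpq hqp hlow using exists_low h5
      have hU0 : (I.image p ∪ I.image q) ⊆ V := by
        intro w hw
        simp only [Finset.mem_union, Finset.mem_image] at hw
        rcases hw with ⟨u, -, rfl⟩ | ⟨u, -, rfl⟩
        · exact hp u
        · exact hq u
      have hc0 : (I.image p ∪ I.image q).card ≤ 8 := by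
        have := Finset.card_union_le (I.image p) (I.image q)
        have := Finset.card_image_le (s := I) (f := p)
        have := Finset.card_image_le (s := I) (f := q)
        omega
      obtain ⟨U, h1, h2, h3, h4⟩ : ∃ U : Finset E, (I.image p ∪ I.image q) ⊆ U ∧ U ⊆ V ∧
          5 ≤ U.card ∧ U.card ≤ 8 := by
        by_cases h : 5 ≤ (I.image p ∪ I.image q).card
        · exact ⟨_, subset_rfl, hU0, h, hc0⟩
        · obtain ⟨U, h1, h2, h3⟩ := Finset.exists_subsuperset_card_eq (n := 5) hU0 (by omega)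
            (by omega)
          exact ⟨U, h1, h2, by omega, by omega⟩
      refine ⟨avg U, Set.mem_iInter₂.2 fun u hu => ⟨avg_mem hV U h2 (by omega),
        Set.mem_iInter₂.2 fun σ hσ => ?_⟩⟩
      exact avg_cap hV hS U h2 h3 h4 u
        (h1 (Finset.mem_union_left _ (Finset.mem_image_of_mem _ hu)))
        (h1 (Finset.mem_union_right _ (Finset.mem_image_of_mem _ hu))) (hpq u) (hqp u) (hlow u) hσ)
  obtain ⟨o, ho⟩ := h
  rw [Set.mem_iInter] at ho
  exact ⟨o, (ho 0).1, fun σ hσ u => Set.mem_iInter₂.1 (ho u).2 σ hσ⟩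

/-- one step with cap ratio `G` keeps `1 - 3 G / 8` of the volume -/
theorem step_of_centre [DecidableEq E] (hV : CP V) (h2 : 2 ≤ V.card) {o : E} (ho : o ∈ cv V)
    {G : ℝ} (G0 : 0 ≤ G) (G1 : G ≤ 1)
    (h : ∀ s ∈ V, ∀ u : L, ∃ v ∈ V.erase s, u s - G * (u s - u o) ≤ u v) :
    (1 - 3 * G / 8) * volume.real (cv V) ≤ volume.real (cv (nxt V)) := by
  have h1 := Vol.caps_le (E := E) (by simp) volume V o ho G G0 G1 h
  have h3 := Vol.step_ge (E := E) (by simp) volume V h2 (cv (nxt V)) (cv_convex _) (cv_compact _)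
    (fun a ha b hb hab => by
      have := mid_mem_cv_nxt hV ha hb hab
      rwa [midpoint_eq_smul_add, invOf_eq_inv, ← one_div] at this)
  unfold cv at *
  linarith

/-- Two steps keep at least `55/128` of the volume of a polyhedron with at least five vertices. -/
theorem two_steps (hV : CP V) (hS : Sp V) (h5 : 4 < V.card) :
    55 / 128 * volume.real (cv V) ≤ volume.real (cv (nxt (nxt V))) := by
  classical
  obtain ⟨o, ho, h⟩ := exists_centre hV hS h5
  have h1 := step_of_centre (CP.nxt V) (two_le_nxt hV hS) ho (by norm_num) (by norm_num) h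
  have h2 : 5 / 8 * volume.real (cv V) ≤ volume.real (cv (nxt V)) := step_five_eighths hV h5
  linarith

end Pool.Agent.Lib.MP_7fdcdd_gt.Asm
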