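import Mathlib
import Pool.Agent.Lib.MP_7fdcdd_gt.Vol3

set_option autoImplicit false

namespace Pool.Agent.Lib.MP_7fdcdd_gt.Vol

open Finset MeasureTheory Module

variable {E : Type} [NormedAddCommGroup E] [NormedSpace ℝ E]

lemma tet_eq_cell (o : E) (w : Fin 3 → E) :
    tet o w = cell (![o, o + w 0, o + w 1, o + w 2] : Fin 4 → E) {0, 1, 2, 3} := by
  rw [cell_four]
  congr 1
  funext i
  fin_cases i <;> simp

lemma isCompact_tet (o : E) (w : Fin 3 → E) : IsCompact (tet o w) := by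
  rw [tet_eq_cell]; exact isCompact_cell _ _

variable [FiniteDimensional ℝ E] [MeasurableSpace E] [BorelSpace E]

lemma intOn_lin (μ : Measure E) [μ.IsAddHaarMeasure] (u : E →ₗ[ℝ] ℝ) {K : Set E}
    (hK : IsCompact K) : IntegrableOn u K μ :=
  u.continuous_of_finiteDimensional.continuousOn.integrableOn_compact hK

lemma int_tet_aux (μ : Measure E) [μ.IsAddHaarMeasure] (e : Basis (Fin 3) ℝ E) (o : E)
    (w : Fin 3 → E) (hw : e.det w ≠ 0) (u : E →ₗ[ℝ] ℝ) :
    ∫ x in tet o w, u x ∂μ = |e.det w| * (u o * μ.real (tet 0 e) +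
      ∑ i, (∫ x in tet 0 e, e.coord i x ∂μ) * u (w i)) := by
  let A : E →L[ℝ] E := LinearMap.toContinuousLinearMap (e.constr ℝ w)
  have hA : ∀ x, A x = ∑ i, e.coord i x • w i := by
    intro x
    simp [A, Basis.constr_apply_fintype]
  have h1 : tet o w = (fun x => o + A x) '' tet 0 e := by
    ext x
    constructor
    · rintro ⟨t, t0, t1, rfl⟩
      refine ⟨_, ⟨t, t0, t1, rfl⟩, ?_⟩
      simp [A, map_sum]
    · rintro ⟨_, ⟨t, t0, t1, rfl⟩, rfl⟩
      exact ⟨t, t0, t1, by simp [A, map_sum]⟩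
  have h2 : LinearMap.det (e.constr ℝ w) = e.det w := by
    have := e.det_comp (e.constr ℝ w) e
    rw [e.det_self, mul_one] at this
    rw [← this]
    congr 1
    funext i
    simp
  have h3 : A.det = e.det w := h2
  have hinj : Function.Injective A :=
    ((e.constr ℝ w).equivOfDetNeZero (by rwa [h2])).injective
  rw [h1, integral_image_eq_integral_abs_det_fderiv_smul μ (isCompact_tet 0 e).measurableSet
    (f' := fun _ => A) (fun x _ => (A.hasFDerivAt.const_add o).hasFDerivWithinAt)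
    (fun x _ y _ h => hinj (add_left_cancel h)), h3, integral_smul, smul_eq_mul]
  congr 1
  have h4 : ∀ x, u (o + A x) = u o + ∑ i, e.coord i x * u (w i) := by
    intro x
    rw [map_add, hA, map_sum]
    simp
  simp only [h4]
  have hi : ∀ i, IntegrableOn (fun x => e.coord i x * u (w i)) (tet 0 e) μ := fun i =>
    (intOn_lin μ (e.coord i) (isCompact_tet 0 e)).mul_const _
  have hc : IntegrableOn (fun _ : E => u o) (tet 0 e) μ :=
    continuousOn_const.integrableOn_compact (isCompact_tet 0 e)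
  rw [integral_add hc
    (integrable_finsetSum _ (fun i _ => hi i)), integral_finsetSum _ (fun i _ => hi i)]
  simp only [integral_mul_const, integral_const, smul_eq_mul, measureReal_restrict_apply_univ]
  ring

lemma int_coord (μ : Measure E) [μ.IsAddHaarMeasure] (e : Basis (Fin 3) ℝ E) (i : Fin 3) :
    ∫ x in tet 0 e, e.coord i x ∂μ = μ.real (tet 0 e) / 4 := by
  let p : Fin 4 → E := ![0, 0 + e 0, 0 + e 1, 0 + e 2]
  have h0 : tet 0 e = cell p {0, 1, 2, 3} := tet_eq_cell 0 e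
  have a1 : tet 0 e = tet (e 0) ![-e 0, e 1 - e 0, e 2 - e 0] := by
    rw [h0, show ({0, 1, 2, 3} : Finset (Fin 4)) = {1, 0, 2, 3} by decide, cell_four]
    simp [p]
  have a2 : tet 0 e = tet (e 1) ![-e 1, e 0 - e 1, e 2 - e 1] := by
    rw [h0, show ({0, 1, 2, 3} : Finset (Fin 4)) = {2, 0, 1, 3} by decide, cell_four]
    simp [p]
  have a3 : tet 0 e = tet (e 2) ![-e 2, e 0 - e 2, e 1 - e 2] := by
    rw [h0, show ({0, 1, 2, 3} : Finset (Fin 4)) = {3, 0, 1, 2} by decide, cell_four]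
    simp [p]
  have d1 : e.det ![-e 0, e 1 - e 0, e 2 - e 0] = -1 := by
    rw [Basis.det_apply, Matrix.det_fin_three]
    simp [Basis.toMatrix_apply]
  have d2 : e.det ![-e 1, e 0 - e 1, e 2 - e 1] = 1 := by
    rw [Basis.det_apply, Matrix.det_fin_three]
    simp [Basis.toMatrix_apply]
  have d3 : e.det ![-e 2, e 0 - e 2, e 1 - e 2] = -1 := by
    rw [Basis.det_apply, Matrix.det_fin_three]
    simp [Basis.toMatrix_apply]
  have b1 := int_tet_aux μ e (e 0) _ (by rw [d1]; norm_num) (e.coord 0)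
  have b2 := int_tet_aux μ e (e 1) _ (by rw [d2]; norm_num) (e.coord 1)
  have b3 := int_tet_aux μ e (e 2) _ (by rw [d3]; norm_num) (e.coord 2)
  rw [← a1, d1] at b1
  rw [← a2, d2] at b2
  rw [← a3, d3] at b3
  simp only [Fin.sum_univ_three, Matrix.cons_val_zero, Matrix.cons_val_one, Matrix.cons_val,
    map_sub, map_neg, Basis.coord_apply, Basis.repr_self] at b1 b2 b3
  simp at b1 b2 b3
  fin_cases i <;> simp <;> linarith

/-- the integral of a linear functional over a tetrahedron -/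
lemma int_tet (hE : finrank ℝ E = 3) (μ : Measure E) [μ.IsAddHaarMeasure] (o : E) (w : Fin 3 → E)
    (u : E →ₗ[ℝ] ℝ) :
    ∫ x in tet o w, u x ∂μ = μ.real (tet o w) * (u o + (u (w 0) + u (w 1) + u (w 2)) / 4) := by
  have e := Module.finBasisOfFinrankEq ℝ E hE
  by_cases hw : e.det w = 0
  · have h1 : μ.real (tet o w) = 0 := by rw [vol_tet μ e, hw]; simp
    have h2 : μ (tet o w) = 0 := by
      rwa [measureReal_eq_zero_iff (isCompact_tet o w).measure_lt_top.ne] at h1
    rw [h1, Measure.restrict_eq_zero.mpr h2]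
    simp
  · rw [int_tet_aux μ e o w hw, vol_tet μ e o w]
    simp only [int_coord, Fin.sum_univ_three]
    ring

/-- Some cell of the pulling triangulation has its centroid at least as high as the centroid of
the hull. -/
theorem centroid_cell {ι : Type} [Fintype ι] [DecidableEq ι] (hE : finrank ℝ E = 3)
    (μ : Measure E) [μ.IsAddHaarMeasure] (p : ι → E) (C : Finset (Finset ι)) (z : ι)
    (hform : ∀ σ ∈ C, ∃ i j k, σ = {z, i, j, k} ∧ z ≠ i ∧ z ≠ j ∧ z ≠ k ∧ i ≠ j ∧ i ≠ k ∧ j ≠ k)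
    (hsum : μ.real (cell p univ) = ∑ σ ∈ C, μ.real (cell p σ))
    (dis : ∀ σ ∈ C, ∀ τ ∈ C, σ ≠ τ → μ (cell p σ ∩ cell p τ) = 0)
    (cov : μ (cell p univ \ ⋃ σ ∈ C, cell p σ) = 0) (hpos : 0 < μ.real (cell p univ))
    (u : E →ₗ[ℝ] ℝ) :
    ∃ σ ∈ C, 4 * ∫ x in cell p univ, u x ∂μ ≤ μ.real (cell p univ) * ∑ l ∈ σ, u (p l) := by
  have hne : C.Nonempty := by
    rcases C.eq_empty_or_nonempty with rfl | h
    · simp at hsum; linarith
    · exact h
  obtain ⟨σ, hσ, hm⟩ := C.exists_max_image (fun σ => ∑ l ∈ σ, u (p l)) hne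
  refine ⟨σ, hσ, ?_⟩
  have hsub : (⋃ τ ∈ C, cell p τ) ⊆ cell p univ :=
    Set.iUnion₂_subset (fun σ _ => cell_subset (convex_cell _ _) (fun i _ => mem_cell (mem_univ i)))
  have hU : (⋃ τ : C, cell p τ) = ⋃ τ ∈ C, cell p τ := by
    ext x; simp
  have h1 : ∫ x in cell p univ, u x ∂μ = ∫ x in ⋃ τ : C, cell p τ, u x ∂μ := by
    apply setIntegral_congr_set
    rw [hU]
    refine ae_eq_set.mpr ⟨cov, ?_⟩
    rw [Set.sdiff_eq_empty.mpr hsub, measure_empty]
  have h2 := (hasSum_integral_iUnion_ae (μ := μ) (f := fun x => u x) (s := fun τ : C => cell p τ)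
    (fun τ => (isCompact_cell p τ).measurableSet.nullMeasurableSet)
    (fun τ τ' h => dis τ τ.2 τ' τ'.2 (fun e => h (Subtype.ext e)))
    ((intOn_lin μ u (isCompact_cell p univ)).mono_set (by
      rw [hU]; exact hsub))).unique (hasSum_fintype _)
  rw [h1, h2, Finset.sum_coe_sort C (fun τ => ∫ x in cell p τ, u x ∂μ), hsum, mul_sum, sum_mul]
  refine Finset.sum_le_sum fun τ hτ => ?_
  have h3 := hm τ hτ
  obtain ⟨i, j, k, rfl, hzi, hzj, hzk, hij, hik, hjk⟩ := hform τ hτ
  rw [sum_insert (by simp [hzi, hzj, hzk]), sum_insert (by simp [hij, hik]),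
    sum_insert (by simp [hjk]), sum_singleton] at h3
  rw [cell_four, int_tet hE]
  simp only [Matrix.cons_val_zero, Matrix.cons_val_one, Matrix.cons_val, map_sub]
  have h4 := measureReal_nonneg (μ := μ) (s := tet (p z) ![p i - p z, p j - p z, p k - p z])
  nlinarith [mul_le_mul_of_nonneg_left h3 h4]

end Pool.Agent.Lib.MP_7fdcdd_gt.Vol
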