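import Pool.Agent.Lib.MP_7fdcdd_gt.Asm1
import Pool.Agent.Lib.MP_7fdcdd_gt.Vol4

/-! The depth of the centroid. -/

namespace Pool.Agent.Lib.MP_7fdcdd_gt.Asm

open MeasureTheory H77 Finset

variable {V : Finset E}

/-- the centroid of the hull -/
noncomputable def cen (V : Finset E) : E := (volume.real (cv V))⁻¹ • ∫ x in cv V, x

lemma map_cen (V : Finset E) (u : L) :
    u (cen V) = (volume.real (cv V))⁻¹ * ∫ x in cv V, u x := by
  have h := (LinearMap.toContinuousLinearMap u).integral_comp_comm (μ := volume.restrict (cv V))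
    (φ := fun x : E => x) (continuousOn_id.integrableOn_compact (cv_compact V))
  rw [cen, map_smul, smul_eq_mul]
  congr 1
  exact h.symm

lemma vol_pos (hS : Sp V) : 0 < volume.real (cv V) := by
  refine vol_pos_of_span ?_
  obtain ⟨a, ha⟩ := hS.nonempty
  rw [AffineSubspace.affineSpan_eq_top_iff_vectorSpan_eq_top_of_nonempty ℝ E E ⟨a, ha⟩]
  by_contra h
  obtain ⟨f, hf, hle⟩ := Submodule.exists_le_ker_of_lt_top _ (lt_top_iff_ne_top.2 h)
  refine hf (hS f fun x hx y hy => ?_)
  have := hle (vsub_mem_vectorSpan ℝ (mem_coe.2 hx) (mem_coe.2 hy))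
  rw [LinearMap.mem_ker, vsub_eq_sub, map_sub] at this
  linarith

/-- Pull from a lowest vertex `z`, then from the lowest vertex `i` of each facet: some cell
`z, i, j, k` with `j k` an edge of the facet has its centroid above the centroid of the hull. -/
theorem centroid_depth (hV : CP V) (hS : Sp V) (u : L) {z : E} (hz : z ∈ V) :
    ∃ (φ : L) (m : ℝ) (i j k : E), i ∈ V ∧ Adj V j k ∧ i ≠ j ∧ i ≠ k ∧ (∀ v ∈ V, φ v ≤ m) ∧
      φ z < m ∧ φ i = m ∧ φ j = m ∧ φ k = m ∧ (∀ v ∈ V, φ v = m → u i ≤ u v) ∧
      4 * u (cen V) ≤ u z + u i + u j + u k := by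
  classical
  let p : V → E := fun v => v
  let z0 : V := ⟨z, hz⟩
  let N := Fintype.card V
  let rk : V → ℕ := fun v => (V.filter (fun w => u w < u v)).card
  let ty : V → ℕ := fun v => if v = z0 then 0 else 1 + (rk v * N + (Fintype.equivFin V v : ℕ))
  have hrk : ∀ a b : V, u a < u b → rk a < rk b := by
    intro a b h
    apply card_lt_card
    rw [ssubset_iff_of_subset]
    · exact ⟨a, by simp [h], by simp⟩
    · intro w hw
      rw [mem_filter] at hw ⊢
      exact ⟨hw.1, hw.2.trans h⟩
  have hlt : ∀ a b : V, b ≠ z0 → rk a < rk b → ty a < ty b := by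
    intro a b hb h
    have h1 : ((Fintype.equivFin V a : Fin N) : ℕ) < N := (Fintype.equivFin V a).2
    have h2 : (rk a + 1) * N ≤ rk b * N := Nat.mul_le_mul_right _ h
    simp only [ty, if_neg hb]
    split_ifs
    · omega
    · nlinarith
  have hinj : ∀ a b : V, a ≠ z0 → b ≠ z0 → ty a = ty b → a = b := by
    intro a b ha hb h
    rcases lt_trichotomy (rk a) (rk b) with h1 | h1 | h1
    · exact absurd (hlt a b hb h1) (by omega)
    · simp only [ty, if_neg ha, if_neg hb, h1] at h
      exact (Fintype.equivFin V).injective (Fin.ext (by omega))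
    · exact absurd (hlt b a ha h1) (by omega)
  obtain ⟨C, hform, ex, hsum, dis, cov, -⟩ := Vol.centred_tri (E := E) (by simp) volume p ty z0
    (fun i hi => by simp only [ty, if_neg hi, if_true]; omega)
  have hcell : Vol.cell p univ = cv V := by
    rw [Vol.cell_eq, cv]; congr 1; ext x; simp [p]
  have hpos := vol_pos hS
  obtain ⟨σ, hσ, hle⟩ := Vol.centroid_cell (E := E) (by simp) volume p C z0
    (fun σ hσ => by
      obtain ⟨i, j, k, h, h1, h2, h3, h4, h5, h6, -⟩ := hform σ hσ
      exact ⟨i, j, k, h, h1, h2, h3, h4, h5, h6⟩) hsum dis cov (by rwa [hcell]) u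
  rw [hcell] at hle
  have hcen : 4 * u (cen V) ≤ ∑ l ∈ σ, u (p l) := by
    rw [map_cen, mul_left_comm, inv_mul_le_iff₀ hpos]
    exact hle
  -- the core, for a cell whose first label has the least priority
  have core : ∀ i j k : V, σ = {z0, i, j, k} → z0 ≠ i → z0 ≠ j → z0 ≠ k → i ≠ j → i ≠ k → j ≠ k →
      ty i < ty j → ty i < ty k → ∀ φ : L, φ (p i - p z0) = 1 → φ (p j - p z0) = 1 →
      φ (p k - p z0) = 1 → (∀ l, φ (p l - p z0) ≤ 1) →
      (∀ x : E, ∃ a b c : ℝ, a + b + c = φ (x - p z0) ∧
          x = (1 - (a + b + c)) • p z0 + a • p i + b • p j + c • p k) →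
      ∃ (φ : L) (m : ℝ) (i j k : E), i ∈ V ∧ Adj V j k ∧ i ≠ j ∧ i ≠ k ∧ (∀ v ∈ V, φ v ≤ m) ∧
        φ z < m ∧ φ i = m ∧ φ j = m ∧ φ k = m ∧ (∀ v ∈ V, φ v = m → u i ≤ u v) ∧
        4 * u (cen V) ≤ u z + u i + u j + u k := by
    intro i j k hs hzi hzj hzk hij hik hjk tj tk φ fi fj fk fl hx
    rw [hs, sum_insert (by simp [hzi, hzj, hzk]), sum_insert (by simp [hij, hik]),
      sum_insert (by simp [hjk]), sum_singleton] at hcen
    rw [map_sub] at fi fj fk
    have hrel : ∀ l : V, l ∉ σ → φ (p l) = φ z + 1 → ∀ a b c : ℝ, a + b + c = 1 →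
        p l = a • p i + b • p j + c • p k → (ty l < ty i ∨ a < 0) → False := by
      intro l hl _ a b c e1 e2 hor
      have hl' := hl
      rw [hs] at hl'
      simp only [mem_insert, mem_singleton, not_or] at hl'
      obtain ⟨-, li, lj, lk⟩ := hl'
      have := ex σ hσ (Pi.single l 1 - (Pi.single i a + Pi.single j b + Pi.single k c))
        (by simp [sum_add_distrib, sum_sub_distrib]; linarith) ?_ ?_ ?_ l
      · simp [li, lj, lk] at this
      · simp only [Pi.add_apply, Pi.sub_apply, add_smul, sub_smul, sum_add_distrib,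
          sum_sub_distrib, Vol.sum_single_smul]
        rw [one_smul, ← e2, sub_self]
      · intro m hm
        rw [hs] at hm
        simp only [mem_insert, mem_singleton, not_or] at hm
        simp only [Pi.sub_apply, Pi.add_apply, Pi.single_eq_of_ne hm.2.1,
          Pi.single_eq_of_ne hm.2.2.1, Pi.single_eq_of_ne hm.2.2.2]
        by_cases h : m = l
        · subst h; simp
        · simp [h]
      · intro m hm
        have hm' : m = i ∨ m = j ∨ m = k := by
          by_contra hc
          push Not at hc
          simp only [Pi.sub_apply, Pi.add_apply, Pi.single_eq_of_ne hc.1,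
            Pi.single_eq_of_ne hc.2.1, Pi.single_eq_of_ne hc.2.2] at hm
          by_cases h : m = l
          · subst h; simp at hm; linarith
          · simp [h] at hm
        rcases hor with h | h
        · refine ⟨l, by simp [li, lj, lk], ?_⟩
          rcases hm' with rfl | rfl | rfl <;> omega
        · refine ⟨i, by simp [Ne.symm li, hij, hik, h], ?_⟩
          rcases hm' with rfl | rfl | rfl
          · simp [Ne.symm li, hij, hik] at hm; linarith
          · exact tj
          · exact tk
    have hco : ∀ l : V, φ (p l) = φ z + 1 → ∃ a b c : ℝ, a + b + c = 1 ∧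
        p l = a • p i + b • p j + c • p k := by
      intro l hl
      obtain ⟨a, b, c, e1, e2⟩ := hx (p l)
      rw [map_sub] at e1
      have e3 : a + b + c = 1 := by simp only [p, z0] at e1 hl ⊢; linarith
      refine ⟨a, b, c, e3, ?_⟩
      rw [e3] at e2
      simpa using e2
    obtain ⟨ω0, hω0, hv0⟩ := exists_vanish {p j - z, p k - z} card_le_two
    have w1 := hv0 (p j - z) (by simp)
    have w2 := hv0 (p k - z) (by simp)
    rw [map_sub] at w1 w2
    have w3 : ω0 (p i) ≠ ω0 z := by
      intro h
      apply hω0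
      refine LinearMap.ext fun x => ?_
      obtain ⟨a, b, c, -, e2⟩ := hx (x + z)
      have := congrArg ω0 e2
      simp only [map_add, map_smul, smul_eq_mul, p, z0] at this h w1 w2
      rw [h, show ω0 j = ω0 z by linarith, show ω0 k = ω0 z by linarith] at this
      simp only [LinearMap.zero_apply]
      linarith
    obtain ⟨ω, v1, v2, v3⟩ : ∃ ω : L, ω (p j) = ω z ∧ ω (p k) = ω z ∧ ω (p i) < ω z := by
      rcases lt_or_gt_of_ne w3 with h | h
      · exact ⟨ω0, by linarith, by linarith, h⟩
      · exact ⟨-ω0, by simp; linarith, by simp; linarith, by simpa using h⟩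
    have hzz : p z0 = z := rfl
    rw [hzz] at fi fj fk
    have hle : ∀ v ∈ V, φ v ≤ φ z + 1 := fun v hv => by
      have := fl ⟨v, hv⟩
      rw [map_sub, hzz] at this
      simp only [p] at this
      linarith
    refine ⟨φ, φ z + 1, p i, p j, p k, i.2, ?_, fun h => hij (Subtype.ext h),
      fun h => hik (Subtype.ext h), hle, by linarith, by linarith, by linarith, by linarith,
      fun v hv e => ?_, by simpa [add_assoc] using hcen⟩
    · obtain ⟨ε, hε, hp⟩ := perturb V φ ω
      refine ⟨j.2, k.2, fun h => hjk (Subtype.ext h), φ + ε • ω, fun c hc cj ck => ?_⟩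
      rcases (hle c hc).lt_or_eq with h | h
      · exact ⟨hp c hc _ j.2 (by linarith), hp c hc _ k.2 (by linarith)⟩
      · have hω : ω c < ω z := by
          obtain ⟨a, b, d, e1, e2⟩ := hco ⟨c, hc⟩ h
          have e2' : c = a • p i + b • p j + d • p k := e2
          have e3 : ω c = ω z + a * (ω (p i) - ω z) := by
            rw [e2']
            simp only [map_add, map_smul, smul_eq_mul, v1, v2]
            have : d = 1 - a - b := by linarith
            rw [this]; ring
          by_cases hci : c = p i
          · rw [hci]; exact v3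
          have hcs : (⟨c, hc⟩ : V) ∉ σ := by
            rw [hs]
            simp only [mem_insert, mem_singleton, not_or]
            refine ⟨fun e => ?_, fun e => hci (congrArg Subtype.val e),
              fun e => cj (congrArg Subtype.val e), fun e => ck (congrArg Subtype.val e)⟩
            have : c = z := congrArg Subtype.val e
            rw [this] at h; linarith
          rcases lt_trichotomy a 0 with ha | ha | ha
          · exact (hrel _ hcs h a b d e1 e2 (Or.inr ha)).elim
          · exfalso
            have := three_indep hV hc j.2 k.2 cj ck (fun h => hjk (Subtype.ext h))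
              (x := 1) (y := -b) (z := -d) (by linarith) (by
                rw [e2', ha]; simp only [p]; module)
            linarith [this.1]
          · nlinarith
        simp only [LinearMap.add_apply, LinearMap.smul_apply, smul_eq_mul]
        have := mul_lt_mul_of_pos_left hω hε
        constructor
        · rw [v1]; linarith
        · rw [v2]; linarith
    · by_contra hc
      have hlt1 : ty ⟨v, hv⟩ < ty i := hlt _ _ hzi.symm (hrk _ _ (not_le.1 hc))
      obtain ⟨a, b, d, e1, e2⟩ := hco ⟨v, hv⟩ e
      refine hrel ⟨v, hv⟩ ?_ e a b d e1 e2 (Or.inl hlt1)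
      rw [hs]
      simp only [mem_insert, mem_singleton, not_or]
      refine ⟨fun e' => ?_, fun e' => ?_, fun e' => ?_, fun e' => ?_⟩
      · have : v = z := congrArg Subtype.val e'
        rw [this] at e; linarith
      all_goals (rw [e'] at hlt1; omega)
  obtain ⟨i, j, k, hs, hzi, hzj, hzk, hij, hik, hjk, φ, fi, fj, fk, fl, hx⟩ := hform σ hσ
  have nij : ty i ≠ ty j := fun h => hij (hinj i j hzi.symm hzj.symm h)
  have nik : ty i ≠ ty k := fun h => hik (hinj i k hzi.symm hzk.symm h)
  have njk : ty j ≠ ty k := fun h => hjk (hinj j k hzj.symm hzk.symm h)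
  by_cases c1 : ty i < ty j ∧ ty i < ty k
  · exact core i j k hs hzi hzj hzk hij hik hjk c1.1 c1.2 φ fi fj fk fl hx
  by_cases c2 : ty j < ty i ∧ ty j < ty k
  · refine core j i k (by rw [hs]; ext; simp; tauto) hzj hzi hzk hij.symm hjk hik c2.1 c2.2 φ fj fi
      fk fl fun x => ?_
    obtain ⟨a, b, c, e1, e2⟩ := hx x
    refine ⟨b, a, c, by linarith, ?_⟩
    rw [show b + a + c = a + b + c by ring]
    nth_rewrite 1 [e2]
    abel
  · refine core k i j (by rw [hs]; ext; simp; tauto) hzk hzi hzj hik.symm hjk.symm hij (by omega)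
      (by omega) φ fk fi fj fl fun x => ?_
    obtain ⟨a, b, c, e1, e2⟩ := hx x
    refine ⟨c, a, b, by linarith, ?_⟩
    rw [show c + a + b = a + b + c by ring]
    nth_rewrite 1 [e2]
    abel

end Pool.Agent.Lib.MP_7fdcdd_gt.Asm
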