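import Pool.Agent.Lib.MP_7fdcdd_gt.Defs

/-!
Basic facts: `mid P` is the hull of the midpoints of all pairs of vertices, faces persist,
the kernel touches every facet.
-/

namespace Pool.Agent.Lib.MP_7fdcdd_gt

open Set

/-- vertices -/
abbrev vert (P : Set E3) : Set E3 := extremePoints ℝ P

/-- midpoints of pairs of distinct points -/
def pm (S : Set E3) : Set E3 := {z | ∃ x ∈ S, ∃ y ∈ S, x ≠ y ∧ z = midpoint ℝ x y}

lemma mid_eq (x y : E3) : midpoint ℝ x y = (1 / 2 : ℝ) • (x + y) := by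
  rw [midpoint_eq_smul_add]; simp

lemma map_mid (l : E3 →L[ℝ] ℝ) (x y : E3) : l (midpoint ℝ x y) = (l x + l y) / 2 := by
  rw [mid_eq, map_smul, map_add, smul_eq_mul]; ring

lemma mid_inj {t x y : E3} (h : midpoint ℝ t x = midpoint ℝ t y) : x = y := by
  rw [mid_eq, mid_eq] at h
  have := smul_right_injective E3 (show (1 / 2 : ℝ) ≠ 0 by norm_num) h
  exact add_left_cancel this

lemma pm_finite {S : Set E3} (h : S.Finite) : (pm S).Finite := by
  refine ((h.prod h).image fun p : E3 × E3 => midpoint ℝ p.1 p.2).subset ?_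
  rintro z ⟨x, hx, y, hy, -, rfl⟩
  exact ⟨(x, y), ⟨hx, hy⟩, rfl⟩

lemma pm_mono {S T : Set E3} (h : S ⊆ T) : pm S ⊆ pm T := by
  rintro z ⟨x, hx, y, hy, hne, rfl⟩
  exact ⟨x, h hx, y, h hy, hne, rfl⟩

lemma hull_le {S : Set E3} {l : E3 →L[ℝ] ℝ} {c : ℝ} (h : ∀ x ∈ S, l x ≤ c) :
    ∀ x ∈ convexHull ℝ S, l x ≤ c := fun _ hx =>
  convexHull_min (t := {x | l x ≤ c}) h (convex_halfSpace_le l.toLinearMap.isLinear c) hx

lemma hull_lt {S : Set E3} {l : E3 →L[ℝ] ℝ} {c : ℝ} (h : ∀ x ∈ S, l x < c) :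
    ∀ x ∈ convexHull ℝ S, l x < c := fun _ hx =>
  convexHull_min (t := {x | l x < c}) h (convex_halfSpace_lt l.toLinearMap.isLinear c) hx

/-- A point of the hull on a supporting plane lies in the hull of the points on that plane. -/
lemma face_mem {S C : Set E3} {l : E3 →L[ℝ] ℝ} {c : ℝ} (hC : Convex ℝ C) (h : ∀ x ∈ S, l x ≤ c)
    (hS : ∀ x ∈ S, l x = c → x ∈ C) {x : E3} (hx : x ∈ convexHull ℝ S) (hl : l x = c) : x ∈ C := by
  have hc : Convex ℝ {x | l x < c ∨ (l x = c ∧ x ∈ C)} := by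
    intro x hx y hy a b ha hb hab
    have e : l (a • x + b • y) = a * l x + b * l y := by simp
    have e2 : a * c + b * c = c := by rw [← add_mul, hab, one_mul]
    rcases eq_or_lt_of_le ha with rfl | ha'
    · have : b = 1 := by linarith
      subst this; simpa using hy
    rcases eq_or_lt_of_le hb with rfl | hb'
    · have : a = 1 := by linarith
      subst this; simpa using hx
    rcases hx with hx | hx <;> rcases hy with hy | hy
    · left; rw [e]; nlinarith
    · left; rw [e, hy.1]; nlinarith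
    · left; rw [e, hx.1]; nlinarith
    · right; exact ⟨by rw [e, hx.1, hy.1, e2], hC hx.2 hy.2 ha hb hab⟩
  have := convexHull_min (s := S) (fun x hx => by
    rcases lt_or_eq_of_le (h x hx) with h1 | h1
    exacts [Or.inl h1, Or.inr ⟨h1, hS x hx h1⟩]) hc hx
  rcases this with h1 | h1
  · exact absurd hl h1.ne
  · exact h1.2

lemma vert_sub (S : Set E3) : vert (convexHull ℝ S) ⊆ S := extremePoints_convexHull_subset

lemma hull_vert {S : Set E3} (h : S.Finite) :
    convexHull ℝ (vert (convexHull ℝ S)) = convexHull ℝ S := by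
  have h1 := closure_convexHull_extremePoints (h.isCompact_convexHull ℝ) (convex_convexHull ℝ S)
  rwa [((h.subset (vert_sub S)).isClosed_convexHull ℝ).closure_eq] at h1

/-- A vertex of a finite hull is exposed. -/
lemma exists_expose {S : Set E3} (h : S.Finite) {w : E3} (hw : w ∈ vert (convexHull ℝ S)) :
    ∃ l : E3 →L[ℝ] ℝ, ∀ z ∈ S, z ≠ w → l z < l w := by
  have h1 := ((convex_convexHull ℝ S).mem_extremePoints_iff_mem_sdiff_convexHull_sdiff.1 hw).2
  have h2 : w ∉ convexHull ℝ (S \ {w}) := fun h' =>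
    h1 (convexHull_mono (sdiff_subset_sdiff_left (subset_convexHull ℝ S)) h')
  obtain ⟨l, u, a, b⟩ := geometric_hahn_banach_closed_point (convex_convexHull ℝ _)
    ((h.subset sdiff_subset).isClosed_convexHull ℝ) h2
  exact ⟨l, fun z hz hne => (a z (subset_convexHull ℝ _ ⟨hz, hne⟩)).trans b⟩

namespace IsPolyhedron

variable {P : Set E3}

lemma convex (h : IsPolyhedron P) : Convex ℝ P := by
  obtain ⟨S, -, -, rfl⟩ := h; exact convex_convexHull ℝ S

lemma compact (h : IsPolyhedron P) : IsCompact P := by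
  obtain ⟨S, hS, -, rfl⟩ := h; exact hS.isCompact_convexHull ℝ

lemma fin (h : IsPolyhedron P) : (vert P).Finite := by
  obtain ⟨S, hS, -, rfl⟩ := h; exact hS.subset (vert_sub S)

lemma hull (h : IsPolyhedron P) : convexHull ℝ (vert P) = P := by
  obtain ⟨S, hS, -, rfl⟩ := h; exact hull_vert hS

lemma span (h : IsPolyhedron P) : affineSpan ℝ (vert P) = ⊤ := by
  rw [← affineSpan_convexHull, h.hull]
  obtain ⟨S, -, hS, rfl⟩ := h
  rwa [affineSpan_convexHull]

lemma vspan (h : IsPolyhedron P) : vectorSpan ℝ (vert P) = ⊤ := by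
  rw [← direction_affineSpan, h.span, AffineSubspace.direction_top]

lemma not_col (h : IsPolyhedron P) : ¬ Collinear ℝ (vert P) := by
  intro hc
  have := hc.finrank_le_one
  rw [h.vspan, finrank_top] at this
  simp at this

lemma expose (h : IsPolyhedron P) {w : E3} (hw : w ∈ vert P) :
    ∃ l : E3 →L[ℝ] ℝ, ∀ z ∈ vert P, z ≠ w → l z < l w :=
  exists_expose h.fin (by rwa [h.hull])

lemma le (h : IsPolyhedron P) {l : E3 →L[ℝ] ℝ} {c : ℝ} (hl : ∀ x ∈ vert P, l x ≤ c) :
    ∀ x ∈ P, l x ≤ c := fun x hx => hull_le hl x (by rwa [h.hull])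

end IsPolyhedron

lemma left_vert {x y : E3} (h : x ≠ y) : x ∈ extremePoints ℝ (segment ℝ x y) := by
  refine ⟨left_mem_segment _ _ _, ?_⟩
  rintro _ ⟨a1, b1, ha1, hb1, h1, rfl⟩ _ ⟨a2, b2, ha2, hb2, h2, rfl⟩ ⟨a, b, ha, hb, hab, e⟩
  have e1 : a1 = 1 - b1 := by linarith
  have e2 : a2 = 1 - b2 := by linarith
  have e3 : a = 1 - b := by linarith
  have : ((1 - b) * b1 + b * b2) • (y - x) = 0 := by
    rw [e1, e2, e3] at e
    linear_combination (norm := module) e
  rcases smul_eq_zero.1 this with h0 | h0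
  · have hb0 : b1 = 0 := by nlinarith [mul_nonneg hb.le hb2]
    rw [e1, hb0]; simp
  · exact absurd (sub_eq_zero.1 h0).symm h

lemma IsEdge.vert {P : Set E3} {x y : E3} (h : IsEdge P x y) : x ∈ vert P ∧ y ∈ vert P :=
  ⟨h.2.isExtreme.extremePoints_subset_extremePoints (left_vert h.1),
    h.2.isExtreme.extremePoints_subset_extremePoints (segment_symm ℝ y x ▸ left_vert h.1.symm)⟩

/-- The two highest vertices span an edge. -/
lemma edge_of_top {P : Set E3} (h : IsPolyhedron P) {v w : E3} (hv : v ∈ vert P) (hw : w ∈ vert P)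
    (hne : v ≠ w) {l : E3 →L[ℝ] ℝ} (hvw : l w ≤ l v)
    (hl : ∀ z ∈ vert P, z ≠ v → z ≠ w → l z < l w) : IsEdge P v w := by
  obtain ⟨ξ, hξ⟩ := h.expose hw
  have h1 : 0 < ξ w - ξ v := by linarith [hξ v hv hne]
  set s : ℝ := (l v - l w) / (ξ w - ξ v) with hs
  have hs0 : 0 ≤ s := div_nonneg (by linarith) h1.le
  set ζ : E3 →L[ℝ] ℝ := l + s • ξ with hζ
  have hz : ∀ z, ζ z = l z + s * ξ z := fun z => by simp [hζ]
  have e : ζ v = ζ w := by
    rw [hz, hz, hs]; field_simp; ring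
  have hlt : ∀ z ∈ vert P, z ≠ v → z ≠ w → ζ z < ζ w := fun z hz1 a b => by
    rw [hz, hz]
    nlinarith [hl z hz1 a b, hξ z hz1 b]
  have hle : ∀ z ∈ vert P, ζ z ≤ ζ w := fun z hz1 => by
    by_cases a : z = v
    · rw [a, e]
    by_cases b : z = w
    · rw [b]
    exact (hlt z hz1 a b).le
  refine ⟨hne, fun _ => ⟨ζ, ?_⟩⟩
  ext x
  constructor
  · intro hx
    refine ⟨h.convex.segment_subset hv.1 hw.1 hx, fun y hy => (h.le hle y hy).trans ?_⟩
    obtain ⟨a, b, -, -, hab, rfl⟩ := hx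
    rw [map_add, map_smul, map_smul, e, smul_eq_mul, smul_eq_mul, ← add_mul, hab, one_mul]
  · rintro ⟨hx, hx'⟩
    refine face_mem (S := vert P) (convex_segment v w) hle (fun z hz1 hz2 => ?_)
      (by rwa [h.hull]) (le_antisymm (h.le hle x hx) (hx' w hw.1))
    by_cases a : z = v
    · rw [a]; exact left_mem_segment _ _ _
    by_cases b : z = w
    · rw [b]; exact right_mem_segment _ _ _
    exact absurd hz2 (hlt z hz1 a b).ne

lemma IsPolyhedron.mid_hull {P : Set E3} (h : IsPolyhedron P) :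
    mid P = convexHull ℝ (pm (vert P)) := by
  apply Subset.antisymm
  · apply convexHull_mono
    rintro z ⟨x, y, he, rfl⟩
    exact ⟨x, he.vert.1, y, he.vert.2, he.1, rfl⟩
  · rw [← hull_vert (pm_finite h.fin)]
    apply convexHull_mono
    intro m hm
    obtain ⟨l, hl⟩ := exists_expose (pm_finite h.fin) hm
    obtain ⟨v, hv, w, hw, hne, rfl⟩ := vert_sub _ hm
    have a : ∀ z ∈ vert P, z ≠ v → z ≠ w → l z < l w ∧ l z < l v := fun z hz a b => by
      have h1 := hl _ ⟨v, hv, z, hz, a.symm, rfl⟩ fun h' => b (mid_inj h')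
      have h2 := hl _ ⟨w, hw, z, hz, b.symm, rfl⟩ fun h' => a (mid_inj (by
        rw [h', midpoint_comm]))
      rw [map_mid, map_mid] at h1 h2
      constructor <;> linarith
    rcases le_total (l w) (l v) with c | c
    · exact ⟨v, w, edge_of_top h hv hw hne c fun z hz p q => (a z hz p q).1, rfl⟩
    · exact ⟨w, v, edge_of_top h hw hv hne.symm c fun z hz p q => (a z hz q p).2,
        midpoint_comm _ _⟩

lemma vspan_le_pm {S : Set E3} (h : ¬ Collinear ℝ S) : vectorSpan ℝ S ≤ vectorSpan ℝ (pm S) := by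
  rw [vectorSpan_def ℝ S, Submodule.span_le]
  rintro _ ⟨x, hx, y, hy, rfl⟩
  obtain ⟨z, hz, hz'⟩ : ∃ z ∈ S, z ∉ ({x, y} : Set E3) := by
    by_contra hc
    push Not at hc
    exact h ((collinear_pair ℝ x y).subset hc)
  simp only [mem_insert_iff, mem_singleton_iff, not_or] at hz'
  have h1 := vsub_mem_vectorSpan ℝ (s := pm S) ⟨z, hz, x, hx, hz'.1, rfl⟩
    ⟨z, hz, y, hy, hz'.2, rfl⟩
  have e : x -ᵥ y = (2 : ℝ) • (midpoint ℝ z x -ᵥ midpoint ℝ z y) := by
    simp only [mid_eq, vsub_eq_sub]; module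
  show x -ᵥ y ∈ vectorSpan ℝ (pm S)
  rw [e]
  exact Submodule.smul_mem _ _ h1

lemma not_col_pm {S : Set E3} (h : ¬ Collinear ℝ S) : ¬ Collinear ℝ (pm S) := fun hc =>
  h ((Submodule.rank_mono (vspan_le_pm h)).trans hc)

lemma not_col_hull {S : Set E3} (h : ¬ Collinear ℝ (convexHull ℝ S)) : ¬ Collinear ℝ S := by
  intro hc
  apply h
  unfold Collinear at hc ⊢
  rwa [← direction_affineSpan, affineSpan_convexHull, direction_affineSpan]

namespace IsPolyhedron

variable {P : Set E3}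

lemma mid (h : IsPolyhedron P) : IsPolyhedron (mid P) := by
  refine ⟨pm (vert P), pm_finite h.fin, ?_, h.mid_hull⟩
  rw [AffineSubspace.affineSpan_eq_top_iff_vectorSpan_eq_top_of_nonempty]
  · exact top_unique (h.vspan ▸ vspan_le_pm h.not_col)
  · by_contra hc
    rw [not_nonempty_iff_eq_empty] at hc
    exact not_col_pm h.not_col (hc ▸ collinear_empty ℝ E3)

lemma pm_sub (h : IsPolyhedron P) : pm (vert P) ⊆ MP_7fdcdd_gt.mid P :=
  h.mid_hull ▸ subset_convexHull ℝ _

lemma vert_mid (h : IsPolyhedron P) : vert (MP_7fdcdd_gt.mid P) ⊆ pm (vert P) :=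
  h.mid_hull ▸ vert_sub _

lemma mid_sub (h : IsPolyhedron P) : MP_7fdcdd_gt.mid P ⊆ P := by
  rw [h.mid_hull]
  refine convexHull_min ?_ h.convex
  rintro _ ⟨x, hx, y, hy, -, rfl⟩
  exact h.convex.segment_subset hx.1 hy.1 (midpoint_mem_segment x y)

lemma iter (h : IsPolyhedron P) (k : ℕ) : IsPolyhedron (MP_7fdcdd_gt.mid^[k] P) := by
  induction k with
  | zero => exact h
  | succ k ih => rw [Function.iterate_succ_apply']; exact ih.mid

lemma vert_not_mid (h : IsPolyhedron P) {v : E3} (hv : v ∈ vert P) :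
    v ∉ MP_7fdcdd_gt.mid P := by
  obtain ⟨l, hl⟩ := h.expose hv
  rw [h.mid_hull]
  intro hm
  refine absurd (hull_lt (l := l) (c := l v) ?_ v hm) (lt_irrefl _)
  rintro _ ⟨x, hx, y, hy, hne, rfl⟩
  rw [map_mid]
  by_cases a : x = v
  · have := hl y hy (a ▸ hne.symm)
    rw [a]; linarith
  · have h1 := hl x hx a
    by_cases b : y = v
    · rw [b]; linarith
    · linarith [hl y hy b]

lemma kernel_mid (h : IsPolyhedron P) : kernel (MP_7fdcdd_gt.mid P) ⊆ kernel P := by
  intro x hx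
  simp only [kernel, mem_iInter] at hx ⊢
  intro k
  cases k with
  | zero => exact h.mid_sub (hx 0)
  | succ k => exact hx k

lemma kernel_convex (h : IsPolyhedron P) : Convex ℝ (kernel P) :=
  convex_iInter fun k => (h.iter k).convex

lemma kernel_compact (h : IsPolyhedron P) : IsCompact (kernel P) :=
  h.compact.of_isClosed_subset (isClosed_iInter fun k => (h.iter k).compact.isClosed)
    (iInter_subset _ 0)

/-- A two-dimensional face persists. -/
lemma persist (h : IsPolyhedron P) {l : E3 →L[ℝ] ℝ} {c : ℝ} (hl : ∀ x ∈ P, l x ≤ c)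
    (hc : ¬ Collinear ℝ {x ∈ P | l x = c}) :
    ¬ Collinear ℝ {x ∈ MP_7fdcdd_gt.mid P | l x = c} := by
  have h1 : ¬ Collinear ℝ {x ∈ vert P | l x = c} := by
    refine not_col_hull fun h' => hc (h'.subset fun x hx => ?_)
    exact face_mem (S := vert P) (convex_convexHull ℝ _) (fun x hx => hl x hx.1)
      (fun x hx hx' => subset_convexHull ℝ {x ∈ vert P | l x = c} ⟨hx, hx'⟩)
      (by rw [h.hull]; exact hx.1) hx.2
  refine fun h' => not_col_pm h1 (h'.subset ?_)
  rintro _ ⟨x, hx, y, hy, hne, rfl⟩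
  exact ⟨h.pm_sub ⟨x, hx.1, y, hy.1, hne, rfl⟩, by rw [map_mid, hx.2, hy.2]; ring⟩

/-- The kernel touches every facet. -/
lemma touch (h : IsPolyhedron P) {l : E3 →L[ℝ] ℝ} {c : ℝ} (hl : ∀ x ∈ P, l x ≤ c)
    (hc : ¬ Collinear ℝ {x ∈ P | l x = c}) : ∃ k ∈ kernel P, l k = c := by
  have h1 : ∀ k : ℕ, (∀ x ∈ MP_7fdcdd_gt.mid^[k] P, l x ≤ c) ∧
      ¬ Collinear ℝ {x ∈ MP_7fdcdd_gt.mid^[k] P | l x = c} := by
    intro k
    induction k with
    | zero => exact ⟨hl, hc⟩
    | succ k ih =>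
      rw [Function.iterate_succ_apply']
      exact ⟨fun x hx => ih.1 x ((h.iter k).mid_sub hx), (h.iter k).persist ih.1 ih.2⟩
  have hcl : IsClosed {x : E3 | l x = c} := isClosed_eq l.continuous continuous_const
  obtain ⟨x, hx⟩ := IsCompact.nonempty_iInter_of_sequence_nonempty_isCompact_isClosed
    (fun k => {x ∈ MP_7fdcdd_gt.mid^[k] P | l x = c})
    (fun k x hx => ⟨(h.iter k).mid_sub (by
      have := hx.1
      rwa [Function.iterate_succ_apply'] at this), hx.2⟩)
    (fun k => by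
      by_contra h'
      rw [not_nonempty_iff_eq_empty] at h'
      exact (h1 k).2 (h' ▸ collinear_empty ℝ E3))
    (h.compact.inter_right hcl) fun k => (h.iter k).compact.isClosed.inter hcl
  rw [mem_iInter] at hx
  exact ⟨x, mem_iInter.2 fun k => (hx k).1, (hx 0).2⟩

end IsPolyhedron

end Pool.Agent.Lib.MP_7fdcdd_gt
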