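import Mathlib
import Pool.Agent.Lib.MP_7fdcdd_gt.Basic
import Pool.Agent.Lib.MP_7fdcdd_gt.Vol3

set_option autoImplicit false

/-! Checkers for the iterates of a tetrahedron, in integer coordinates. -/

namespace Pool.Agent.Lib.MP_7fdcdd_gt.Tet

open Finset MeasureTheory Module Vol

abbrev Z3 : Type := ℤ × ℤ × ℤ

def dot (n x : Z3) : ℤ := n.1 * x.1 + n.2.1 * x.2.1 + n.2.2 * x.2.2
def add (x y : Z3) : Z3 := (x.1 + y.1, x.2.1 + y.2.1, x.2.2 + y.2.2)
def sub (x y : Z3) : Z3 := (x.1 - y.1, x.2.1 - y.2.1, x.2.2 - y.2.2)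
def det (a b c : Z3) : ℤ :=
  a.1 * (b.2.1 * c.2.2 - b.2.2 * c.2.1) - a.2.1 * (b.1 * c.2.2 - b.2.2 * c.1) +
    a.2.2 * (b.1 * c.2.1 - b.2.1 * c.1)
def eqb (x y : Z3) : Bool := decide (x.1 = y.1) && decide (x.2.1 = y.2.1) && decide (x.2.2 = y.2.2)
def memb (x : Z3) (X : List Z3) : Bool := X.any (fun y => eqb x y)

lemma eqb_iff {x y : Z3} : eqb x y = true ↔ x = y := by
  obtain ⟨a, b, c⟩ := x
  obtain ⟨d, e, f⟩ := y
  simp [eqb, and_assoc]

lemma memb_iff {x : Z3} {X : List Z3} : memb x X = true ↔ x ∈ X := by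
  simp [memb, eqb_iff]

/-- every listed point is strictly exposed by its functional -/
def chkExp (L : List (Z3 × Z3)) : Bool :=
  L.all fun p => L.all fun q => eqb q.1 p.1 || decide (dot p.2 q.1 < dot p.2 p.1)

/-- every point of `Y` is a sum of two distinct points of `X` -/
def chkSum (X Y : List Z3) : Bool :=
  Y.all fun y => X.any fun x => !(eqb x (sub y x)) && memb (sub y x) X

abbrev T4 : Type := Z3 × Z3 × Z3 × Z3

def inTet (t : T4) (p : Z3) : Bool :=
  let b := sub t.2.1 t.1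
  let c := sub t.2.2.1 t.1
  let d := sub t.2.2.2 t.1
  let q := sub p t.1
  let w1 := det q c d
  let w2 := det b q d
  let w3 := det b c q
  decide (0 ≤ w1) && decide (0 ≤ w2) && decide (0 ≤ w3) && decide (w1 + w2 + w3 ≤ det b c d)

def okTet (Y : List Z3) (t : T4) : Bool :=
  memb t.1 Y && memb t.2.1 Y && memb t.2.2.1 Y && memb t.2.2.2 Y &&
    decide (0 < det (sub t.2.1 t.1) (sub t.2.2.1 t.1) (sub t.2.2.2 t.1))

def t0 : T4 := ((0, 0, 0), (0, 0, 0), (0, 0, 0), (0, 0, 0))

def chkRow (T : List T4) (x : Z3) : List Z3 → List ℕ → Bool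
  | [], _ => true
  | _ :: _, [] => false
  | y :: ys, i :: is => decide (i < T.length) && inTet (T.getD i t0) (add x y) && chkRow T x ys is

def chkPairs (T : List T4) : List Z3 → List (List ℕ) → Bool
  | [], _ => true
  | _ :: _, [] => false
  | x :: xs, c :: cs => chkRow T x xs c && chkPairs T xs cs

lemma add_comm' (x y : Z3) : add x y = add y x := by simp [add, add_comm]

lemma chkRow_ok {T : List T4} {x : Z3} : ∀ {ys : List Z3} {is : List ℕ}, chkRow T x ys is = true →
    ∀ y ∈ ys, ∃ t ∈ T, inTet t (add x y) = true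
  | [], _, _ => by simp
  | _ :: _, [], h => by simp [chkRow] at h
  | y :: ys, i :: is, h => by
    simp only [chkRow, Bool.and_eq_true, decide_eq_true_eq] at h
    intro z hz
    rcases List.mem_cons.mp hz with rfl | hz
    · refine ⟨_, ?_, h.1.2⟩
      rw [List.getD_eq_getElem _ _ h.1.1]
      exact List.getElem_mem _
    · exact chkRow_ok h.2 z hz

lemma chkPairs_ok {T : List T4} : ∀ {xs : List Z3} {cs : List (List ℕ)},
    chkPairs T xs cs = true → ∀ x ∈ xs, ∀ y ∈ xs, x ≠ y → ∃ t ∈ T, inTet t (add x y) = true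
  | [], _, _ => by simp
  | _ :: _, [], h => by simp [chkPairs] at h
  | z :: zs, c :: cs, h => by
    simp only [chkPairs, Bool.and_eq_true] at h
    intro x hx y hy hne
    rcases List.mem_cons.mp hx with rfl | hx'
    · rcases List.mem_cons.mp hy with rfl | hy'
      · exact absurd rfl hne
      · exact chkRow_ok h.1 y hy'
    · rcases List.mem_cons.mp hy with rfl | hy'
      · rw [add_comm']; exact chkRow_ok h.1 x hx'
      · exact chkPairs_ok h.2 x hx' y hy' hne

section Real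

variable (b : Basis (Fin 3) ℝ E3) (o : E3)

/-- the vector with integer coordinates `x` in the basis `b` -/
noncomputable def vec (x : Z3) : E3 := (x.1 : ℝ) • b 0 + (x.2.1 : ℝ) • b 1 + (x.2.2 : ℝ) • b 2

noncomputable def pt (s : ℝ) (x : Z3) : E3 := o + s • vec b x

noncomputable def fn (n : Z3) : E3 →L[ℝ] ℝ :=
  LinearMap.toContinuousLinearMap
    ((n.1 : ℝ) • b.coord 0 + (n.2.1 : ℝ) • b.coord 1 + (n.2.2 : ℝ) • b.coord 2)

lemma fn_vec (n x : Z3) : fn b n (vec b x) = dot n x := by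
  simp [fn, vec, dot]

lemma fn_pt (s : ℝ) (n x : Z3) : fn b n (pt b o s x) = fn b n o + s * dot n x := by
  simp [pt, fn_vec]

def pts (s : ℝ) (X : List Z3) : Set E3 := {p | ∃ x ∈ X, p = pt b o s x}

lemma pts_finite (s : ℝ) (X : List Z3) : (pts b o s X).Finite := by
  have : pts b o s X = pt b o s '' {x | x ∈ X} := by
    ext p; simp [pts, eq_comm]
  rw [this]
  exact (List.finite_toSet X).image _

lemma mid_pt (s : ℝ) (x y : Z3) :
    midpoint ℝ (pt b o s x) (pt b o s y) = pt b o (s / 2) (add x y) := by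
  rw [mid_eq]
  simp only [pt, vec, add]
  push_cast
  module

lemma mem_vert {S : Set E3} {x : E3} (hx : x ∈ S) (l : E3 →L[ℝ] ℝ)
    (hl : ∀ z ∈ S, z ≠ x → l z < l x) : x ∈ vert (convexHull ℝ S) := by
  have h1 : ∀ z ∈ S, l z ≤ l x := fun z hz => by
    by_cases h : z = x
    · rw [h]
    · exact (hl z hz h).le
  have h2 : ∀ z ∈ convexHull ℝ S, l z = l x → z = x := fun z hz e =>
    face_mem (C := {x}) (convex_singleton x) h1 (fun w hw e => by
      by_contra h
      exact absurd e (hl w hw h).ne) hz e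
  refine ⟨subset_convexHull ℝ _ hx, ?_⟩
  rintro y hy z hz ⟨a, c, ha, hc, hac, e⟩
  have e1 := hull_le h1 y hy
  have e2 := hull_le h1 z hz
  have e3 : a * l y + c * l z = l x := by rw [← e]; simp
  apply h2 y hy
  by_contra hne
  have : l y < l x := lt_of_le_of_ne e1 hne
  obtain rfl : c = 1 - a := by linarith
  nlinarith

lemma pt_sub (s : ℝ) (x y : Z3) : pt b o s x - pt b o s y = s • vec b (sub x y) := by
  simp only [pt, vec, sub]
  push_cast
  module

lemma cramer (x y z q : Z3) : ((det x y z : ℤ) : ℝ) • vec b q = ((det q y z : ℤ) : ℝ) • vec b x +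
    ((det x q z : ℤ) : ℝ) • vec b y + ((det x y q : ℤ) : ℝ) • vec b z := by
  simp only [vec, det]
  push_cast
  match_scalars <;> ring

lemma inTet_mem {Y : List Z3} {t : T4} {p : Z3} (h1 : okTet Y t = true) (h2 : inTet t p = true)
    (s : ℝ) : pt b o s p ∈ convexHull ℝ (pts b o s Y) := by
  obtain ⟨A, B, C, D⟩ := t
  simp only [okTet, inTet, Bool.and_eq_true, decide_eq_true_eq, memb_iff] at h1 h2
  obtain ⟨⟨⟨⟨mA, mB⟩, mC⟩, mD⟩, hD⟩ := h1
  obtain ⟨⟨⟨w1, w2⟩, w3⟩, w4⟩ := h2
  have hD' : (0 : ℝ) < (det (sub B A) (sub C A) (sub D A) : ℤ) := by exact_mod_cast hD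
  have m : ∀ Z ∈ Y, pt b o s Z ∈ convexHull ℝ (pts b o s Y) :=
    fun Z hZ => subset_convexHull ℝ _ ⟨Z, hZ, rfl⟩
  refine tet_subset (o := pt b o s A)
    (w := ![pt b o s B - pt b o s A, pt b o s C - pt b o s A, pt b o s D - pt b o s A])
    (convex_convexHull ℝ _) (m A mA) (fun i => by fin_cases i <;> simp [m, mB, mC, mD]) ?_
  refine ⟨![(det (sub p A) (sub C A) (sub D A) : ℤ) / (det (sub B A) (sub C A) (sub D A) : ℤ),
    (det (sub B A) (sub p A) (sub D A) : ℤ) / (det (sub B A) (sub C A) (sub D A) : ℤ),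
    (det (sub B A) (sub C A) (sub p A) : ℤ) / (det (sub B A) (sub C A) (sub D A) : ℤ)], ?_, ?_, ?_⟩
  · intro i
    fin_cases i <;> simp only [Fin.reduceFinMk, Matrix.cons_val] <;>
      exact div_nonneg (by exact_mod_cast ‹_›) hD'.le
  · simp only [Fin.sum_univ_three, Matrix.cons_val_zero, Matrix.cons_val_one, Matrix.cons_val]
    rw [← add_div, ← add_div, div_le_one hD']
    exact_mod_cast w4
  · simp only [Fin.sum_univ_three, Matrix.cons_val_zero, Matrix.cons_val_one, Matrix.cons_val]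
    have hne := hD'.ne'
    have h := cramer b (sub B A) (sub C A) (sub D A) (sub p A)
    have e : pt b o s p = pt b o s A + s • vec b (sub p A) := by rw [← pt_sub]; abel
    rw [e, pt_sub, pt_sub, pt_sub]
    generalize ((det (sub B A) (sub C A) (sub D A) : ℤ) : ℝ) = d0 at *
    have e2 : vec b (sub p A) = d0⁻¹ • (d0 • vec b (sub p A)) := by
      rw [smul_smul, inv_mul_cancel₀ hne, one_smul]
    rw [e2, h]
    match_scalars <;> field_simp

/-- one exact step -/
lemma step {s : ℝ} (hs : 0 < s) {L : List (Z3 × Z3)} {Y : List Z3} {T : List T4}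
    {c : List (List ℕ)} (hP : IsPolyhedron (convexHull ℝ (pts b o s (L.map Prod.fst))))
    (h1 : chkExp L = true) (h2 : chkSum (L.map Prod.fst) Y = true)
    (h3 : T.all (okTet Y) = true) (h4 : chkPairs T (L.map Prod.fst) c = true) :
    mid (convexHull ℝ (pts b o s (L.map Prod.fst))) = convexHull ℝ (pts b o (s / 2) Y) := by
  have hv : ∀ x ∈ L.map Prod.fst,
      pt b o s x ∈ vert (convexHull ℝ (pts b o s (L.map Prod.fst))) := by
    intro x hx
    obtain ⟨q, hq, rfl⟩ := List.mem_map.mp hx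
    refine mem_vert ⟨_, hx, rfl⟩ (fn b q.2) ?_
    rintro _ ⟨y, hy, rfl⟩ hne
    obtain ⟨r, hr, rfl⟩ := List.mem_map.mp hy
    simp only [chkExp, List.all_eq_true, Bool.or_eq_true, eqb_iff, decide_eq_true_eq] at h1
    rcases h1 q hq r hr with h | h
    · exact absurd (by rw [h]) hne
    · rw [fn_pt, fn_pt]
      have : (dot q.2 r.1 : ℝ) < dot q.2 q.1 := by exact_mod_cast h
      nlinarith
  have hinj : ∀ x y, pt b o s x = pt b o s y → x = y := by
    intro x y h
    have e : ∀ n, dot n x = dot n y := by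
      intro n
      have := congrArg (fn b n) h
      rw [fn_pt, fn_pt] at this
      have : (dot n x : ℝ) = dot n y := mul_left_cancel₀ hs.ne' (by linarith)
      exact_mod_cast this
    have e1 := e (1, 0, 0)
    have e2 := e (0, 1, 0)
    have e3 := e (0, 0, 1)
    simp [dot] at e1 e2 e3
    exact Prod.ext e1 (Prod.ext e2 e3)
  rw [hP.mid_hull]
  apply Set.Subset.antisymm
  · apply convexHull_min _ (convex_convexHull ℝ _)
    rintro _ ⟨x, hx, y, hy, hne, rfl⟩
    obtain ⟨x, hx', rfl⟩ := vert_sub _ hx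
    obtain ⟨y, hy', rfl⟩ := vert_sub _ hy
    obtain ⟨t, ht, h5⟩ := chkPairs_ok h4 x hx' y hy' (fun h => hne (by rw [h]))
    rw [mid_pt]
    exact inTet_mem b o (List.all_eq_true.mp h3 t ht) h5 _
  · apply convexHull_mono
    rintro _ ⟨y, hy, rfl⟩
    simp only [chkSum, List.all_eq_true, List.any_eq_true, Bool.and_eq_true, memb_iff,
      Bool.not_eq_true'] at h2
    obtain ⟨x, hx, h5, h6⟩ := h2 y hy
    refine ⟨_, hv x hx, _, hv _ h6, fun h => ?_, ?_⟩
    · have := eqb_iff.mpr (hinj _ _ h)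
      rw [h5] at this
      exact absurd this (by simp)
    · rw [mid_pt]
      congr 1
      simp [add, sub]

end Real

/-- functional `n`, top point `t`, bound `s` for the other points -/
def okFn (X : List Z3) (f : Z3 × Z3 × ℤ) : Bool :=
  decide (f.2.2 ≤ dot f.1 f.2.1) && X.all fun x => eqb x f.2.1 || decide (dot f.1 x ≤ f.2.2)

inductive Tr : Type
  | leaf (i : ℕ)
  | rot (t : Tr)
  | cut (a c d : ℕ) (l r : Tr)

def f0 : Z3 × Z3 × ℤ := ((0, 0, 0), (0, 0, 0), 0)

def comb (a c d : ℕ) (r1 r2 : Z3) : Z3 :=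
  ((a * r1.1 + c * r2.1) / d, (a * r1.2.1 + c * r2.2.1) / d, (a * r1.2.2 + c * r2.2.2) / d)

/-- height of the functional above the centre, at scale `4 * q` -/
def ht (q : ℤ) (f : Z3 × Z3 × ℤ) : ℤ := dot f.1 f.2.1 + f.2.2 - q * dot f.1 (1, 1, 1)

def chk (F : List (Z3 × Z3 × ℤ)) (q : ℤ) : Tr → Z3 → Z3 → Z3 → Bool
  | .leaf i, r1, r2, r3 =>
    let f := F.getD i f0
    decide (i < F.length) && decide (0 < ht q f) && decide (0 < dot f.1 r1) &&
      decide (0 < dot f.1 r2) && decide (0 < dot f.1 r3)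
  | .rot t, r1, r2, r3 => chk F q t r2 r3 r1
  | .cut a c d l r, r1, r2, r3 =>
    let m := comb a c d r1 r2
    decide (0 < a) && decide (0 < c) && decide (0 < d) &&
      decide (d * m.1 = a * r1.1 + c * r2.1) && decide (d * m.2.1 = a * r1.2.1 + c * r2.2.1) &&
      decide (d * m.2.2 = a * r1.2.2 + c * r2.2.2) && chk F q l m r2 r3 && chk F q r r1 m r3

def val (F : List (Z3 × Z3 × ℤ)) (q M : ℤ) : Tr → Z3 → Z3 → Z3 → ℤ
  | .leaf i, r1, r2, r3 =>
    let f := F.getD i f0
    let h := ht q f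
    (|det r1 r2 r3| * (h * h * h) * M) / (dot f.1 r1 * dot f.1 r2 * dot f.1 r3) + 1
  | .rot t, r1, r2, r3 => val F q M t r2 r3 r1
  | .cut a c d l r, r1, r2, r3 =>
    let m := comb a c d r1 r2
    val F q M l m r2 r3 + val F q M r r1 m r3

section Real2

variable (b : Basis (Fin 3) ℝ E3)

def cone (c : E3) (r1 r2 r3 : Z3) : Set E3 :=
  {x | ∃ t1 t2 t3 : ℝ, 0 ≤ t1 ∧ 0 ≤ t2 ∧ 0 ≤ t3 ∧
    x = c + t1 • vec b r1 + t2 • vec b r2 + t3 • vec b r3}

lemma det_vec (r1 r2 r3 : Z3) : b.det ![vec b r1, vec b r2, vec b r3] = det r1 r2 r3 := by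
  rw [Basis.det_apply, Matrix.det_fin_three]
  simp [Basis.toMatrix_apply, vec, det]
  ring

lemma cone_bound {F : List (Z3 × Z3 × ℤ)} {q M : ℤ} (hM : 0 < M) {K : Set E3} (hK : volume K ≠ ⊤)
    {c : E3} {s : ℝ} (hs : 0 < s)
    (hF : ∀ f ∈ F, ∀ x ∈ K, fn b f.1 x ≤ fn b f.1 c + s * ht q f) :
    ∀ (t : Tr) (r1 r2 r3 : Z3), chk F q t r1 r2 r3 = true →
      volume.real (K ∩ cone b c r1 r2 r3) ≤
        s ^ 3 / M * val F q M t r1 r2 r3 * volume.real (tet 0 b)
  | .leaf i, r1, r2, r3, h => by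
    simp only [chk, Bool.and_eq_true, decide_eq_true_eq] at h
    obtain ⟨⟨⟨⟨h1, h2⟩, h3⟩, h4⟩, h5⟩ := h
    have hf : F.getD i f0 ∈ F := by
      rw [List.getD_eq_getElem _ _ h1]; exact List.getElem_mem _
    simp only [val]
    generalize F.getD i f0 = f at *
    have g2 : (0 : ℝ) < ht q f := by exact_mod_cast h2
    have g3 : (0 : ℝ) < dot f.1 r1 := by exact_mod_cast h3
    have g4 : (0 : ℝ) < dot f.1 r2 := by exact_mod_cast h4
    have g5 : (0 : ℝ) < dot f.1 r3 := by exact_mod_cast h5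
    have hsub : K ∩ cone b c r1 r2 r3 ⊆ tet c ![(s * ht q f / dot f.1 r1) • vec b r1,
        (s * ht q f / dot f.1 r2) • vec b r2, (s * ht q f / dot f.1 r3) • vec b r3] := by
      rintro x ⟨hx, t1, t2, t3, p1, p2, p3, rfl⟩
      have := hF f hf _ hx
      simp only [map_add, map_smul, fn_vec, smul_eq_mul] at this
      refine ⟨![t1 * dot f.1 r1 / (s * ht q f), t2 * dot f.1 r2 / (s * ht q f),
        t3 * dot f.1 r3 / (s * ht q f)], ?_, ?_, ?_⟩
      · intro i
        fin_cases i <;> simp only [Fin.reduceFinMk, Matrix.cons_val] <;> positivity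
      · simp only [Fin.sum_univ_three, Matrix.cons_val_zero, Matrix.cons_val_one, Matrix.cons_val]
        rw [← add_div, ← add_div, div_le_one (by positivity)]
        linarith
      · simp only [Fin.sum_univ_three, Matrix.cons_val_zero, Matrix.cons_val_one, Matrix.cons_val]
        match_scalars <;> field_simp
    have hfin : volume (tet c ![(s * ht q f / dot f.1 r1) • vec b r1,
        (s * ht q f / dot f.1 r2) • vec b r2, (s * ht q f / dot f.1 r3) • vec b r3]) ≠ ⊤ := by
      apply measure_ne_top_of_subset _ (isCompact_hull {c, c + (s * ht q f / dot f.1 r1) • vec b r1,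
        c + (s * ht q f / dot f.1 r2) • vec b r2,
        c + (s * ht q f / dot f.1 r3) • vec b r3}).measure_lt_top.ne
      apply tet_subset (convex_convexHull ℝ _) (subset_convexHull ℝ _ (by simp))
      intro i
      fin_cases i <;> exact subset_convexHull ℝ _ (by simp)
    refine (measureReal_mono hsub hfin).trans ?_
    rw [vol_tet volume b, det_scale, det_vec, abs_mul, abs_of_pos (by positivity)]
    apply mul_le_mul_of_nonneg_right _ measureReal_nonneg
    have hP : 0 < dot f.1 r1 * dot f.1 r2 * dot f.1 r3 := by positivity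
    have h6 := Int.lt_ediv_add_one_mul_self (|det r1 r2 r3| * (ht q f * ht q f * ht q f) * M) hP
    generalize (|det r1 r2 r3| * (ht q f * ht q f * ht q f) * M) /
      (dot f.1 r1 * dot f.1 r2 * dot f.1 r3) + 1 = v at *
    have h7 : (|(det r1 r2 r3 : ℝ)| * (ht q f * ht q f * ht q f) * M) <
        v * (dot f.1 r1 * dot f.1 r2 * dot f.1 r3) := by exact_mod_cast h6
    have gM : (0 : ℝ) < M := by exact_mod_cast hM
    have e : s * ht q f / dot f.1 r1 * (s * ht q f / dot f.1 r2) * (s * ht q f / dot f.1 r3) *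
        |(det r1 r2 r3 : ℝ)| = s ^ 3 / M * ((|(det r1 r2 r3 : ℝ)| * (ht q f * ht q f * ht q f) * M) /
          (dot f.1 r1 * dot f.1 r2 * dot f.1 r3)) := by field_simp
    rw [e]
    apply mul_le_mul_of_nonneg_left _ (by positivity)
    rw [div_le_iff₀ (by positivity)]
    exact h7.le
  | .rot t, r1, r2, r3, h => by
    have : cone b c r1 r2 r3 = cone b c r2 r3 r1 := by
      ext x
      constructor
      · rintro ⟨t1, t2, t3, p1, p2, p3, rfl⟩
        exact ⟨t2, t3, t1, p2, p3, p1, by abel⟩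
      · rintro ⟨t1, t2, t3, p1, p2, p3, rfl⟩
        exact ⟨t3, t1, t2, p3, p1, p2, by abel⟩
    rw [this]
    exact cone_bound hM hK hs hF t r2 r3 r1 h
  | .cut a e d l r, r1, r2, r3, h => by
    simp only [chk, Bool.and_eq_true, decide_eq_true_eq] at h
    obtain ⟨⟨⟨⟨⟨⟨⟨h1, h2⟩, h3⟩, h4⟩, h5⟩, h6⟩, h7⟩, h8⟩ := h
    have i1 := cone_bound hM hK hs hF l _ _ _ h7
    have i2 := cone_bound hM hK hs hF r _ _ _ h8
    simp only [val]
    generalize comb a e d r1 r2 = m at *
    have g1 : (0 : ℝ) < a := by exact_mod_cast h1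
    have g2 : (0 : ℝ) < e := by exact_mod_cast h2
    have g3 : (0 : ℝ) < d := by exact_mod_cast h3
    have hm : vec b m = ((a : ℝ) / d) • vec b r1 + ((e : ℝ) / d) • vec b r2 := by
      have e4 : (m.1 : ℝ) = (a * r1.1 + e * r2.1) / d := by
        rw [eq_div_iff g3.ne', mul_comm]; exact_mod_cast h4
      have e5 : (m.2.1 : ℝ) = (a * r1.2.1 + e * r2.2.1) / d := by
        rw [eq_div_iff g3.ne', mul_comm]; exact_mod_cast h5
      have e6 : (m.2.2 : ℝ) = (a * r1.2.2 + e * r2.2.2) / d := by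
        rw [eq_div_iff g3.ne', mul_comm]; exact_mod_cast h6
      simp only [vec, e4, e5, e6]
      match_scalars <;> field_simp
    have hsub : K ∩ cone b c r1 r2 r3 ⊆ (K ∩ cone b c m r2 r3) ∪ (K ∩ cone b c r1 m r3) := by
      rintro x ⟨hx, t1, t2, t3, p1, p2, p3, rfl⟩
      by_cases hc : t1 * e ≤ t2 * a
      · left
        refine ⟨hx, t1 * d / a, t2 - t1 * e / a, t3, by positivity, ?_, p3, ?_⟩
        · rw [sub_nonneg, div_le_iff₀ g1]; exact hc
        · rw [hm]; match_scalars <;> (field_simp; try ring)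
      · right
        refine ⟨hx, t1 - t2 * a / e, t2 * d / e, t3, ?_, by positivity, p3, ?_⟩
        · rw [sub_nonneg, div_le_iff₀ g2]; linarith
        · rw [hm]; match_scalars <;> (field_simp; try ring)
    have := measureReal_mono hsub (μ := volume) (measure_union_ne_top
      (measure_ne_top_of_subset Set.inter_subset_left hK)
      (measure_ne_top_of_subset Set.inter_subset_left hK))
    have := measureReal_union_le (μ := volume) (K ∩ cone b c m r2 r3) (K ∩ cone b c r1 m r3)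
    push_cast
    linarith

def sg : List Z3 := [(1, 1, 1), (1, 1, -1), (1, -1, 1), (1, -1, -1), (-1, 1, 1), (-1, 1, -1),
  (-1, -1, 1), (-1, -1, -1)]

def chkAll (F : List (Z3 × Z3 × ℤ)) (q : ℤ) : List Z3 → List Tr → Bool
  | [], _ => true
  | _ :: _, [] => false
  | e :: es, t :: ts => chk F q t (e.1, 0, 0) (0, e.2.1, 0) (0, 0, e.2.2) && chkAll F q es ts

def valAll (F : List (Z3 × Z3 × ℤ)) (q M : ℤ) : List Z3 → List Tr → ℤ
  | [], _ => 0
  | _ :: _, [] => 0
  | e :: es, t :: ts => val F q M t (e.1, 0, 0) (0, e.2.1, 0) (0, 0, e.2.2) + valAll F q M es ts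

lemma all_bound {F : List (Z3 × Z3 × ℤ)} {q M : ℤ} (hM : 0 < M) {K : Set E3} (hK : volume K ≠ ⊤)
    {c : E3} {s : ℝ} (hs : 0 < s)
    (hF : ∀ f ∈ F, ∀ x ∈ K, fn b f.1 x ≤ fn b f.1 c + s * ht q f) :
    ∀ (es : List Z3) (ts : List Tr), chkAll F q es ts = true →
      volume.real {x ∈ K | ∃ e ∈ es, x ∈ cone b c (e.1, 0, 0) (0, e.2.1, 0) (0, 0, e.2.2)} ≤
        s ^ 3 / M * valAll F q M es ts * volume.real (tet 0 b)
  | [], _, _ => by simp [valAll]
  | _ :: _, [], h => by simp [chkAll] at h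
  | e :: es, t :: ts, h => by
    simp only [chkAll, Bool.and_eq_true] at h
    have i1 := cone_bound b hM hK hs hF t _ _ _ h.1
    have i2 := all_bound hM hK hs hF es ts h.2
    have e1 : {x ∈ K | ∃ e' ∈ e :: es, x ∈ cone b c (e'.1, 0, 0) (0, e'.2.1, 0) (0, 0, e'.2.2)} =
        (K ∩ cone b c (e.1, 0, 0) (0, e.2.1, 0) (0, 0, e.2.2)) ∪
        {x ∈ K | ∃ e ∈ es, x ∈ cone b c (e.1, 0, 0) (0, e.2.1, 0) (0, 0, e.2.2)} := by
      ext x
      simp only [List.mem_cons, exists_eq_or_imp, Set.mem_union, Set.mem_inter_iff,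
        Set.mem_ofPred_eq]
      tauto
    rw [e1]
    refine (measureReal_union_le _ _).trans ?_
    simp only [valAll]
    push_cast
    linarith

lemma cover (c x : E3) : ∃ e ∈ sg, x ∈ cone b c (e.1, 0, 0) (0, e.2.1, 0) (0, 0, e.2.2) := by
  have h := b.sum_repr (x - c)
  simp only [Fin.sum_univ_three] at h
  generalize b.repr (x - c) 0 = x1 at h
  generalize b.repr (x - c) 1 = x2 at h
  generalize b.repr (x - c) 2 = x3 at h
  have hx : x = c + (x1 • b 0 + x2 • b 1 + x3 • b 2) := by rw [h]; abel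
  have key : ∀ y : ℝ, ∃ e : ℤ, (e = 1 ∨ e = -1) ∧ y = |y| * e := by
    intro y
    rcases le_total 0 y with h | h
    · exact ⟨1, Or.inl rfl, by simp [abs_of_nonneg h]⟩
    · exact ⟨-1, Or.inr rfl, by simp [abs_of_nonpos h]⟩
  obtain ⟨e1, h1, g1⟩ := key x1
  obtain ⟨e2, h2, g2⟩ := key x2
  obtain ⟨e3, h3, g3⟩ := key x3
  refine ⟨(e1, e2, e3), ?_, |x1|, |x2|, |x3|, abs_nonneg _, abs_nonneg _, abs_nonneg _, ?_⟩
  · rcases h1 with rfl | rfl <;> rcases h2 with rfl | rfl <;> rcases h3 with rfl | rfl <;>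
      simp [sg]
  · rw [hx]
    simp only [vec, Int.cast_zero, zero_smul, add_zero, zero_add, smul_smul, ← g1, ← g2, ← g3]
    abel

/-- final volume bound for one more step -/
theorem last_bound (o : E3) {s : ℝ} (hs : 0 < s) {X : List Z3}
    (hP : IsPolyhedron (convexHull ℝ (pts b o s X))) {F : List (Z3 × Z3 × ℤ)} {q M : ℤ}
    (hM : 0 < M) {ts : List Tr} (h1 : F.all (okFn X) = true) (h2 : chkAll F q sg ts = true) :
    volume.real (mid (convexHull ℝ (pts b o s X))) ≤
      (s / 2) ^ 3 / M * valAll F q M sg ts * volume.real (tet 0 b) := by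
  have := all_bound b hM hP.mid.compact.measure_lt_top.ne (c := pt b o (s / 2) (q, q, q))
    (s := s / 2) (by positivity) (F := F) (q := q) ?_ sg ts h2
  · convert this using 2
    ext x
    simp only [Set.mem_ofPred_eq, iff_self_and]
    exact fun _ => cover b _ x
  · intro f hf
    rw [hP.mid_hull]
    apply hull_le
    rintro _ ⟨x, hx, y, hy, hne, rfl⟩
    obtain ⟨x, hx', rfl⟩ := vert_sub _ hx
    obtain ⟨y, hy', rfl⟩ := vert_sub _ hy
    have h3 := List.all_eq_true.mp h1 f hf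
    simp only [okFn, Bool.and_eq_true, decide_eq_true_eq, List.all_eq_true, Bool.or_eq_true,
      eqb_iff] at h3
    have h4 : dot f.1 (add x y) ≤ dot f.1 f.2.1 + f.2.2 := by
      have e : dot f.1 (add x y) = dot f.1 x + dot f.1 y := by simp only [dot, add]; ring
      have h0 := h3.1
      rcases h3.2 x hx' with a1 | a1 <;> rcases h3.2 y hy' with a2 | a2
      · exact absurd (by rw [a1, a2]) hne
      · rw [e, a1]; omega
      · rw [e, a2]; omega
      · omega
    rw [mid_pt, fn_pt, fn_pt]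
    have h5 : (dot f.1 (add x y) : ℝ) ≤ dot f.1 (q, q, q) + ht q f := by
      have : dot f.1 (q, q, q) + ht q f = dot f.1 f.2.1 + f.2.2 := by simp only [ht, dot]; ring
      exact_mod_cast this ▸ h4
    nlinarith

end Real2

end Pool.Agent.Lib.MP_7fdcdd_gt.Tet
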