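import Mathlib
import Pool.Agent.Lib.MP_7fdcdd_gt.TetChk

set_option autoImplicit false
set_option maxRecDepth 100000

namespace Pool.Agent.Lib.MP_7fdcdd_gt.Tet

def L1 : List (Z3 × Z3) := [
  ((0, 0, 0), (-1, -1, -1)), ((1, 0, 0), (1, 0, 0)), ((0, 1, 0), (0, 1, 0)),
  ((0, 0, 1), (0, 0, 1))]

def Q1 : List T4 := [
  ((0, 0, 1), (1, 0, 0), (0, 1, 0), (1, 1, 0)), ((0, 0, 1), (1, 1, 0), (0, 1, 1), (1, 0, 1))]

def C1 : List (List ℕ) := [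
  [0, 0, 0],
  [0, 1],
  [1],
  []]

def L2 : List (Z3 × Z3) := [
  ((0, 0, 1), (-1, -1, 0)), ((0, 1, 0), (-1, 0, -1)), ((0, 1, 1), (0, 1, 1)),
  ((1, 0, 0), (0, -1, -1)), ((1, 0, 1), (1, 0, 1)), ((1, 1, 0), (1, 1, 0))]

def Q2 : List T4 := [
  ((0, 1, 1), (1, 1, 2), (2, 0, 1), (2, 1, 1)), ((0, 1, 1), (1, 2, 0), (0, 2, 1), (1, 2, 1)),
  ((0, 1, 1), (1, 1, 2), (0, 1, 2), (1, 0, 2)), ((0, 1, 1), (2, 0, 1), (1, 0, 1), (1, 1, 0)),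
  ((0, 1, 1), (2, 0, 1), (1, 1, 0), (2, 1, 0))]

def C2 : List (List ℕ) := [
  [0, 2, 3, 2, 0],
  [1, 3, 0, 1],
  [0, 0, 1],
  [0, 4],
  [0],
  []]

def L3 : List (Z3 × Z3) := [
  ((0, 1, 1), (-2, -1, -1)), ((0, 1, 2), (-1, 0, 1)), ((0, 2, 1), (-1, 1, 0)),
  ((1, 0, 1), (-1, -2, -1)), ((1, 0, 2), (0, -1, 1)), ((1, 1, 0), (-1, -1, -2)),
  ((1, 1, 2), (1, 1, 2)), ((1, 2, 0), (0, 1, -1)), ((1, 2, 1), (1, 2, 1)),
  ((2, 0, 1), (1, -1, 0)), ((2, 1, 0), (1, 0, -1)), ((2, 1, 1), (2, 1, 1))]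

def Q3 : List T4 := [
  ((0, 2, 3), (3, 2, 3), (2, 1, 4), (3, 0, 3)), ((0, 2, 3), (3, 0, 2), (2, 1, 1), (3, 2, 0)),
  ((0, 2, 3), (3, 3, 2), (4, 1, 2), (4, 2, 1)), ((0, 2, 3), (3, 3, 0), (2, 4, 1), (3, 3, 2)),
  ((0, 2, 3), (1, 2, 1), (1, 4, 1), (2, 3, 0)), ((0, 2, 3), (1, 4, 2), (0, 3, 3), (1, 2, 4)),
  ((0, 2, 3), (2, 0, 3), (1, 1, 2), (2, 1, 1)), ((0, 2, 3), (3, 0, 3), (4, 1, 1), (4, 1, 2)),
  ((0, 2, 3), (4, 1, 1), (3, 3, 0), (4, 2, 1)), ((0, 2, 3), (1, 4, 2), (1, 2, 4), (2, 3, 3)),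
  ((0, 2, 3), (1, 4, 1), (0, 3, 2), (0, 3, 3)), ((0, 2, 3), (1, 2, 4), (1, 1, 4), (2, 1, 4))]

def C3 : List (List ℕ) := [
  [0, 10, 6, 6, 4, 0, 4, 3, 1, 1, 2],
  [5, 6, 11, 1, 5, 3, 5, 0, 2, 0],
  [1, 0, 4, 5, 4, 5, 2, 3, 3],
  [6, 1, 0, 1, 2, 1, 1, 7],
  [1, 0, 2, 0, 0, 7, 0],
  [2, 4, 3, 1, 1, 8],
  [3, 9, 0, 2, 0],
  [3, 8, 3, 3],
  [2, 3, 2],
  [7, 2],
  [2],
  []]

def L4 : List (Z3 × Z3) := [
  ((0, 2, 3), (-5, -2, 0)), ((0, 3, 2), (-5, 0, -2)), ((0, 3, 3), (-3, 2, 2)),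
  ((1, 1, 2), (-5, -5, -3)), ((1, 1, 4), (-2, -2, 3)), ((1, 2, 1), (-5, -3, -5)),
  ((1, 2, 4), (0, 2, 5)), ((1, 4, 1), (-2, 3, -2)), ((1, 4, 2), (0, 5, 2)),
  ((2, 0, 3), (-2, -5, 0)), ((2, 1, 1), (-3, -5, -5)), ((2, 1, 4), (2, 0, 5)),
  ((2, 3, 0), (-2, 0, -5)), ((2, 3, 3), (3, 5, 5)), ((2, 4, 1), (2, 5, 0)),
  ((3, 0, 2), (0, -5, -2)), ((3, 0, 3), (2, -3, 2)), ((3, 2, 0), (0, -2, -5)),
  ((3, 2, 3), (5, 3, 5)), ((3, 3, 0), (2, 2, -3)), ((3, 3, 2), (5, 5, 3)),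
  ((4, 1, 1), (3, -2, -2)), ((4, 1, 2), (5, 0, 2)), ((4, 2, 1), (5, 2, 0))]

def Q4 : List T4 := [
  ((0, 5, 5), (8, 3, 3), (7, 5, 1), (7, 5, 3)), ((0, 5, 5), (5, 3, 7), (7, 1, 5), (7, 3, 5)),
  ((0, 5, 5), (7, 5, 3), (6, 5, 5), (7, 3, 5)), ((0, 5, 5), (7, 1, 5), (6, 0, 5), (7, 1, 3)),
  ((0, 5, 5), (5, 6, 0), (3, 7, 1), (3, 8, 2)), ((0, 5, 5), (7, 3, 1), (6, 5, 0), (7, 5, 1)),
  ((0, 5, 5), (5, 0, 5), (3, 1, 5), (3, 2, 3)), ((0, 5, 5), (5, 3, 1), (3, 5, 1), (5, 5, 0)),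
  ((0, 5, 5), (3, 8, 3), (3, 7, 5), (5, 6, 5)), ((0, 5, 5), (5, 1, 7), (3, 2, 8), (3, 1, 7)),
  ((0, 5, 5), (8, 3, 2), (7, 1, 3), (7, 3, 1)), ((0, 5, 5), (3, 5, 7), (5, 3, 7), (5, 5, 6)),
  ((0, 5, 5), (7, 1, 3), (5, 1, 3), (5, 3, 1)), ((0, 5, 5), (7, 5, 1), (5, 7, 1), (5, 7, 3)),
  ((0, 5, 5), (3, 3, 2), (2, 3, 3), (1, 5, 3)), ((0, 5, 5), (8, 3, 2), (8, 2, 3), (7, 1, 3)),
  ((0, 5, 5), (1, 5, 7), (0, 5, 6), (1, 3, 7)), ((0, 5, 5), (1, 7, 3), (0, 6, 5), (1, 7, 5)),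
  ((0, 5, 5), (5, 1, 7), (3, 1, 7), (5, 0, 6)), ((0, 5, 5), (5, 3, 7), (5, 1, 7), (7, 1, 5)),
  ((0, 5, 5), (1, 3, 7), (1, 3, 5), (3, 1, 5)), ((0, 5, 5), (5, 7, 1), (3, 8, 3), (5, 7, 3)),
  ((0, 5, 5), (3, 5, 7), (2, 3, 8), (3, 3, 8)), ((0, 5, 5), (7, 5, 3), (7, 3, 5), (8, 3, 3)),
  ((0, 5, 5), (7, 3, 1), (7, 5, 1), (8, 3, 2)), ((0, 5, 5), (7, 3, 1), (5, 3, 1), (5, 5, 0)),
  ((0, 5, 5), (5, 3, 7), (3, 2, 8), (5, 1, 7)), ((0, 5, 5), (1, 7, 5), (1, 5, 7), (3, 5, 7)),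
  ((0, 5, 5), (7, 3, 5), (7, 1, 5), (8, 2, 3)), ((0, 5, 5), (7, 1, 5), (7, 1, 3), (8, 2, 3)),
  ((0, 5, 5), (6, 5, 5), (5, 5, 6), (5, 3, 7)), ((0, 5, 5), (5, 7, 3), (5, 6, 5), (6, 5, 5)),
  ((0, 5, 5), (8, 3, 3), (8, 3, 2), (7, 5, 1)), ((0, 5, 5), (5, 1, 7), (6, 0, 5), (7, 1, 5)),
  ((0, 5, 5), (3, 5, 1), (1, 5, 3), (1, 7, 3)), ((0, 5, 5), (3, 8, 3), (1, 7, 5), (3, 7, 5)),
  ((0, 5, 5), (5, 1, 3), (3, 3, 2), (5, 3, 1)), ((0, 5, 5), (7, 1, 3), (5, 3, 1), (7, 3, 1)),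
  ((0, 5, 5), (7, 5, 1), (5, 6, 0), (5, 7, 1)), ((0, 5, 5), (7, 5, 1), (5, 7, 3), (7, 5, 3)),
  ((0, 5, 5), (7, 3, 5), (8, 2, 3), (8, 3, 3)), ((0, 5, 5), (7, 1, 3), (5, 0, 5), (5, 1, 3)),
  ((0, 5, 5), (5, 3, 1), (3, 3, 2), (3, 5, 1)), ((0, 5, 5), (3, 5, 7), (3, 3, 8), (5, 3, 7)),
  ((0, 5, 5), (1, 7, 3), (1, 7, 5), (2, 8, 3))]

def C4 : List (List ℕ) := [
  [0, 16, 20, 16, 14, 16, 4, 35, 20, 6, 9, 7, 11, 21, 6, 18, 25, 30, 5, 2, 29, 1, 0],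
  [17, 14, 9, 14, 27, 17, 17, 6, 42, 26, 34, 8, 4, 12, 3, 7, 2, 4, 31, 24, 0, 0],
  [6, 16, 7, 16, 17, 17, 9, 12, 22, 4, 27, 35, 3, 19, 5, 11, 13, 8, 0, 2, 2],
  [20, 14, 9, 7, 0, 6, 6, 18, 42, 1, 5, 6, 6, 36, 1, 25, 0, 12, 3, 10],
  [6, 22, 2, 11, 9, 6, 9, 15, 43, 2, 18, 9, 29, 26, 0, 30, 3, 19, 1],
  [1, 34, 4, 6, 14, 3, 7, 0, 4, 36, 41, 7, 0, 7, 0, 37, 10, 5],
  [8, 27, 9, 3, 22, 0, 11, 8, 33, 26, 0, 11, 2, 11, 1, 1, 2],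
  [44, 15, 7, 2, 4, 8, 4, 24, 0, 4, 31, 4, 21, 5, 0, 13],
  [1, 5, 11, 4, 8, 8, 0, 2, 38, 8, 21, 8, 0, 2, 39],
  [6, 9, 12, 19, 0, 6, 18, 12, 19, 10, 1, 3, 3, 29],
  [3, 7, 0, 5, 12, 41, 7, 28, 25, 32, 12, 10, 10],
  [0, 11, 2, 33, 9, 28, 1, 23, 30, 1, 1, 1],
  [13, 4, 37, 10, 7, 0, 4, 13, 5, 24, 5],
  [8, 1, 1, 0, 11, 39, 8, 23, 2, 2],
  [32, 23, 38, 31, 13, 13, 0, 0, 13],
  [3, 12, 1, 10, 40, 3, 3, 15],
  [10, 1, 15, 1, 3, 1, 28],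
  [0, 5, 0, 5, 10, 5],
  [0, 2, 40, 1, 2],
  [13, 5, 32, 0],
  [0, 2, 0],
  [15, 10],
  [0],
  []]

def L5 : List (Z3 × Z3) := [
  ((0, 5, 5), (-7, -2, -2)), ((0, 5, 6), (-5, 0, 2)), ((0, 6, 5), (-5, 2, 0)),
  ((1, 3, 5), (-7, -5, -2)), ((1, 3, 7), (-5, -3, 2)), ((1, 5, 3), (-7, -2, -5)),
  ((1, 5, 7), (-2, 3, 5)), ((1, 7, 3), (-5, 2, -3)), ((1, 7, 5), (-2, 5, 3)),
  ((2, 3, 3), (-7, -5, -5)), ((2, 3, 8), (-2, 0, 5)), ((2, 8, 3), (-2, 5, 0)),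
  ((3, 1, 5), (-5, -7, -2)), ((3, 1, 7), (-3, -5, 2)), ((3, 2, 3), (-5, -7, -5)),
  ((3, 2, 8), (0, -2, 5)), ((3, 3, 2), (-5, -5, -7)), ((3, 3, 8), (2, 2, 7)),
  ((3, 5, 1), (-5, -2, -7)), ((3, 5, 7), (2, 5, 7)), ((3, 7, 1), (-3, 2, -5)),
  ((3, 7, 5), (2, 7, 5)), ((3, 8, 2), (0, 5, -2)), ((3, 8, 3), (2, 7, 2)),
  ((5, 0, 5), (-2, -7, -2)), ((5, 0, 6), (0, -5, 2)), ((5, 1, 3), (-2, -7, -5)),
  ((5, 1, 7), (3, -2, 5)), ((5, 3, 1), (-2, -5, -7)), ((5, 3, 7), (5, 2, 7)),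
  ((5, 5, 0), (-2, -2, -7)), ((5, 5, 6), (5, 5, 7)), ((5, 6, 0), (0, 2, -5)),
  ((5, 6, 5), (5, 7, 5)), ((5, 7, 1), (3, 5, -2)), ((5, 7, 3), (5, 7, 2)),
  ((6, 0, 5), (2, -5, 0)), ((6, 5, 0), (2, 0, -5)), ((6, 5, 5), (7, 5, 5)),
  ((7, 1, 3), (2, -5, -3)), ((7, 1, 5), (5, -2, 3)), ((7, 3, 1), (2, -3, -5)),
  ((7, 3, 5), (7, 2, 5)), ((7, 5, 1), (5, 3, -2)), ((7, 5, 3), (7, 5, 2)),
  ((8, 2, 3), (5, -2, 0)), ((8, 3, 2), (5, 0, -2)), ((8, 3, 3), (7, 2, 2))]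

def Q5 : List T4 := [
  ((0, 10, 11), (14, 10, 4), (12, 12, 6), (13, 10, 8)),
  ((0, 10, 11), (15, 8, 3), (15, 8, 6), (16, 6, 5)),
  ((0, 10, 11), (13, 10, 1), (12, 12, 2), (14, 10, 4)),
  ((0, 10, 11), (14, 4, 10), (13, 1, 10), (15, 3, 8)),
  ((0, 10, 11), (13, 1, 8), (14, 4, 4), (15, 3, 6)),
  ((0, 10, 11), (13, 8, 10), (14, 4, 10), (15, 6, 8)),
  ((0, 10, 11), (14, 4, 4), (13, 8, 1), (15, 6, 3)),
  ((0, 10, 11), (15, 6, 8), (14, 4, 10), (15, 3, 8)),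
  ((0, 10, 11), (15, 3, 6), (14, 4, 4), (15, 6, 3)),
  ((0, 10, 11), (11, 10, 11), (8, 10, 13), (10, 8, 13)),
  ((0, 10, 11), (12, 6, 2), (10, 8, 1), (11, 10, 0)),
  ((0, 10, 11), (12, 6, 12), (10, 4, 14), (12, 2, 12)),
  ((0, 10, 11), (12, 2, 6), (10, 4, 4), (12, 6, 2)),
  ((0, 10, 11), (8, 13, 1), (8, 15, 3), (10, 13, 1)),
  ((0, 10, 11), (8, 15, 6), (8, 13, 10), (10, 13, 8)),
  ((0, 10, 11), (12, 12, 2), (10, 14, 4), (12, 12, 6)),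
  ((0, 10, 11), (13, 1, 10), (15, 3, 6), (15, 3, 8)),
  ((0, 10, 11), (13, 10, 8), (15, 6, 8), (15, 8, 6)),
  ((0, 10, 11), (15, 6, 3), (13, 10, 1), (15, 8, 3)),
  ((0, 10, 11), (10, 1, 13), (8, 1, 13), (10, 0, 11)),
  ((0, 10, 11), (8, 6, 3), (8, 10, 1), (10, 8, 1)),
  ((0, 10, 11), (10, 1, 8), (10, 4, 4), (12, 2, 6)),
  ((0, 10, 11), (10, 13, 1), (10, 14, 4), (12, 12, 2)),
  ((0, 10, 11), (11, 11, 0), (8, 13, 1), (10, 13, 1)),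
  ((0, 10, 11), (10, 14, 4), (10, 13, 8), (12, 12, 6)),
  ((0, 10, 11), (10, 4, 14), (10, 1, 13), (12, 2, 12)),
  ((0, 10, 11), (15, 8, 6), (15, 6, 8), (16, 5, 6)),
  ((0, 10, 11), (8, 10, 13), (8, 6, 15), (10, 8, 13)),
  ((0, 10, 11), (10, 4, 4), (10, 8, 1), (12, 6, 2)),
  ((0, 10, 11), (10, 8, 13), (10, 4, 14), (12, 6, 12)),
  ((0, 10, 11), (16, 6, 5), (15, 6, 3), (15, 8, 3)),
  ((0, 10, 11), (12, 2, 12), (11, 0, 11), (13, 1, 10)),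
  ((0, 10, 11), (8, 6, 15), (6, 5, 16), (8, 3, 15)),
  ((0, 10, 11), (12, 12, 6), (10, 13, 8), (11, 11, 10)),
  ((0, 10, 11), (12, 6, 12), (12, 2, 12), (14, 4, 10)),
  ((0, 10, 11), (11, 0, 10), (12, 2, 6), (13, 1, 8)),
  ((0, 10, 11), (13, 10, 8), (11, 10, 11), (13, 8, 10)),
  ((0, 10, 11), (8, 3, 6), (6, 5, 5), (8, 6, 3)),
  ((0, 10, 11), (13, 8, 1), (11, 11, 0), (13, 10, 1)),
  ((0, 10, 11), (12, 2, 6), (12, 6, 2), (14, 4, 4)),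
  ((0, 10, 11), (15, 3, 6), (15, 6, 3), (16, 5, 5)),
  ((0, 10, 11), (8, 15, 3), (6, 16, 5), (8, 15, 6)),
  ((0, 10, 11), (15, 8, 3), (14, 10, 4), (15, 8, 6)),
  ((0, 10, 11), (12, 12, 2), (12, 12, 6), (14, 10, 4)),
  ((0, 10, 11), (15, 6, 8), (15, 3, 8), (16, 5, 6)),
  ((0, 10, 11), (15, 6, 3), (13, 8, 1), (13, 10, 1)),
  ((0, 10, 11), (13, 10, 8), (13, 8, 10), (15, 6, 8)),
  ((0, 10, 11), (8, 13, 10), (8, 10, 13), (10, 11, 11)),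
  ((0, 10, 11), (8, 10, 1), (8, 13, 1), (10, 11, 0)),
  ((0, 10, 11), (8, 3, 15), (5, 5, 16), (6, 3, 15)),
  ((0, 10, 11), (4, 4, 10), (3, 6, 8), (5, 5, 6)),
  ((0, 10, 11), (5, 16, 6), (4, 14, 10), (6, 15, 8)),
  ((0, 10, 11), (8, 1, 10), (6, 3, 8), (8, 3, 6)),
  ((0, 10, 11), (13, 1, 10), (13, 1, 8), (15, 3, 6)),
  ((0, 10, 11), (6, 8, 3), (4, 10, 4), (6, 12, 2)),
  ((0, 10, 11), (15, 3, 8), (16, 5, 5), (16, 5, 6)),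
  ((0, 10, 11), (4, 14, 4), (5, 16, 5), (6, 15, 3)),
  ((0, 10, 11), (6, 12, 12), (4, 10, 14), (6, 8, 15)),
  ((0, 10, 11), (13, 8, 10), (12, 6, 12), (14, 4, 10)),
  ((0, 10, 11), (14, 4, 4), (12, 6, 2), (13, 8, 1)),
  ((0, 10, 11), (13, 1, 10), (11, 0, 10), (13, 1, 8)),
  ((0, 10, 11), (10, 4, 14), (8, 3, 15), (10, 1, 13)),
  ((0, 10, 11), (15, 3, 8), (15, 3, 6), (16, 5, 5)),
  ((0, 10, 11), (8, 3, 15), (8, 1, 13), (10, 1, 13)),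
  ((0, 10, 11), (10, 1, 8), (8, 3, 6), (10, 4, 4)),
  ((0, 10, 11), (15, 8, 6), (16, 5, 6), (16, 6, 5)),
  ((0, 10, 11), (14, 4, 10), (12, 2, 12), (13, 1, 10)),
  ((0, 10, 11), (3, 15, 6), (1, 13, 8), (1, 13, 10)),
  ((0, 10, 11), (16, 6, 5), (16, 5, 5), (15, 6, 3)),
  ((0, 10, 11), (13, 1, 8), (12, 2, 6), (14, 4, 4)),
  ((0, 10, 11), (6, 3, 15), (4, 4, 14), (6, 2, 12)),
  ((0, 10, 11), (5, 6, 5), (3, 8, 6), (4, 10, 4)),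
  ((0, 10, 11), (4, 10, 14), (3, 8, 15), (5, 6, 16)),
  ((0, 10, 11), (8, 13, 1), (6, 15, 3), (8, 15, 3)),
  ((0, 10, 11), (10, 8, 1), (8, 10, 1), (10, 11, 0)),
  ((0, 10, 11), (11, 0, 10), (8, 1, 10), (10, 1, 8)),
  ((0, 10, 11), (8, 15, 6), (6, 15, 8), (8, 13, 10)),
  ((0, 10, 11), (5, 16, 6), (3, 15, 8), (4, 14, 10)),
  ((0, 10, 11), (1, 10, 13), (1, 8, 13), (3, 6, 15)),
  ((0, 10, 11), (11, 10, 11), (10, 8, 13), (12, 6, 12)),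
  ((0, 10, 11), (8, 1, 10), (8, 3, 6), (10, 1, 8)),
  ((0, 10, 11), (6, 8, 3), (6, 12, 2), (8, 10, 1)),
  ((0, 10, 11), (6, 2, 12), (4, 4, 10), (6, 3, 8)),
  ((0, 10, 11), (8, 1, 13), (6, 2, 12), (8, 1, 10)),
  ((0, 10, 11), (1, 10, 8), (0, 11, 10), (1, 13, 8)),
  ((0, 10, 11), (6, 12, 12), (6, 8, 15), (8, 10, 13)),
  ((0, 10, 11), (8, 3, 15), (6, 3, 15), (8, 1, 13)),
  ((0, 10, 11), (11, 10, 11), (12, 6, 12), (13, 8, 10)),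
  ((0, 10, 11), (12, 6, 2), (11, 10, 0), (13, 8, 1)),
  ((0, 10, 11), (4, 14, 4), (3, 15, 6), (5, 16, 5)),
  ((0, 10, 11), (13, 10, 1), (14, 10, 4), (15, 8, 3)),
  ((0, 10, 11), (4, 14, 10), (4, 10, 14), (6, 12, 12)),
  ((0, 10, 11), (14, 10, 4), (13, 10, 8), (15, 8, 6)),
  ((0, 10, 11), (12, 12, 6), (11, 11, 10), (13, 10, 8)),
  ((0, 10, 11), (11, 11, 0), (12, 12, 2), (13, 10, 1)),
  ((0, 10, 11), (10, 13, 8), (8, 13, 10), (10, 11, 11)),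
  ((0, 10, 11), (6, 12, 2), (6, 15, 3), (8, 13, 1)),
  ((0, 10, 11), (4, 10, 4), (4, 14, 4), (6, 12, 2)),
  ((0, 10, 11), (6, 15, 8), (6, 12, 12), (8, 13, 10)),
  ((0, 10, 11), (12, 2, 12), (10, 1, 13), (11, 0, 11)),
  ((0, 10, 11), (2, 6, 12), (1, 8, 10), (3, 6, 8)),
  ((0, 10, 11), (6, 3, 8), (6, 5, 5), (8, 3, 6)),
  ((0, 10, 11), (11, 0, 10), (10, 1, 8), (12, 2, 6)),
  ((0, 10, 11), (8, 10, 13), (6, 8, 15), (8, 6, 15)),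
  ((0, 10, 11), (6, 3, 15), (6, 2, 12), (8, 1, 13)),
  ((0, 10, 11), (8, 6, 3), (6, 8, 3), (8, 10, 1)),
  ((0, 10, 11), (6, 2, 12), (6, 3, 8), (8, 1, 10)),
  ((0, 10, 11), (1, 13, 10), (1, 10, 13), (2, 12, 12)),
  ((0, 10, 11), (16, 5, 6), (16, 5, 5), (16, 6, 5)),
  ((0, 10, 11), (10, 13, 1), (8, 15, 3), (10, 14, 4)),
  ((0, 10, 11), (6, 2, 12), (4, 4, 14), (2, 6, 12)),
  ((0, 10, 11), (8, 15, 6), (5, 16, 6), (6, 15, 8)),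
  ((0, 10, 11), (3, 8, 6), (1, 10, 8), (2, 12, 6)),
  ((0, 10, 11), (8, 13, 10), (6, 12, 12), (8, 10, 13)),
  ((0, 10, 11), (10, 14, 4), (8, 15, 6), (10, 13, 8)),
  ((0, 10, 11), (11, 11, 0), (10, 13, 1), (12, 12, 2)),
  ((0, 10, 11), (8, 15, 3), (8, 15, 6), (10, 14, 4)),
  ((0, 10, 11), (8, 6, 3), (5, 6, 5), (6, 8, 3)),
  ((0, 10, 11), (8, 10, 1), (6, 12, 2), (8, 13, 1)),
  ((0, 10, 11), (3, 6, 8), (1, 8, 10), (1, 10, 8)),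
  ((0, 10, 11), (1, 13, 8), (0, 11, 10), (0, 11, 11)),
  ((0, 10, 11), (10, 8, 13), (8, 6, 15), (10, 4, 14)),
  ((0, 10, 11), (3, 6, 15), (1, 8, 13), (2, 6, 12)),
  ((0, 10, 11), (6, 8, 15), (5, 6, 16), (6, 5, 16)),
  ((0, 10, 11), (10, 4, 4), (8, 6, 3), (10, 8, 1)),
  ((0, 10, 11), (6, 15, 3), (5, 16, 5), (6, 16, 5)),
  ((0, 10, 11), (6, 15, 3), (6, 16, 5), (8, 15, 3)),
  ((0, 10, 11), (4, 4, 10), (5, 5, 6), (6, 3, 8)),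
  ((0, 10, 11), (5, 5, 16), (4, 4, 14), (6, 3, 15)),
  ((0, 10, 11), (2, 12, 12), (1, 10, 13), (3, 8, 15)),
  ((0, 10, 11), (5, 5, 16), (3, 6, 15), (4, 4, 14)),
  ((0, 10, 11), (6, 15, 8), (4, 14, 10), (6, 12, 12)),
  ((0, 10, 11), (5, 6, 5), (4, 10, 4), (6, 8, 3)),
  ((0, 10, 11), (3, 15, 6), (1, 13, 10), (3, 15, 8)),
  ((0, 10, 11), (6, 12, 2), (4, 14, 4), (6, 15, 3)),
  ((0, 10, 11), (6, 8, 15), (6, 5, 16), (8, 6, 15)),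
  ((0, 10, 11), (4, 10, 14), (5, 6, 16), (6, 8, 15))]

def C5 : List (List ℕ) := [
  [0, 84, 100, 122, 84, 129, 84, 133, 119, 49, 89, 82, 70, 50, 49, 71, 32, 54, 85, 97, 98, 56,
  41, 75, 19, 64, 25, 20, 29, 74, 9, 48, 33, 13, 114, 35, 10, 36, 69, 3, 59, 5, 2, 0, 40, 30,
  1],
  [120, 100, 78, 112, 78, 67, 107, 50, 78, 77, 82, 70, 101, 49, 37, 72, 81, 57, 96, 91, 41, 51,
  19, 19, 21, 61, 28, 27, 10, 9, 23, 47, 109, 14, 31, 38, 9, 4, 66, 6, 58, 2, 0, 44, 1, 26],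
  [50, 49, 84, 107, 67, 67, 71, 72, 67, 80, 63, 37, 32, 54, 57, 97, 91, 56, 51, 89, 77, 35, 31,
  12, 11, 10, 9, 48, 47, 13, 14, 13, 14, 53, 23, 33, 8, 7, 45, 46, 2, 0, 1, 42, 42],
  [100, 119, 86, 54, 0, 50, 70, 13, 50, 110, 50, 70, 50, 86, 117, 29, 20, 0, 23, 22, 106, 83,
  52, 19, 37, 25, 20, 58, 10, 46, 38, 0, 75, 28, 5, 21, 60, 12, 3, 6, 1, 4, 4, 62],
  [52, 78, 0, 57, 82, 78, 14, 110, 70, 82, 130, 52, 49, 28, 123, 2, 9, 24, 33, 83, 104, 75, 86,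
  21, 32, 59, 27, 45, 9, 0, 36, 19, 6, 29, 60, 25, 4, 11, 1, 5, 3, 55, 3],
  [0, 112, 56, 71, 66, 56, 101, 80, 71, 31, 71, 34, 54, 0, 97, 116, 134, 73, 64, 21, 37, 53,
  105, 7, 81, 0, 118, 15, 23, 22, 21, 74, 0, 12, 4, 10, 1, 38, 2, 6, 6, 18],
  [51, 107, 69, 72, 51, 63, 49, 35, 72, 39, 72, 2, 57, 116, 91, 76, 131, 25, 61, 53, 32, 8,
  103, 2, 85, 15, 113, 24, 95, 25, 2, 9, 3, 11, 1, 79, 0, 36, 5, 17, 5],
  [67, 54, 9, 67, 28, 16, 105, 58, 54, 9, 97, 76, 56, 111, 89, 89, 39, 4, 28, 7, 74, 36, 118,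
  14, 96, 14, 73, 41, 8, 23, 24, 6, 1, 38, 0, 22, 15, 90, 2, 2],
  [10, 57, 77, 16, 29, 59, 103, 10, 57, 73, 91, 125, 51, 77, 77, 3, 34, 8, 29, 38, 9, 13, 113,
  13, 98, 41, 76, 7, 22, 95, 1, 5, 2, 36, 15, 24, 92, 0, 0],
  [19, 48, 127, 106, 50, 19, 71, 31, 132, 7, 81, 2, 48, 23, 52, 80, 37, 35, 37, 3, 105, 26, 20,
  1, 10, 2, 64, 20, 1, 21, 69, 28, 62, 88, 18, 39, 39, 8],
  [47, 104, 128, 19, 49, 35, 72, 8, 136, 0, 85, 33, 47, 63, 86, 31, 32, 4, 32, 68, 103, 1, 27,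
  0, 9, 61, 1, 27, 66, 25, 55, 29, 17, 87, 34, 7, 34],
  [45, 46, 10, 9, 48, 47, 96, 98, 56, 51, 56, 51, 68, 26, 45, 46, 23, 33, 13, 14, 73, 76, 41,
  41, 1, 13, 14, 90, 92, 94, 93, 22, 24, 0, 43, 43],
  [70, 52, 104, 101, 63, 37, 25, 28, 7, 45, 30, 52, 83, 52, 19, 64, 25, 28, 34, 28, 7, 6, 1,
  75, 12, 3, 102, 60, 12, 3, 8, 62, 4, 4, 53],
  [106, 49, 80, 49, 21, 32, 8, 29, 65, 46, 83, 19, 75, 63, 21, 61, 39, 29, 8, 29, 1, 5, 19, 4,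
  11, 60, 99, 4, 11, 62, 7, 3, 16, 3],
  [19, 37, 31, 117, 3, 20, 30, 10, 38, 52, 80, 37, 35, 37, 16, 20, 44, 20, 1, 88, 18, 64, 28,
  55, 21, 35, 12, 53, 59, 8, 69, 39, 4],
  [35, 32, 4, 135, 65, 27, 36, 9, 63, 63, 31, 32, 53, 32, 40, 27, 1, 27, 17, 87, 61, 55, 29,
  31, 25, 16, 11, 7, 58, 66, 3, 34],
  [53, 54, 55, 81, 2, 48, 23, 64, 64, 37, 35, 20, 16, 20, 1, 20, 42, 10, 2, 21, 20, 30, 12, 69,
  28, 8, 88, 45, 39, 59, 6],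
  [55, 57, 0, 85, 33, 47, 61, 61, 31, 32, 16, 27, 1, 27, 42, 27, 0, 9, 25, 65, 27, 66, 11, 7,
  29, 46, 87, 34, 5, 58],
  [0, 54, 22, 96, 73, 21, 12, 124, 4, 20, 1, 20, 0, 48, 43, 23, 22, 12, 74, 2, 12, 8, 10, 30,
  38, 2, 6, 6, 45],
  [24, 57, 76, 98, 11, 25, 3, 121, 1, 27, 0, 9, 43, 47, 24, 95, 11, 0, 9, 7, 11, 26, 79, 0, 36,
  5, 46, 5],
  [41, 56, 126, 59, 8, 10, 1, 74, 0, 48, 24, 13, 24, 13, 109, 6, 23, 15, 6, 30, 38, 0, 115, 15,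
  18, 2, 2],
  [111, 51, 7, 58, 1, 79, 2, 9, 22, 47, 22, 14, 114, 14, 5, 15, 95, 26, 5, 0, 36, 15, 33, 17,
  0, 0],
  [41, 30, 1, 45, 17, 23, 93, 13, 14, 13, 14, 13, 41, 30, 13, 24, 18, 42, 94, 0, 22, 15, 2, 2,
  43],
  [1, 26, 18, 46, 94, 33, 13, 14, 13, 14, 41, 14, 65, 22, 14, 42, 17, 2, 93, 15, 24, 0, 43, 0],
  [19, 21, 99, 21, 25, 12, 34, 39, 7, 8, 26, 35, 39, 3, 35, 60, 69, 3, 8, 55, 53, 4, 16],
  [102, 19, 21, 25, 39, 11, 8, 34, 68, 7, 31, 4, 34, 60, 31, 4, 66, 62, 7, 16, 16, 3],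
  [60, 12, 3, 28, 7, 10, 26, 6, 30, 102, 12, 44, 12, 4, 12, 16, 6, 40, 4, 4, 4],
  [4, 11, 8, 29, 68, 79, 26, 5, 99, 40, 11, 3, 11, 16, 11, 44, 5, 3, 3, 3],
  [62, 10, 1, 10, 42, 38, 2, 12, 10, 1, 12, 4, 10, 40, 6, 18, 6, 6, 6],
  [1, 9, 42, 9, 0, 36, 11, 1, 79, 3, 11, 44, 11, 17, 5, 5, 5, 5],
  [0, 48, 43, 23, 22, 39, 10, 2, 59, 8, 88, 30, 38, 2, 6, 45, 18],
  [43, 47, 24, 33, 34, 0, 9, 7, 58, 65, 87, 0, 36, 5, 17, 46],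
  [15, 13, 22, 6, 23, 43, 6, 30, 38, 42, 94, 2, 18, 18, 90],
  [24, 14, 5, 43, 33, 26, 5, 42, 36, 0, 93, 17, 92, 17],
  [15, 68, 115, 15, 18, 1, 2, 0, 2, 15, 90, 2, 2],
  [26, 15, 33, 1, 17, 2, 0, 15, 0, 92, 0, 0],
  [8, 7, 4, 3, 4, 3, 40, 44, 16, 16, 16],
  [0, 6, 40, 6, 1, 2, 2, 18, 18, 18],
  [44, 5, 1, 5, 0, 0, 17, 17, 17],
  [16, 4, 44, 40, 108, 4, 8, 62],
  [40, 3, 108, 44, 3, 55, 7],
  [108, 18, 1, 8, 6, 68],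
  [1, 17, 7, 26, 5],
  [0, 30, 1, 1],
  [65, 1, 1],
  [40, 26],
  [1],
  []]

def XL : List Z3 := [
  (0, 10, 11), (0, 11, 10), (0, 11, 11), (1, 8, 10), (1, 8, 13), (1, 10, 8), (1, 10, 13),
  (1, 13, 8), (1, 13, 10), (2, 6, 12), (2, 12, 6), (2, 12, 12), (3, 6, 8), (3, 6, 15),
  (3, 8, 6), (3, 8, 15), (3, 15, 6), (3, 15, 8), (4, 4, 10), (4, 4, 14), (4, 10, 4),
  (4, 10, 14), (4, 14, 4), (4, 14, 10), (5, 5, 6), (5, 5, 16), (5, 6, 5), (5, 6, 16),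
  (5, 16, 5), (5, 16, 6), (6, 2, 12), (6, 3, 8), (6, 3, 15), (6, 5, 5), (6, 5, 16), (6, 8, 3),
  (6, 8, 15), (6, 12, 2), (6, 12, 12), (6, 15, 3), (6, 15, 8), (6, 16, 5), (8, 1, 10),
  (8, 1, 13), (8, 3, 6), (8, 3, 15), (8, 6, 3), (8, 6, 15), (8, 10, 1), (8, 10, 13),
  (8, 13, 1), (8, 13, 10), (8, 15, 3), (8, 15, 6), (10, 0, 11), (10, 1, 8), (10, 1, 13),
  (10, 4, 4), (10, 4, 14), (10, 8, 1), (10, 8, 13), (10, 11, 0), (10, 11, 11), (10, 13, 1),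
  (10, 13, 8), (10, 14, 4), (11, 0, 10), (11, 0, 11), (11, 10, 0), (11, 10, 11), (11, 11, 0),
  (11, 11, 10), (12, 2, 6), (12, 2, 12), (12, 6, 2), (12, 6, 12), (12, 12, 2), (12, 12, 6),
  (13, 1, 8), (13, 1, 10), (13, 8, 1), (13, 8, 10), (13, 10, 1), (13, 10, 8), (14, 4, 4),
  (14, 4, 10), (14, 10, 4), (15, 3, 6), (15, 3, 8), (15, 6, 3), (15, 6, 8), (15, 8, 3),
  (15, 8, 6), (16, 5, 5), (16, 5, 6), (16, 6, 5)]

def FL : List (Z3 × Z3 × ℤ) := [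
  ((1, 2, 1), (10, 13, 8), 44), ((-2, -1, -1), (3, 8, 6), -20), ((1, 1, 2), (10, 8, 13), 44),
  ((-1, -1, -2), (10, 8, 1), -20), ((-1, -2, -1), (10, 1, 8), -20),
  ((2, 1, 1), (15, 8, 6), 44), ((0, 1, -1), (10, 13, 1), 12), ((1, 0, -1), (15, 8, 3), 12),
  ((1, -1, 0), (15, 3, 8), 12), ((0, -1, 1), (10, 1, 13), 12), ((-1, 0, 1), (3, 8, 15), 12),
  ((-1, 1, 0), (3, 15, 8), 12), ((12, 7, 16), (10, 8, 13), 378), ((1, 4, -2), (8, 15, 3), 60),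
  ((2, -1, -4), (13, 8, 1), 12), ((4, -2, 1), (15, 3, 8), 60), ((-1, -4, 2), (8, 1, 13), 12),
  ((-2, 1, 4), (3, 8, 15), 60), ((-4, 2, -1), (1, 13, 8), 12), ((3, 2, 6), (8, 6, 15), 124),
  ((-7, -16, -12), (8, 3, 6), -182), ((2, 2, 1), (13, 10, 8), 54),
  ((6, 3, 2), (15, 8, 6), 124), ((-2, -6, -3), (10, 1, 8), -52),
  ((-12, -7, -16), (6, 8, 3), -182), ((12, 16, 7), (10, 13, 8), 378),
  ((4, 3, 6), (10, 8, 13), 140), ((2, 1, 2), (13, 8, 10), 54), ((3, 6, 2), (8, 15, 6), 124),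
  ((-2, -3, -6), (10, 8, 1), -52), ((-3, -6, -4), (8, 3, 6), -68),
  ((-6, -3, -2), (1, 8, 10), -52), ((-6, -2, -3), (1, 10, 8), -52),
  ((2, 6, 3), (6, 15, 8), 124), ((-2, -1, -2), (6, 8, 3), -26),
  ((-3, -2, -6), (8, 10, 1), -52), ((1, 0, -2), (13, 10, 1), 11),
  ((-1, -2, -2), (10, 4, 4), -26), ((-2, 1, 0), (1, 13, 10), 11),
  ((-16, -7, -12), (3, 8, 6), -182), ((0, 2, -1), (8, 15, 3), 27),
  ((4, 6, 3), (10, 13, 8), 140), ((1, 2, 2), (10, 11, 11), 54), ((-1, 2, -4), (8, 13, 1), 12),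
  ((-9, -4, -16), (8, 10, 1), -134), ((3, 1, -3), (13, 10, 1), 44),
  ((16, 9, 4), (15, 8, 6), 330), ((4, 1, -2), (15, 8, 3), 60), ((6, 2, 3), (15, 6, 8), 124),
  ((2, -4, -1), (13, 1, 8), 12), ((-4, -16, -9), (10, 1, 8), -134),
  ((-3, -6, -2), (8, 1, 10), -52), ((9, 4, 16), (8, 6, 15), 330), ((1, -2, 4), (8, 3, 15), 60),
  ((2, 3, 6), (6, 8, 15), 124), ((-4, -1, 2), (1, 8, 13), 12),
  ((-16, -9, -4), (1, 8, 10), -134), ((-3, 3, 1), (1, 13, 10), 44),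
  ((4, 16, 9), (6, 15, 8), 330), ((-2, 4, 1), (3, 15, 8), 60), ((-1, 3, -3), (6, 15, 3), 28),
  ((7, 16, 12), (8, 13, 10), 378), ((5, 12, -4), (8, 15, 3), 202),
  ((-1, 0, -2), (10, 11, 0), -10), ((-5, 4, -12), (8, 13, 1), -6),
  ((9, 5, -7), (13, 10, 1), 154), ((12, 5, -4), (15, 8, 3), 202),
  ((4, -5, -12), (13, 8, 1), -6), ((2, 1, 0), (16, 6, 5), 38), ((12, -4, 5), (15, 3, 8), 202),
  ((0, -2, -1), (13, 1, 8), -10), ((4, -12, -5), (13, 1, 8), -6),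
  ((5, -7, 9), (10, 1, 13), 154), ((1, -3, 3), (10, 1, 13), 44), ((0, -2, 1), (11, 0, 11), 11),
  ((5, -4, 12), (8, 3, 15), 202), ((-5, -12, 4), (8, 1, 13), -6), ((1, 0, 2), (10, 4, 14), 38),
  ((7, -9, -5), (15, 3, 6), 42), ((3, -3, -1), (15, 3, 6), 28), ((2, -1, 0), (16, 5, 6), 27),
  ((-4, 5, 12), (3, 8, 15), 202), ((-2, -1, 0), (2, 6, 12), -10),
  ((-12, -5, 4), (1, 8, 13), -6), ((-7, 9, 5), (1, 13, 10), 154),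
  ((-4, 12, 5), (3, 15, 8), 202), ((-12, 4, -5), (1, 13, 8), -6), ((0, 2, 1), (6, 15, 8), 38),
  ((-5, 7, -9), (6, 15, 3), 42), ((-2, -2, -1), (6, 3, 8), -26),
  ((-16, -12, -7), (3, 6, 8), -182), ((-9, -5, 7), (3, 6, 15), 42),
  ((-3, -1, 3), (3, 6, 15), 28), ((-1, 0, 2), (5, 6, 16), 27), ((6, 4, 3), (13, 10, 8), 140),
  ((16, 7, 12), (13, 8, 10), 378), ((16, 12, 7), (13, 10, 8), 378),
  ((1, -2, 0), (13, 1, 10), 11), ((2, 0, -1), (16, 6, 5), 27), ((-4, -3, -6), (6, 8, 3), -68),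
  ((0, -1, 2), (8, 3, 15), 27), ((-6, -4, -3), (3, 6, 8), -68), ((-2, -3, -2), (8, 3, 6), -37),
  ((-6, -3, -4), (3, 8, 6), -68), ((-2, -3, -3), (6, 5, 5), -43),
  ((2, 3, 2), (11, 11, 10), 75), ((2, 3, 3), (10, 11, 11), 85), ((2, 2, 3), (11, 10, 11), 75),
  ((9, 16, 4), (8, 15, 6), 330), ((-4, -9, -16), (10, 8, 1), -134),
  ((16, 4, 9), (15, 6, 8), 330), ((-9, -16, -4), (8, 1, 10), -134),
  ((4, 9, 16), (6, 8, 15), 330), ((-16, -4, -9), (1, 10, 8), -134),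
  ((3, 6, 4), (8, 13, 10), 140), ((3, 2, 2), (13, 10, 8), 75), ((3, 3, 2), (11, 11, 10), 85),
  ((1, 2, 0), (10, 14, 4), 38), ((0, 1, -2), (11, 11, 0), 11), ((0, -1, -2), (13, 8, 1), -10),
  ((2, 0, 1), (16, 5, 6), 38), ((-1, -2, 0), (10, 0, 11), -10), ((0, 1, 2), (6, 8, 15), 38),
  ((-2, 0, 1), (1, 10, 13), 11), ((-2, 0, -1), (2, 12, 6), -10), ((-1, 2, 0), (5, 16, 6), 27),
  ((-1, 0, -3), (10, 11, 0), -11), ((1, 1, -1), (13, 10, 1), 22),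
  ((1, 1, -2), (11, 11, 0), 21), ((1, -1, 1), (13, 1, 10), 22), ((1, -1, -1), (16, 5, 5), 6),
  ((-3, -1, 0), (0, 10, 11), -11), ((-1, 1, 1), (2, 12, 12), 22),
  ((-2, 1, 1), (0, 11, 11), 21), ((0, 3, 1), (5, 16, 6), 53), ((-1, 1, -1), (6, 15, 3), 6),
  ((-1, 2, -1), (5, 16, 5), 21), ((-1, -1, 1), (6, 3, 15), 6), ((-3, -3, -2), (5, 5, 6), -43),
  ((7, 12, 16), (8, 10, 13), 378), ((6, 3, 4), (13, 8, 10), 140),
  ((-1, -1, -3), (11, 10, 0), -21), ((0, -1, -3), (11, 10, 0), -11),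
  ((0, -3, -1), (11, 0, 10), -11), ((-1, -3, -1), (11, 0, 10), -21),
  ((-1, -3, 0), (10, 0, 11), -11), ((-7, -12, -16), (8, 6, 3), -182),
  ((3, 1, 0), (16, 6, 5), 53), ((3, 1, 1), (16, 6, 5), 59), ((3, 0, 1), (16, 5, 6), 53),
  ((-3, -1, -1), (1, 10, 8), -21), ((-3, 0, -1), (0, 11, 10), -11),
  ((1, 3, 1), (8, 15, 6), 59), ((1, 3, 0), (6, 16, 5), 53), ((-12, -16, -7), (6, 3, 8), -182),
  ((1, 0, 3), (6, 5, 16), 53), ((1, 1, 3), (8, 6, 15), 59), ((0, 1, 3), (5, 6, 16), 53),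
  ((-3, -2, -2), (5, 6, 5), -37), ((-2, -2, -3), (8, 6, 3), -37),
  ((3, 4, 6), (8, 10, 13), 140), ((5, 9, -7), (10, 13, 1), 154), ((1, 3, -3), (10, 13, 1), 44),
  ((9, -7, 5), (13, 1, 10), 154), ((3, -3, 1), (13, 1, 10), 44), ((1, -2, 1), (11, 0, 11), 21),
  ((7, -5, -9), (15, 6, 3), 42), ((3, -1, -3), (15, 6, 3), 28), ((2, -1, -1), (16, 5, 5), 21),
  ((-7, 5, 9), (1, 10, 13), 154), ((-3, 1, 3), (1, 10, 13), 44), ((-9, 7, -5), (3, 15, 6), 42),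
  ((-3, 3, -1), (3, 15, 6), 28), ((-5, -9, 7), (6, 3, 15), 42), ((-1, -3, 3), (6, 3, 15), 28),
  ((-1, -1, 2), (5, 5, 16), 21), ((3, 4, 1), (12, 12, 6), 90), ((4, 3, 1), (15, 8, 6), 90),
  ((4, 1, 3), (15, 6, 8), 90), ((3, 1, 4), (12, 6, 12), 90), ((-1, -3, -4), (12, 6, 2), -38),
  ((-3, -4, -6), (8, 6, 3), -68), ((-1, -4, -3), (12, 2, 6), -38),
  ((1, 3, 4), (8, 10, 13), 90), ((1, 4, 3), (8, 13, 10), 90), ((-4, -1, -3), (4, 10, 4), -38),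
  ((-3, -1, -4), (8, 10, 1), -38), ((-3, -4, -1), (8, 1, 10), -38),
  ((-4, -6, -3), (6, 3, 8), -68), ((-4, -3, -1), (4, 4, 10), -38),
  ((4, 4, 1), (12, 12, 6), 100), ((4, 1, 4), (12, 6, 12), 100),
  ((-1, -4, -4), (10, 4, 4), -44), ((1, 4, 4), (6, 12, 12), 100),
  ((-4, -1, -4), (4, 10, 4), -44), ((-4, -4, -1), (4, 4, 10), -44),
  ((2, 3, -1), (12, 12, 2), 58), ((3, 2, -1), (15, 8, 3), 58), ((0, 0, -1), (11, 11, 0), 0),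
  ((3, -1, 2), (15, 3, 8), 58), ((2, -1, 3), (12, 2, 12), 58), ((1, -2, -3), (15, 6, 3), -6),
  ((1, -3, -2), (15, 3, 6), -6), ((-1, 2, 3), (4, 10, 14), 58), ((-1, 3, 2), (4, 14, 10), 58),
  ((-1, 0, 0), (0, 11, 11), 0), ((-3, 1, -2), (4, 14, 4), -6), ((-2, 1, -3), (8, 13, 1), -6),
  ((0, 1, 0), (6, 16, 5), 16), ((-2, -3, 1), (8, 1, 13), -6), ((-3, -2, 1), (4, 4, 14), -6),
  ((3, 2, 3), (11, 10, 11), 85), ((3, 4, 0), (10, 14, 4), 84), ((1, 1, 0), (14, 10, 4), 24),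
  ((3, 3, -1), (12, 12, 2), 68), ((4, 3, 0), (14, 10, 4), 84), ((4, 0, 3), (14, 4, 10), 84),
  ((1, 0, 1), (14, 4, 10), 24), ((3, -1, 3), (12, 2, 12), 68), ((3, 0, 4), (10, 4, 14), 84),
  ((0, -3, -4), (12, 6, 2), -28), ((0, -1, -1), (14, 4, 4), -8),
  ((1, -3, -3), (14, 4, 4), -12), ((0, -4, -3), (12, 2, 6), -28), ((0, 3, 4), (4, 10, 14), 84),
  ((0, 1, 1), (6, 12, 12), 24), ((-1, 3, 3), (2, 12, 12), 68), ((0, 4, 3), (4, 14, 10), 84),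
  ((-4, 0, -3), (2, 12, 6), -28), ((-1, 0, -1), (6, 12, 2), -8),
  ((-3, 1, -3), (4, 14, 4), -12), ((-3, 0, -4), (6, 12, 2), -28),
  ((-3, -4, 0), (6, 2, 12), -28), ((-1, -1, 0), (6, 2, 12), -8),
  ((-3, -3, 1), (4, 4, 14), -12), ((-4, -3, 0), (2, 6, 12), -28),
  ((-3, -2, -3), (5, 6, 5), -43), ((1, 1, 1), (11, 11, 10), 32), ((0, -1, 0), (11, 0, 11), 0),
  ((1, 0, 0), (16, 6, 5), 16), ((0, 0, 1), (6, 5, 16), 16), ((-1, -1, -1), (6, 5, 5), -16)]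

def tr0 : Tr :=
  (.cut 5 11 1 (.rot (.cut 20 7 1 (.rot (.cut 187 20 1 (.rot (.cut 37 26 1 (.rot (.cut 9 1 50
  (.rot (.cut 3553 312 1 (.cut 1 144239 187 (.rot (.cut 1 1 187 (.leaf 105) (.rot (.rot (.cut 1
  8214 19 (.leaf 0) (.leaf 41)))))) (.leaf 105)) (.leaf 106))) (.rot (.cut 1 1 187 (.rot (.cut
  1 1 1 (.leaf 114) (.leaf 0))) (.leaf 114))))) (.rot (.cut 773 19 1 (.rot (.cut 43 2319 187
  (.cut 23 555 43 (.rot (.cut 5320415 23 1 (.leaf 41) (.leaf 25))) (.leaf 41)) (.cut 817 312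
  773 (.leaf 105) (.rot (.rot (.cut 312 2740541 773 (.leaf 106) (.leaf 105))))))) (.rot (.cut
  23 5320415 1 (.rot (.cut 6793 23 26 (.cut 1 8621 6793 (.rot (.cut 175762617 1 1 (.leaf 41)
  (.leaf 0))) (.leaf 41)) (.leaf 25))) (.rot (.cut 1 175762617 1 (.rot (.cut 8214 1 19 (.leaf
  41) (.leaf 0))) (.leaf 41))))))))) (.cut 1833 11 10 (.rot (.cut 1 9 50 (.rot (.cut 4116 101 1
  (.cut 1 1222 147 (.cut 159 11309 56 (.rot (.cut 43 53 6 (.leaf 106) (.leaf 107))) (.leaf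
  106)) (.leaf 42)) (.leaf 61))) (.rot (.cut 53 43 6 (.rot (.cut 785 53 3666 (.leaf 106) (.leaf
  107))) (.leaf 106))))) (.rot (.rot (.cut 11 263 20 (.cut 2 87 11 (.rot (.cut 887 1 22 (.cut
  73 37 887 (.rot (.cut 37 219 2 (.leaf 160) (.leaf 107))) (.leaf 160)) (.leaf 2))) (.cut 37
  101 87 (.rot (.cut 219 37 2 (.rot (.cut 74 219 1 (.leaf 160) (.leaf 107))) (.leaf 160)))
  (.rot (.rot (.cut 1 3 55 (.leaf 139) (.rot (.rot (.cut 219 74 1 (.leaf 107) (.leaf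
  160))))))))) (.cut 168 101 263 (.rot (.cut 3 1 55 (.rot (.cut 1 3 1 (.leaf 42) (.cut 258 53 1
  (.leaf 106) (.leaf 107)))) (.leaf 42))) (.rot (.rot (.cut 101 4116 1 (.leaf 61) (.cut 1222 1
  147 (.leaf 42) (.rot (.rot (.cut 3 1 1 (.cut 53 258 1 (.rot (.cut 11309 159 56 (.leaf 106)
  (.leaf 107))) (.leaf 106)) (.leaf 42))))))))))))))) (.rot (.cut 33 47 1 (.rot (.cut 2 33 5
  (.leaf 0) (.cut 37 23 33 (.leaf 41) (.rot (.rot (.cut 23 8621 33 (.leaf 25) (.leaf 41)))))))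
  (.cut 48 37 47 (.leaf 0) (.rot (.rot (.cut 37 2 7 (.leaf 114) (.leaf 0))))))))) (.rot (.rot
  (.cut 11 5 1 (.cut 15 233 11 (.rot (.cut 185 7 11 (.rot (.cut 526 185 1 (.rot (.cut 74 171 1
  (.rot (.cut 329 2 2775 (.rot (.cut 14991 4277 37 (.leaf 115) (.leaf 116))) (.leaf 94))) (.cut
  29 2 3 (.rot (.cut 4277 14991 37 (.rot (.cut 3249 1222 1 (.leaf 115) (.leaf 116))) (.leaf
  115))) (.rot (.rot (.cut 57 34691 526 (.cut 104 6845 57 (.rot (.cut 6845 26 57 (.leaf 140)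
  (.leaf 95))) (.leaf 140)) (.cut 35739 17108 34691 (.leaf 115) (.rot (.rot (.cut 1222 3249 1
  (.leaf 116) (.leaf 115))))))))))) (.rot (.cut 2 329 2775 (.rot (.cut 132 101 185 (.cut 3 14
  11 (.rot (.cut 7 3 1 (.leaf 21) (.leaf 25))) (.leaf 21)) (.leaf 96))) (.rot (.rot (.cut 8883
  32 185 (.leaf 116) (.cut 2737 9 4 (.leaf 21) (.rot (.rot (.cut 3 7 1 (.leaf 25) (.leaf
  21)))))))))))) (.rot (.cut 109 47 1 (.rot (.cut 2 109 15 (.rot (.cut 348 1 1 (.rot (.cut 1 29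
  763 (.leaf 5) (.leaf 94))) (.leaf 5))) (.cut 37 104 109 (.rot (.cut 29 1 763 (.rot (.cut 2 29
  1 (.leaf 140) (.cut 57 1 1 (.leaf 115) (.leaf 94)))) (.leaf 140))) (.rot (.rot (.cut 52 13579
  109 (.leaf 95) (.cut 370 29 367 (.leaf 140) (.rot (.rot (.cut 29 2 1 (.cut 1 57 1 (.rot (.cut
  57 1 37 (.leaf 115) (.leaf 94))) (.leaf 115)) (.leaf 140))))))))))) (.rot (.cut 1 348 1 (.rot
  (.cut 37 2 7 (.leaf 94) (.leaf 5))) (.leaf 94))))))) (.rot (.rot (.cut 233 185 11 (.cut 5 43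
  233 (.cut 32 43 5 (.rot (.cut 311 36 233 (.rot (.cut 140 311 1 (.cut 27 4343 140 (.rot (.cut
  101 135 4 (.leaf 12) (.leaf 26))) (.leaf 12)) (.cut 8568 1 311 (.leaf 27) (.rot (.rot (.cut
  53 168 311 (.leaf 95) (.leaf 27))))))) (.rot (.cut 135 101 4 (.rot (.cut 23 135 32 (.leaf 12)
  (.leaf 26))) (.leaf 12))))) (.rot (.rot (.cut 1 2 1 (.rot (.rot (.cut 13 5 233 (.leaf 211)
  (.rot (.rot (.cut 5 57 43 (.leaf 26) (.leaf 107))))))) (.cut 56 53 1 (.rot (.cut 5 13 233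
  (.rot (.cut 1311 5 1 (.leaf 27) (.cut 8686 27 1 (.leaf 12) (.leaf 26)))) (.leaf 27))) (.rot
  (.rot (.cut 1 28 1 (.leaf 95) (.cut 306 5 1 (.leaf 27) (.rot (.rot (.cut 5 1311 1 (.cut 27
  8686 1 (.rot (.cut 4343 27 140 (.leaf 12) (.leaf 26))) (.leaf 12)) (.leaf 27)))))))))))))
  (.rot (.rot (.cut 16 5 233 (.rot (.cut 1 5 43 (.leaf 237) (.rot (.rot (.cut 25 43 16 (.leaf
  105) (.leaf 116)))))) (.cut 1 2 5 (.leaf 211) (.rot (.rot (.cut 2 1 1 (.cut 53 56 1 (.leaf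
  95) (.leaf 27)) (.leaf 211))))))))) (.rot (.cut 5 16 233 (.rot (.cut 233 570 1 (.cut 32 14147
  233 (.rot (.cut 43 32 1 (.leaf 116) (.cut 49 9 4 (.leaf 21) (.rot (.rot (.cut 9 2737 4 (.leaf
  25) (.leaf 21))))))) (.leaf 116)) (.cut 627 1 10 (.leaf 115) (.rot (.rot (.cut 2 1 5 (.rot
  (.cut 6845 104 57 (.leaf 140) (.leaf 95))) (.leaf 115))))))) (.rot (.cut 32 43 1 (.rot (.cut
  1559 32 185 (.rot (.cut 301 25 1 (.rot (.cut 5 7 512 (.rot (.cut 622041 5 1 (.leaf 105)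
  (.leaf 41))) (.leaf 116))) (.rot (.cut 5 622041 1 (.rot (.cut 2066 5 1559 (.leaf 105) (.leaf
  41))) (.leaf 105))))) (.cut 135 23 32 (.rot (.cut 7 5 512 (.rot (.cut 505 392 1 (.leaf 25)
  (.leaf 21))) (.leaf 41))) (.rot (.cut 392 505 1 (.rot (.cut 9 49 4 (.leaf 25) (.leaf 21)))
  (.leaf 25)))))) (.rot (.cut 25 301 1 (.rot (.cut 43 25 16 (.leaf 116) (.leaf 105))) (.leaf
  116))))))))))) (.rot (.cut 6 5 11 (.rot (.cut 5 86 1 (.cut 1 19 5 (.rot (.cut 19 1 5 (.leaf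
  107) (.rot (.rot (.cut 1 37 1 (.leaf 2) (.leaf 160)))))) (.leaf 107)) (.cut 31 5 2 (.leaf
  106) (.rot (.rot (.cut 5 1 6 (.cut 43 57 5 (.rot (.cut 57 1 5 (.leaf 105) (.cut 555 23 43
  (.leaf 41) (.rot (.rot (.cut 23 185 43 (.leaf 25) (.leaf 41))))))) (.leaf 105)) (.leaf
  106))))))) (.cut 57 43 5 (.rot (.cut 1 19 5 (.rot (.cut 703 2 1 (.leaf 26) (.leaf 2))) (.leaf
  107))) (.rot (.cut 2 703 1 (.rot (.cut 33 2 5 (.cut 23 37 33 (.rot (.cut 5291 23 1 (.leaf 26)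
  (.leaf 12))) (.leaf 26)) (.leaf 2))) (.rot (.cut 23 5291 1 (.rot (.cut 185 23 43 (.leaf 26)
  (.leaf 12))) (.leaf 26))))))))))))

def tr1 : Tr :=
  (.cut 3 5 1 (.cut 2 29 3 (.rot (.cut 28 17 1 (.rot (.cut 9 1 1 (.cut 2 1 3 (.rot (.cut 1 1 1
  (.leaf 117) (.cut 202 61 1 (.leaf 108) (.rot (.rot (.cut 61 101 6 (.cut 28 37 61 (.rot (.cut
  2701 28 61 (.leaf 28) (.leaf 0))) (.leaf 28)) (.leaf 108))))))) (.leaf 117)) (.cut 94 11 1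
  (.cut 101 1427 94 (.leaf 62) (.rot (.rot (.cut 1427 101 1 (.cut 224 18759 1427 (.rot (.cut 37
  672 1427 (.leaf 13) (.leaf 6))) (.leaf 13)) (.leaf 62))))) (.rot (.rot (.cut 11 177 28 (.cut
  1 15 1 (.rot (.cut 196 1 1 (.cut 38 81 77 (.rot (.cut 3 19 11 (.leaf 63) (.cut 202 925 19
  (.leaf 64) (.rot (.rot (.cut 185 101 1064 (.leaf 43) (.leaf 64))))))) (.leaf 63)) (.cut 1103
  2 11 (.cut 808 555 1103 (.leaf 44) (.rot (.rot (.cut 555 101 1 (.leaf 35) (.leaf 44)))))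
  (.rot (.rot (.cut 2 87 11 (.leaf 3) (.cut 37 101 87 (.leaf 35) (.rot (.rot (.cut 101 555 1
  (.leaf 44) (.leaf 35))))))))))) (.cut 56 29 55 (.rot (.cut 19 3 11 (.cut 925 202 19 (.rot
  (.cut 101 925 1 (.leaf 64) (.leaf 43))) (.leaf 64)) (.leaf 63))) (.cut 101 37 87 (.rot (.cut
  925 101 1 (.leaf 43) (.leaf 64))) (.leaf 43)))) (.cut 16 29 59 (.leaf 6) (.rot (.rot (.cut 29
  224 1 (.cut 101 18759 29 (.rot (.cut 37 101 87 (.leaf 13) (.leaf 62))) (.leaf 13)) (.leaf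
  6))))))))))) (.cut 263 7 17 (.rot (.cut 61 263 1 (.cut 28 2701 61 (.rot (.cut 37 28 1 (.leaf
  28) (.leaf 0))) (.leaf 28)) (.cut 202 1 263 (.leaf 108) (.rot (.rot (.cut 168 101 263 (.leaf
  117) (.leaf 108))))))) (.cut 37 2 7 (.rot (.cut 28 37 1 (.leaf 0) (.leaf 28))) (.leaf 0)))))
  (.rot (.cut 1 9 1 (.rot (.cut 5 1 1 (.cut 3 2 5 (.rot (.cut 1 1 1 (.leaf 212) (.cut 156 29 1
  (.leaf 176) (.rot (.rot (.cut 29 52 3 (.leaf 25) (.leaf 176))))))) (.leaf 212)) (.cut 72 17 1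
  (.cut 13 265 18 (.leaf 196) (.rot (.rot (.cut 265 26 29 (.cut 37 707 265 (.rot (.cut 1313 37
  1060 (.leaf 161) (.leaf 162))) (.leaf 161)) (.leaf 196))))) (.rot (.rot (.cut 17 145 1 (.cut
  15 5203 17 (.rot (.cut 311 3 17 (.cut 171 43 311 (.rot (.cut 6407 1197 1 (.cut 16 48047 149
  (.rot (.cut 1 8 1 (.leaf 126) (.cut 140 53 1 (.leaf 63) (.rot (.rot (.cut 53 87080 43 (.leaf
  44) (.leaf 63))))))) (.leaf 126)) (.leaf 118))) (.rot (.cut 8 1 1 (.rot (.cut 1 16 87 (.leaf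
  126) (.rot (.rot (.cut 53 140 1 (.leaf 44) (.leaf 63)))))) (.leaf 126)))) (.cut 56 1 3 (.cut
  57 37 56 (.rot (.cut 16 1 87 (.rot (.cut 185 832 3 (.leaf 35) (.leaf 44))) (.leaf 141)))
  (.rot (.cut 832 185 3 (.rot (.cut 37 208 1 (.leaf 35) (.leaf 44))) (.leaf 35)))) (.rot (.rot
  (.cut 2 1427 15 (.leaf 3) (.cut 555 832 1427 (.leaf 35) (.rot (.rot (.cut 208 37 1 (.leaf 44)
  (.leaf 35))))))))))) (.cut 149 57 121 (.rot (.cut 1197 6407 1 (.rot (.cut 1 1 1 (.rot (.cut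
  48047 10 3158651 (.leaf 118) (.rot (.rot (.cut 520 777 1 (.leaf 64) (.leaf 43)))))) (.leaf
  118))) (.cut 48047 16 149 (.rot (.cut 10 48047 3158651 (.rot (.cut 1345316 265 43 (.leaf 63)
  (.leaf 64))) (.leaf 126))) (.cut 87080 53 43 (.rot (.cut 265 1345316 43 (.rot (.cut 9248316
  265 1 (.leaf 63) (.leaf 64))) (.leaf 63))) (.rot (.rot (.cut 424 3907 6407 (.leaf 44) (.cut
  2268 265 3907 (.leaf 63) (.rot (.rot (.cut 265 9248316 1 (.leaf 64) (.leaf 63))))))))))))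
  (.rot (.cut 1 1 1 (.rot (.cut 3 10 493 (.rot (.cut 1591 3 1 (.leaf 43) (.leaf 6))) (.leaf
  118))) (.cut 777 520 1 (.rot (.cut 3 1591 1 (.rot (.cut 2055757 3 1 (.leaf 43) (.leaf 6)))
  (.leaf 43))) (.rot (.rot (.cut 104 287 2451 (.leaf 64) (.cut 185 3 287 (.leaf 43) (.rot (.rot
  (.cut 3 2055757 1 (.leaf 6) (.leaf 43))))))))))))) (.cut 1813 81 145 (.rot (.cut 10 3 493
  (.rot (.cut 1 10 1 (.cut 47 24 1 (.rot (.cut 24 47 1 (.leaf 6) (.cut 1369 35 47 (.leaf 13)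
  (.rot (.rot (.cut 35 1369 47 (.leaf 62) (.leaf 13))))))) (.leaf 6)) (.leaf 162))) (.rot (.cut
  47 24 1 (.rot (.cut 1035 47 1813 (.leaf 6) (.cut 37 35 47 (.leaf 13) (.rot (.rot (.cut 35
  1369 47 (.leaf 62) (.leaf 13))))))) (.leaf 6))))) (.rot (.rot (.cut 81 37 29 (.rot (.rot
  (.cut 28 1 1377 (.rot (.cut 26 707 81 (.leaf 196) (.leaf 161))) (.leaf 62)))) (.rot (.cut 1
  28 1377 (.rot (.cut 10 1 1 (.leaf 162) (.cut 47 35 1 (.cut 24 1369 47 (.leaf 6) (.leaf 13))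
  (.leaf 62)))) (.leaf 162))))))))))))) (.cut 1 2 3 (.rot (.cut 1 1 1 (.cut 29 156 1 (.rot
  (.cut 104 29 1 (.leaf 176) (.leaf 25))) (.leaf 176)) (.leaf 212))) (.rot (.rot (.cut 6 49 29
  (.rot (.cut 101 61 6 (.rot (.cut 1 1 6 (.rot (.cut 37 50 1 (.leaf 28) (.leaf 0))) (.leaf
  108))) (.cut 37 28 61 (.rot (.cut 50 37 1 (.leaf 0) (.leaf 28))) (.leaf 0)))) (.rot (.cut 1 1
  6 (.rot (.cut 29 104 1 (.leaf 25) (.leaf 176))) (.rot (.rot (.cut 81 25 49 (.cut 2 37 81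
  (.leaf 0) (.leaf 41)) (.leaf 25))))))))))))) (.cut 16 3 5 (.rot (.cut 1 5 1 (.rot (.cut 5 1 1
  (.cut 3 2 5 (.rot (.cut 2 3 1 (.leaf 213) (.cut 58 3 1 (.cut 5 17 6 (.leaf 190) (.rot (.rot
  (.cut 17 1 48 (.leaf 21) (.leaf 190))))) (.rot (.cut 1 17 48 (.rot (.cut 29 52 3 (.leaf 96)
  (.leaf 177))) (.rot (.rot (.cut 289 8 9 (.leaf 21) (.leaf 96))))))))) (.leaf 213)) (.cut 55
  13 1 (.rot (.rot (.cut 165 58 1 (.rot (.cut 52 809 55 (.rot (.cut 731 1 880 (.rot (.cut 303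
  12427 4 (.leaf 65) (.leaf 127))) (.leaf 197))) (.rot (.cut 12427 303 4 (.rot (.cut 56 12427
  165 (.cut 27 5555 56 (.rot (.cut 5772857 27 4 (.leaf 65) (.leaf 45))) (.leaf 65)) (.leaf
  127))) (.rot (.cut 27 5772857 4 (.rot (.cut 1313 27 809 (.leaf 65) (.leaf 45))) (.leaf
  65))))))) (.cut 731 1 2 (.rot (.cut 1 731 880 (.leaf 214) (.leaf 127))) (.leaf 214))))) (.rot
  (.rot (.cut 13 55 1 (.cut 3 238 13 (.rot (.cut 202 15 13 (.rot (.cut 331 917 2 (.rot (.cut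
  623 331 48 (.rot (.cut 22686 205 1 (.rot (.cut 5 199 33431 (.leaf 36) (.leaf 128))) (.leaf
  36))) (.cut 43 2 331 (.rot (.cut 199 5 33431 (.rot (.cut 16 995 1 (.leaf 198) (.leaf 128)))
  (.leaf 142))) (.rot (.rot (.cut 86 33389 331 (.leaf 126) (.cut 12048 995 33389 (.leaf 198)
  (.rot (.rot (.cut 995 16 1 (.leaf 128) (.leaf 198))))))))))) (.cut 22686 43 917 (.rot (.cut
  205 22686 1 (.leaf 36) (.leaf 128))) (.cut 6783 1 43 (.leaf 36) (.rot (.rot (.cut 1 263 202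
  (.leaf 45) (.leaf 36)))))))) (.cut 76 1 5 (.rot (.cut 1 5 24 (.leaf 141) (.cut 43 623 10
  (.leaf 142) (.rot (.rot (.cut 89 43 228 (.leaf 36) (.leaf 142))))))) (.cut 57 1 1 (.cut 1 2 3
  (.leaf 141) (.rot (.rot (.cut 2 3 1 (.cut 1 37 6 (.rot (.cut 37 1 114 (.leaf 29) (.leaf 3)))
  (.leaf 29)) (.leaf 141))))) (.rot (.rot (.cut 1 19 1 (.cut 1 37 3 (.leaf 3) (.rot (.rot (.cut
  1 1 24 (.leaf 35) (.leaf 3))))) (.rot (.cut 1 1 24 (.rot (.cut 3 2 1 (.leaf 141) (.cut 37 1 6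
  (.leaf 29) (.leaf 3)))) (.leaf 141)))))))))) (.cut 61 172 119 (.rot (.cut 172 61 1 (.rot
  (.cut 7 25 8 (.rot (.cut 753 7 12688 (.leaf 128) (.leaf 118))) (.cut 46 1 25 (.leaf 128)
  (.rot (.rot (.cut 1 199 8 (.cut 1 6783 43 (.rot (.cut 57 1 1 (.leaf 36) (.leaf 45))) (.leaf
  36)) (.leaf 128))))))) (.cut 6024 43 61 (.rot (.cut 7 753 12688 (.rot (.cut 32379 35 16
  (.leaf 126) (.leaf 118))) (.leaf 198))) (.rot (.cut 35 32379 16 (.rot (.cut 43 5 122 (.leaf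
  126) (.leaf 118))) (.leaf 126)))))) (.rot (.cut 25 7 8 (.rot (.cut 1 25 208 (.rot (.cut 1425
  1 1 (.leaf 118) (.leaf 162))) (.cut 3 1 25 (.leaf 128) (.rot (.rot (.cut 1 46 25 (.cut 1 57 1
  (.leaf 45) (.leaf 36)) (.leaf 128))))))) (.rot (.cut 1 1425 1 (.rot (.cut 449 1 344 (.leaf
  118) (.leaf 162))) (.leaf 118))))))) (.cut 448 29 55 (.rot (.cut 25 1 208 (.rot (.cut 3 25 8
  (.leaf 161) (.cut 84 1 25 (.leaf 127) (.rot (.rot (.cut 1 3 25 (.rot (.cut 101 27 2 (.leaf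
  65) (.leaf 45))) (.leaf 127))))))) (.rot (.rot (.cut 27 727 448 (.leaf 162) (.leaf 161))))))
  (.rot (.rot (.cut 29 448 1 (.rot (.rot (.cut 589 3 6032 (.leaf 214) (.rot (.rot (.cut 3 52 29
  (.leaf 161) (.leaf 196))))))) (.rot (.cut 3 589 6032 (.rot (.cut 25 3 8 (.cut 1 84 25 (.rot
  (.cut 3 1 1 (.leaf 127) (.cut 101 27 1 (.leaf 65) (.rot (.rot (.cut 27 101 2 (.leaf 45)
  (.leaf 65))))))) (.leaf 127)) (.leaf 161))) (.rot (.cut 1 3 1 (.rot (.cut 731 1 8 (.leaf 127)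
  (.cut 5555 27 56 (.leaf 65) (.rot (.rot (.cut 27 101 1 (.leaf 45) (.leaf 65))))))) (.leaf
  127))))))))))))))) (.cut 2 3 5 (.rot (.cut 3 2 1 (.cut 16 145 3 (.rot (.cut 29 16 1 (.leaf
  190) (.cut 161 1 2 (.leaf 21) (.rot (.rot (.cut 1 119 2 (.leaf 96) (.leaf 21))))))) (.leaf
  190)) (.leaf 213))) (.rot (.rot (.cut 9 49 16 (.rot (.cut 52 29 3 (.rot (.cut 2 1 3 (.rot
  (.cut 303 34 1 (.leaf 25) (.leaf 21))) (.leaf 176))) (.rot (.cut 34 303 1 (.rot (.cut 4 17 9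
  (.leaf 25) (.leaf 21))) (.leaf 25))))) (.rot (.cut 1 2 3 (.rot (.cut 16 29 1 (.cut 1 161 2
  (.rot (.cut 21 1 1 (.leaf 21) (.leaf 96))) (.leaf 21)) (.leaf 190))) (.rot (.cut 1 21 1 (.rot
  (.cut 157 4 49 (.leaf 21) (.leaf 96))) (.leaf 21))))))))))) (.cut 29 2 3 (.rot (.cut 1 5 1
  (.rot (.cut 9 1 1 (.cut 2 1 3 (.rot (.cut 1 3 1 (.leaf 215) (.cut 26 1 3 (.cut 5 8 1 (.leaf
  177) (.rot (.rot (.cut 4 1 29 (.rot (.cut 101 27 52 (.leaf 96) (.cut 37 1 54 (.leaf 94)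
  (.leaf 5)))) (.leaf 177))))) (.rot (.cut 1 4 29 (.rot (.cut 61 101 6 (.cut 28 37 61 (.leaf 5)
  (.leaf 22)) (.leaf 46))) (.leaf 5)))))) (.leaf 215)) (.cut 145 17 1 (.rot (.rot (.cut 145 52
  1 (.rot (.cut 10 207 29 (.rot (.cut 1001 1 4205 (.leaf 7) (.rot (.rot (.cut 101 37 50 (.leaf
  66) (.leaf 47)))))) (.leaf 7))) (.cut 2002 1 1 (.rot (.cut 1 1001 4205 (.leaf 197) (.rot
  (.rot (.cut 81 101 728 (.cut 14 37 81 (.leaf 7) (.leaf 45)) (.leaf 65)))))) (.leaf 197)))))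
  (.rot (.rot (.cut 17 72 1 (.cut 3 311 17 (.rot (.cut 5203 15 17 (.cut 1649 3748 5203 (.rot
  (.cut 445 3298 1 (.rot (.cut 280 43 1 (.rot (.cut 1849 5 143463 (.rot (.cut 2225 2279 1
  (.leaf 142) (.leaf 36))) (.leaf 119))) (.rot (.cut 2279 2225 1 (.rot (.cut 7 2279 445 (.leaf
  142) (.leaf 36))) (.leaf 142))))) (.cut 134977 171 3298 (.rot (.cut 5 1849 143463 (.rot (.cut
  68413 505 1 (.leaf 14) (.leaf 67))) (.leaf 36))) (.rot (.cut 505 68413 1 (.rot (.cut 287 101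
  1649 (.cut 3 185 287 (.rot (.cut 90224537 3 1 (.leaf 14) (.leaf 7))) (.leaf 14)) (.leaf 67)))
  (.rot (.cut 3 90224537 1 (.rot (.cut 11507 1 57 (.leaf 14) (.leaf 7))) (.leaf 14))))))))
  (.rot (.cut 43 280 1 (.rot (.cut 16 1 87 (.rot (.cut 13118 53 1 (.leaf 119) (.leaf 109)))
  (.leaf 142))) (.rot (.cut 53 13118 1 (.rot (.cut 567 106 937 (.leaf 119) (.leaf 109))) (.leaf
  119)))))) (.cut 1427 2 15 (.rot (.cut 1 16 87 (.rot (.cut 407 57 1 (.leaf 29) (.leaf 141)))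
  (.rot (.rot (.cut 832 555 1427 (.leaf 109) (.leaf 29)))))) (.rot (.rot (.cut 1 56 3 (.leaf 3)
  (.cut 37 57 56 (.leaf 29) (.rot (.rot (.cut 57 407 1 (.leaf 141) (.leaf 29))))))))))) (.cut
  43 171 311 (.rot (.cut 57 7 1 (.cut 3 43 1 (.rot (.cut 2 3 1 (.leaf 36) (.cut 111 1 1 (.leaf
  14) (.rot (.rot (.cut 1 11507 57 (.leaf 7) (.leaf 14))))))) (.leaf 36)) (.leaf 142))) (.rot
  (.cut 3 2 1 (.rot (.cut 10 3 493 (.leaf 36) (.rot (.rot (.cut 1 111 1 (.leaf 7) (.leaf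
  14)))))) (.leaf 36))))) (.cut 265 13 18 (.cut 37 1313 1060 (.rot (.cut 3 10 493 (.rot (.cut
  13 3 1 (.leaf 45) (.leaf 7))) (.leaf 45))) (.rot (.rot (.cut 1313 1813 1 (.leaf 65) (.cut
  27911 3 49 (.leaf 45) (.rot (.rot (.cut 3 13 1 (.leaf 7) (.leaf 45))))))))) (.rot (.rot (.cut
  52 2147 1 (.leaf 197) (.cut 14443 259 2147 (.leaf 65) (.rot (.rot (.cut 1813 1313 1 (.cut 3
  27911 49 (.rot (.cut 143 3 7 (.leaf 45) (.leaf 7))) (.leaf 45)) (.leaf 65)))))))))))))))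
  (.cut 2 3 5 (.rot (.cut 3 1 1 (.cut 29 130 3 (.rot (.cut 26 29 1 (.leaf 177) (.cut 1313 51 29
  (.leaf 96) (.rot (.rot (.cut 17 404 29 (.cut 1 74 17 (.rot (.cut 481 2 51 (.leaf 94) (.leaf
  5))) (.leaf 94)) (.leaf 96))))))) (.leaf 177)) (.leaf 215))) (.cut 52 29 3 (.rot (.cut 29 26
  1 (.cut 51 1313 29 (.rot (.cut 1313 51 29 (.leaf 96) (.cut 481 2 51 (.leaf 94) (.rot (.rot
  (.cut 2 481 51 (.leaf 5) (.leaf 94))))))) (.leaf 96)) (.leaf 177))) (.rot (.cut 51 1313 29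
  (.rot (.cut 25 51 29 (.leaf 96) (.cut 37 4 51 (.leaf 94) (.rot (.rot (.cut 2 481 51 (.leaf 5)
  (.leaf 94))))))) (.leaf 96))))))) (.rot (.cut 1 9 1 (.rot (.cut 17 28 1 (.cut 11 168 17 (.rot
  (.cut 84 11 1 (.leaf 68) (.cut 202 1 11 (.leaf 46) (.rot (.rot (.cut 7 101 11 (.cut 2 37 7
  (.rot (.cut 37 2 1 (.leaf 22) (.leaf 5))) (.leaf 22)) (.leaf 46))))))) (.leaf 68)) (.cut 177
  11 28 (.cut 101 131 177 (.leaf 66) (.rot (.rot (.cut 131 101 2 (.cut 48 851 131 (.rot (.cut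
  37 48 131 (.leaf 47) (.leaf 7))) (.leaf 47)) (.leaf 66))))) (.rot (.rot (.cut 11 94 1 (.cut 1
  196 1 (.rot (.cut 15 1 1 (.cut 29 56 55 (.rot (.cut 756 29 11 (.leaf 119) (.cut 5353 37 58
  (.leaf 67) (.rot (.rot (.cut 37 101 87 (.leaf 14) (.leaf 67))))))) (.leaf 119)) (.cut 87 2 11
  (.cut 101 37 87 (.leaf 109) (.rot (.rot (.cut 37 808 1 (.leaf 29) (.leaf 109))))) (.rot (.rot
  (.cut 2 1103 11 (.leaf 3) (.cut 555 808 1103 (.leaf 29) (.rot (.rot (.cut 808 37 1 (.leaf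
  109) (.leaf 29))))))))))) (.cut 81 38 77 (.rot (.cut 29 756 11 (.cut 37 5353 58 (.rot (.cut
  505 37 2 (.leaf 67) (.leaf 14))) (.leaf 67)) (.leaf 119))) (.cut 101 185 1064 (.rot (.cut 37
  505 2 (.leaf 14) (.leaf 67))) (.leaf 14)))) (.cut 336 25 47 (.leaf 7) (.rot (.rot (.cut 25 24
  1 (.cut 101 851 50 (.rot (.cut 37 101 50 (.leaf 47) (.leaf 66))) (.leaf 47)) (.leaf
  7))))))))))) (.cut 1 2 3 (.rot (.cut 11 84 1 (.cut 1 202 11 (.rot (.cut 101 7 2 (.leaf 46)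
  (.cut 37 1 7 (.leaf 22) (.rot (.rot (.cut 2 37 1 (.leaf 5) (.leaf 22))))))) (.leaf 46))
  (.leaf 68))) (.cut 25 14 3 (.rot (.cut 1 25 2 (.leaf 5) (.cut 37 101 25 (.leaf 22) (.rot
  (.rot (.cut 101 37 50 (.leaf 46) (.leaf 22))))))) (.leaf 5))))))))

def tr2 : Tr :=
  (.rot (.rot (.cut 5 3 1 (.cut 3 16 5 (.cut 2 29 3 (.rot (.cut 28 17 1 (.rot (.cut 9 1 1 (.cut
  2 1 3 (.rot (.cut 1 1 1 (.leaf 120) (.cut 202 61 1 (.leaf 110) (.rot (.rot (.cut 61 101 6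
  (.cut 28 37 61 (.rot (.cut 2701 28 61 (.leaf 48) (.leaf 5))) (.leaf 48)) (.leaf 110)))))))
  (.leaf 120)) (.cut 94 11 1 (.cut 101 1427 94 (.leaf 69) (.rot (.rot (.cut 1427 101 1 (.cut
  224 18759 1427 (.rot (.cut 37 672 1427 (.leaf 15) (.leaf 8))) (.leaf 15)) (.leaf 69)))))
  (.rot (.rot (.cut 11 177 28 (.cut 1 15 1 (.rot (.cut 196 1 1 (.cut 38 81 77 (.rot (.cut 3 19
  11 (.leaf 70) (.cut 202 925 19 (.leaf 71) (.rot (.rot (.cut 185 101 1064 (.leaf 49) (.leaf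
  71))))))) (.leaf 70)) (.cut 1103 2 11 (.cut 808 555 1103 (.leaf 50) (.rot (.rot (.cut 555 101
  1 (.leaf 23) (.leaf 50))))) (.rot (.rot (.cut 2 87 11 (.leaf 4) (.cut 37 101 87 (.leaf 23)
  (.rot (.rot (.cut 101 555 1 (.leaf 50) (.leaf 23))))))))))) (.cut 56 29 55 (.rot (.cut 19 3
  11 (.cut 925 202 19 (.rot (.cut 101 925 1 (.leaf 71) (.leaf 49))) (.leaf 71)) (.leaf 70)))
  (.cut 101 37 87 (.rot (.cut 925 101 1 (.leaf 49) (.leaf 71))) (.leaf 49)))) (.cut 16 29 59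
  (.leaf 8) (.rot (.rot (.cut 29 224 1 (.cut 101 18759 29 (.rot (.cut 37 101 87 (.leaf 15)
  (.leaf 69))) (.leaf 15)) (.leaf 8))))))))))) (.cut 263 7 17 (.rot (.cut 61 263 1 (.cut 28
  2701 61 (.rot (.cut 37 28 1 (.leaf 48) (.leaf 5))) (.leaf 48)) (.cut 202 1 263 (.leaf 110)
  (.rot (.rot (.cut 168 101 263 (.leaf 120) (.leaf 110))))))) (.cut 37 2 7 (.rot (.cut 28 37 1
  (.leaf 5) (.leaf 48))) (.leaf 5))))) (.rot (.cut 1 9 1 (.rot (.cut 5 1 1 (.cut 3 2 5 (.rot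
  (.cut 1 1 1 (.leaf 216) (.cut 156 29 1 (.leaf 178) (.rot (.rot (.cut 29 52 3 (.leaf 95)
  (.leaf 178))))))) (.leaf 216)) (.cut 72 17 1 (.cut 13 265 18 (.leaf 199) (.rot (.rot (.cut
  265 26 29 (.cut 37 707 265 (.rot (.cut 1313 37 1060 (.leaf 163) (.leaf 164))) (.leaf 163))
  (.leaf 199))))) (.rot (.rot (.cut 17 145 1 (.cut 15 5203 17 (.rot (.cut 311 3 17 (.cut 171 43
  311 (.rot (.cut 6407 1197 1 (.cut 16 48047 149 (.rot (.cut 1 8 1 (.leaf 143) (.cut 140 53 1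
  (.leaf 70) (.rot (.rot (.cut 53 87080 43 (.leaf 50) (.leaf 70))))))) (.leaf 143)) (.leaf
  97))) (.rot (.cut 8 1 1 (.rot (.cut 1 16 87 (.leaf 143) (.rot (.rot (.cut 53 140 1 (.leaf 50)
  (.leaf 70)))))) (.leaf 143)))) (.cut 56 1 3 (.cut 57 37 56 (.rot (.cut 16 1 87 (.rot (.cut
  185 832 3 (.leaf 23) (.leaf 50))) (.leaf 144))) (.rot (.cut 832 185 3 (.rot (.cut 37 208 1
  (.leaf 23) (.leaf 50))) (.leaf 23)))) (.rot (.rot (.cut 2 1427 15 (.leaf 4) (.cut 555 832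
  1427 (.leaf 23) (.rot (.rot (.cut 208 37 1 (.leaf 50) (.leaf 23))))))))))) (.cut 149 57 121
  (.rot (.cut 1197 6407 1 (.rot (.cut 1 1 1 (.rot (.cut 48047 10 3158651 (.leaf 97) (.rot (.rot
  (.cut 520 777 1 (.leaf 71) (.leaf 49)))))) (.leaf 97))) (.cut 48047 16 149 (.rot (.cut 10
  48047 3158651 (.rot (.cut 1345316 265 43 (.leaf 70) (.leaf 71))) (.leaf 143))) (.cut 87080 53
  43 (.rot (.cut 265 1345316 43 (.rot (.cut 9248316 265 1 (.leaf 70) (.leaf 71))) (.leaf 70)))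
  (.rot (.rot (.cut 424 3907 6407 (.leaf 50) (.cut 2268 265 3907 (.leaf 70) (.rot (.rot (.cut
  265 9248316 1 (.leaf 71) (.leaf 70)))))))))))) (.rot (.cut 1 1 1 (.rot (.cut 3 10 493 (.rot
  (.cut 1591 3 1 (.leaf 49) (.leaf 8))) (.leaf 97))) (.cut 777 520 1 (.rot (.cut 3 1591 1 (.rot
  (.cut 2055757 3 1 (.leaf 49) (.leaf 8))) (.leaf 49))) (.rot (.rot (.cut 104 287 2451 (.leaf
  71) (.cut 185 3 287 (.leaf 49) (.rot (.rot (.cut 3 2055757 1 (.leaf 8) (.leaf 49)))))))))))))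
  (.cut 1813 81 145 (.rot (.cut 10 3 493 (.rot (.cut 1 10 1 (.cut 47 24 1 (.rot (.cut 24 47 1
  (.leaf 8) (.cut 1369 35 47 (.leaf 15) (.rot (.rot (.cut 35 1369 47 (.leaf 69) (.leaf
  15))))))) (.leaf 8)) (.leaf 164))) (.rot (.cut 47 24 1 (.rot (.cut 1035 47 1813 (.leaf 8)
  (.cut 37 35 47 (.leaf 15) (.rot (.rot (.cut 35 1369 47 (.leaf 69) (.leaf 15))))))) (.leaf
  8))))) (.rot (.rot (.cut 81 37 29 (.rot (.rot (.cut 28 1 1377 (.rot (.cut 26 707 81 (.leaf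
  199) (.leaf 163))) (.leaf 69)))) (.rot (.cut 1 28 1377 (.rot (.cut 10 1 1 (.leaf 164) (.cut
  47 35 1 (.cut 24 1369 47 (.leaf 8) (.leaf 15)) (.leaf 69)))) (.leaf 164))))))))))))) (.cut 1
  2 3 (.rot (.cut 1 1 1 (.cut 29 156 1 (.rot (.cut 104 29 1 (.leaf 178) (.leaf 95))) (.leaf
  178)) (.leaf 216))) (.rot (.rot (.cut 6 49 29 (.rot (.cut 101 61 6 (.rot (.cut 1 1 6 (.rot
  (.cut 37 50 1 (.leaf 48) (.leaf 5))) (.leaf 110))) (.cut 37 28 61 (.rot (.cut 50 37 1 (.leaf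
  5) (.leaf 48))) (.leaf 5)))) (.rot (.cut 1 1 6 (.rot (.cut 29 104 1 (.leaf 95) (.leaf 178)))
  (.rot (.rot (.cut 81 25 49 (.cut 2 37 81 (.leaf 5) (.leaf 140)) (.leaf 95))))))))))))) (.rot
  (.cut 1 5 1 (.rot (.cut 5 1 1 (.cut 3 2 5 (.rot (.cut 2 3 1 (.leaf 217) (.cut 58 3 1 (.cut 5
  17 6 (.leaf 191) (.rot (.rot (.cut 17 1 48 (.leaf 27) (.leaf 191))))) (.rot (.cut 1 17 48
  (.rot (.cut 29 52 3 (.leaf 12) (.leaf 179))) (.rot (.rot (.cut 289 8 9 (.leaf 27) (.leaf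
  12))))))))) (.leaf 217)) (.cut 55 13 1 (.rot (.rot (.cut 165 58 1 (.rot (.cut 52 809 55 (.rot
  (.cut 731 1 880 (.rot (.cut 303 12427 4 (.leaf 72) (.leaf 129))) (.leaf 200))) (.rot (.cut
  12427 303 4 (.rot (.cut 56 12427 165 (.cut 27 5555 56 (.rot (.cut 5772857 27 4 (.leaf 72)
  (.leaf 73))) (.leaf 72)) (.leaf 129))) (.rot (.cut 27 5772857 4 (.rot (.cut 1313 27 809
  (.leaf 72) (.leaf 73))) (.leaf 72))))))) (.cut 731 1 2 (.rot (.cut 1 731 880 (.leaf 218)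
  (.leaf 129))) (.leaf 218))))) (.rot (.rot (.cut 13 55 1 (.cut 15 202 13 (.rot (.cut 238 3 13
  (.cut 172 61 119 (.rot (.cut 1085 43 2 (.rot (.cut 43 155 2 (.leaf 74) (.cut 9116 41 155
  (.leaf 165) (.rot (.rot (.cut 41 115756 1085 (.leaf 97) (.leaf 165))))))) (.cut 5757 1 43
  (.leaf 74) (.rot (.rot (.cut 1 449 344 (.leaf 73) (.leaf 74))))))) (.rot (.rot (.cut 61 113
  24 (.cut 1 8 61 (.rot (.cut 5 43 122 (.rot (.cut 43 35 2 (.leaf 145) (.leaf 74))) (.leaf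
  145))) (.rot (.rot (.cut 43 7 610 (.cut 5 1 43 (.rot (.cut 43 25 16 (.leaf 143) (.leaf 97)))
  (.leaf 238)) (.rot (.rot (.cut 35 43 2 (.leaf 74) (.leaf 145)))))))) (.rot (.cut 7 43 610
  (.rot (.cut 155 43 2 (.cut 41 9116 155 (.rot (.cut 43 205 1 (.leaf 165) (.leaf 97))) (.leaf
  165)) (.leaf 74))) (.cut 1 5 43 (.rot (.cut 205 43 1 (.leaf 97) (.leaf 165))) (.leaf
  97)))))))) (.rot (.cut 5 1 24 (.rot (.cut 1 76 5 (.cut 1 57 1 (.rot (.cut 19 1 5 (.rot (.cut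
  2 1 1 (.cut 1 37 2 (.leaf 4) (.leaf 23)) (.leaf 144))) (.leaf 4))) (.cut 2 1 3 (.rot (.cut 1
  2 1 (.leaf 144) (.cut 37 1 2 (.leaf 23) (.rot (.rot (.cut 1 37 114 (.leaf 4) (.leaf 23)))))))
  (.leaf 144))) (.cut 43 89 228 (.leaf 143) (.rot (.rot (.cut 623 43 10 (.leaf 97) (.leaf
  143))))))) (.rot (.cut 1 19 5 (.rot (.cut 19 1 1 (.leaf 144) (.cut 37 1 3 (.leaf 51) (.leaf
  4)))) (.leaf 144))))))) (.rot (.cut 215 41 2 (.rot (.cut 1 25 208 (.rot (.cut 28785 1 1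
  (.leaf 97) (.leaf 164))) (.cut 3 1 25 (.leaf 165) (.rot (.rot (.cut 1 2692 5 (.cut 1 5757 43
  (.leaf 73) (.leaf 74)) (.leaf 165))))))) (.rot (.cut 1 28785 1 (.rot (.cut 263 1 202 (.leaf
  97) (.leaf 164))) (.leaf 97)))))) (.cut 448 29 55 (.rot (.cut 25 1 208 (.rot (.cut 3 25 8
  (.leaf 163) (.cut 84 1 25 (.leaf 129) (.rot (.rot (.cut 1 3 25 (.rot (.cut 101 27 2 (.leaf
  72) (.leaf 73))) (.leaf 129))))))) (.rot (.rot (.cut 27 727 448 (.leaf 164) (.leaf 163))))))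
  (.rot (.rot (.cut 29 448 1 (.rot (.rot (.cut 589 3 6032 (.leaf 218) (.rot (.rot (.cut 3 52 29
  (.leaf 163) (.leaf 199))))))) (.rot (.cut 3 589 6032 (.rot (.cut 25 3 8 (.cut 1 84 25 (.rot
  (.cut 3 1 1 (.leaf 129) (.cut 101 27 1 (.leaf 72) (.rot (.rot (.cut 27 101 2 (.leaf 73)
  (.leaf 72))))))) (.leaf 129)) (.leaf 163))) (.rot (.cut 1 3 1 (.rot (.cut 731 1 8 (.leaf 129)
  (.cut 5555 27 56 (.leaf 72) (.rot (.rot (.cut 27 101 1 (.leaf 73) (.leaf 72))))))) (.leaf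
  129))))))))))))))) (.cut 2 3 5 (.rot (.cut 3 2 1 (.cut 16 145 3 (.rot (.cut 29 16 1 (.leaf
  191) (.cut 161 1 2 (.leaf 27) (.rot (.rot (.cut 1 119 2 (.leaf 12) (.leaf 27))))))) (.leaf
  191)) (.leaf 217))) (.rot (.rot (.cut 9 49 16 (.rot (.cut 52 29 3 (.rot (.cut 2 1 3 (.rot
  (.cut 303 34 1 (.leaf 95) (.leaf 27))) (.leaf 178))) (.rot (.cut 34 303 1 (.rot (.cut 4 17 9
  (.leaf 95) (.leaf 27))) (.leaf 95))))) (.rot (.cut 1 2 3 (.rot (.cut 16 29 1 (.cut 1 161 2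
  (.rot (.cut 21 1 1 (.leaf 27) (.leaf 12))) (.leaf 27)) (.leaf 191))) (.rot (.cut 1 21 1 (.rot
  (.cut 157 4 49 (.leaf 27) (.leaf 12))) (.leaf 27)))))))))))) (.cut 29 2 3 (.rot (.cut 1 5 1
  (.rot (.cut 9 1 1 (.cut 2 1 3 (.rot (.cut 1 3 1 (.leaf 219) (.cut 26 1 3 (.cut 5 8 1 (.leaf
  179) (.rot (.rot (.cut 4 1 29 (.rot (.cut 101 27 52 (.leaf 12) (.cut 37 1 54 (.leaf 26)
  (.leaf 2)))) (.leaf 179))))) (.rot (.cut 1 4 29 (.rot (.cut 61 101 6 (.cut 28 37 61 (.leaf 2)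
  (.leaf 19)) (.leaf 52))) (.leaf 2)))))) (.leaf 219)) (.cut 145 17 1 (.rot (.rot (.cut 145 52
  1 (.rot (.cut 10 207 29 (.rot (.cut 1001 1 4205 (.leaf 9) (.rot (.rot (.cut 101 37 50 (.leaf
  75) (.leaf 53)))))) (.leaf 9))) (.cut 2002 1 1 (.rot (.cut 1 1001 4205 (.leaf 200) (.rot
  (.rot (.cut 81 101 728 (.cut 14 37 81 (.leaf 9) (.leaf 73)) (.leaf 72)))))) (.leaf 200)))))
  (.rot (.rot (.cut 17 72 1 (.cut 3 311 17 (.rot (.cut 5203 15 17 (.cut 1649 3748 5203 (.rot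
  (.cut 445 3298 1 (.rot (.cut 280 43 1 (.rot (.cut 1849 5 143463 (.rot (.cut 2225 2279 1
  (.leaf 145) (.leaf 74))) (.leaf 121))) (.rot (.cut 2279 2225 1 (.rot (.cut 7 2279 445 (.leaf
  145) (.leaf 74))) (.leaf 145))))) (.cut 134977 171 3298 (.rot (.cut 5 1849 143463 (.rot (.cut
  68413 505 1 (.leaf 16) (.leaf 76))) (.leaf 74))) (.rot (.cut 505 68413 1 (.rot (.cut 287 101
  1649 (.cut 3 185 287 (.rot (.cut 90224537 3 1 (.leaf 16) (.leaf 9))) (.leaf 16)) (.leaf 76)))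
  (.rot (.cut 3 90224537 1 (.rot (.cut 11507 1 57 (.leaf 16) (.leaf 9))) (.leaf 16))))))))
  (.rot (.cut 43 280 1 (.rot (.cut 16 1 87 (.rot (.cut 13118 53 1 (.leaf 121) (.leaf 111)))
  (.leaf 145))) (.rot (.cut 53 13118 1 (.rot (.cut 567 106 937 (.leaf 121) (.leaf 111))) (.leaf
  121)))))) (.cut 1427 2 15 (.rot (.cut 1 16 87 (.rot (.cut 407 57 1 (.leaf 51) (.leaf 144)))
  (.rot (.rot (.cut 832 555 1427 (.leaf 111) (.leaf 51)))))) (.rot (.rot (.cut 1 56 3 (.leaf 4)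
  (.cut 37 57 56 (.leaf 51) (.rot (.rot (.cut 57 407 1 (.leaf 144) (.leaf 51))))))))))) (.cut
  43 171 311 (.rot (.cut 57 7 1 (.cut 3 43 1 (.rot (.cut 2 3 1 (.leaf 74) (.cut 111 1 1 (.leaf
  16) (.rot (.rot (.cut 1 11507 57 (.leaf 9) (.leaf 16))))))) (.leaf 74)) (.leaf 145))) (.rot
  (.cut 3 2 1 (.rot (.cut 10 3 493 (.leaf 74) (.rot (.rot (.cut 1 111 1 (.leaf 9) (.leaf
  16)))))) (.leaf 74))))) (.cut 265 13 18 (.cut 37 1313 1060 (.rot (.cut 3 10 493 (.rot (.cut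
  13 3 1 (.leaf 73) (.leaf 9))) (.leaf 73))) (.rot (.rot (.cut 1313 1813 1 (.leaf 72) (.cut
  27911 3 49 (.leaf 73) (.rot (.rot (.cut 3 13 1 (.leaf 9) (.leaf 73))))))))) (.rot (.rot (.cut
  52 2147 1 (.leaf 200) (.cut 14443 259 2147 (.leaf 72) (.rot (.rot (.cut 1813 1313 1 (.cut 3
  27911 49 (.rot (.cut 143 3 7 (.leaf 73) (.leaf 9))) (.leaf 73)) (.leaf 72)))))))))))))))
  (.cut 2 3 5 (.rot (.cut 3 1 1 (.cut 29 130 3 (.rot (.cut 26 29 1 (.leaf 179) (.cut 1313 51 29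
  (.leaf 12) (.rot (.rot (.cut 17 404 29 (.cut 1 74 17 (.rot (.cut 481 2 51 (.leaf 26) (.leaf
  2))) (.leaf 26)) (.leaf 12))))))) (.leaf 179)) (.leaf 219))) (.cut 52 29 3 (.rot (.cut 29 26
  1 (.cut 51 1313 29 (.rot (.cut 1313 51 29 (.leaf 12) (.cut 481 2 51 (.leaf 26) (.rot (.rot
  (.cut 2 481 51 (.leaf 2) (.leaf 26))))))) (.leaf 12)) (.leaf 179))) (.rot (.cut 51 1313 29
  (.rot (.cut 25 51 29 (.leaf 12) (.cut 37 4 51 (.leaf 26) (.rot (.rot (.cut 2 481 51 (.leaf 2)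
  (.leaf 26))))))) (.leaf 12))))))) (.rot (.cut 1 9 1 (.rot (.cut 17 28 1 (.cut 11 168 17 (.rot
  (.cut 84 11 1 (.leaf 77) (.cut 202 1 11 (.leaf 52) (.rot (.rot (.cut 7 101 11 (.cut 2 37 7
  (.rot (.cut 37 2 1 (.leaf 19) (.leaf 2))) (.leaf 19)) (.leaf 52))))))) (.leaf 77)) (.cut 177
  11 28 (.cut 101 131 177 (.leaf 75) (.rot (.rot (.cut 131 101 2 (.cut 48 851 131 (.rot (.cut
  37 48 131 (.leaf 53) (.leaf 9))) (.leaf 53)) (.leaf 75))))) (.rot (.rot (.cut 11 94 1 (.cut 1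
  196 1 (.rot (.cut 15 1 1 (.cut 29 56 55 (.rot (.cut 756 29 11 (.leaf 121) (.cut 5353 37 58
  (.leaf 76) (.rot (.rot (.cut 37 101 87 (.leaf 16) (.leaf 76))))))) (.leaf 121)) (.cut 87 2 11
  (.cut 101 37 87 (.leaf 111) (.rot (.rot (.cut 37 808 1 (.leaf 51) (.leaf 111))))) (.rot (.rot
  (.cut 2 1103 11 (.leaf 4) (.cut 555 808 1103 (.leaf 51) (.rot (.rot (.cut 808 37 1 (.leaf
  111) (.leaf 51))))))))))) (.cut 81 38 77 (.rot (.cut 29 756 11 (.cut 37 5353 58 (.rot (.cut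
  505 37 2 (.leaf 76) (.leaf 16))) (.leaf 76)) (.leaf 121))) (.cut 101 185 1064 (.rot (.cut 37
  505 2 (.leaf 16) (.leaf 76))) (.leaf 16)))) (.cut 336 25 47 (.leaf 9) (.rot (.rot (.cut 25 24
  1 (.cut 101 851 50 (.rot (.cut 37 101 50 (.leaf 53) (.leaf 75))) (.leaf 53)) (.leaf
  9))))))))))) (.cut 1 2 3 (.rot (.cut 11 84 1 (.cut 1 202 11 (.rot (.cut 101 7 2 (.leaf 52)
  (.cut 37 1 7 (.leaf 19) (.rot (.rot (.cut 2 37 1 (.leaf 2) (.leaf 19))))))) (.leaf 52))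
  (.leaf 77))) (.cut 101 61 6 (.rot (.cut 7 101 2 (.cut 1 37 7 (.rot (.cut 37 2 1 (.leaf 19)
  (.leaf 2))) (.leaf 19)) (.leaf 52))) (.cut 37 28 61 (.rot (.cut 2 37 1 (.leaf 2) (.leaf 19)))
  (.leaf 2))))))))))

def tr3 : Tr :=
  (.rot (.cut 5 3 1 (.cut 3 16 5 (.cut 2 29 3 (.rot (.cut 28 17 1 (.rot (.cut 9 1 1 (.cut 2 1 3
  (.rot (.cut 1 1 1 (.leaf 119) (.cut 202 61 1 (.leaf 109) (.rot (.rot (.cut 61 101 6 (.cut 28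
  37 61 (.rot (.cut 2701 28 61 (.leaf 29) (.leaf 3))) (.leaf 29)) (.leaf 109))))))) (.leaf
  119)) (.cut 94 11 1 (.cut 101 1427 94 (.leaf 67) (.rot (.rot (.cut 1427 101 1 (.cut 224 18759
  1427 (.rot (.cut 37 672 1427 (.leaf 14) (.leaf 7))) (.leaf 14)) (.leaf 67))))) (.rot (.rot
  (.cut 11 177 28 (.cut 1 15 1 (.rot (.cut 196 1 1 (.cut 38 81 77 (.rot (.cut 3 19 11 (.leaf
  68) (.cut 202 925 19 (.leaf 66) (.rot (.rot (.cut 185 101 1064 (.leaf 47) (.leaf 66)))))))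
  (.leaf 68)) (.cut 1103 2 11 (.cut 808 555 1103 (.leaf 46) (.rot (.rot (.cut 555 101 1 (.leaf
  22) (.leaf 46))))) (.rot (.rot (.cut 2 87 11 (.leaf 5) (.cut 37 101 87 (.leaf 22) (.rot (.rot
  (.cut 101 555 1 (.leaf 46) (.leaf 22))))))))))) (.cut 56 29 55 (.rot (.cut 19 3 11 (.cut 925
  202 19 (.rot (.cut 101 925 1 (.leaf 66) (.leaf 47))) (.leaf 66)) (.leaf 68))) (.cut 101 37 87
  (.rot (.cut 925 101 1 (.leaf 47) (.leaf 66))) (.leaf 47)))) (.cut 16 29 59 (.leaf 7) (.rot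
  (.rot (.cut 29 224 1 (.cut 101 18759 29 (.rot (.cut 37 101 87 (.leaf 14) (.leaf 67))) (.leaf
  14)) (.leaf 7))))))))))) (.cut 263 7 17 (.rot (.cut 61 263 1 (.cut 28 2701 61 (.rot (.cut 37
  28 1 (.leaf 29) (.leaf 3))) (.leaf 29)) (.cut 202 1 263 (.leaf 109) (.rot (.rot (.cut 168 101
  263 (.leaf 119) (.leaf 109))))))) (.cut 37 2 7 (.rot (.cut 28 37 1 (.leaf 3) (.leaf 29)))
  (.leaf 3))))) (.rot (.cut 1 9 1 (.rot (.cut 5 1 1 (.cut 3 2 5 (.rot (.cut 1 1 1 (.leaf 220)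
  (.cut 156 29 1 (.leaf 180) (.rot (.rot (.cut 29 52 3 (.leaf 146) (.leaf 180))))))) (.leaf
  220)) (.cut 72 17 1 (.cut 13 265 18 (.leaf 201) (.rot (.rot (.cut 265 26 29 (.cut 37 707 265
  (.rot (.cut 1313 37 1060 (.leaf 166) (.leaf 167))) (.leaf 166)) (.leaf 201))))) (.rot (.rot
  (.cut 17 145 1 (.cut 15 5203 17 (.rot (.cut 311 3 17 (.cut 171 43 311 (.rot (.cut 6407 1197 1
  (.cut 16 48047 149 (.rot (.cut 1 8 1 (.leaf 147) (.cut 140 53 1 (.leaf 68) (.rot (.rot (.cut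
  53 87080 43 (.leaf 46) (.leaf 68))))))) (.leaf 147)) (.leaf 98))) (.rot (.cut 8 1 1 (.rot
  (.cut 1 16 87 (.leaf 147) (.rot (.rot (.cut 53 140 1 (.leaf 46) (.leaf 68)))))) (.leaf
  147)))) (.cut 56 1 3 (.cut 57 37 56 (.rot (.cut 16 1 87 (.rot (.cut 185 832 3 (.leaf 22)
  (.leaf 46))) (.leaf 148))) (.rot (.cut 832 185 3 (.rot (.cut 37 208 1 (.leaf 22) (.leaf 46)))
  (.leaf 22)))) (.rot (.rot (.cut 2 1427 15 (.leaf 5) (.cut 555 832 1427 (.leaf 22) (.rot (.rot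
  (.cut 208 37 1 (.leaf 46) (.leaf 22))))))))))) (.cut 149 57 121 (.rot (.cut 1197 6407 1 (.rot
  (.cut 1 1 1 (.rot (.cut 48047 10 3158651 (.leaf 98) (.rot (.rot (.cut 520 777 1 (.leaf 66)
  (.leaf 47)))))) (.leaf 98))) (.cut 48047 16 149 (.rot (.cut 10 48047 3158651 (.rot (.cut
  1345316 265 43 (.leaf 68) (.leaf 66))) (.leaf 147))) (.cut 87080 53 43 (.rot (.cut 265
  1345316 43 (.rot (.cut 9248316 265 1 (.leaf 68) (.leaf 66))) (.leaf 68))) (.rot (.rot (.cut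
  424 3907 6407 (.leaf 46) (.cut 2268 265 3907 (.leaf 68) (.rot (.rot (.cut 265 9248316 1
  (.leaf 66) (.leaf 68)))))))))))) (.rot (.cut 1 1 1 (.rot (.cut 3 10 493 (.rot (.cut 1591 3 1
  (.leaf 47) (.leaf 7))) (.leaf 98))) (.cut 777 520 1 (.rot (.cut 3 1591 1 (.rot (.cut 2055757
  3 1 (.leaf 47) (.leaf 7))) (.leaf 47))) (.rot (.rot (.cut 104 287 2451 (.leaf 66) (.cut 185 3
  287 (.leaf 47) (.rot (.rot (.cut 3 2055757 1 (.leaf 7) (.leaf 47))))))))))))) (.cut 1813 81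
  145 (.rot (.cut 10 3 493 (.rot (.cut 1 10 1 (.cut 47 24 1 (.rot (.cut 24 47 1 (.leaf 7) (.cut
  1369 35 47 (.leaf 14) (.rot (.rot (.cut 35 1369 47 (.leaf 67) (.leaf 14))))))) (.leaf 7))
  (.leaf 167))) (.rot (.cut 47 24 1 (.rot (.cut 1035 47 1813 (.leaf 7) (.cut 37 35 47 (.leaf
  14) (.rot (.rot (.cut 35 1369 47 (.leaf 67) (.leaf 14))))))) (.leaf 7))))) (.rot (.rot (.cut
  81 37 29 (.rot (.rot (.cut 28 1 1377 (.rot (.cut 26 707 81 (.leaf 201) (.leaf 166))) (.leaf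
  67)))) (.rot (.cut 1 28 1377 (.rot (.cut 10 1 1 (.leaf 167) (.cut 47 35 1 (.cut 24 1369 47
  (.leaf 7) (.leaf 14)) (.leaf 67)))) (.leaf 167))))))))))))) (.cut 1 2 3 (.rot (.cut 1 1 1
  (.cut 29 156 1 (.rot (.cut 104 29 1 (.leaf 180) (.leaf 146))) (.leaf 180)) (.leaf 220)))
  (.rot (.rot (.cut 6 49 29 (.rot (.cut 101 61 6 (.rot (.cut 1 1 6 (.rot (.cut 37 50 1 (.leaf
  29) (.leaf 3))) (.leaf 109))) (.cut 37 28 61 (.rot (.cut 50 37 1 (.leaf 3) (.leaf 29)))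
  (.leaf 3)))) (.rot (.cut 1 1 6 (.rot (.cut 29 104 1 (.leaf 146) (.leaf 180))) (.rot (.rot
  (.cut 81 25 49 (.cut 2 37 81 (.leaf 3) (.leaf 181)) (.leaf 146))))))))))))) (.rot (.cut 1 5 1
  (.rot (.cut 5 1 1 (.cut 3 2 5 (.rot (.cut 2 3 1 (.leaf 221) (.cut 58 3 1 (.cut 5 17 6 (.leaf
  192) (.rot (.rot (.cut 17 1 48 (.leaf 37) (.leaf 192))))) (.rot (.cut 1 17 48 (.rot (.cut 29
  52 3 (.leaf 20) (.leaf 182))) (.rot (.rot (.cut 289 8 9 (.leaf 37) (.leaf 20))))))))) (.leaf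
  221)) (.cut 55 13 1 (.rot (.rot (.cut 165 58 1 (.rot (.cut 52 809 55 (.rot (.cut 731 1 880
  (.rot (.cut 303 12427 4 (.leaf 78) (.leaf 130))) (.leaf 202))) (.rot (.cut 12427 303 4 (.rot
  (.cut 56 12427 165 (.cut 27 5555 56 (.rot (.cut 5772857 27 4 (.leaf 78) (.leaf 79))) (.leaf
  78)) (.leaf 130))) (.rot (.cut 27 5772857 4 (.rot (.cut 1313 27 809 (.leaf 78) (.leaf 79)))
  (.leaf 78))))))) (.cut 731 1 2 (.rot (.cut 1 731 880 (.leaf 222) (.leaf 130))) (.leaf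
  222))))) (.rot (.rot (.cut 13 55 1 (.cut 15 202 13 (.rot (.cut 238 3 13 (.cut 172 61 119
  (.rot (.cut 1085 43 2 (.rot (.cut 43 155 2 (.leaf 80) (.cut 9116 41 155 (.leaf 168) (.rot
  (.rot (.cut 41 115756 1085 (.leaf 98) (.leaf 168))))))) (.cut 5757 1 43 (.leaf 80) (.rot
  (.rot (.cut 1 449 344 (.leaf 79) (.leaf 80))))))) (.rot (.rot (.cut 61 113 24 (.cut 1 8 61
  (.rot (.cut 5 43 122 (.rot (.cut 43 35 2 (.leaf 149) (.leaf 80))) (.leaf 149))) (.rot (.rot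
  (.cut 43 7 610 (.cut 5 1 43 (.rot (.cut 43 25 16 (.leaf 147) (.leaf 98))) (.leaf 239)) (.rot
  (.rot (.cut 35 43 2 (.leaf 80) (.leaf 149)))))))) (.rot (.cut 7 43 610 (.rot (.cut 155 43 2
  (.cut 41 9116 155 (.rot (.cut 43 205 1 (.leaf 168) (.leaf 98))) (.leaf 168)) (.leaf 80)))
  (.cut 1 5 43 (.rot (.cut 205 43 1 (.leaf 98) (.leaf 168))) (.leaf 98)))))))) (.rot (.cut 5 1
  24 (.rot (.cut 1 76 5 (.cut 1 57 1 (.rot (.cut 19 1 5 (.rot (.cut 2 1 1 (.cut 1 37 2 (.leaf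
  5) (.leaf 22)) (.leaf 148))) (.leaf 5))) (.cut 2 1 3 (.rot (.cut 1 2 1 (.leaf 148) (.cut 37 1
  2 (.leaf 22) (.rot (.rot (.cut 1 37 114 (.leaf 5) (.leaf 22))))))) (.leaf 148))) (.cut 43 89
  228 (.leaf 147) (.rot (.rot (.cut 623 43 10 (.leaf 98) (.leaf 147))))))) (.rot (.cut 1 19 5
  (.rot (.cut 19 1 1 (.leaf 148) (.cut 37 1 3 (.leaf 48) (.leaf 5)))) (.leaf 148))))))) (.rot
  (.cut 215 41 2 (.rot (.cut 1 25 208 (.rot (.cut 28785 1 1 (.leaf 98) (.leaf 167))) (.cut 3 1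
  25 (.leaf 168) (.rot (.rot (.cut 1 2692 5 (.cut 1 5757 43 (.leaf 79) (.leaf 80)) (.leaf
  168))))))) (.rot (.cut 1 28785 1 (.rot (.cut 263 1 202 (.leaf 98) (.leaf 167))) (.leaf
  98)))))) (.cut 448 29 55 (.rot (.cut 25 1 208 (.rot (.cut 3 25 8 (.leaf 166) (.cut 84 1 25
  (.leaf 130) (.rot (.rot (.cut 1 3 25 (.rot (.cut 101 27 2 (.leaf 78) (.leaf 79))) (.leaf
  130))))))) (.rot (.rot (.cut 27 727 448 (.leaf 167) (.leaf 166)))))) (.rot (.rot (.cut 29 448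
  1 (.rot (.rot (.cut 589 3 6032 (.leaf 222) (.rot (.rot (.cut 3 52 29 (.leaf 166) (.leaf
  201))))))) (.rot (.cut 3 589 6032 (.rot (.cut 25 3 8 (.cut 1 84 25 (.rot (.cut 3 1 1 (.leaf
  130) (.cut 101 27 1 (.leaf 78) (.rot (.rot (.cut 27 101 2 (.leaf 79) (.leaf 78))))))) (.leaf
  130)) (.leaf 166))) (.rot (.cut 1 3 1 (.rot (.cut 731 1 8 (.leaf 130) (.cut 5555 27 56 (.leaf
  78) (.rot (.rot (.cut 27 101 1 (.leaf 79) (.leaf 78))))))) (.leaf 130))))))))))))))) (.cut 2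
  3 5 (.rot (.cut 3 2 1 (.cut 16 145 3 (.rot (.cut 29 16 1 (.leaf 192) (.cut 161 1 2 (.leaf 37)
  (.rot (.rot (.cut 1 119 2 (.leaf 20) (.leaf 37))))))) (.leaf 192)) (.leaf 221))) (.rot (.rot
  (.cut 9 49 16 (.rot (.cut 52 29 3 (.rot (.cut 2 1 3 (.rot (.cut 303 34 1 (.leaf 146) (.leaf
  37))) (.leaf 180))) (.rot (.cut 34 303 1 (.rot (.cut 4 17 9 (.leaf 146) (.leaf 37))) (.leaf
  146))))) (.rot (.cut 1 2 3 (.rot (.cut 16 29 1 (.cut 1 161 2 (.rot (.cut 21 1 1 (.leaf 37)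
  (.leaf 20))) (.leaf 37)) (.leaf 192))) (.rot (.cut 1 21 1 (.rot (.cut 157 4 49 (.leaf 37)
  (.leaf 20))) (.leaf 37)))))))))))) (.cut 29 2 3 (.rot (.cut 1 5 1 (.rot (.cut 9 1 1 (.cut 2 1
  3 (.rot (.cut 1 3 1 (.leaf 223) (.cut 26 1 3 (.cut 5 8 1 (.leaf 182) (.rot (.rot (.cut 4 1 29
  (.rot (.cut 101 27 52 (.leaf 20) (.cut 37 1 54 (.leaf 30) (.leaf 4)))) (.leaf 182))))) (.rot
  (.cut 1 4 29 (.rot (.cut 61 101 6 (.cut 28 37 61 (.leaf 4) (.leaf 23)) (.leaf 50))) (.leaf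
  4)))))) (.leaf 223)) (.cut 145 17 1 (.rot (.rot (.cut 145 52 1 (.rot (.cut 10 207 29 (.rot
  (.cut 1001 1 4205 (.leaf 8) (.rot (.rot (.cut 101 37 50 (.leaf 71) (.leaf 49)))))) (.leaf
  8))) (.cut 2002 1 1 (.rot (.cut 1 1001 4205 (.leaf 202) (.rot (.rot (.cut 81 101 728 (.cut 14
  37 81 (.leaf 8) (.leaf 79)) (.leaf 78)))))) (.leaf 202))))) (.rot (.rot (.cut 17 72 1 (.cut 3
  311 17 (.rot (.cut 5203 15 17 (.cut 1649 3748 5203 (.rot (.cut 445 3298 1 (.rot (.cut 280 43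
  1 (.rot (.cut 1849 5 143463 (.rot (.cut 2225 2279 1 (.leaf 149) (.leaf 80))) (.leaf 120)))
  (.rot (.cut 2279 2225 1 (.rot (.cut 7 2279 445 (.leaf 149) (.leaf 80))) (.leaf 149))))) (.cut
  134977 171 3298 (.rot (.cut 5 1849 143463 (.rot (.cut 68413 505 1 (.leaf 15) (.leaf 69)))
  (.leaf 80))) (.rot (.cut 505 68413 1 (.rot (.cut 287 101 1649 (.cut 3 185 287 (.rot (.cut
  90224537 3 1 (.leaf 15) (.leaf 8))) (.leaf 15)) (.leaf 69))) (.rot (.cut 3 90224537 1 (.rot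
  (.cut 11507 1 57 (.leaf 15) (.leaf 8))) (.leaf 15)))))))) (.rot (.cut 43 280 1 (.rot (.cut 16
  1 87 (.rot (.cut 13118 53 1 (.leaf 120) (.leaf 110))) (.leaf 149))) (.rot (.cut 53 13118 1
  (.rot (.cut 567 106 937 (.leaf 120) (.leaf 110))) (.leaf 120)))))) (.cut 1427 2 15 (.rot
  (.cut 1 16 87 (.rot (.cut 407 57 1 (.leaf 48) (.leaf 148))) (.rot (.rot (.cut 832 555 1427
  (.leaf 110) (.leaf 48)))))) (.rot (.rot (.cut 1 56 3 (.leaf 5) (.cut 37 57 56 (.leaf 48)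
  (.rot (.rot (.cut 57 407 1 (.leaf 148) (.leaf 48))))))))))) (.cut 43 171 311 (.rot (.cut 57 7
  1 (.cut 3 43 1 (.rot (.cut 2 3 1 (.leaf 80) (.cut 111 1 1 (.leaf 15) (.rot (.rot (.cut 1
  11507 57 (.leaf 8) (.leaf 15))))))) (.leaf 80)) (.leaf 149))) (.rot (.cut 3 2 1 (.rot (.cut
  10 3 493 (.leaf 80) (.rot (.rot (.cut 1 111 1 (.leaf 8) (.leaf 15)))))) (.leaf 80))))) (.cut
  265 13 18 (.cut 37 1313 1060 (.rot (.cut 3 10 493 (.rot (.cut 13 3 1 (.leaf 79) (.leaf 8)))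
  (.leaf 79))) (.rot (.rot (.cut 1313 1813 1 (.leaf 78) (.cut 27911 3 49 (.leaf 79) (.rot (.rot
  (.cut 3 13 1 (.leaf 8) (.leaf 79))))))))) (.rot (.rot (.cut 52 2147 1 (.leaf 202) (.cut 14443
  259 2147 (.leaf 78) (.rot (.rot (.cut 1813 1313 1 (.cut 3 27911 49 (.rot (.cut 143 3 7 (.leaf
  79) (.leaf 8))) (.leaf 79)) (.leaf 78))))))))))))))) (.cut 2 3 5 (.rot (.cut 3 1 1 (.cut 29
  130 3 (.rot (.cut 26 29 1 (.leaf 182) (.cut 1313 51 29 (.leaf 20) (.rot (.rot (.cut 17 404 29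
  (.cut 1 74 17 (.rot (.cut 481 2 51 (.leaf 30) (.leaf 4))) (.leaf 30)) (.leaf 20))))))) (.leaf
  182)) (.leaf 223))) (.cut 52 29 3 (.rot (.cut 29 26 1 (.cut 51 1313 29 (.rot (.cut 1313 51 29
  (.leaf 20) (.cut 481 2 51 (.leaf 30) (.rot (.rot (.cut 2 481 51 (.leaf 4) (.leaf 30)))))))
  (.leaf 20)) (.leaf 182))) (.rot (.cut 51 1313 29 (.rot (.cut 25 51 29 (.leaf 20) (.cut 37 4
  51 (.leaf 30) (.rot (.rot (.cut 2 481 51 (.leaf 4) (.leaf 30))))))) (.leaf 20))))))) (.rot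
  (.cut 1 9 1 (.rot (.cut 17 28 1 (.cut 11 168 17 (.rot (.cut 84 11 1 (.leaf 70) (.cut 202 1 11
  (.leaf 50) (.rot (.rot (.cut 7 101 11 (.cut 2 37 7 (.rot (.cut 37 2 1 (.leaf 23) (.leaf 4)))
  (.leaf 23)) (.leaf 50))))))) (.leaf 70)) (.cut 177 11 28 (.cut 101 131 177 (.leaf 71) (.rot
  (.rot (.cut 131 101 2 (.cut 48 851 131 (.rot (.cut 37 48 131 (.leaf 49) (.leaf 8))) (.leaf
  49)) (.leaf 71))))) (.rot (.rot (.cut 11 94 1 (.cut 1 196 1 (.rot (.cut 15 1 1 (.cut 29 56 55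
  (.rot (.cut 756 29 11 (.leaf 120) (.cut 5353 37 58 (.leaf 69) (.rot (.rot (.cut 37 101 87
  (.leaf 15) (.leaf 69))))))) (.leaf 120)) (.cut 87 2 11 (.cut 101 37 87 (.leaf 110) (.rot
  (.rot (.cut 37 808 1 (.leaf 48) (.leaf 110))))) (.rot (.rot (.cut 2 1103 11 (.leaf 5) (.cut
  555 808 1103 (.leaf 48) (.rot (.rot (.cut 808 37 1 (.leaf 110) (.leaf 48))))))))))) (.cut 81
  38 77 (.rot (.cut 29 756 11 (.cut 37 5353 58 (.rot (.cut 505 37 2 (.leaf 69) (.leaf 15)))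
  (.leaf 69)) (.leaf 120))) (.cut 101 185 1064 (.rot (.cut 37 505 2 (.leaf 15) (.leaf 69)))
  (.leaf 15)))) (.cut 336 25 47 (.leaf 8) (.rot (.rot (.cut 25 24 1 (.cut 101 851 50 (.rot
  (.cut 37 101 50 (.leaf 49) (.leaf 71))) (.leaf 49)) (.leaf 8))))))))))) (.cut 1 2 3 (.rot
  (.cut 11 84 1 (.cut 1 202 11 (.rot (.cut 101 7 2 (.leaf 50) (.cut 37 1 7 (.leaf 23) (.rot
  (.rot (.cut 2 37 1 (.leaf 4) (.leaf 23))))))) (.leaf 50)) (.leaf 70))) (.cut 25 14 3 (.rot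
  (.cut 1 25 2 (.leaf 4) (.cut 37 101 25 (.leaf 23) (.rot (.rot (.cut 101 37 50 (.leaf 50)
  (.leaf 23))))))) (.leaf 4))))))))

def tr4 : Tr :=
  (.rot (.cut 3 5 1 (.cut 2 29 3 (.rot (.cut 28 17 1 (.rot (.cut 9 1 1 (.cut 2 1 3 (.rot (.cut
  1 1 1 (.leaf 122) (.cut 202 61 1 (.leaf 112) (.rot (.rot (.cut 61 101 6 (.cut 28 37 61 (.rot
  (.cut 2701 28 61 (.leaf 54) (.leaf 2))) (.leaf 54)) (.leaf 112))))))) (.leaf 122)) (.cut 94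
  11 1 (.cut 101 1427 94 (.leaf 81) (.rot (.rot (.cut 1427 101 1 (.cut 224 18759 1427 (.rot
  (.cut 37 672 1427 (.leaf 17) (.leaf 10))) (.leaf 17)) (.leaf 81))))) (.rot (.rot (.cut 11 177
  28 (.cut 1 15 1 (.rot (.cut 196 1 1 (.cut 38 81 77 (.rot (.cut 3 19 11 (.leaf 82) (.cut 202
  925 19 (.leaf 83) (.rot (.rot (.cut 185 101 1064 (.leaf 55) (.leaf 83))))))) (.leaf 82))
  (.cut 1103 2 11 (.cut 808 555 1103 (.leaf 56) (.rot (.rot (.cut 555 101 1 (.leaf 31) (.leaf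
  56))))) (.rot (.rot (.cut 2 87 11 (.leaf 1) (.cut 37 101 87 (.leaf 31) (.rot (.rot (.cut 101
  555 1 (.leaf 56) (.leaf 31))))))))))) (.cut 56 29 55 (.rot (.cut 19 3 11 (.cut 925 202 19
  (.rot (.cut 101 925 1 (.leaf 83) (.leaf 55))) (.leaf 83)) (.leaf 82))) (.cut 101 37 87 (.rot
  (.cut 925 101 1 (.leaf 55) (.leaf 83))) (.leaf 55)))) (.cut 16 29 59 (.leaf 10) (.rot (.rot
  (.cut 29 224 1 (.cut 101 18759 29 (.rot (.cut 37 101 87 (.leaf 17) (.leaf 81))) (.leaf 17))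
  (.leaf 10))))))))))) (.cut 263 7 17 (.rot (.cut 61 263 1 (.cut 28 2701 61 (.rot (.cut 37 28 1
  (.leaf 54) (.leaf 2))) (.leaf 54)) (.cut 202 1 263 (.leaf 112) (.rot (.rot (.cut 168 101 263
  (.leaf 122) (.leaf 112))))))) (.cut 37 2 7 (.rot (.cut 28 37 1 (.leaf 2) (.leaf 54))) (.leaf
  2))))) (.rot (.cut 1 9 1 (.rot (.cut 5 1 1 (.cut 3 2 5 (.rot (.cut 1 1 1 (.leaf 224) (.cut
  156 29 1 (.leaf 183) (.rot (.rot (.cut 29 52 3 (.leaf 139) (.leaf 183))))))) (.leaf 224))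
  (.cut 72 17 1 (.cut 13 265 18 (.leaf 203) (.rot (.rot (.cut 265 26 29 (.cut 37 707 265 (.rot
  (.cut 1313 37 1060 (.leaf 169) (.leaf 170))) (.leaf 169)) (.leaf 203))))) (.rot (.rot (.cut
  17 145 1 (.cut 15 5203 17 (.rot (.cut 311 3 17 (.cut 171 43 311 (.rot (.cut 6407 1197 1 (.cut
  16 48047 149 (.rot (.cut 1 8 1 (.leaf 131) (.cut 140 53 1 (.leaf 82) (.rot (.rot (.cut 53
  87080 43 (.leaf 56) (.leaf 82))))))) (.leaf 131)) (.leaf 123))) (.rot (.cut 8 1 1 (.rot (.cut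
  1 16 87 (.leaf 131) (.rot (.rot (.cut 53 140 1 (.leaf 56) (.leaf 82)))))) (.leaf 131))))
  (.cut 56 1 3 (.cut 57 37 56 (.rot (.cut 16 1 87 (.rot (.cut 185 832 3 (.leaf 31) (.leaf 56)))
  (.leaf 150))) (.rot (.cut 832 185 3 (.rot (.cut 37 208 1 (.leaf 31) (.leaf 56))) (.leaf
  31)))) (.rot (.rot (.cut 2 1427 15 (.leaf 1) (.cut 555 832 1427 (.leaf 31) (.rot (.rot (.cut
  208 37 1 (.leaf 56) (.leaf 31))))))))))) (.cut 149 57 121 (.rot (.cut 1197 6407 1 (.rot (.cut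
  1 1 1 (.rot (.cut 48047 10 3158651 (.leaf 123) (.rot (.rot (.cut 520 777 1 (.leaf 83) (.leaf
  55)))))) (.leaf 123))) (.cut 48047 16 149 (.rot (.cut 10 48047 3158651 (.rot (.cut 1345316
  265 43 (.leaf 82) (.leaf 83))) (.leaf 131))) (.cut 87080 53 43 (.rot (.cut 265 1345316 43
  (.rot (.cut 9248316 265 1 (.leaf 82) (.leaf 83))) (.leaf 82))) (.rot (.rot (.cut 424 3907
  6407 (.leaf 56) (.cut 2268 265 3907 (.leaf 82) (.rot (.rot (.cut 265 9248316 1 (.leaf 83)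
  (.leaf 82)))))))))))) (.rot (.cut 1 1 1 (.rot (.cut 3 10 493 (.rot (.cut 1591 3 1 (.leaf 55)
  (.leaf 10))) (.leaf 123))) (.cut 777 520 1 (.rot (.cut 3 1591 1 (.rot (.cut 2055757 3 1
  (.leaf 55) (.leaf 10))) (.leaf 55))) (.rot (.rot (.cut 104 287 2451 (.leaf 83) (.cut 185 3
  287 (.leaf 55) (.rot (.rot (.cut 3 2055757 1 (.leaf 10) (.leaf 55))))))))))))) (.cut 1813 81
  145 (.rot (.cut 10 3 493 (.rot (.cut 1 10 1 (.cut 47 24 1 (.rot (.cut 24 47 1 (.leaf 10)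
  (.cut 1369 35 47 (.leaf 17) (.rot (.rot (.cut 35 1369 47 (.leaf 81) (.leaf 17))))))) (.leaf
  10)) (.leaf 170))) (.rot (.cut 47 24 1 (.rot (.cut 1035 47 1813 (.leaf 10) (.cut 37 35 47
  (.leaf 17) (.rot (.rot (.cut 35 1369 47 (.leaf 81) (.leaf 17))))))) (.leaf 10))))) (.rot
  (.rot (.cut 81 37 29 (.rot (.rot (.cut 28 1 1377 (.rot (.cut 26 707 81 (.leaf 203) (.leaf
  169))) (.leaf 81)))) (.rot (.cut 1 28 1377 (.rot (.cut 10 1 1 (.leaf 170) (.cut 47 35 1 (.cut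
  24 1369 47 (.leaf 10) (.leaf 17)) (.leaf 81)))) (.leaf 170))))))))))))) (.cut 1 2 3 (.rot
  (.cut 1 1 1 (.cut 29 156 1 (.rot (.cut 104 29 1 (.leaf 183) (.leaf 139))) (.leaf 183)) (.leaf
  224))) (.rot (.rot (.cut 6 49 29 (.rot (.cut 101 61 6 (.rot (.cut 1 1 6 (.rot (.cut 37 50 1
  (.leaf 54) (.leaf 2))) (.leaf 112))) (.cut 37 28 61 (.rot (.cut 50 37 1 (.leaf 2) (.leaf
  54))) (.leaf 2)))) (.rot (.cut 1 1 6 (.rot (.cut 29 104 1 (.leaf 139) (.leaf 183))) (.rot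
  (.rot (.cut 81 25 49 (.cut 2 37 81 (.leaf 2) (.leaf 160)) (.leaf 139))))))))))))) (.cut 16 3
  5 (.rot (.cut 1 5 1 (.rot (.cut 5 1 1 (.cut 3 2 5 (.rot (.cut 2 3 1 (.leaf 225) (.cut 58 3 1
  (.cut 5 17 6 (.leaf 193) (.rot (.rot (.cut 17 1 48 (.leaf 42) (.leaf 193))))) (.rot (.cut 1
  17 48 (.rot (.cut 29 52 3 (.leaf 61) (.leaf 184))) (.rot (.rot (.cut 289 8 9 (.leaf 42)
  (.leaf 61))))))))) (.leaf 225)) (.cut 55 13 1 (.rot (.rot (.cut 165 58 1 (.rot (.cut 52 809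
  55 (.rot (.cut 731 1 880 (.rot (.cut 303 12427 4 (.leaf 84) (.leaf 132))) (.leaf 204))) (.rot
  (.cut 12427 303 4 (.rot (.cut 56 12427 165 (.cut 27 5555 56 (.rot (.cut 5772857 27 4 (.leaf
  84) (.leaf 57))) (.leaf 84)) (.leaf 132))) (.rot (.cut 27 5772857 4 (.rot (.cut 1313 27 809
  (.leaf 84) (.leaf 57))) (.leaf 84))))))) (.cut 731 1 2 (.rot (.cut 1 731 880 (.leaf 226)
  (.leaf 132))) (.leaf 226))))) (.rot (.rot (.cut 13 55 1 (.cut 3 238 13 (.rot (.cut 202 15 13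
  (.rot (.cut 331 917 2 (.rot (.cut 623 331 48 (.rot (.cut 22686 205 1 (.rot (.cut 5 199 33431
  (.leaf 38) (.leaf 133))) (.leaf 38))) (.cut 43 2 331 (.rot (.cut 199 5 33431 (.rot (.cut 16
  995 1 (.leaf 205) (.leaf 133))) (.leaf 151))) (.rot (.rot (.cut 86 33389 331 (.leaf 131)
  (.cut 12048 995 33389 (.leaf 205) (.rot (.rot (.cut 995 16 1 (.leaf 133) (.leaf
  205))))))))))) (.cut 22686 43 917 (.rot (.cut 205 22686 1 (.leaf 38) (.leaf 133))) (.cut 6783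
  1 43 (.leaf 38) (.rot (.rot (.cut 1 263 202 (.leaf 57) (.leaf 38)))))))) (.cut 76 1 5 (.rot
  (.cut 1 5 24 (.leaf 150) (.cut 43 623 10 (.leaf 151) (.rot (.rot (.cut 89 43 228 (.leaf 38)
  (.leaf 151))))))) (.cut 57 1 1 (.cut 1 2 3 (.leaf 150) (.rot (.rot (.cut 2 3 1 (.cut 1 37 6
  (.rot (.cut 37 1 114 (.leaf 32) (.leaf 1))) (.leaf 32)) (.leaf 150))))) (.rot (.rot (.cut 1
  19 1 (.cut 1 37 3 (.leaf 1) (.rot (.rot (.cut 1 1 24 (.leaf 31) (.leaf 1))))) (.rot (.cut 1 1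
  24 (.rot (.cut 3 2 1 (.leaf 150) (.cut 37 1 6 (.leaf 32) (.leaf 1)))) (.leaf 150))))))))))
  (.cut 61 172 119 (.rot (.cut 172 61 1 (.rot (.cut 7 25 8 (.rot (.cut 753 7 12688 (.leaf 133)
  (.leaf 123))) (.cut 46 1 25 (.leaf 133) (.rot (.rot (.cut 1 199 8 (.cut 1 6783 43 (.rot (.cut
  57 1 1 (.leaf 38) (.leaf 57))) (.leaf 38)) (.leaf 133))))))) (.cut 6024 43 61 (.rot (.cut 7
  753 12688 (.rot (.cut 32379 35 16 (.leaf 131) (.leaf 123))) (.leaf 205))) (.rot (.cut 35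
  32379 16 (.rot (.cut 43 5 122 (.leaf 131) (.leaf 123))) (.leaf 131)))))) (.rot (.cut 25 7 8
  (.rot (.cut 1 25 208 (.rot (.cut 1425 1 1 (.leaf 123) (.leaf 170))) (.cut 3 1 25 (.leaf 133)
  (.rot (.rot (.cut 1 46 25 (.cut 1 57 1 (.leaf 57) (.leaf 38)) (.leaf 133))))))) (.rot (.cut 1
  1425 1 (.rot (.cut 449 1 344 (.leaf 123) (.leaf 170))) (.leaf 123))))))) (.cut 448 29 55
  (.rot (.cut 25 1 208 (.rot (.cut 3 25 8 (.leaf 169) (.cut 84 1 25 (.leaf 132) (.rot (.rot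
  (.cut 1 3 25 (.rot (.cut 101 27 2 (.leaf 84) (.leaf 57))) (.leaf 132))))))) (.rot (.rot (.cut
  27 727 448 (.leaf 170) (.leaf 169)))))) (.rot (.rot (.cut 29 448 1 (.rot (.rot (.cut 589 3
  6032 (.leaf 226) (.rot (.rot (.cut 3 52 29 (.leaf 169) (.leaf 203))))))) (.rot (.cut 3 589
  6032 (.rot (.cut 25 3 8 (.cut 1 84 25 (.rot (.cut 3 1 1 (.leaf 132) (.cut 101 27 1 (.leaf 84)
  (.rot (.rot (.cut 27 101 2 (.leaf 57) (.leaf 84))))))) (.leaf 132)) (.leaf 169))) (.rot (.cut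
  1 3 1 (.rot (.cut 731 1 8 (.leaf 132) (.cut 5555 27 56 (.leaf 84) (.rot (.rot (.cut 27 101 1
  (.leaf 57) (.leaf 84))))))) (.leaf 132))))))))))))))) (.cut 2 3 5 (.rot (.cut 3 2 1 (.cut 16
  145 3 (.rot (.cut 29 16 1 (.leaf 193) (.cut 161 1 2 (.leaf 42) (.rot (.rot (.cut 1 119 2
  (.leaf 61) (.leaf 42))))))) (.leaf 193)) (.leaf 225))) (.rot (.rot (.cut 9 49 16 (.rot (.cut
  52 29 3 (.rot (.cut 2 1 3 (.rot (.cut 303 34 1 (.leaf 139) (.leaf 42))) (.leaf 183))) (.rot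
  (.cut 34 303 1 (.rot (.cut 4 17 9 (.leaf 139) (.leaf 42))) (.leaf 139))))) (.rot (.cut 1 2 3
  (.rot (.cut 16 29 1 (.cut 1 161 2 (.rot (.cut 21 1 1 (.leaf 42) (.leaf 61))) (.leaf 42))
  (.leaf 193))) (.rot (.cut 1 21 1 (.rot (.cut 157 4 49 (.leaf 42) (.leaf 61))) (.leaf
  42))))))))))) (.cut 29 2 3 (.rot (.cut 1 5 1 (.rot (.cut 9 1 1 (.cut 2 1 3 (.rot (.cut 1 3 1
  (.leaf 227) (.cut 26 1 3 (.cut 5 8 1 (.leaf 184) (.rot (.rot (.cut 4 1 29 (.rot (.cut 101 27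
  52 (.leaf 61) (.cut 37 1 54 (.leaf 114) (.leaf 0)))) (.leaf 184))))) (.rot (.cut 1 4 29 (.rot
  (.cut 61 101 6 (.cut 28 37 61 (.leaf 0) (.leaf 33)) (.leaf 58))) (.leaf 0)))))) (.leaf 227))
  (.cut 145 17 1 (.rot (.rot (.cut 145 52 1 (.rot (.cut 10 207 29 (.rot (.cut 1001 1 4205
  (.leaf 11) (.rot (.rot (.cut 101 37 50 (.leaf 85) (.leaf 59)))))) (.leaf 11))) (.cut 2002 1 1
  (.rot (.cut 1 1001 4205 (.leaf 204) (.rot (.rot (.cut 81 101 728 (.cut 14 37 81 (.leaf 11)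
  (.leaf 57)) (.leaf 84)))))) (.leaf 204))))) (.rot (.rot (.cut 17 72 1 (.cut 3 311 17 (.rot
  (.cut 5203 15 17 (.cut 1649 3748 5203 (.rot (.cut 445 3298 1 (.rot (.cut 280 43 1 (.rot (.cut
  1849 5 143463 (.rot (.cut 2225 2279 1 (.leaf 151) (.leaf 38))) (.leaf 124))) (.rot (.cut 2279
  2225 1 (.rot (.cut 7 2279 445 (.leaf 151) (.leaf 38))) (.leaf 151))))) (.cut 134977 171 3298
  (.rot (.cut 5 1849 143463 (.rot (.cut 68413 505 1 (.leaf 18) (.leaf 86))) (.leaf 38))) (.rot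
  (.cut 505 68413 1 (.rot (.cut 287 101 1649 (.cut 3 185 287 (.rot (.cut 90224537 3 1 (.leaf
  18) (.leaf 11))) (.leaf 18)) (.leaf 86))) (.rot (.cut 3 90224537 1 (.rot (.cut 11507 1 57
  (.leaf 18) (.leaf 11))) (.leaf 18)))))))) (.rot (.cut 43 280 1 (.rot (.cut 16 1 87 (.rot
  (.cut 13118 53 1 (.leaf 124) (.leaf 113))) (.leaf 151))) (.rot (.cut 53 13118 1 (.rot (.cut
  567 106 937 (.leaf 124) (.leaf 113))) (.leaf 124)))))) (.cut 1427 2 15 (.rot (.cut 1 16 87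
  (.rot (.cut 407 57 1 (.leaf 32) (.leaf 150))) (.rot (.rot (.cut 832 555 1427 (.leaf 113)
  (.leaf 32)))))) (.rot (.rot (.cut 1 56 3 (.leaf 1) (.cut 37 57 56 (.leaf 32) (.rot (.rot
  (.cut 57 407 1 (.leaf 150) (.leaf 32))))))))))) (.cut 43 171 311 (.rot (.cut 57 7 1 (.cut 3
  43 1 (.rot (.cut 2 3 1 (.leaf 38) (.cut 111 1 1 (.leaf 18) (.rot (.rot (.cut 1 11507 57
  (.leaf 11) (.leaf 18))))))) (.leaf 38)) (.leaf 151))) (.rot (.cut 3 2 1 (.rot (.cut 10 3 493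
  (.leaf 38) (.rot (.rot (.cut 1 111 1 (.leaf 11) (.leaf 18)))))) (.leaf 38))))) (.cut 265 13
  18 (.cut 37 1313 1060 (.rot (.cut 3 10 493 (.rot (.cut 13 3 1 (.leaf 57) (.leaf 11))) (.leaf
  57))) (.rot (.rot (.cut 1313 1813 1 (.leaf 84) (.cut 27911 3 49 (.leaf 57) (.rot (.rot (.cut
  3 13 1 (.leaf 11) (.leaf 57))))))))) (.rot (.rot (.cut 52 2147 1 (.leaf 204) (.cut 14443 259
  2147 (.leaf 84) (.rot (.rot (.cut 1813 1313 1 (.cut 3 27911 49 (.rot (.cut 143 3 7 (.leaf 57)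
  (.leaf 11))) (.leaf 57)) (.leaf 84))))))))))))))) (.cut 2 3 5 (.rot (.cut 3 1 1 (.cut 29 130
  3 (.rot (.cut 26 29 1 (.leaf 184) (.cut 1313 51 29 (.leaf 61) (.rot (.rot (.cut 17 404 29
  (.cut 1 74 17 (.rot (.cut 481 2 51 (.leaf 114) (.leaf 0))) (.leaf 114)) (.leaf 61)))))))
  (.leaf 184)) (.leaf 227))) (.cut 52 29 3 (.rot (.cut 29 26 1 (.cut 51 1313 29 (.rot (.cut
  1313 51 29 (.leaf 61) (.cut 481 2 51 (.leaf 114) (.rot (.rot (.cut 2 481 51 (.leaf 0) (.leaf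
  114))))))) (.leaf 61)) (.leaf 184))) (.rot (.cut 51 1313 29 (.rot (.cut 25 51 29 (.leaf 61)
  (.cut 37 4 51 (.leaf 114) (.rot (.rot (.cut 2 481 51 (.leaf 0) (.leaf 114))))))) (.leaf
  61))))))) (.rot (.cut 1 9 1 (.rot (.cut 17 28 1 (.cut 11 168 17 (.rot (.cut 84 11 1 (.leaf
  87) (.cut 202 1 11 (.leaf 58) (.rot (.rot (.cut 7 101 11 (.cut 2 37 7 (.rot (.cut 37 2 1
  (.leaf 33) (.leaf 0))) (.leaf 33)) (.leaf 58))))))) (.leaf 87)) (.cut 177 11 28 (.cut 101 131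
  177 (.leaf 85) (.rot (.rot (.cut 131 101 2 (.cut 48 851 131 (.rot (.cut 37 48 131 (.leaf 59)
  (.leaf 11))) (.leaf 59)) (.leaf 85))))) (.rot (.rot (.cut 11 94 1 (.cut 1 196 1 (.rot (.cut
  15 1 1 (.cut 29 56 55 (.rot (.cut 756 29 11 (.leaf 124) (.cut 5353 37 58 (.leaf 86) (.rot
  (.rot (.cut 37 101 87 (.leaf 18) (.leaf 86))))))) (.leaf 124)) (.cut 87 2 11 (.cut 101 37 87
  (.leaf 113) (.rot (.rot (.cut 37 808 1 (.leaf 32) (.leaf 113))))) (.rot (.rot (.cut 2 1103 11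
  (.leaf 1) (.cut 555 808 1103 (.leaf 32) (.rot (.rot (.cut 808 37 1 (.leaf 113) (.leaf
  32))))))))))) (.cut 81 38 77 (.rot (.cut 29 756 11 (.cut 37 5353 58 (.rot (.cut 505 37 2
  (.leaf 86) (.leaf 18))) (.leaf 86)) (.leaf 124))) (.cut 101 185 1064 (.rot (.cut 37 505 2
  (.leaf 18) (.leaf 86))) (.leaf 18)))) (.cut 336 25 47 (.leaf 11) (.rot (.rot (.cut 25 24 1
  (.cut 101 851 50 (.rot (.cut 37 101 50 (.leaf 59) (.leaf 85))) (.leaf 59)) (.leaf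
  11))))))))))) (.cut 1 2 3 (.rot (.cut 11 84 1 (.cut 1 202 11 (.rot (.cut 101 7 2 (.leaf 58)
  (.cut 37 1 7 (.leaf 33) (.rot (.rot (.cut 2 37 1 (.leaf 0) (.leaf 33))))))) (.leaf 58))
  (.leaf 87))) (.cut 101 61 6 (.rot (.cut 7 101 2 (.cut 1 37 7 (.rot (.cut 37 2 1 (.leaf 33)
  (.leaf 0))) (.leaf 33)) (.leaf 58))) (.cut 37 28 61 (.rot (.cut 2 37 1 (.leaf 0) (.leaf 33)))
  (.leaf 0))))))))))

def tr5 : Tr :=
  (.rot (.rot (.cut 3 5 1 (.cut 2 29 3 (.rot (.cut 28 17 1 (.rot (.cut 9 1 1 (.cut 2 1 3 (.rot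
  (.cut 1 1 1 (.leaf 124) (.cut 202 61 1 (.leaf 113) (.rot (.rot (.cut 61 101 6 (.cut 28 37 61
  (.rot (.cut 2701 28 61 (.leaf 32) (.leaf 1))) (.leaf 32)) (.leaf 113))))))) (.leaf 124))
  (.cut 94 11 1 (.cut 101 1427 94 (.leaf 86) (.rot (.rot (.cut 1427 101 1 (.cut 224 18759 1427
  (.rot (.cut 37 672 1427 (.leaf 18) (.leaf 11))) (.leaf 18)) (.leaf 86))))) (.rot (.rot (.cut
  11 177 28 (.cut 1 15 1 (.rot (.cut 196 1 1 (.cut 38 81 77 (.rot (.cut 3 19 11 (.leaf 87)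
  (.cut 202 925 19 (.leaf 85) (.rot (.rot (.cut 185 101 1064 (.leaf 59) (.leaf 85))))))) (.leaf
  87)) (.cut 1103 2 11 (.cut 808 555 1103 (.leaf 58) (.rot (.rot (.cut 555 101 1 (.leaf 33)
  (.leaf 58))))) (.rot (.rot (.cut 2 87 11 (.leaf 0) (.cut 37 101 87 (.leaf 33) (.rot (.rot
  (.cut 101 555 1 (.leaf 58) (.leaf 33))))))))))) (.cut 56 29 55 (.rot (.cut 19 3 11 (.cut 925
  202 19 (.rot (.cut 101 925 1 (.leaf 85) (.leaf 59))) (.leaf 85)) (.leaf 87))) (.cut 101 37 87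
  (.rot (.cut 925 101 1 (.leaf 59) (.leaf 85))) (.leaf 59)))) (.cut 16 29 59 (.leaf 11) (.rot
  (.rot (.cut 29 224 1 (.cut 101 18759 29 (.rot (.cut 37 101 87 (.leaf 18) (.leaf 86))) (.leaf
  18)) (.leaf 11))))))))))) (.cut 263 7 17 (.rot (.cut 61 263 1 (.cut 28 2701 61 (.rot (.cut 37
  28 1 (.leaf 32) (.leaf 1))) (.leaf 32)) (.cut 202 1 263 (.leaf 113) (.rot (.rot (.cut 168 101
  263 (.leaf 124) (.leaf 113))))))) (.cut 37 2 7 (.rot (.cut 28 37 1 (.leaf 1) (.leaf 32)))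
  (.leaf 1))))) (.rot (.cut 1 9 1 (.rot (.cut 5 1 1 (.cut 3 2 5 (.rot (.cut 1 1 1 (.leaf 228)
  (.cut 156 29 1 (.leaf 185) (.rot (.rot (.cut 29 52 3 (.leaf 39) (.leaf 185))))))) (.leaf
  228)) (.cut 72 17 1 (.cut 13 265 18 (.leaf 206) (.rot (.rot (.cut 265 26 29 (.cut 37 707 265
  (.rot (.cut 1313 37 1060 (.leaf 171) (.leaf 172))) (.leaf 171)) (.leaf 206))))) (.rot (.rot
  (.cut 17 145 1 (.cut 15 5203 17 (.rot (.cut 311 3 17 (.cut 171 43 311 (.rot (.cut 6407 1197 1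
  (.cut 16 48047 149 (.rot (.cut 1 8 1 (.leaf 134) (.cut 140 53 1 (.leaf 87) (.rot (.rot (.cut
  53 87080 43 (.leaf 58) (.leaf 87))))))) (.leaf 134)) (.leaf 125))) (.rot (.cut 8 1 1 (.rot
  (.cut 1 16 87 (.leaf 134) (.rot (.rot (.cut 53 140 1 (.leaf 58) (.leaf 87)))))) (.leaf
  134)))) (.cut 56 1 3 (.cut 57 37 56 (.rot (.cut 16 1 87 (.rot (.cut 185 832 3 (.leaf 33)
  (.leaf 58))) (.leaf 152))) (.rot (.cut 832 185 3 (.rot (.cut 37 208 1 (.leaf 33) (.leaf 58)))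
  (.leaf 33)))) (.rot (.rot (.cut 2 1427 15 (.leaf 0) (.cut 555 832 1427 (.leaf 33) (.rot (.rot
  (.cut 208 37 1 (.leaf 58) (.leaf 33))))))))))) (.cut 149 57 121 (.rot (.cut 1197 6407 1 (.rot
  (.cut 1 1 1 (.rot (.cut 48047 10 3158651 (.leaf 125) (.rot (.rot (.cut 520 777 1 (.leaf 85)
  (.leaf 59)))))) (.leaf 125))) (.cut 48047 16 149 (.rot (.cut 10 48047 3158651 (.rot (.cut
  1345316 265 43 (.leaf 87) (.leaf 85))) (.leaf 134))) (.cut 87080 53 43 (.rot (.cut 265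
  1345316 43 (.rot (.cut 9248316 265 1 (.leaf 87) (.leaf 85))) (.leaf 87))) (.rot (.rot (.cut
  424 3907 6407 (.leaf 58) (.cut 2268 265 3907 (.leaf 87) (.rot (.rot (.cut 265 9248316 1
  (.leaf 85) (.leaf 87)))))))))))) (.rot (.cut 1 1 1 (.rot (.cut 3 10 493 (.rot (.cut 1591 3 1
  (.leaf 59) (.leaf 11))) (.leaf 125))) (.cut 777 520 1 (.rot (.cut 3 1591 1 (.rot (.cut
  2055757 3 1 (.leaf 59) (.leaf 11))) (.leaf 59))) (.rot (.rot (.cut 104 287 2451 (.leaf 85)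
  (.cut 185 3 287 (.leaf 59) (.rot (.rot (.cut 3 2055757 1 (.leaf 11) (.leaf 59)))))))))))))
  (.cut 1813 81 145 (.rot (.cut 10 3 493 (.rot (.cut 1 10 1 (.cut 47 24 1 (.rot (.cut 24 47 1
  (.leaf 11) (.cut 1369 35 47 (.leaf 18) (.rot (.rot (.cut 35 1369 47 (.leaf 86) (.leaf
  18))))))) (.leaf 11)) (.leaf 172))) (.rot (.cut 47 24 1 (.rot (.cut 1035 47 1813 (.leaf 11)
  (.cut 37 35 47 (.leaf 18) (.rot (.rot (.cut 35 1369 47 (.leaf 86) (.leaf 18))))))) (.leaf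
  11))))) (.rot (.rot (.cut 81 37 29 (.rot (.rot (.cut 28 1 1377 (.rot (.cut 26 707 81 (.leaf
  206) (.leaf 171))) (.leaf 86)))) (.rot (.cut 1 28 1377 (.rot (.cut 10 1 1 (.leaf 172) (.cut
  47 35 1 (.cut 24 1369 47 (.leaf 11) (.leaf 18)) (.leaf 86)))) (.leaf 172))))))))))))) (.cut 1
  2 3 (.rot (.cut 1 1 1 (.cut 29 156 1 (.rot (.cut 104 29 1 (.leaf 185) (.leaf 39))) (.leaf
  185)) (.leaf 228))) (.rot (.rot (.cut 6 49 29 (.rot (.cut 101 61 6 (.rot (.cut 1 1 6 (.rot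
  (.cut 37 50 1 (.leaf 32) (.leaf 1))) (.leaf 113))) (.cut 37 28 61 (.rot (.cut 50 37 1 (.leaf
  1) (.leaf 32))) (.leaf 1)))) (.rot (.cut 1 1 6 (.rot (.cut 29 104 1 (.leaf 39) (.leaf 185)))
  (.rot (.rot (.cut 81 25 49 (.cut 2 37 81 (.leaf 1) (.leaf 103)) (.leaf 39))))))))))))) (.cut
  16 3 5 (.rot (.cut 1 5 1 (.rot (.cut 5 1 1 (.cut 3 2 5 (.rot (.cut 2 3 1 (.leaf 229) (.cut 58
  3 1 (.cut 5 17 6 (.leaf 194) (.rot (.rot (.cut 17 1 48 (.leaf 34) (.leaf 194))))) (.rot (.cut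
  1 17 48 (.rot (.cut 29 52 3 (.leaf 24) (.leaf 186))) (.rot (.rot (.cut 289 8 9 (.leaf 34)
  (.leaf 24))))))))) (.leaf 229)) (.cut 55 13 1 (.rot (.rot (.cut 165 58 1 (.rot (.cut 52 809
  55 (.rot (.cut 731 1 880 (.rot (.cut 303 12427 4 (.leaf 88) (.leaf 135))) (.leaf 207))) (.rot
  (.cut 12427 303 4 (.rot (.cut 56 12427 165 (.cut 27 5555 56 (.rot (.cut 5772857 27 4 (.leaf
  88) (.leaf 60))) (.leaf 88)) (.leaf 135))) (.rot (.cut 27 5772857 4 (.rot (.cut 1313 27 809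
  (.leaf 88) (.leaf 60))) (.leaf 88))))))) (.cut 731 1 2 (.rot (.cut 1 731 880 (.leaf 230)
  (.leaf 135))) (.leaf 230))))) (.rot (.rot (.cut 13 55 1 (.cut 3 238 13 (.rot (.cut 202 15 13
  (.rot (.cut 331 917 2 (.rot (.cut 623 331 48 (.rot (.cut 22686 205 1 (.rot (.cut 5 199 33431
  (.leaf 40) (.leaf 136))) (.leaf 40))) (.cut 43 2 331 (.rot (.cut 199 5 33431 (.rot (.cut 16
  995 1 (.leaf 208) (.leaf 136))) (.leaf 153))) (.rot (.rot (.cut 86 33389 331 (.leaf 134)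
  (.cut 12048 995 33389 (.leaf 208) (.rot (.rot (.cut 995 16 1 (.leaf 136) (.leaf
  208))))))))))) (.cut 22686 43 917 (.rot (.cut 205 22686 1 (.leaf 40) (.leaf 136))) (.cut 6783
  1 43 (.leaf 40) (.rot (.rot (.cut 1 263 202 (.leaf 60) (.leaf 40)))))))) (.cut 76 1 5 (.rot
  (.cut 1 5 24 (.leaf 152) (.cut 43 623 10 (.leaf 153) (.rot (.rot (.cut 89 43 228 (.leaf 40)
  (.leaf 153))))))) (.cut 57 1 1 (.cut 1 2 3 (.leaf 152) (.rot (.rot (.cut 2 3 1 (.cut 1 37 6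
  (.rot (.cut 37 1 114 (.leaf 28) (.leaf 0))) (.leaf 28)) (.leaf 152))))) (.rot (.rot (.cut 1
  19 1 (.cut 1 37 3 (.leaf 0) (.rot (.rot (.cut 1 1 24 (.leaf 33) (.leaf 0))))) (.rot (.cut 1 1
  24 (.rot (.cut 3 2 1 (.leaf 152) (.cut 37 1 6 (.leaf 28) (.leaf 0)))) (.leaf 152))))))))))
  (.cut 61 172 119 (.rot (.cut 172 61 1 (.rot (.cut 7 25 8 (.rot (.cut 753 7 12688 (.leaf 136)
  (.leaf 125))) (.cut 46 1 25 (.leaf 136) (.rot (.rot (.cut 1 199 8 (.cut 1 6783 43 (.rot (.cut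
  57 1 1 (.leaf 40) (.leaf 60))) (.leaf 40)) (.leaf 136))))))) (.cut 6024 43 61 (.rot (.cut 7
  753 12688 (.rot (.cut 32379 35 16 (.leaf 134) (.leaf 125))) (.leaf 208))) (.rot (.cut 35
  32379 16 (.rot (.cut 43 5 122 (.leaf 134) (.leaf 125))) (.leaf 134)))))) (.rot (.cut 25 7 8
  (.rot (.cut 1 25 208 (.rot (.cut 1425 1 1 (.leaf 125) (.leaf 172))) (.cut 3 1 25 (.leaf 136)
  (.rot (.rot (.cut 1 46 25 (.cut 1 57 1 (.leaf 60) (.leaf 40)) (.leaf 136))))))) (.rot (.cut 1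
  1425 1 (.rot (.cut 449 1 344 (.leaf 125) (.leaf 172))) (.leaf 125))))))) (.cut 448 29 55
  (.rot (.cut 25 1 208 (.rot (.cut 3 25 8 (.leaf 171) (.cut 84 1 25 (.leaf 135) (.rot (.rot
  (.cut 1 3 25 (.rot (.cut 101 27 2 (.leaf 88) (.leaf 60))) (.leaf 135))))))) (.rot (.rot (.cut
  27 727 448 (.leaf 172) (.leaf 171)))))) (.rot (.rot (.cut 29 448 1 (.rot (.rot (.cut 589 3
  6032 (.leaf 230) (.rot (.rot (.cut 3 52 29 (.leaf 171) (.leaf 206))))))) (.rot (.cut 3 589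
  6032 (.rot (.cut 25 3 8 (.cut 1 84 25 (.rot (.cut 3 1 1 (.leaf 135) (.cut 101 27 1 (.leaf 88)
  (.rot (.rot (.cut 27 101 2 (.leaf 60) (.leaf 88))))))) (.leaf 135)) (.leaf 171))) (.rot (.cut
  1 3 1 (.rot (.cut 731 1 8 (.leaf 135) (.cut 5555 27 56 (.leaf 88) (.rot (.rot (.cut 27 101 1
  (.leaf 60) (.leaf 88))))))) (.leaf 135))))))))))))))) (.cut 2 3 5 (.rot (.cut 3 2 1 (.cut 16
  145 3 (.rot (.cut 29 16 1 (.leaf 194) (.cut 161 1 2 (.leaf 34) (.rot (.rot (.cut 1 119 2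
  (.leaf 24) (.leaf 34))))))) (.leaf 194)) (.leaf 229))) (.rot (.rot (.cut 9 49 16 (.rot (.cut
  52 29 3 (.rot (.cut 2 1 3 (.rot (.cut 303 34 1 (.leaf 39) (.leaf 34))) (.leaf 185))) (.rot
  (.cut 34 303 1 (.rot (.cut 4 17 9 (.leaf 39) (.leaf 34))) (.leaf 39))))) (.rot (.cut 1 2 3
  (.rot (.cut 16 29 1 (.cut 1 161 2 (.rot (.cut 21 1 1 (.leaf 34) (.leaf 24))) (.leaf 34))
  (.leaf 194))) (.rot (.cut 1 21 1 (.rot (.cut 157 4 49 (.leaf 34) (.leaf 24))) (.leaf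
  34))))))))))) (.cut 29 2 3 (.rot (.cut 1 5 1 (.rot (.cut 9 1 1 (.cut 2 1 3 (.rot (.cut 1 3 1
  (.leaf 231) (.cut 26 1 3 (.cut 5 8 1 (.leaf 186) (.rot (.rot (.cut 4 1 29 (.rot (.cut 101 27
  52 (.leaf 24) (.cut 37 1 54 (.leaf 99) (.leaf 3)))) (.leaf 186))))) (.rot (.cut 1 4 29 (.rot
  (.cut 61 101 6 (.cut 28 37 61 (.leaf 3) (.leaf 35)) (.leaf 44))) (.leaf 3)))))) (.leaf 231))
  (.cut 145 17 1 (.rot (.rot (.cut 145 52 1 (.rot (.cut 10 207 29 (.rot (.cut 1001 1 4205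
  (.leaf 6) (.rot (.rot (.cut 101 37 50 (.leaf 64) (.leaf 43)))))) (.leaf 6))) (.cut 2002 1 1
  (.rot (.cut 1 1001 4205 (.leaf 207) (.rot (.rot (.cut 81 101 728 (.cut 14 37 81 (.leaf 6)
  (.leaf 60)) (.leaf 88)))))) (.leaf 207))))) (.rot (.rot (.cut 17 72 1 (.cut 3 311 17 (.rot
  (.cut 5203 15 17 (.cut 1649 3748 5203 (.rot (.cut 445 3298 1 (.rot (.cut 280 43 1 (.rot (.cut
  1849 5 143463 (.rot (.cut 2225 2279 1 (.leaf 153) (.leaf 40))) (.leaf 117))) (.rot (.cut 2279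
  2225 1 (.rot (.cut 7 2279 445 (.leaf 153) (.leaf 40))) (.leaf 153))))) (.cut 134977 171 3298
  (.rot (.cut 5 1849 143463 (.rot (.cut 68413 505 1 (.leaf 13) (.leaf 62))) (.leaf 40))) (.rot
  (.cut 505 68413 1 (.rot (.cut 287 101 1649 (.cut 3 185 287 (.rot (.cut 90224537 3 1 (.leaf
  13) (.leaf 6))) (.leaf 13)) (.leaf 62))) (.rot (.cut 3 90224537 1 (.rot (.cut 11507 1 57
  (.leaf 13) (.leaf 6))) (.leaf 13)))))))) (.rot (.cut 43 280 1 (.rot (.cut 16 1 87 (.rot (.cut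
  13118 53 1 (.leaf 117) (.leaf 108))) (.leaf 153))) (.rot (.cut 53 13118 1 (.rot (.cut 567 106
  937 (.leaf 117) (.leaf 108))) (.leaf 117)))))) (.cut 1427 2 15 (.rot (.cut 1 16 87 (.rot
  (.cut 407 57 1 (.leaf 28) (.leaf 152))) (.rot (.rot (.cut 832 555 1427 (.leaf 108) (.leaf
  28)))))) (.rot (.rot (.cut 1 56 3 (.leaf 0) (.cut 37 57 56 (.leaf 28) (.rot (.rot (.cut 57
  407 1 (.leaf 152) (.leaf 28))))))))))) (.cut 43 171 311 (.rot (.cut 57 7 1 (.cut 3 43 1 (.rot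
  (.cut 2 3 1 (.leaf 40) (.cut 111 1 1 (.leaf 13) (.rot (.rot (.cut 1 11507 57 (.leaf 6) (.leaf
  13))))))) (.leaf 40)) (.leaf 153))) (.rot (.cut 3 2 1 (.rot (.cut 10 3 493 (.leaf 40) (.rot
  (.rot (.cut 1 111 1 (.leaf 6) (.leaf 13)))))) (.leaf 40))))) (.cut 265 13 18 (.cut 37 1313
  1060 (.rot (.cut 3 10 493 (.rot (.cut 13 3 1 (.leaf 60) (.leaf 6))) (.leaf 60))) (.rot (.rot
  (.cut 1313 1813 1 (.leaf 88) (.cut 27911 3 49 (.leaf 60) (.rot (.rot (.cut 3 13 1 (.leaf 6)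
  (.leaf 60))))))))) (.rot (.rot (.cut 52 2147 1 (.leaf 207) (.cut 14443 259 2147 (.leaf 88)
  (.rot (.rot (.cut 1813 1313 1 (.cut 3 27911 49 (.rot (.cut 143 3 7 (.leaf 60) (.leaf 6)))
  (.leaf 60)) (.leaf 88))))))))))))))) (.cut 2 3 5 (.rot (.cut 3 1 1 (.cut 29 130 3 (.rot (.cut
  26 29 1 (.leaf 186) (.cut 1313 51 29 (.leaf 24) (.rot (.rot (.cut 17 404 29 (.cut 1 74 17
  (.rot (.cut 481 2 51 (.leaf 99) (.leaf 3))) (.leaf 99)) (.leaf 24))))))) (.leaf 186)) (.leaf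
  231))) (.cut 52 29 3 (.rot (.cut 29 26 1 (.cut 51 1313 29 (.rot (.cut 1313 51 29 (.leaf 24)
  (.cut 481 2 51 (.leaf 99) (.rot (.rot (.cut 2 481 51 (.leaf 3) (.leaf 99))))))) (.leaf 24))
  (.leaf 186))) (.rot (.cut 51 1313 29 (.rot (.cut 25 51 29 (.leaf 24) (.cut 37 4 51 (.leaf 99)
  (.rot (.rot (.cut 2 481 51 (.leaf 3) (.leaf 99))))))) (.leaf 24))))))) (.rot (.cut 1 9 1
  (.rot (.cut 17 28 1 (.cut 11 168 17 (.rot (.cut 84 11 1 (.leaf 63) (.cut 202 1 11 (.leaf 44)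
  (.rot (.rot (.cut 7 101 11 (.cut 2 37 7 (.rot (.cut 37 2 1 (.leaf 35) (.leaf 3))) (.leaf 35))
  (.leaf 44))))))) (.leaf 63)) (.cut 177 11 28 (.cut 101 131 177 (.leaf 64) (.rot (.rot (.cut
  131 101 2 (.cut 48 851 131 (.rot (.cut 37 48 131 (.leaf 43) (.leaf 6))) (.leaf 43)) (.leaf
  64))))) (.rot (.rot (.cut 11 94 1 (.cut 1 196 1 (.rot (.cut 15 1 1 (.cut 29 56 55 (.rot (.cut
  756 29 11 (.leaf 117) (.cut 5353 37 58 (.leaf 62) (.rot (.rot (.cut 37 101 87 (.leaf 13)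
  (.leaf 62))))))) (.leaf 117)) (.cut 87 2 11 (.cut 101 37 87 (.leaf 108) (.rot (.rot (.cut 37
  808 1 (.leaf 28) (.leaf 108))))) (.rot (.rot (.cut 2 1103 11 (.leaf 0) (.cut 555 808 1103
  (.leaf 28) (.rot (.rot (.cut 808 37 1 (.leaf 108) (.leaf 28))))))))))) (.cut 81 38 77 (.rot
  (.cut 29 756 11 (.cut 37 5353 58 (.rot (.cut 505 37 2 (.leaf 62) (.leaf 13))) (.leaf 62))
  (.leaf 117))) (.cut 101 185 1064 (.rot (.cut 37 505 2 (.leaf 13) (.leaf 62))) (.leaf 13))))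
  (.cut 336 25 47 (.leaf 6) (.rot (.rot (.cut 25 24 1 (.cut 101 851 50 (.rot (.cut 37 101 50
  (.leaf 43) (.leaf 64))) (.leaf 43)) (.leaf 6))))))))))) (.cut 1 2 3 (.rot (.cut 11 84 1 (.cut
  1 202 11 (.rot (.cut 101 7 2 (.leaf 44) (.cut 37 1 7 (.leaf 35) (.rot (.rot (.cut 2 37 1
  (.leaf 3) (.leaf 35))))))) (.leaf 44)) (.leaf 63))) (.cut 25 14 3 (.rot (.cut 1 25 2 (.leaf
  3) (.cut 37 101 25 (.leaf 35) (.rot (.rot (.cut 101 37 50 (.leaf 44) (.leaf 35))))))) (.leaf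
  3))))))))))

def tr6 : Tr :=
  (.cut 5 3 1 (.cut 3 16 5 (.cut 2 29 3 (.rot (.cut 28 17 1 (.rot (.cut 9 1 1 (.cut 2 1 3 (.rot
  (.cut 1 1 1 (.leaf 121) (.cut 202 61 1 (.leaf 111) (.rot (.rot (.cut 61 101 6 (.cut 28 37 61
  (.rot (.cut 2701 28 61 (.leaf 51) (.leaf 4))) (.leaf 51)) (.leaf 111))))))) (.leaf 121))
  (.cut 94 11 1 (.cut 101 1427 94 (.leaf 76) (.rot (.rot (.cut 1427 101 1 (.cut 224 18759 1427
  (.rot (.cut 37 672 1427 (.leaf 16) (.leaf 9))) (.leaf 16)) (.leaf 76))))) (.rot (.rot (.cut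
  11 177 28 (.cut 1 15 1 (.rot (.cut 196 1 1 (.cut 38 81 77 (.rot (.cut 3 19 11 (.leaf 77)
  (.cut 202 925 19 (.leaf 75) (.rot (.rot (.cut 185 101 1064 (.leaf 53) (.leaf 75))))))) (.leaf
  77)) (.cut 1103 2 11 (.cut 808 555 1103 (.leaf 52) (.rot (.rot (.cut 555 101 1 (.leaf 19)
  (.leaf 52))))) (.rot (.rot (.cut 2 87 11 (.leaf 2) (.cut 37 101 87 (.leaf 19) (.rot (.rot
  (.cut 101 555 1 (.leaf 52) (.leaf 19))))))))))) (.cut 56 29 55 (.rot (.cut 19 3 11 (.cut 925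
  202 19 (.rot (.cut 101 925 1 (.leaf 75) (.leaf 53))) (.leaf 75)) (.leaf 77))) (.cut 101 37 87
  (.rot (.cut 925 101 1 (.leaf 53) (.leaf 75))) (.leaf 53)))) (.cut 16 29 59 (.leaf 9) (.rot
  (.rot (.cut 29 224 1 (.cut 101 18759 29 (.rot (.cut 37 101 87 (.leaf 16) (.leaf 76))) (.leaf
  16)) (.leaf 9))))))))))) (.cut 263 7 17 (.rot (.cut 61 263 1 (.cut 28 2701 61 (.rot (.cut 37
  28 1 (.leaf 51) (.leaf 4))) (.leaf 51)) (.cut 202 1 263 (.leaf 111) (.rot (.rot (.cut 168 101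
  263 (.leaf 121) (.leaf 111))))))) (.cut 37 2 7 (.rot (.cut 28 37 1 (.leaf 4) (.leaf 51)))
  (.leaf 4))))) (.rot (.cut 1 9 1 (.rot (.cut 5 1 1 (.cut 3 2 5 (.rot (.cut 1 1 1 (.leaf 232)
  (.cut 156 29 1 (.leaf 187) (.rot (.rot (.cut 29 52 3 (.leaf 154) (.leaf 187))))))) (.leaf
  232)) (.cut 72 17 1 (.cut 13 265 18 (.leaf 209) (.rot (.rot (.cut 265 26 29 (.cut 37 707 265
  (.rot (.cut 1313 37 1060 (.leaf 173) (.leaf 174))) (.leaf 173)) (.leaf 209))))) (.rot (.rot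
  (.cut 17 145 1 (.cut 15 5203 17 (.rot (.cut 311 3 17 (.cut 171 43 311 (.rot (.cut 6407 1197 1
  (.cut 16 48047 149 (.rot (.cut 1 8 1 (.leaf 155) (.cut 140 53 1 (.leaf 77) (.rot (.rot (.cut
  53 87080 43 (.leaf 52) (.leaf 77))))))) (.leaf 155)) (.leaf 100))) (.rot (.cut 8 1 1 (.rot
  (.cut 1 16 87 (.leaf 155) (.rot (.rot (.cut 53 140 1 (.leaf 52) (.leaf 77)))))) (.leaf
  155)))) (.cut 56 1 3 (.cut 57 37 56 (.rot (.cut 16 1 87 (.rot (.cut 185 832 3 (.leaf 19)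
  (.leaf 52))) (.leaf 156))) (.rot (.cut 832 185 3 (.rot (.cut 37 208 1 (.leaf 19) (.leaf 52)))
  (.leaf 19)))) (.rot (.rot (.cut 2 1427 15 (.leaf 2) (.cut 555 832 1427 (.leaf 19) (.rot (.rot
  (.cut 208 37 1 (.leaf 52) (.leaf 19))))))))))) (.cut 149 57 121 (.rot (.cut 1197 6407 1 (.rot
  (.cut 1 1 1 (.rot (.cut 48047 10 3158651 (.leaf 100) (.rot (.rot (.cut 520 777 1 (.leaf 75)
  (.leaf 53)))))) (.leaf 100))) (.cut 48047 16 149 (.rot (.cut 10 48047 3158651 (.rot (.cut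
  1345316 265 43 (.leaf 77) (.leaf 75))) (.leaf 155))) (.cut 87080 53 43 (.rot (.cut 265
  1345316 43 (.rot (.cut 9248316 265 1 (.leaf 77) (.leaf 75))) (.leaf 77))) (.rot (.rot (.cut
  424 3907 6407 (.leaf 52) (.cut 2268 265 3907 (.leaf 77) (.rot (.rot (.cut 265 9248316 1
  (.leaf 75) (.leaf 77)))))))))))) (.rot (.cut 1 1 1 (.rot (.cut 3 10 493 (.rot (.cut 1591 3 1
  (.leaf 53) (.leaf 9))) (.leaf 100))) (.cut 777 520 1 (.rot (.cut 3 1591 1 (.rot (.cut 2055757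
  3 1 (.leaf 53) (.leaf 9))) (.leaf 53))) (.rot (.rot (.cut 104 287 2451 (.leaf 75) (.cut 185 3
  287 (.leaf 53) (.rot (.rot (.cut 3 2055757 1 (.leaf 9) (.leaf 53))))))))))))) (.cut 1813 81
  145 (.rot (.cut 10 3 493 (.rot (.cut 1 10 1 (.cut 47 24 1 (.rot (.cut 24 47 1 (.leaf 9) (.cut
  1369 35 47 (.leaf 16) (.rot (.rot (.cut 35 1369 47 (.leaf 76) (.leaf 16))))))) (.leaf 9))
  (.leaf 174))) (.rot (.cut 47 24 1 (.rot (.cut 1035 47 1813 (.leaf 9) (.cut 37 35 47 (.leaf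
  16) (.rot (.rot (.cut 35 1369 47 (.leaf 76) (.leaf 16))))))) (.leaf 9))))) (.rot (.rot (.cut
  81 37 29 (.rot (.rot (.cut 28 1 1377 (.rot (.cut 26 707 81 (.leaf 209) (.leaf 173))) (.leaf
  76)))) (.rot (.cut 1 28 1377 (.rot (.cut 10 1 1 (.leaf 174) (.cut 47 35 1 (.cut 24 1369 47
  (.leaf 9) (.leaf 16)) (.leaf 76)))) (.leaf 174))))))))))))) (.cut 1 2 3 (.rot (.cut 1 1 1
  (.cut 29 156 1 (.rot (.cut 104 29 1 (.leaf 187) (.leaf 154))) (.leaf 187)) (.leaf 232)))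
  (.rot (.rot (.cut 6 49 29 (.rot (.cut 101 61 6 (.rot (.cut 1 1 6 (.rot (.cut 37 50 1 (.leaf
  51) (.leaf 4))) (.leaf 111))) (.cut 37 28 61 (.rot (.cut 50 37 1 (.leaf 4) (.leaf 51)))
  (.leaf 4)))) (.rot (.cut 1 1 6 (.rot (.cut 29 104 1 (.leaf 154) (.leaf 187))) (.rot (.rot
  (.cut 81 25 49 (.cut 2 37 81 (.leaf 4) (.leaf 188)) (.leaf 154))))))))))))) (.rot (.cut 1 5 1
  (.rot (.cut 5 1 1 (.cut 3 2 5 (.rot (.cut 2 3 1 (.leaf 233) (.cut 58 3 1 (.cut 5 17 6 (.leaf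
  195) (.rot (.rot (.cut 17 1 48 (.leaf 89) (.leaf 195))))) (.rot (.cut 1 17 48 (.rot (.cut 29
  52 3 (.leaf 90) (.leaf 189))) (.rot (.rot (.cut 289 8 9 (.leaf 89) (.leaf 90))))))))) (.leaf
  233)) (.cut 55 13 1 (.rot (.rot (.cut 165 58 1 (.rot (.cut 52 809 55 (.rot (.cut 731 1 880
  (.rot (.cut 303 12427 4 (.leaf 91) (.leaf 137))) (.leaf 210))) (.rot (.cut 12427 303 4 (.rot
  (.cut 56 12427 165 (.cut 27 5555 56 (.rot (.cut 5772857 27 4 (.leaf 91) (.leaf 92))) (.leaf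
  91)) (.leaf 137))) (.rot (.cut 27 5772857 4 (.rot (.cut 1313 27 809 (.leaf 91) (.leaf 92)))
  (.leaf 91))))))) (.cut 731 1 2 (.rot (.cut 1 731 880 (.leaf 234) (.leaf 137))) (.leaf
  234))))) (.rot (.rot (.cut 13 55 1 (.cut 15 202 13 (.rot (.cut 238 3 13 (.cut 172 61 119
  (.rot (.cut 1085 43 2 (.rot (.cut 43 155 2 (.leaf 93) (.cut 9116 41 155 (.leaf 175) (.rot
  (.rot (.cut 41 115756 1085 (.leaf 100) (.leaf 175))))))) (.cut 5757 1 43 (.leaf 93) (.rot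
  (.rot (.cut 1 449 344 (.leaf 92) (.leaf 93))))))) (.rot (.rot (.cut 61 113 24 (.cut 1 8 61
  (.rot (.cut 5 43 122 (.rot (.cut 43 35 2 (.leaf 157) (.leaf 93))) (.leaf 157))) (.rot (.rot
  (.cut 43 7 610 (.cut 5 1 43 (.rot (.cut 43 25 16 (.leaf 155) (.leaf 100))) (.leaf 240)) (.rot
  (.rot (.cut 35 43 2 (.leaf 93) (.leaf 157)))))))) (.rot (.cut 7 43 610 (.rot (.cut 155 43 2
  (.cut 41 9116 155 (.rot (.cut 43 205 1 (.leaf 175) (.leaf 100))) (.leaf 175)) (.leaf 93)))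
  (.cut 1 5 43 (.rot (.cut 205 43 1 (.leaf 100) (.leaf 175))) (.leaf 100)))))))) (.rot (.cut 5
  1 24 (.rot (.cut 1 76 5 (.cut 1 57 1 (.rot (.cut 19 1 5 (.rot (.cut 2 1 1 (.cut 1 37 2 (.leaf
  2) (.leaf 19)) (.leaf 156))) (.leaf 2))) (.cut 2 1 3 (.rot (.cut 1 2 1 (.leaf 156) (.cut 37 1
  2 (.leaf 19) (.rot (.rot (.cut 1 37 114 (.leaf 2) (.leaf 19))))))) (.leaf 156))) (.cut 43 89
  228 (.leaf 155) (.rot (.rot (.cut 623 43 10 (.leaf 100) (.leaf 155))))))) (.rot (.cut 1 19 5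
  (.rot (.cut 19 1 1 (.leaf 156) (.cut 37 1 3 (.leaf 54) (.leaf 2)))) (.leaf 156))))))) (.rot
  (.cut 215 41 2 (.rot (.cut 1 25 208 (.rot (.cut 28785 1 1 (.leaf 100) (.leaf 174))) (.cut 3 1
  25 (.leaf 175) (.rot (.rot (.cut 1 2692 5 (.cut 1 5757 43 (.leaf 92) (.leaf 93)) (.leaf
  175))))))) (.rot (.cut 1 28785 1 (.rot (.cut 263 1 202 (.leaf 100) (.leaf 174))) (.leaf
  100)))))) (.cut 448 29 55 (.rot (.cut 25 1 208 (.rot (.cut 3 25 8 (.leaf 173) (.cut 84 1 25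
  (.leaf 137) (.rot (.rot (.cut 1 3 25 (.rot (.cut 101 27 2 (.leaf 91) (.leaf 92))) (.leaf
  137))))))) (.rot (.rot (.cut 27 727 448 (.leaf 174) (.leaf 173)))))) (.rot (.rot (.cut 29 448
  1 (.rot (.rot (.cut 589 3 6032 (.leaf 234) (.rot (.rot (.cut 3 52 29 (.leaf 173) (.leaf
  209))))))) (.rot (.cut 3 589 6032 (.rot (.cut 25 3 8 (.cut 1 84 25 (.rot (.cut 3 1 1 (.leaf
  137) (.cut 101 27 1 (.leaf 91) (.rot (.rot (.cut 27 101 2 (.leaf 92) (.leaf 91))))))) (.leaf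
  137)) (.leaf 173))) (.rot (.cut 1 3 1 (.rot (.cut 731 1 8 (.leaf 137) (.cut 5555 27 56 (.leaf
  91) (.rot (.rot (.cut 27 101 1 (.leaf 92) (.leaf 91))))))) (.leaf 137))))))))))))))) (.cut 2
  3 5 (.rot (.cut 3 2 1 (.cut 16 145 3 (.rot (.cut 29 16 1 (.leaf 195) (.cut 161 1 2 (.leaf 89)
  (.rot (.rot (.cut 1 119 2 (.leaf 90) (.leaf 89))))))) (.leaf 195)) (.leaf 233))) (.rot (.rot
  (.cut 9 49 16 (.rot (.cut 52 29 3 (.rot (.cut 2 1 3 (.rot (.cut 303 34 1 (.leaf 154) (.leaf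
  89))) (.leaf 187))) (.rot (.cut 34 303 1 (.rot (.cut 4 17 9 (.leaf 154) (.leaf 89))) (.leaf
  154))))) (.rot (.cut 1 2 3 (.rot (.cut 16 29 1 (.cut 1 161 2 (.rot (.cut 21 1 1 (.leaf 89)
  (.leaf 90))) (.leaf 89)) (.leaf 195))) (.rot (.cut 1 21 1 (.rot (.cut 157 4 49 (.leaf 89)
  (.leaf 90))) (.leaf 89)))))))))))) (.cut 29 2 3 (.rot (.cut 1 5 1 (.rot (.cut 9 1 1 (.cut 2 1
  3 (.rot (.cut 1 3 1 (.leaf 235) (.cut 26 1 3 (.cut 5 8 1 (.leaf 189) (.rot (.rot (.cut 4 1 29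
  (.rot (.cut 101 27 52 (.leaf 90) (.cut 37 1 54 (.leaf 101) (.leaf 1)))) (.leaf 189))))) (.rot
  (.cut 1 4 29 (.rot (.cut 61 101 6 (.cut 28 37 61 (.leaf 1) (.leaf 31)) (.leaf 56))) (.leaf
  1)))))) (.leaf 235)) (.cut 145 17 1 (.rot (.rot (.cut 145 52 1 (.rot (.cut 10 207 29 (.rot
  (.cut 1001 1 4205 (.leaf 10) (.rot (.rot (.cut 101 37 50 (.leaf 83) (.leaf 55)))))) (.leaf
  10))) (.cut 2002 1 1 (.rot (.cut 1 1001 4205 (.leaf 210) (.rot (.rot (.cut 81 101 728 (.cut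
  14 37 81 (.leaf 10) (.leaf 92)) (.leaf 91)))))) (.leaf 210))))) (.rot (.rot (.cut 17 72 1
  (.cut 3 311 17 (.rot (.cut 5203 15 17 (.cut 1649 3748 5203 (.rot (.cut 445 3298 1 (.rot (.cut
  280 43 1 (.rot (.cut 1849 5 143463 (.rot (.cut 2225 2279 1 (.leaf 157) (.leaf 93))) (.leaf
  122))) (.rot (.cut 2279 2225 1 (.rot (.cut 7 2279 445 (.leaf 157) (.leaf 93))) (.leaf
  157))))) (.cut 134977 171 3298 (.rot (.cut 5 1849 143463 (.rot (.cut 68413 505 1 (.leaf 17)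
  (.leaf 81))) (.leaf 93))) (.rot (.cut 505 68413 1 (.rot (.cut 287 101 1649 (.cut 3 185 287
  (.rot (.cut 90224537 3 1 (.leaf 17) (.leaf 10))) (.leaf 17)) (.leaf 81))) (.rot (.cut 3
  90224537 1 (.rot (.cut 11507 1 57 (.leaf 17) (.leaf 10))) (.leaf 17)))))))) (.rot (.cut 43
  280 1 (.rot (.cut 16 1 87 (.rot (.cut 13118 53 1 (.leaf 122) (.leaf 112))) (.leaf 157)))
  (.rot (.cut 53 13118 1 (.rot (.cut 567 106 937 (.leaf 122) (.leaf 112))) (.leaf 122))))))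
  (.cut 1427 2 15 (.rot (.cut 1 16 87 (.rot (.cut 407 57 1 (.leaf 54) (.leaf 156))) (.rot (.rot
  (.cut 832 555 1427 (.leaf 112) (.leaf 54)))))) (.rot (.rot (.cut 1 56 3 (.leaf 2) (.cut 37 57
  56 (.leaf 54) (.rot (.rot (.cut 57 407 1 (.leaf 156) (.leaf 54))))))))))) (.cut 43 171 311
  (.rot (.cut 57 7 1 (.cut 3 43 1 (.rot (.cut 2 3 1 (.leaf 93) (.cut 111 1 1 (.leaf 17) (.rot
  (.rot (.cut 1 11507 57 (.leaf 10) (.leaf 17))))))) (.leaf 93)) (.leaf 157))) (.rot (.cut 3 2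
  1 (.rot (.cut 10 3 493 (.leaf 93) (.rot (.rot (.cut 1 111 1 (.leaf 10) (.leaf 17)))))) (.leaf
  93))))) (.cut 265 13 18 (.cut 37 1313 1060 (.rot (.cut 3 10 493 (.rot (.cut 13 3 1 (.leaf 92)
  (.leaf 10))) (.leaf 92))) (.rot (.rot (.cut 1313 1813 1 (.leaf 91) (.cut 27911 3 49 (.leaf
  92) (.rot (.rot (.cut 3 13 1 (.leaf 10) (.leaf 92))))))))) (.rot (.rot (.cut 52 2147 1 (.leaf
  210) (.cut 14443 259 2147 (.leaf 91) (.rot (.rot (.cut 1813 1313 1 (.cut 3 27911 49 (.rot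
  (.cut 143 3 7 (.leaf 92) (.leaf 10))) (.leaf 92)) (.leaf 91))))))))))))))) (.cut 2 3 5 (.rot
  (.cut 3 1 1 (.cut 29 130 3 (.rot (.cut 26 29 1 (.leaf 189) (.cut 1313 51 29 (.leaf 90) (.rot
  (.rot (.cut 17 404 29 (.cut 1 74 17 (.rot (.cut 481 2 51 (.leaf 101) (.leaf 1))) (.leaf 101))
  (.leaf 90))))))) (.leaf 189)) (.leaf 235))) (.cut 52 29 3 (.rot (.cut 29 26 1 (.cut 51 1313
  29 (.rot (.cut 1313 51 29 (.leaf 90) (.cut 481 2 51 (.leaf 101) (.rot (.rot (.cut 2 481 51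
  (.leaf 1) (.leaf 101))))))) (.leaf 90)) (.leaf 189))) (.rot (.cut 51 1313 29 (.rot (.cut 25
  51 29 (.leaf 90) (.cut 37 4 51 (.leaf 101) (.rot (.rot (.cut 2 481 51 (.leaf 1) (.leaf
  101))))))) (.leaf 90))))))) (.rot (.cut 1 9 1 (.rot (.cut 17 28 1 (.cut 11 168 17 (.rot (.cut
  84 11 1 (.leaf 82) (.cut 202 1 11 (.leaf 56) (.rot (.rot (.cut 7 101 11 (.cut 2 37 7 (.rot
  (.cut 37 2 1 (.leaf 31) (.leaf 1))) (.leaf 31)) (.leaf 56))))))) (.leaf 82)) (.cut 177 11 28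
  (.cut 101 131 177 (.leaf 83) (.rot (.rot (.cut 131 101 2 (.cut 48 851 131 (.rot (.cut 37 48
  131 (.leaf 55) (.leaf 10))) (.leaf 55)) (.leaf 83))))) (.rot (.rot (.cut 11 94 1 (.cut 1 196
  1 (.rot (.cut 15 1 1 (.cut 29 56 55 (.rot (.cut 756 29 11 (.leaf 122) (.cut 5353 37 58 (.leaf
  81) (.rot (.rot (.cut 37 101 87 (.leaf 17) (.leaf 81))))))) (.leaf 122)) (.cut 87 2 11 (.cut
  101 37 87 (.leaf 112) (.rot (.rot (.cut 37 808 1 (.leaf 54) (.leaf 112))))) (.rot (.rot (.cut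
  2 1103 11 (.leaf 2) (.cut 555 808 1103 (.leaf 54) (.rot (.rot (.cut 808 37 1 (.leaf 112)
  (.leaf 54))))))))))) (.cut 81 38 77 (.rot (.cut 29 756 11 (.cut 37 5353 58 (.rot (.cut 505 37
  2 (.leaf 81) (.leaf 17))) (.leaf 81)) (.leaf 122))) (.cut 101 185 1064 (.rot (.cut 37 505 2
  (.leaf 17) (.leaf 81))) (.leaf 17)))) (.cut 336 25 47 (.leaf 10) (.rot (.rot (.cut 25 24 1
  (.cut 101 851 50 (.rot (.cut 37 101 50 (.leaf 55) (.leaf 83))) (.leaf 55)) (.leaf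
  10))))))))))) (.cut 1 2 3 (.rot (.cut 11 84 1 (.cut 1 202 11 (.rot (.cut 101 7 2 (.leaf 56)
  (.cut 37 1 7 (.leaf 31) (.rot (.rot (.cut 2 37 1 (.leaf 1) (.leaf 31))))))) (.leaf 56))
  (.leaf 82))) (.cut 101 61 6 (.rot (.cut 7 101 2 (.cut 1 37 7 (.rot (.cut 37 2 1 (.leaf 31)
  (.leaf 1))) (.leaf 31)) (.leaf 56))) (.cut 37 28 61 (.rot (.cut 2 37 1 (.leaf 1) (.leaf 31)))
  (.leaf 1))))))))

def tr7 : Tr :=
  (.rot (.cut 11 5 1 (.rot (.cut 5 11 1 (.rot (.cut 86 5 1 (.rot (.cut 5 6 11 (.cut 43 57 5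
  (.rot (.cut 627 43 5 (.leaf 158) (.cut 8399 23 43 (.leaf 103) (.rot (.rot (.cut 23 185 43
  (.leaf 39) (.leaf 103))))))) (.leaf 158)) (.cut 1 5 6 (.leaf 138) (.rot (.rot (.cut 5 31 2
  (.cut 1 57 5 (.rot (.cut 57 43 5 (.leaf 102) (.cut 185 23 43 (.leaf 30) (.rot (.rot (.cut 23
  555 43 (.leaf 20) (.leaf 30))))))) (.leaf 102)) (.leaf 138))))))) (.cut 209 1 5 (.rot (.cut
  43 627 5 (.rot (.cut 74 33 1 (.rot (.cut 123 2 2299 (.leaf 103) (.leaf 1))) (.cut 16613 23 33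
  (.leaf 103) (.rot (.rot (.cut 23 8399 43 (.leaf 39) (.leaf 103))))))) (.rot (.cut 2 123 2299
  (.rot (.cut 1 2 11 (.leaf 158) (.cut 37 1 38 (.leaf 101) (.leaf 1)))) (.leaf 158))))) (.rot
  (.cut 33 74 1 (.rot (.cut 2 33 5 (.leaf 1) (.cut 37 23 33 (.leaf 103) (.rot (.rot (.cut 23
  16613 33 (.leaf 39) (.leaf 103))))))) (.leaf 1)))))) (.cut 233 15 11 (.rot (.cut 185 233 11
  (.rot (.cut 570 233 1 (.rot (.cut 16 5 233 (.cut 25 43 16 (.rot (.cut 133472 25 1 (.leaf 104)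
  (.leaf 102))) (.leaf 104)) (.cut 1 2 5 (.leaf 159) (.rot (.rot (.cut 1 627 10 (.cut 104 6845
  57 (.leaf 24) (.leaf 99)) (.leaf 159))))))) (.cut 14147 32 233 (.rot (.cut 25 133472 1 (.rot
  (.cut 16813 25 1 (.leaf 104) (.leaf 102))) (.leaf 104))) (.rot (.rot (.cut 32 1559 185 (.rot
  (.cut 2737 9 4 (.rot (.cut 5 391 7456 (.rot (.cut 39491 135 8 (.leaf 20) (.leaf 30))) (.leaf
  37))) (.rot (.cut 135 39491 8 (.rot (.cut 23 135 32 (.leaf 20) (.leaf 30))) (.leaf 20)))))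
  (.rot (.cut 391 5 7456 (.rot (.cut 25 16813 1 (.leaf 102) (.leaf 104))) (.rot (.rot (.cut 5
  2066 1559 (.leaf 30) (.leaf 102)))))))))))) (.cut 43 5 233 (.rot (.cut 5 16 233 (.cut 2 1 5
  (.rot (.cut 1 2 1 (.leaf 236) (.cut 56 53 1 (.leaf 34) (.leaf 24)))) (.leaf 236)) (.rot (.rot
  (.cut 5 1 43 (.rot (.cut 43 25 16 (.leaf 104) (.leaf 102))) (.leaf 241)))))) (.cut 43 32 5
  (.rot (.cut 2 1 1 (.cut 53 56 1 (.rot (.cut 28 1 1 (.cut 5 306 1 (.rot (.cut 1311 5 1 (.leaf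
  34) (.cut 8686 27 1 (.leaf 39) (.rot (.rot (.cut 27 4343 140 (.leaf 103) (.leaf 39)))))))
  (.leaf 34)) (.leaf 24))) (.rot (.cut 5 1311 1 (.rot (.cut 13 5 233 (.leaf 34) (.rot (.rot
  (.cut 27 8686 1 (.leaf 103) (.leaf 39)))))) (.leaf 34)))) (.rot (.cut 5 13 233 (.rot (.cut 57
  5 43 (.leaf 158) (.leaf 103))) (.leaf 236))))) (.rot (.cut 311 140 1 (.rot (.cut 36 311 233
  (.leaf 39) (.cut 168 53 311 (.leaf 34) (.rot (.rot (.cut 1 8568 311 (.leaf 24) (.leaf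
  34))))))) (.cut 4343 27 140 (.leaf 39) (.rot (.rot (.cut 135 23 32 (.leaf 103) (.leaf
  39))))))))))) (.rot (.cut 185 526 1 (.rot (.cut 7 185 11 (.cut 2 37 7 (.rot (.cut 45251 2 1
  (.cut 329 3011 1223 (.rot (.cut 1 329 1 (.leaf 181) (.cut 57 52 37 (.leaf 159) (.rot (.rot
  (.cut 52 399 37 (.leaf 104) (.leaf 159))))))) (.leaf 181)) (.leaf 3))) (.rot (.cut 329 1 1
  (.rot (.cut 2 329 2775 (.leaf 181) (.rot (.rot (.cut 52 57 37 (.leaf 104) (.leaf 159))))))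
  (.leaf 181)))) (.cut 101 132 185 (.rot (.cut 329 2 2775 (.rot (.cut 8 1269 1 (.leaf 37)
  (.leaf 104))) (.leaf 146))) (.cut 14 3 11 (.rot (.cut 1269 8 1 (.rot (.cut 8 1269 1 (.leaf
  37) (.leaf 104))) (.leaf 37))) (.rot (.rot (.cut 72 146573 185 (.leaf 20) (.cut 3128 1269
  20939 (.leaf 37) (.rot (.rot (.cut 1269 8 1 (.leaf 104) (.leaf 37)))))))))))) (.cut 34691 57
  526 (.rot (.cut 3 69382 1 (.rot (.cut 8177 2 3 (.rot (.cut 3011 221 5724015 (.leaf 3) (.leaf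
  99))) (.leaf 3))) (.cut 171627 12173 69382 (.rot (.cut 221 3011 5724015 (.leaf 159) (.rot
  (.rot (.cut 1 37 57 (.leaf 3) (.leaf 181)))))) (.cut 399 52 37 (.leaf 159) (.rot (.rot (.cut
  17108 35739 34691 (.leaf 104) (.leaf 159)))))))) (.rot (.cut 2 8177 3 (.rot (.cut 109 2 15
  (.cut 104 37 109 (.rot (.cut 23643 104 1 (.leaf 99) (.leaf 24))) (.leaf 99)) (.leaf 3)))
  (.rot (.cut 104 23643 1 (.rot (.cut 6845 104 57 (.leaf 99) (.leaf 24))) (.leaf 99)))))))))))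
  (.rot (.cut 20 187 1 (.rot (.cut 7 20 1 (.cut 2 37 7 (.rot (.cut 1517 2 1 (.cut 6 29 41 (.rot
  (.cut 1 18 1 (.leaf 188) (.cut 57 52 1 (.leaf 102) (.rot (.rot (.cut 52 133 37 (.leaf 138)
  (.leaf 102))))))) (.leaf 188)) (.leaf 4))) (.rot (.cut 18 1 1 (.rot (.cut 1 9 50 (.leaf 188)
  (.rot (.rot (.cut 52 57 1 (.leaf 138) (.leaf 102)))))) (.leaf 188)))) (.cut 263 11 20 (.cut
  101 168 263 (.rot (.cut 9 1 50 (.rot (.cut 28 243 1 (.leaf 89) (.leaf 138))) (.leaf 154)))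
  (.rot (.cut 243 28 1 (.rot (.cut 28 243 1 (.leaf 89) (.leaf 138))) (.leaf 89)))) (.rot (.rot
  (.cut 11 1833 10 (.cut 1 887 22 (.rot (.cut 87 2 11 (.cut 101 37 87 (.rot (.cut 296 101 1
  (.leaf 101) (.leaf 90))) (.leaf 101)) (.leaf 1))) (.rot (.cut 101 296 1 (.rot (.cut 3 1 55
  (.rot (.cut 32819 219 1 (.leaf 101) (.leaf 158))) (.leaf 90))) (.rot (.cut 219 32819 1 (.rot
  (.cut 37 73 887 (.leaf 101) (.leaf 158))) (.leaf 101)))))) (.rot (.cut 1 3 55 (.rot (.cut 243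
  28 1 (.leaf 138) (.leaf 89))) (.rot (.rot (.cut 53 785 3666 (.leaf 158) (.leaf
  138)))))))))))) (.cut 2319 43 187 (.rot (.cut 1 773 1 (.rot (.cut 259 1 1 (.rot (.cut 29 14
  3865 (.leaf 4) (.leaf 30))) (.leaf 4))) (.cut 3553 312 773 (.cut 29 42 187 (.rot (.cut 14 29
  3865 (.leaf 102) (.rot (.rot (.cut 1 37 19 (.leaf 4) (.leaf 188)))))) (.leaf 102)) (.rot
  (.rot (.cut 312 817 773 (.leaf 138) (.leaf 102))))))) (.rot (.cut 1 259 1 (.rot (.cut 33 2 5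
  (.cut 23 37 33 (.rot (.cut 2368 23 1 (.leaf 30) (.leaf 20))) (.leaf 30)) (.leaf 4))) (.rot
  (.cut 23 2368 1 (.rot (.cut 555 23 43 (.leaf 30) (.leaf 20))) (.leaf 30))))))))))

lemma e1 : chkExp L1 = true := by decide +kernel
lemma s1 : chkSum (L1.map Prod.fst) (L2.map Prod.fst) = true := by decide +kernel
lemma t1 : Q1.all (okTet (L2.map Prod.fst)) = true := by decide +kernel
lemma c1 : chkPairs Q1 (L1.map Prod.fst) C1 = true := by decide +kernel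
lemma e2 : chkExp L2 = true := by decide +kernel
lemma s2 : chkSum (L2.map Prod.fst) (L3.map Prod.fst) = true := by decide +kernel
lemma t2 : Q2.all (okTet (L3.map Prod.fst)) = true := by decide +kernel
lemma c2 : chkPairs Q2 (L2.map Prod.fst) C2 = true := by decide +kernel
lemma e3 : chkExp L3 = true := by decide +kernel
lemma s3 : chkSum (L3.map Prod.fst) (L4.map Prod.fst) = true := by decide +kernel
lemma t3 : Q3.all (okTet (L4.map Prod.fst)) = true := by decide +kernel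
lemma c3 : chkPairs Q3 (L3.map Prod.fst) C3 = true := by decide +kernel
lemma e4 : chkExp L4 = true := by decide +kernel
lemma s4 : chkSum (L4.map Prod.fst) (L5.map Prod.fst) = true := by decide +kernel
lemma t4 : Q4.all (okTet (L5.map Prod.fst)) = true := by decide +kernel
lemma c4 : chkPairs Q4 (L4.map Prod.fst) C4 = true := by decide +kernel
lemma e5 : chkExp L5 = true := by decide +kernel
lemma s5 : chkSum (L5.map Prod.fst) XL = true := by decide +kernel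
lemma t5 : Q5.all (okTet XL) = true := by decide +kernel
lemma c5 : chkPairs Q5 (L5.map Prod.fst) C5 = true := by decide +kernel
def trs : List Tr := [tr0, tr1, tr2, tr3, tr4, tr5, tr6, tr7]
lemma hF : FL.all (okFn XL) = true := by decide +kernel
lemma hT : chkAll FL 16 sg trs = true := by decide +kernel
lemma hV : valAll FL 16 (2 ^ 20) sg trs * 100000 ≤ 23652 * (2 ^ 18 * 2 ^ 20) := by decide +kernel

end Pool.Agent.Lib.MP_7fdcdd_gt.Tet
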