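import Mathlib
import Pool.Agent.Lib.MP_7fdcdd_gt.TetData

set_option autoImplicit false

namespace Pool.Agent.Lib.MP_7fdcdd_gt.Tet

open Finset MeasureTheory Module Vol

/-- The kernel of a tetrahedron has at most `0.23652` of its volume (bound from the seventh
polyhedron of the sequence). -/
theorem iter_bound (p : Fin 4 → E3) (hp : AffineIndependent ℝ p) :
    IsPolyhedron (convexHull ℝ (Set.range p)) ∧
    volume.real (mid^[6] (convexHull ℝ (Set.range p))) ≤
      23652 / 100000 * volume.real (convexHull ℝ (Set.range p)) := by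
  have hE : finrank ℝ E3 = 3 := by simp
  have hP : IsPolyhedron (convexHull ℝ (Set.range p)) :=
    ⟨_, Set.finite_range p, hp.affineSpan_eq_top_iff_card_eq_finrank_add_one.mpr (by simp), rfl⟩
  refine ⟨hP, ?_⟩
  let w : Fin 3 → E3 := ![p 1 - p 0, p 2 - p 0, p 3 - p 0]
  have hw : LinearIndependent ℝ w := by
    rw [Fintype.linearIndependent_iff]
    intro t ht
    have h := affineIndependent_iff.mp hp univ ![-(t 0 + t 1 + t 2), t 0, t 1, t 2]
      (by simp [Fin.sum_univ_four]; ring) (by
        rw [← ht]
        simp only [w, Fin.sum_univ_four, Fin.sum_univ_three, Matrix.cons_val_zero,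
          Matrix.cons_val_one, Matrix.cons_val]
        module)
    intro l
    fin_cases l
    · simpa using h 1 (mem_univ _)
    · simpa using h 2 (mem_univ _)
    · simpa using h 3 (mem_univ _)
  let b := basisOfLinearIndependentOfCardEqFinrank hw (by simp)
  have hb : ∀ l, b l = w l := by intro l; simp [b]
  have h0 : Set.range p = pts b (p 0) 1 (L1.map Prod.fst) := by
    ext x
    simp only [pts, L1, List.map_cons, List.map_nil, List.mem_cons, List.not_mem_nil, or_false,
      exists_eq_or_imp, exists_eq_left, Set.mem_range, Set.mem_ofPred_eq, pt, vec, hb, w]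
    simp [Fin.exists_fin_succ, eq_comm]
  have hv : volume.real (convexHull ℝ (Set.range p)) = volume.real (tet 0 b) := by
    have e1 : convexHull ℝ (Set.range p) = cell p {0, 1, 2, 3} := by
      rw [cell_eq]
      congr 1
      ext x
      simp [Fin.exists_fin_succ]
    rw [e1, cell_four, vol_tet volume b]
    have : ![p 1 - p 0, p 2 - p 0, p 3 - p 0] = b := funext (fun l => (hb l).symm)
    rw [this, b.det_self]
    simp
  rw [hv]
  rw [h0] at hP ⊢
  have a1 := step b (p 0) (by norm_num) hP e1 s1 t1 c1
  have P1 := hP.mid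
  rw [a1] at P1
  have a2 := step b (p 0) (by norm_num) P1 e2 s2 t2 c2
  have P2 := P1.mid
  rw [a2] at P2
  have a3 := step b (p 0) (by norm_num) P2 e3 s3 t3 c3
  have P3 := P2.mid
  rw [a3] at P3
  have a4 := step b (p 0) (by norm_num) P3 e4 s4 t4 c4
  have P4 := P3.mid
  rw [a4] at P4
  have a5 := step b (p 0) (by norm_num) P4 e5 s5 t5 c5
  have P5 := P4.mid
  rw [a5] at P5
  have a6 := last_bound b (p 0) (by norm_num) P5 (M := 2 ^ 20) (by norm_num) hF hT
  simp only [Function.iterate_succ_apply', Function.iterate_zero_apply]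
  rw [a1, a2, a3, a4, a5]
  refine a6.trans (mul_le_mul_of_nonneg_right ?_ measureReal_nonneg)
  have h := hV
  generalize valAll FL 16 (2 ^ 20) sg trs = v at h ⊢
  have : (v : ℝ) * 100000 ≤ 23652 * (2 ^ 18 * 2 ^ 20) := by exact_mod_cast h
  push_cast
  linarith

theorem kernel_bound (p : Fin 4 → E3) (hp : AffineIndependent ℝ p) :
    volume.real (kernel (convexHull ℝ (Set.range p))) ≤
      23652 / 100000 * volume.real (convexHull ℝ (Set.range p)) := by
  obtain ⟨h1, h2⟩ := iter_bound p hp
  exact (measureReal_mono (Set.iInter_subset _ 6) (h1.iter 6).compact.measure_lt_top.ne).trans h2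

end Pool.Agent.Lib.MP_7fdcdd_gt.Tet
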