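import Pool.Agent.Lib.MP_7fdcdd_gt.Asm2
import Pool.Agent.Lib.MP_7fdcdd_gt.H77.Tet
import Pool.Agent.Lib.MP_7fdcdd_gt.TetBound

/-! Reduction of the conjecture to two depth inequalities. -/

namespace Pool.Agent.Lib.MP_7fdcdd_gt.Asm

open MeasureTheory Finset

section Bridge

lemma exposed_image {F G : Type} [NormedAddCommGroup F] [NormedSpace ℝ F] [NormedAddCommGroup G]
    [NormedSpace ℝ G] (e : F ≃L[ℝ] G) {A B : Set F} (h : IsExposed ℝ A B) :
    IsExposed ℝ (e '' A) (e '' B) := by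
  intro hne
  obtain ⟨l, rfl⟩ := h (Set.image_nonempty.1 hne)
  refine ⟨l.comp e.symm.toContinuousLinearMap, ?_⟩
  ext y
  constructor
  · rintro ⟨x, ⟨hx, h1⟩, rfl⟩
    refine ⟨⟨x, hx, rfl⟩, ?_⟩
    rintro _ ⟨w, hw, rfl⟩
    simpa using h1 w hw
  · rintro ⟨⟨x, hx, rfl⟩, h1⟩
    exact ⟨x, ⟨hx, fun w hw => by simpa using h1 _ ⟨w, hw, rfl⟩⟩, rfl⟩

noncomputable def eqv : E3 ≃L[ℝ] H77.E := EuclideanSpace.equiv (Fin 3) ℝ

lemma seg_image {F G : Type} [NormedAddCommGroup F] [NormedSpace ℝ F] [NormedAddCommGroup G]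
    [NormedSpace ℝ G] (e : F ≃L[ℝ] G) (a b : F) :
    e '' segment ℝ a b = segment ℝ (e a) (e b) :=
  image_segment ℝ e.toLinearEquiv.toLinearMap.toAffineMap a b

lemma edge_image (X : Set E3) (a b : E3) :
    H77.IsEdge (eqv '' X) (eqv a) (eqv b) ↔ IsEdge X a b := by
  constructor
  · rintro ⟨h1, h2⟩
    refine ⟨fun h => h1 (by rw [h]), ?_⟩
    have := exposed_image eqv.symm h2
    rwa [seg_image, eqv.symm_image_image, eqv.symm_apply_apply, eqv.symm_apply_apply] at this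
  · rintro ⟨h1, h2⟩
    exact ⟨fun h => h1 (eqv.injective h), seg_image eqv a b ▸ exposed_image eqv h2⟩

lemma mid_image (X : Set E3) : H77.mid (eqv '' X) = eqv '' mid X := by
  have h := eqv.toLinearEquiv.toLinearMap.image_convexHull
    {z | ∃ x y, IsEdge X x y ∧ z = midpoint ℝ x y}
  refine Eq.trans ?_ h.symm
  unfold H77.mid
  congr 1
  have hm : ∀ x y, eqv (midpoint ℝ x y) = midpoint ℝ (eqv x) (eqv y) := fun x y =>
    eqv.toLinearEquiv.toLinearMap.toAffineMap.map_midpoint x y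
  ext m
  constructor
  · rintro ⟨a, b, h1, rfl⟩
    obtain ⟨a, rfl⟩ := eqv.surjective a
    obtain ⟨b, rfl⟩ := eqv.surjective b
    exact ⟨_, ⟨a, b, (edge_image X a b).1 h1, rfl⟩, hm a b⟩
  · rintro ⟨_, ⟨a, b, h1, rfl⟩, rfl⟩
    exact ⟨_, _, (edge_image X a b).2 h1, hm a b⟩

lemma kernel_image (X : Set E3) : H77.kernel (eqv '' X) = eqv '' kernel X := by
  have h : ∀ k, H77.mid^[k] (eqv '' X) = eqv '' (mid^[k] X) := by
    intro k
    induction k with
    | zero => rfl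
    | succ k ih => rw [Function.iterate_succ_apply', Function.iterate_succ_apply', ih, mid_image]
  unfold H77.kernel kernel
  rw [Set.image_iInter eqv.bijective]
  exact Set.iInter_congr h

lemma vol_image (X : Set E3) : volume (eqv '' X) = volume X := by
  have h := (EuclideanSpace.volume_preserving_symm_measurableEquiv_toLp (Fin 3)).symm
  have := h.measure_preimage_equiv X
  rw [← this]
  congr 1
  exact eqv.image_eq_preimage_symm X

end Bridge

open H77

variable {V : Finset E}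

/-- the bound for tetrahedra -/
theorem rho_tet_le (T : Fin 4 → E) (hT : AffineIndependent ℝ T) :
    rho (convexHull ℝ (Set.range T)) ≤ 23652 / 100000 := by
  have h1 : AffineIndependent ℝ (eqv.symm ∘ T) :=
    hT.map' eqv.symm.toLinearEquiv.toLinearMap.toAffineMap eqv.symm.injective
  have h2 := Tet.kernel_bound _ h1
  have h3 : convexHull ℝ (Set.range T) = eqv '' convexHull ℝ (Set.range (eqv.symm ∘ T)) := by
    refine Eq.trans ?_ (eqv.toLinearEquiv.toLinearMap.image_convexHull _).symm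
    congr 1
    rw [Set.range_comp]
    exact (eqv.image_symm_image _).symm
  rw [rho, h3, kernel_image, vol_image, vol_image]
  exact div_le_of_le_mul₀ ENNReal.toReal_nonneg (by norm_num) h2

lemma rho_tet_eq (T : Fin 4 → E) (hT : AffineIndependent ℝ T) :
    rho (convexHull ℝ (Set.range T)) = rho (cv (fs S1)) := by
  classical
  set B : E →ₗ[ℝ] E := lin3 ((1 / 16 : ℝ) • (T 0 + T 1 - T 2 - T 3))
    ((1 / 16 : ℝ) • (T 0 - T 1 + T 2 - T 3)) ((1 / 16 : ℝ) • (T 0 - T 1 - T 2 + T 3)) with hB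
  have hinj : Function.Injective B := by
    rw [← LinearMap.ker_eq_bot, LinearMap.ker_eq_bot']
    intro x hx
    rw [hB, lin3_apply] at hx
    have := affineIndependent_iff.1 hT Finset.univ
      ![(x 0 + x 1 + x 2) / 16, (x 0 - x 1 - x 2) / 16, (-x 0 + x 1 - x 2) / 16,
        (-x 0 - x 1 + x 2) / 16] (by simp [Fin.sum_univ_four]; ring)
      (by rw [← hx]; simp only [Fin.sum_univ_four, Matrix.cons_val_zero, Matrix.cons_val_one,
        Matrix.cons_val]; module)
    have h0 := this 0 (Finset.mem_univ _)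
    have h1 := this 1 (Finset.mem_univ _)
    have h2 := this 2 (Finset.mem_univ _)
    simp only [Matrix.cons_val_zero, Matrix.cons_val_one, Matrix.cons_val] at h0 h1 h2
    ext i
    fin_cases i <;> simp <;> linarith
  set c : E := (1 / 4 : ℝ) • (T 0 + T 1 + T 2 + T 3) with hc
  have e0 : af B c (cs (4, 4, 4)) = T 0 := by
    rw [af_apply, hB, hc, lin3_apply]; simp [cs]; module
  have e1 : af B c (cs (4, -4, -4)) = T 1 := by
    rw [af_apply, hB, hc, lin3_apply]; simp [cs]; module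
  have e2 : af B c (cs (-4, 4, -4)) = T 2 := by
    rw [af_apply, hB, hc, lin3_apply]; simp [cs]; module
  have e3 : af B c (cs (-4, -4, 4)) = T 3 := by
    rw [af_apply, hB, hc, lin3_apply]; simp [cs]; module
  have he : convexHull ℝ (Set.range T) =
      cv ((fs S1).image (af (LinearEquiv.ofInjectiveEndo B hinj) c)) := by
    rw [cv]
    congr 1
    ext y
    simp only [Set.mem_range, Finset.coe_image, Set.mem_image, Finset.mem_coe, mem_fs]
    constructor
    · rintro ⟨i, rfl⟩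
      fin_cases i
      · exact ⟨_, ⟨_, by decide, rfl⟩, e0⟩
      · exact ⟨_, ⟨_, by decide, rfl⟩, e1⟩
      · exact ⟨_, ⟨_, by decide, rfl⟩, e2⟩
      · exact ⟨_, ⟨_, by decide, rfl⟩, e3⟩
    · rintro ⟨_, ⟨p, hp, rfl⟩, rfl⟩
      simp only [S1, List.mem_cons, List.not_mem_nil, or_false] at hp
      rcases hp with rfl | rfl | rfl | rfl
      · exact ⟨0, e0.symm⟩
      · exact ⟨1, e1.symm⟩
      · exact ⟨2, e2.symm⟩
      · exact ⟨3, e3.symm⟩
  rw [he, rho_image CP_S1]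

lemma vspan_top (hS : Sp V) : vectorSpan ℝ (V : Set E) = ⊤ := by
  by_contra h
  obtain ⟨f, hf, hle⟩ := Submodule.exists_le_ker_of_lt_top _ (lt_top_iff_ne_top.2 h)
  refine hf (hS f fun x hx y hy => ?_)
  have := hle (vsub_mem_vectorSpan ℝ (mem_coe.2 hx) (mem_coe.2 hy))
  rw [LinearMap.mem_ker, vsub_eq_sub, map_sub] at this
  linarith

lemma rho_four (hS : Sp V) (h4 : V.card ≤ 4) : rho (cv V) = rho (cv (fs S1)) := by
  classical
  have h : V.card = 4 := by
    obtain ⟨a, ha⟩ := hS.nonempty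
    obtain ⟨b, hb, h1, -⟩ := hS.exists_ne a a a
    obtain ⟨c, hc, h2, h3, -⟩ := hS.exists_ne a b b
    obtain ⟨d, hd, h5, h6, h7⟩ := hS.exists_ne a b c
    have : ({d, c, b, a} : Finset E) ⊆ V := by
      intro x hx
      simp only [mem_insert, mem_singleton] at hx
      rcases hx with rfl | rfl | rfl | rfl <;> assumption
    have h8 := card_le_card this
    rw [card_insert_of_notMem (by simp [h5, h6, h7]), card_insert_of_notMem (by simp [h2, h3]),
      card_insert_of_notMem (by simp [h1]), card_singleton] at h8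
    omega
  let T : Fin 4 → E := fun i => (V.equivFinOfCardEq h).symm i
  have hr : Set.range T = (V : Set E) := by
    ext x
    constructor
    · rintro ⟨i, rfl⟩; exact ((V.equivFinOfCardEq h).symm i).2
    · intro hx; exact ⟨V.equivFinOfCardEq h ⟨x, hx⟩, by simp [T]⟩
  have hT : AffineIndependent ℝ T := by
    rw [affineIndependent_iff_finrank_vectorSpan_eq ℝ T (n := 3) (by simp), hr, vspan_top hS]
    simp
  rw [← rho_tet_eq T hT, hr]
  rfl

lemma ker_compact (V : Finset E) : IsCompact (ker V) :=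
  (cv_compact V).of_isClosed_subset (ker_closed V) (ker_subset V)

/-- flags for the kernel, at any level -/
theorem vol_ker_ge (hV : CP V) (hS : Sp V) (o : E) {a1 a2 : ℝ} (h0 : 0 ≤ a1) (h12 : a1 ≤ a2)
    (h1 : a2 < 1)
    (H1 : ∀ u : L, ∀ v ∈ V, ∃ c ∈ ker V, u o + a1 * (u v - u o) ≤ u c)
    (H2 : ∀ u : L, ∀ v ∈ V, ∀ w ∈ V, v ≠ w →
      ∃ c ∈ ker V, u o + a2 * (min (u v) (u w) - u o) ≤ u c) :
    a1 * a2 * volume.real (cv V) ≤ volume.real (ker V) := by
  classical
  have hoK : o ∈ ker V := Vol.mem_of_func (ker_convex V) (ker_closed V) fun u => by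
    obtain ⟨v, hv, hm⟩ := exists_max_image V u hS.nonempty
    obtain ⟨c, hc, h⟩ := H1 u v hv
    have h2 := le_of_mem_cv hm (ker_subset V hc)
    refine ⟨c, hc, ?_⟩
    have h3 : u o ≤ u v := by nlinarith
    nlinarith
  refine Vol.flag_ge (E := E) (by simp) volume V o (ker_subset V hoK) (ker V) (ker_convex V)
    (ker_compact V) hoK a1 a2 h0 h12 h1.le (fun u m hm _ h3 => ?_) H1 H2
  obtain ⟨p, q, r, hp, hq, hr, h4, h5, h6⟩ := two_lt_card_iff.1 (show 2 < _ from h3)
  rw [mem_filter] at hp hq hr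
  obtain ⟨x, hx, e⟩ := Top3.ker_meets hV
    ⟨hm, p, hp.1, q, hq.1, r, hr.1, h4, h5, h6, hp.2, hq.2, hr.2⟩
  exact ⟨x, hx, Vol.mem_hull_top (ker_subset V hx) u m hm e⟩

/-- `ω` is the height of the centroid of a cell pulled from a lowest vertex `z` over a facet with
lowest vertex `i` and edge `j k`. -/
def Low (V : Finset E) (u : L) (ω : ℝ) : Prop :=
  ∃ (z : E) (φ : L) (m : ℝ) (i j k : E), z ∈ V ∧ (∀ v ∈ V, u z ≤ u v) ∧ i ∈ V ∧ Adj V j k ∧
    i ≠ j ∧ i ≠ k ∧ (∀ v ∈ V, φ v ≤ m) ∧ φ z < m ∧ φ i = m ∧ φ j = m ∧ φ k = m ∧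
    (∀ v ∈ V, φ v = m → u i ≤ u v) ∧ 4 * ω = u z + u i + u j + u k

lemma exists_low_cen (hV : CP V) (hS : Sp V) (u : L) : ∃ ω, Low V u ω ∧ u (cen V) ≤ ω := by
  obtain ⟨z, hz, hm⟩ := exists_min_image V u hS.nonempty
  obtain ⟨φ, m, i, j, k, h1, h2, h3, h4, h5, h6, h7, h8, h9, h10, h11⟩ :=
    centroid_depth hV hS u hz
  exact ⟨(u z + u i + u j + u k) / 4,
    ⟨z, φ, m, i, j, k, hz, hm, h1, h2, h3, h4, h5, h6, h7, h8, h9, h10, by ring⟩, by linarith⟩

/-- The conjecture follows from a lower bound for polyhedra with at least five vertices. -/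
theorem final (H : ∀ V : Finset E, CP V → Sp V → 4 < V.card →
      23652 / 100000 * volume.real (cv V) ≤ volume.real (ker V))
    (S : Finset E) (hS : affineSpan ℝ (S : Set E) = ⊤) (T : Fin 4 → E)
    (hT : AffineIndependent ℝ T) :
    rho (convexHull ℝ (Set.range T)) ≤ rho (convexHull ℝ (S : Set E)) := by
  obtain ⟨V, hV, he⟩ := exists_CP S
  have hSp := Sp_of_span hS he
  have e : convexHull ℝ (S : Set E) = cv V := he.symm
  rw [e]
  by_cases h4 : V.card ≤ 4
  · rw [rho_four hSp h4, rho_tet_eq T hT]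
  · refine (rho_tet_le T hT).trans ?_
    rw [rho_cv hV]
    exact (le_div_iff₀ (vol_pos hSp)).2 (H V hV hSp (by omega))

/-- Reduction to the two depth inequalities at the third level, for an arbitrary centre. -/
theorem assembly_centre {a1 a2 : ℝ} (h0 : 0 ≤ a1) (h12 : a1 ≤ a2) (h1 : a2 < 1)
    (hp : 23652 / 100000 ≤ 55 / 128 * (a1 * a2))
    (H : ∀ V : Finset E, CP V → Sp V → 4 < V.card → ∃ o : E,
      (∀ u : L, ∀ v ∈ nxt (nxt V), ∃ c ∈ ker V, u o + a1 * (u v - u o) ≤ u c) ∧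
      ∀ u : L, ∀ v ∈ nxt (nxt V), ∀ w ∈ nxt (nxt V), v ≠ w →
        ∃ c ∈ ker V, u o + a2 * (min (u v) (u w) - u o) ≤ u c)
    (S : Finset E) (hS : affineSpan ℝ (S : Set E) = ⊤) (T : Fin 4 → E)
    (hT : AffineIndependent ℝ T) :
    rho (convexHull ℝ (Set.range T)) ≤ rho (convexHull ℝ (S : Set E)) := by
  refine final (fun V hV hSp h5 => ?_) S hS T hT
  obtain ⟨o, H1, H2⟩ := H V hV hSp h5
  have e : ker (nxt (nxt V)) = ker V := by rw [ker_nxt, ker_nxt]
  have h2 := vol_ker_ge (CP.nxt (nxt V)) ((hSp.nxt hV).nxt (CP.nxt V)) o h0 h12 h1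
    (by rw [e]; exact H1) (by rw [e]; exact H2)
  rw [e] at h2
  have h3 := two_steps hV hSp h5
  have h4 := (vol_pos hSp).le
  have h5 := mul_nonneg h0 (h0.trans h12)
  nlinarith [mul_le_mul_of_nonneg_left h3 h5, mul_le_mul_of_nonneg_right hp h4]

/-- Reduction to the two depth inequalities at the third level, with the centroid bound. -/
theorem assembly {a1 a2 : ℝ} (h0 : 0 ≤ a1) (h12 : a1 ≤ a2) (h1 : a2 < 1)
    (hp : 23652 / 100000 ≤ 55 / 128 * (a1 * a2))
    (HI : ∀ V : Finset E, CP V → Sp V → 4 < V.card → ∀ (u : L) (ω : ℝ), Low V u ω →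
      ∀ v ∈ nxt (nxt V), ∃ c ∈ ker V, ω + a1 * (u v - ω) ≤ u c)
    (HII : ∀ V : Finset E, CP V → Sp V → 4 < V.card → ∀ (u : L) (ω : ℝ), Low V u ω →
      ∀ v ∈ nxt (nxt V), ∀ w ∈ nxt (nxt V), v ≠ w →
        ∃ c ∈ ker V, ω + a2 * (min (u v) (u w) - ω) ≤ u c)
    (S : Finset E) (hS : affineSpan ℝ (S : Set E) = ⊤) (T : Fin 4 → E)
    (hT : AffineIndependent ℝ T) :
    rho (convexHull ℝ (Set.range T)) ≤ rho (convexHull ℝ (S : Set E)) := by
  refine assembly_centre h0 h12 h1 hp (fun V hV hSp h5 => ⟨cen V, fun u v hv => ?_,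
    fun u v hv w hw hvw => ?_⟩) S hS T hT
  · obtain ⟨ω, h2, h3⟩ := exists_low_cen hV hSp u
    obtain ⟨c, hc, h4⟩ := HI V hV hSp h5 u ω h2 v hv
    exact ⟨c, hc, by nlinarith⟩
  · obtain ⟨ω, h2, h3⟩ := exists_low_cen hV hSp u
    obtain ⟨c, hc, h4⟩ := HII V hV hSp h5 u ω h2 v hv w hw hvw
    exact ⟨c, hc, by nlinarith⟩

end Pool.Agent.Lib.MP_7fdcdd_gt.Asm
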