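import Pool.Agent.Lib.MP_7fdcdd_gt.Asm3

/-! With at least six vertices the second step keeps at least `23/32` of the volume. -/

namespace Pool.Agent.Lib.MP_7fdcdd_gt.Asm

open MeasureTheory H77 Finset

variable {V : Finset E}

/-- a facet through the edge `s t` contains a second neighbour of `s` -/
lemma facet_nbr (hV : CP V) {φ : L} {m : ℝ} (hm : ∀ v ∈ V, φ v ≤ m) {s t i : E} (hst : Adj V s t)
    (hi : i ∈ V) (his : i ≠ s) (hit : i ≠ t) (es : φ s = m) (ei : φ i = m) :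
    ∃ n, Adj V s n ∧ n ≠ t ∧ φ n = m := by
  classical
  obtain ⟨l0, e0, h0⟩ := hst.strong hV
  obtain ⟨χ, hχ⟩ := hV s hst.1
  obtain ⟨μ, -, ⟨w, hw, gw, fw⟩, hall⟩ := first_tie ((V.erase s).filter (fun v => φ v = m))
    (fun v => χ s - χ v) (fun v => l0 s - l0 v) (fun w hw => by
      rw [mem_filter, mem_erase] at hw
      linarith [hχ w hw.1.2 hw.1.1])
    ⟨i, mem_filter.2 ⟨mem_erase.2 ⟨his, hi⟩, ei⟩, by linarith [h0 i hi his hit]⟩
  rw [mem_filter, mem_erase] at hw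
  obtain ⟨ε, hε, hp⟩ := perturb V φ (χ - μ • l0)
  have hval : ∀ v, (φ + ε • (χ - μ • l0)) v = φ v + ε * (χ v - μ * l0 v) := fun v => by
    simp only [LinearMap.add_apply, LinearMap.smul_apply, LinearMap.sub_apply, smul_eq_mul]
  obtain ⟨n, hn, hmax⟩ := exists_adj_second hV (l := φ + ε • (χ - μ • l0)) hst.1 (fun v hv => by
      rcases (hm v hv).lt_or_eq with h | h
      · exact (hp v hv s hst.1 (by linarith)).le
      · by_cases hvs : v = s
        · rw [hvs]
        · have := hall v (mem_filter.2 ⟨mem_erase.2 ⟨hvs, hv⟩, h⟩)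
          rw [hval, hval, h, es]
          have : χ v - μ * l0 v ≤ χ s - μ * l0 s := by linarith
          nlinarith) ⟨t, hst.2.1, hst.2.2.1.symm⟩
  have h1 := hmax w hw.1.2 hw.1.1
  have hws : χ w - μ * l0 w = χ s - μ * l0 s := by linarith
  refine ⟨n, hn, ?_, ?_⟩
  · rintro rfl
    rw [hval, hval, hws, hw.2, ← e0] at h1
    have h2 := hχ n hn.2.1 hn.2.2.1.symm
    have h3 := hm n hn.2.1
    nlinarith
  · by_contra h
    have := hp n hn.2.1 w hw.1.2 (by rw [hw.2]; exact lt_of_le_of_ne (hm n hn.2.1) h)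
    linarith

lemma cen_mem (hV : CP V) (hS : Sp V) : cen V ∈ cv (nxt V) := by
  by_contra hcon
  obtain ⟨l, c, h3, h4⟩ := separate (cv_convex _) (cv_compact _).isClosed hcon
  obtain ⟨z, hz⟩ := hS.nonempty
  obtain ⟨φ, m, i, j, k, hi, hjk, -, -, -, h1, h2, -, -, -, h5⟩ := centroid_depth hV hS l hz
  have hzi : z ≠ i := fun e => by rw [e] at h1; linarith
  obtain ⟨s, t, hst, h6, h7⟩ := exists_top_edge hV l ⟨z, hz, i, hi, hzi⟩
  have h8 := h3 _ (mem_cv_of_mem hst.mid_mem)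
  rw [H77.map_mid] at h8
  have := pair_le_of_top h6 h7 hz hi hzi
  have := pair_le_of_top h6 h7 hjk.1 hjk.2.1 hjk.2.2.1
  linarith

/-- three cases for the height of the centroid -/
lemma cen_cases (hV : CP V) (hS : Sp V) (u : L) {s t : E} {r x : ℝ} (hst : Adj V s t)
    (hts : u t ≤ u s) (htwo : ∀ c ∈ V, c ≠ s → c ≠ t → u c < u s ∧ u c < u t)
    (h3 : ∀ w ∈ V, w ≠ s → w ≠ t → u w ≤ r) (hr : r ≤ u t)
    (hx : ∀ n, Adj V s n → n ≠ t → u n ≤ x) :
    4 * u (cen V) ≤ x + u t + 2 * r ∨ 4 * u (cen V) ≤ 2 * x + u s + u t ∨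
      4 * u (cen V) ≤ u s + 3 * x := by
  obtain ⟨ω, ⟨z, φ, m, i, j, k, hz, hlow, hi, hjk, hij, hik, hm, -, ei, ej, ek, hil, hω⟩, hc⟩ :=
    exists_low_cen hV hS u
  have hzx : u z ≤ x := by
    obtain ⟨-, a, b, c, ha, hb, -, hab, -⟩ := link_facet hV hS hst.1
    by_cases e : a = t
    · exact (hlow b hb.2.1).trans (hx b hb (fun h => hab (e.trans h.symm)))
    · exact (hlow a ha.2.1).trans (hx a ha e)
  have key : ∀ k : E, Adj V s k → i ≠ s → i ≠ k → φ s = m → φ k = m →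
      4 * ω = u z + u i + u s + u k →
      4 * u (cen V) ≤ 2 * x + u s + u t ∨ 4 * u (cen V) ≤ u s + 3 * x := by
    intro k hk h1 h2 e1 e2 e3
    by_cases e : k = t
    · subst e
      obtain ⟨n, hn, hnt, en⟩ := facet_nbr hV hm hk hi h1 h2 e1 ei
      have := hil n hn.2.1 en
      have := hx n hn hnt
      left; linarith
    · have := hil k hk.2.1 e2
      have := hx k hk e
      right; linarith
  by_cases e1 : j = s
  · subst e1
    exact Or.inr (key k hjk hij hik ej ek hω)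
  by_cases e2 : k = s
  · subst e2
    exact Or.inr (key j hjk.symm hik hij ek ej (by linarith))
  left
  have hj := hil j hjk.1 ej
  have hk := hil k hjk.2.1 ek
  have his : i ≠ s := by
    rintro rfl
    by_cases e : j = t
    · have := (htwo k hjk.2.1 e2 (fun h => hjk.2.2.1 (e.trans h.symm))).1
      linarith
    · have := (htwo j hjk.1 e1 e).1
      linarith
  by_cases e : j = t
  · have := h3 k hjk.2.1 e2 (fun h => hjk.2.2.1 (e.trans h.symm))
    rw [e] at hω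
    linarith
  · have h4 := h3 j hjk.1 e1 e
    by_cases e' : k = t
    · rw [e'] at hω; linarith
    · have := h3 k hjk.2.1 e2 e'
      linarith

/-- the mixed centre -/
noncomputable def mix (V U : Finset E) : E :=
  ((U.card : ℝ) / (3 * U.card - 12)) • avg U + ((2 * U.card - 12 : ℝ) / (3 * U.card - 12)) • cen V

lemma mix_mem (hV : CP V) (hS : Sp V) (U : Finset E) (hU : U ⊆ V) (h6 : 6 ≤ U.card) :
    mix V U ∈ cv (nxt V) := by
  have h : (6 : ℝ) ≤ U.card := by exact_mod_cast h6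
  have h1 : (0 : ℝ) < 3 * U.card - 12 := by linarith
  refine cv_convex _ (avg_mem hV U hU (by omega)) (cen_mem hV hS) (by positivity)
    (div_nonneg (by linarith) h1.le) ?_
  rw [← add_div, div_eq_one_iff_eq h1.ne']
  ring

lemma map_mix (U : Finset E) (h6 : 6 ≤ U.card) (u : L) :
    (3 * U.card - 12) * u (mix V U) = ∑ w ∈ U, u w + (2 * U.card - 12) * u (cen V) := by
  have h : (6 : ℝ) ≤ U.card := by exact_mod_cast h6
  have h1 : (3 * U.card - 12 : ℝ) ≠ 0 := by linarith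
  rw [← map_avg U (by omega), mix, map_add, map_smul, map_smul, smul_eq_mul, smul_eq_mul]
  field_simp

lemma mix_ineq (n : ℕ) (h6 : 6 ≤ n) (h8 : n ≤ 8) (a1 a2 a3 x S c o : ℝ)
    (h23 : a3 ≤ a2) (hx : x ≤ a3) (hS : S ≤ a1 + a2 + (n - 4) * a3 + 2 * x)
    (hc : 4 * c ≤ x + a2 + 2 * a3 ∨ 4 * c ≤ 2 * x + a1 + a2 ∨ 4 * c ≤ a1 + 3 * x)
    (ho : (3 * n - 12) * o = S + (2 * n - 12) * c) :
    (a1 + a2) / 2 - 3 / 4 * ((a1 + a2) / 2 - o) ≤ (a2 + a3) / 2 ∨
      (a1 + a2) / 2 - 3 / 4 * ((a1 + a2) / 2 - o) ≤ (a1 + x) / 2 := by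
  by_contra hcon
  push Not at hcon
  obtain ⟨h1, h2⟩ := hcon
  interval_cases n <;> push_cast at hS ho <;> rcases hc with hc | hc | hc <;> linarith

/-- the cap condition with ratio `3/4` for one direction -/
lemma mix_cap [DecidableEq E] (hV : CP V) (hS : Sp V) (U : Finset E) (hU : U ⊆ V)
    (h6 : 6 ≤ U.card) (h8 : U.card ≤ 8) (u : L) {p q : E} (hp : p ∈ U) (hq : q ∈ U) (hpq : p ≠ q)
    (hqp : u q ≤ u p) (hlow : ∀ w ∈ V, w ≠ q → u p ≤ u w) {σ : E} (hσ : σ ∈ nxt V) :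
    ∃ v ∈ (nxt V).erase σ, u σ - 3 / 4 * (u σ - u (mix V U)) ≤ u v := by
  obtain ⟨s, t, hst, h1, h2⟩ := exists_top_edge hV u ⟨p, hU hp, q, hU hq, hpq⟩
  have hτ := hst.mid_mem
  have htop : ∀ x ∈ cv (nxt V), u x ≤ u (midpoint ℝ s t) := fun x hx =>
    le_of_mem_cv (fun v hv => by
      obtain ⟨a, b, hab, rfl⟩ := mem_nxt.1 hv
      have := pair_le_of_top h1 h2 hab.1 hab.2.1 hab.2.2.1
      rw [H77.map_mid, H77.map_mid]; linarith) hx
  by_cases hστ : σ = midpoint ℝ s t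
  swap
  · refine ⟨_, Finset.mem_erase.2 ⟨fun h => hστ h.symm, hτ⟩, ?_⟩
    have := htop _ (mem_cv_of_mem hσ)
    have := htop _ (mix_mem hV hS U hU h6)
    linarith
  subst hστ
  by_cases htie : ∃ v ∈ nxt V, v ≠ midpoint ℝ s t ∧ u (midpoint ℝ s t) ≤ u v
  · obtain ⟨v, hv, hne, hle⟩ := htie
    refine ⟨v, Finset.mem_erase.2 ⟨hne, hv⟩, ?_⟩
    have := htop _ (mix_mem hV hS U hU h6)
    linarith
  push Not at htie
  have htwo := hst.top_two hV htie
  obtain ⟨c0, hc0, hc0s, hc0t, -⟩ := hS.exists_ne s t t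
  obtain ⟨r, hrs, hrt, hr, hmax⟩ := exists_third hV hst.1 hst.2.1 hst.2.2.1 htwo
    ⟨c0, hc0, hc0s, hc0t⟩
  have hrV : r ∈ V := by rcases hr with h | h <;> exact h.2.1
  have hts := h1 t hst.2.1
  have hrt' := h2 r hrV hrs
  obtain ⟨n, hn, hnt, hnq⟩ : ∃ n, Adj V s n ∧ n ≠ t ∧ n ≠ q := by
    obtain ⟨-, a, b, c, ha, hb, hc, hab, hac, hbc, -⟩ := link_facet hV hS hst.1
    by_cases e1 : a ≠ t ∧ a ≠ q
    · exact ⟨a, ha, e1⟩
    by_cases e2 : b ≠ t ∧ b ≠ q
    · exact ⟨b, hb, e2⟩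
    refine ⟨c, hc, ?_⟩
    rw [not_and_or, not_not, not_not] at e1 e2
    constructor <;> rintro rfl <;> rcases e1 with rfl | rfl <;> rcases e2 with rfl | rfl <;>
      simp_all
  have dec : DecidablePred (fun y => Adj V s y ∧ y ≠ t) := Classical.decPred _
  obtain ⟨y, hy, hym⟩ := exists_max_image (V.filter (fun y => Adj V s y ∧ y ≠ t)) u
    ⟨n, mem_filter.2 ⟨hn.2.1, hn, hnt⟩⟩
  rw [mem_filter] at hy
  have hx : ∀ n, Adj V s n → n ≠ t → u n ≤ u y := fun n h e =>
    hym n (mem_filter.2 ⟨h.2.1, h, e⟩)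
  have hpy : u p ≤ u y := (hlow n hn.2.1 hnq).trans (hx n hn hnt)
  have hsum := sum_bound U hU (by omega) u hmax hrt' hts hp hq hpq hpy (hqp.trans hpy)
  rw [H77.map_mid]
  rcases mix_ineq U.card h6 h8 _ _ _ _ _ _ _ hrt' (hmax y hy.1 hy.2.1.2.2.1.symm hy.2.2) hsum
    (cen_cases hV hS u hst hts htwo hmax hrt' hx) (map_mix U h6 u) with h | h
  · rcases hr with h' | h'
    · refine ⟨_, Finset.mem_erase.2 ⟨mid_ne hrt, h'.mid_mem⟩, ?_⟩
      rw [H77.map_mid]; linarith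
    · refine ⟨_, Finset.mem_erase.2 ⟨?_, h'.mid_mem⟩, ?_⟩
      · rw [midpoint_comm s t]; exact mid_ne hrs
      · rw [H77.map_mid]; linarith
  · refine ⟨_, Finset.mem_erase.2 ⟨mid_ne hy.2.2, hy.2.1.mid_mem⟩, ?_⟩
    rw [H77.map_mid]; linarith

/-- Helly: a point below given heights exists as soon as it exists for any four directions -/
lemma helly_centre (X : Set E) (hc : Convex ℝ X) (hk : IsCompact X) (f : L → ℝ)
    (H : ∀ I : Finset L, I.card ≤ 4 → ∃ o ∈ X, ∀ u ∈ I, u o ≤ f u) :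
    ∃ o ∈ X, ∀ u : L, u o ≤ f u := by
  have h := Convex.helly_theorem_compact' (𝕜 := ℝ) (F := fun u : L => X ∩ {o | u o ≤ f u})
    (fun u => hc.inter (convex_halfSpace_le u.isLinear _))
    (fun u => hk.inter_right (isClosed_le u.continuous_of_finiteDimensional continuous_const))
    (fun I hI => by
      rw [Module.finrank_fin_fun] at hI
      obtain ⟨o, ho, h⟩ := H I hI
      exact ⟨o, Set.mem_iInter₂.2 fun u hu => ⟨ho, h u hu⟩⟩)
  obtain ⟨o, ho⟩ := h
  rw [Set.mem_iInter] at ho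
  exact ⟨o, (ho 0).1, fun u => (ho u).2⟩

lemma exists_centre6 [DecidableEq E] (hV : CP V) (hS : Sp V) (h6 : 5 < V.card) :
    ∃ o ∈ cv (nxt V), ∀ σ ∈ nxt V, ∀ u : L,
      ∃ v ∈ (nxt V).erase σ, u σ - 3 / 4 * (u σ - u o) ≤ u v := by
  have hne := (hS.nxt hV).nonempty
  have hm : ∀ (u : L) (σ : E), ∃ v, σ ∈ nxt V → v ∈ (nxt V).erase σ ∧
      ∀ w ∈ (nxt V).erase σ, u w ≤ u v := by
    intro u σ
    by_cases hσ : σ ∈ nxt V
    · obtain ⟨v, hv, hm⟩ := Finset.exists_max_image ((nxt V).erase σ) u (Finset.card_pos.1 (by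
        rw [Finset.card_erase_of_mem hσ]; have := two_le_nxt hV hS; omega))
      exact ⟨v, fun _ => ⟨hv, hm⟩⟩
    · exact ⟨σ, fun h => absurd h hσ⟩
  choose b hb using hm
  obtain ⟨o, ho, h⟩ := helly_centre (cv (nxt V)) (cv_convex _) (cv_compact _)
    (fun u => (nxt V).inf' hne (fun σ => (u (b u σ) - u σ / 4) * (4 / 3))) (fun I hI => by
      choose p hp q hq hpq hqp hlow using exists_low (V := V) (by omega)
      have hU0 : (I.image p ∪ I.image q) ⊆ V := by
        intro w hw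
        simp only [Finset.mem_union, Finset.mem_image] at hw
        rcases hw with ⟨u, -, rfl⟩ | ⟨u, -, rfl⟩
        · exact hp u
        · exact hq u
      have hc0 : (I.image p ∪ I.image q).card ≤ 8 := by
        have := Finset.card_union_le (I.image p) (I.image q)
        have := Finset.card_image_le (s := I) (f := p)
        have := Finset.card_image_le (s := I) (f := q)
        omega
      obtain ⟨U, h1, h2, h3, h4⟩ : ∃ U : Finset E, (I.image p ∪ I.image q) ⊆ U ∧ U ⊆ V ∧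
          6 ≤ U.card ∧ U.card ≤ 8 := by
        by_cases h : 6 ≤ (I.image p ∪ I.image q).card
        · exact ⟨_, subset_rfl, hU0, h, hc0⟩
        · obtain ⟨U, h1, h2, h3⟩ := Finset.exists_subsuperset_card_eq (n := 6) hU0 (by omega)
            (by omega)
          exact ⟨U, h1, h2, by omega, by omega⟩
      refine ⟨mix V U, mix_mem hV hS U h2 h3, fun u hu => ?_⟩
      rw [le_inf'_iff]
      intro σ hσ
      obtain ⟨v, hv, h⟩ := mix_cap hV hS U h2 h3 h4 u
        (h1 (Finset.mem_union_left _ (Finset.mem_image_of_mem _ hu)))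
        (h1 (Finset.mem_union_right _ (Finset.mem_image_of_mem _ hu))) (hpq u) (hqp u) (hlow u) hσ
      have := (hb u σ hσ).2 v hv
      linarith)
  refine ⟨o, ho, fun σ hσ u => ⟨b u σ, (hb u σ hσ).1, ?_⟩⟩
  have := (le_inf'_iff _ _).1 (h u) σ hσ
  linarith

/-- Two steps keep at least `115/256` of the volume of a polyhedron with at least six vertices. -/
theorem two_steps6 (hV : CP V) (hS : Sp V) (h6 : 5 < V.card) :
    115 / 256 * volume.real (cv V) ≤ volume.real (cv (nxt (nxt V))) := by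
  classical
  obtain ⟨o, ho, h⟩ := exists_centre6 hV hS h6
  have h1 := step_of_centre (CP.nxt V) (two_le_nxt hV hS) ho (by norm_num) (by norm_num) h
  have h2 : 5 / 8 * volume.real (cv V) ≤ volume.real (cv (nxt V)) :=
    step_five_eighths hV (by omega)
  linarith

end Pool.Agent.Lib.MP_7fdcdd_gt.Asm
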