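import Pool.Agent.Lib.MP_7fdcdd_gt.Asm4

/-! Covering the caps of the second level by tetrahedra. -/

namespace Pool.Agent.Lib.MP_7fdcdd_gt.Asm

open MeasureTheory H77 Finset

variable {V : Finset E}

/-- the volume of the unit corner -/
noncomputable def c0 : ℝ := volume.real (Vol.tet (0 : E) (Pi.basisFun ℝ (Fin 3)))

lemma c0_nonneg : 0 ≤ c0 := measureReal_nonneg

lemma volT (o p q r : E) : volume.real (Vol.tet o ![p, q, r]) = |det3 p q r| * c0 := by
  rw [Vol.vol_tet volume (Pi.basisFun ℝ (Fin 3)), Pi.basisFun_det_apply, Matrix.det_fin_three, c0]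
  congr 2
  simp [det3]
  ring

/-- the cone over three vectors -/
def C3 (p q r x : E) : Prop := ∃ a b c : ℝ, 0 ≤ a ∧ 0 ≤ b ∧ 0 ≤ c ∧ x = a • p + b • q + c • r

/-- the cone over five vectors -/
def C5 (p q r s t x : E) : Prop := ∃ a b c d e : ℝ, 0 ≤ a ∧ 0 ≤ b ∧ 0 ≤ c ∧ 0 ≤ d ∧ 0 ≤ e ∧
  x = a • p + b • q + c • r + d • s + e • t

lemma C5.comb {p q r s t x y : E} (hx : C5 p q r s t x) (hy : C5 p q r s t y) {l m : ℝ}
    (hl : 0 ≤ l) (hm : 0 ≤ m) : C5 p q r s t (l • x + m • y) := by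
  obtain ⟨a, b, c, d, e, h1, h2, h3, h4, h5, rfl⟩ := hx
  obtain ⟨a', b', c', d', e', k1, k2, k3, k4, k5, rfl⟩ := hy
  exact ⟨l * a + m * a', l * b + m * b', l * c + m * c', l * d + m * d', l * e + m * e',
    by positivity, by positivity, by positivity, by positivity, by positivity, by module⟩

/-- a point of the hull in the cone over a triangle of the smaller hull -/
lemma cap_point [DecidableEq E] {W : Finset E} {σ p q r x : E} (hx : x ∈ cv W)
    (hn : x ∉ cv (W.erase σ)) (hp : σ + (1 / 2 : ℝ) • p ∈ cv (W.erase σ))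
    (hq : σ + (1 / 2 : ℝ) • q ∈ cv (W.erase σ)) (hr : σ + (1 / 2 : ℝ) • r ∈ cv (W.erase σ))
    (h : C3 p q r (x - σ)) :
    x ∈ Vol.tet σ ![(1 / 2 : ℝ) • p, (1 / 2 : ℝ) • q, (1 / 2 : ℝ) • r] := by
  obtain ⟨a, b, c, ha, hb, hc, e⟩ := h
  by_cases hS : 2 * a + 2 * b + 2 * c ≤ 1
  · refine ⟨![2 * a, 2 * b, 2 * c], fun i => ?_, by simpa [Fin.sum_univ_three] using hS, ?_⟩
    · fin_cases i <;> simpa
    · simp only [Fin.sum_univ_three, Matrix.cons_val_zero, Matrix.cons_val_one, Matrix.cons_val]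
      rw [← sub_eq_iff_eq_add', e]
      module
  exfalso
  obtain ⟨l, m, h1, h2⟩ := separate (cv_convex _) (cv_compact _).isClosed hn
  have e1 := congrArg l e
  have k1 := h1 _ hp
  have k2 := h1 _ hq
  have k3 := h1 _ hr
  simp only [map_add, map_sub, map_smul, smul_eq_mul] at e1 k1 k2 k3
  have hσ : l σ < l x := by
    by_contra hc'
    push Not at hc' hS
    have n1 : a * l p ≤ a * (2 * (m - l σ)) := mul_le_mul_of_nonneg_left (by linarith) ha
    have n2 : b * l q ≤ b * (2 * (m - l σ)) := mul_le_mul_of_nonneg_left (by linarith) hb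
    have n3 : c * l r ≤ c * (2 * (m - l σ)) := mul_le_mul_of_nonneg_left (by linarith) hc
    nlinarith
  have := lt_of_mem_cv (l := l) (M := l x) (fun v hv => by
    by_cases e : v = σ
    · rw [e]; exact hσ
    · exact (h1 v (mem_cv_of_mem (mem_erase.2 ⟨e, hv⟩))).trans h2) hx
  exact lt_irrefl _ this

lemma det3_half (p q r : E) :
    det3 ((1 / 2 : ℝ) • p) ((1 / 2 : ℝ) • q) ((1 / 2 : ℝ) • r) = 1 / 8 * det3 p q r := by
  simp only [det3, Pi.smul_apply, smul_eq_mul]
  ring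

/-- the volume of a cap -/
noncomputable def cap [DecidableEq E] (W : Finset E) (σ : E) : ℝ :=
  volume.real (cv W) - volume.real (cv (W.erase σ))

lemma cap_nonneg [DecidableEq E] (W : Finset E) (σ : E) : 0 ≤ cap W σ :=
  sub_nonneg.2 (measureReal_mono (cv_mono fun _ h => mem_cv_of_mem (mem_of_mem_erase h))
    (cv_compact W).measure_lt_top.ne)

/-- a cap covered by three cones -/
lemma cap_le [DecidableEq E] {W : Finset E} {σ p1 q1 r1 p2 q2 r2 p3 q3 r3 : E}
    (hm : ∀ g ∈ [p1, q1, r1, p2, q2, r2, p3, q3, r3], σ + (1 / 2 : ℝ) • g ∈ cv (W.erase σ))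
    (h : ∀ x ∈ cv W, C3 p1 q1 r1 (x - σ) ∨ C3 p2 q2 r2 (x - σ) ∨ C3 p3 q3 r3 (x - σ)) :
    8 * cap W σ ≤ (|det3 p1 q1 r1| + |det3 p2 q2 r2| + |det3 p3 q3 r3|) * c0 := by
  set T1 := Vol.tet σ ![(1 / 2 : ℝ) • p1, (1 / 2 : ℝ) • q1, (1 / 2 : ℝ) • r1] with h1
  set T2 := Vol.tet σ ![(1 / 2 : ℝ) • p2, (1 / 2 : ℝ) • q2, (1 / 2 : ℝ) • r2] with h2
  set T3 := Vol.tet σ ![(1 / 2 : ℝ) • p3, (1 / 2 : ℝ) • q3, (1 / 2 : ℝ) • r3] with h3
  have hsub : cv W ⊆ cv (W.erase σ) ∪ (T1 ∪ (T2 ∪ T3)) := by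
    intro x hx
    by_cases hn : x ∈ cv (W.erase σ)
    · exact Or.inl hn
    right
    rcases h x hx with h | h | h
    · exact Or.inl (cap_point hx hn (hm _ (by simp)) (hm _ (by simp)) (hm _ (by simp)) h)
    · exact Or.inr (Or.inl (cap_point hx hn (hm _ (by simp)) (hm _ (by simp)) (hm _ (by simp)) h))
    · exact Or.inr (Or.inr (cap_point hx hn (hm _ (by simp)) (hm _ (by simp)) (hm _ (by simp)) h))
  have hc : IsCompact (cv (W.erase σ) ∪ (T1 ∪ (T2 ∪ T3))) :=
    (cv_compact _).union ((Vol.isCompact_tet _ _).union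
      ((Vol.isCompact_tet _ _).union (Vol.isCompact_tet _ _)))
  have k0 := measureReal_mono (μ := volume) hsub hc.measure_lt_top.ne
  have k1 := measureReal_union_le (μ := volume) (cv (W.erase σ)) (T1 ∪ (T2 ∪ T3))
  have k2 := measureReal_union_le (μ := volume) T1 (T2 ∪ T3)
  have k3 := measureReal_union_le (μ := volume) T2 T3
  have v1 : volume.real T1 = 1 / 8 * |det3 p1 q1 r1| * c0 := by
    rw [h1, volT, det3_half, abs_mul, abs_of_pos (by norm_num : (0 : ℝ) < 1 / 8)]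
  have v2 : volume.real T2 = 1 / 8 * |det3 p2 q2 r2| * c0 := by
    rw [h2, volT, det3_half, abs_mul, abs_of_pos (by norm_num : (0 : ℝ) < 1 / 8)]
  have v3 : volume.real T3 = 1 / 8 * |det3 p3 q3 r3| * c0 := by
    rw [h3, volT, det3_half, abs_mul, abs_of_pos (by norm_num : (0 : ℝ) < 1 / 8)]
  unfold cap
  linarith

/-- the tangent cone of the second level at the midpoint of `a b` -/
lemma cone_mid {a b p q r s t : E}
    (h : ∀ v ∈ V, v ≠ a → v ≠ b → C5 p q r s t (v - a) ∧ C5 p q r s t (v - b)) {x : E}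
    (hx : x ∈ cv (nxt V)) : C5 p q r s t (x - midpoint ℝ a b) := by
  have h0 : C5 p q r s t 0 := ⟨0, 0, 0, 0, 0, le_rfl, le_rfl, le_rfl, le_rfl, le_rfl, by simp⟩
  have hconv : Convex ℝ {x | C5 p q r s t (x - midpoint ℝ a b)} := by
    intro x hx y hy l m hl hm hlm
    have := C5.comb hx hy hl hm
    obtain rfl : m = 1 - l := by linarith
    show C5 p q r s t _
    convert this using 1
    module
  have hA : ∀ v ∈ V, v ≠ b → C5 p q r s t (v - a) := fun v hv hb => by
    by_cases e : v = a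
    · rw [e, sub_self]; exact h0
    · exact (h v hv e hb).1
  have hB : ∀ v ∈ V, v ≠ a → C5 p q r s t (v - b) := fun v hv ha => by
    by_cases e : v = b
    · rw [e, sub_self]; exact h0
    · exact (h v hv ha e).2
  refine convexHull_min (fun m hm => ?_) hconv hx
  obtain ⟨c, d, hcd, rfl⟩ := mem_nxt.1 hm
  show C5 p q r s t _
  rw [midpoint_eq_smul_add, midpoint_eq_smul_add, invOf_eq_inv]
  by_cases e : c ≠ b ∧ d ≠ a
  · have := C5.comb (hA c hcd.1 e.1) (hB d hcd.2.1 e.2) (l := 2⁻¹) (m := 2⁻¹) (by norm_num)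
      (by norm_num)
    convert this using 1
    module
  · have e' : d ≠ b ∧ c ≠ a ∨ (c = b ∧ c = a ∨ d = a ∧ d = b) := by
      have := hcd.2.2.1
      by_contra hc
      push Not at e hc
      by_cases e1 : c = b
      · exact hc.2.1 e1 (hc.1 (fun h => this (e1.trans h.symm)))
      · have e2 := e e1
        by_cases e3 : d = b
        · exact hc.2.2 e2 e3
        · exact this ((hc.1 e3).trans e2.symm)
    rcases e' with e' | ⟨e1, e2⟩ | ⟨e1, e2⟩
    · have := C5.comb (hA d hcd.2.1 e'.1) (hB c hcd.1 e'.2) (l := 2⁻¹) (m := 2⁻¹) (by norm_num)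
        (by norm_num)
      convert this using 1
      module
    · have := C5.comb (hA d hcd.2.1 (fun h => hcd.2.2.1 (e1.trans h.symm))) h0 (l := 2⁻¹)
        (m := 2⁻¹) (by norm_num) (by norm_num)
      convert this using 1
      rw [← e1, ← e2]
      module
    · have := C5.comb (hA c hcd.1 (fun h => hcd.2.2.1 (h.trans e2.symm))) h0 (l := 2⁻¹)
        (m := 2⁻¹) (by norm_num) (by norm_num)
      convert this using 1
      rw [← e2, ← e1]
      module

/-- four vectors split along a diagonal -/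
lemma split4 {p q r s x : E} {α β γ δ : ℝ} (hα : 0 < α) (hβ : 0 < β) (hγ : 0 ≤ γ) (hδ : 0 ≤ δ)
    (h : α • p + β • r = γ • q + δ • s) {a b c d : ℝ} (ha : 0 ≤ a) (hb : 0 ≤ b) (hc : 0 ≤ c)
    (hd : 0 ≤ d) (e : x = a • p + b • q + c • r + d • s) : C3 p q s x ∨ C3 r q s x := by
  rcases le_total (c / β) (a / α) with h1 | h1
  · left
    have hr : r = β⁻¹ • (γ • q + δ • s - α • p) := by
      rw [← h, add_sub_cancel_left, smul_smul, inv_mul_cancel₀ hβ.ne', one_smul]
    refine ⟨a - c / β * α, b + c / β * γ, d + c / β * δ, ?_, by positivity, by positivity, ?_⟩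
    · rw [le_div_iff₀ hα] at h1; linarith
    · rw [e, hr, div_eq_mul_inv]; module
  · right
    have hp : p = α⁻¹ • (γ • q + δ • s - β • r) := by
      rw [← h, add_sub_cancel_right, smul_smul, inv_mul_cancel₀ hα.ne', one_smul]
    refine ⟨c - a / α * β, b + a / α * γ, d + a / α * δ, ?_, by positivity, by positivity, ?_⟩
    · rw [le_div_iff₀ hβ] at h1; linarith
    · rw [e, hp, div_eq_mul_inv]; module

/-- cancelling the fifth vector against the third or the fourth -/
lemma split5 {p q r s t x : E} {α β γ δ γ' δ' : ℝ} (hα : 0 < α) (hβ : 0 < β) (hγ : 0 ≤ γ)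
    (hδ : 0 ≤ δ) (hγ' : 0 ≤ γ') (hδ' : 0 ≤ δ') (h : α • r + β • t = γ • p + δ • q)
    (h' : α • s + β • t = γ' • p + δ' • q) (hx : C5 p q r s t x) :
    (∃ a b c d : ℝ, 0 ≤ a ∧ 0 ≤ b ∧ 0 ≤ c ∧ 0 ≤ d ∧ x = a • p + b • q + c • r + d • s) ∨
      C3 p q t x := by
  obtain ⟨a, b, c, d, e, ha, hb, hc, hd, he, rfl⟩ := hx
  rcases split4 (x := c • r + e • t) hα hβ hγ hδ h (b := 0) (d := 0) hc le_rfl he le_rfl
    (by module) with ⟨c1, a1, b1, k1, k2, k3, k⟩ | ⟨e1, a1, b1, k1, k2, k3, k⟩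
  · exact Or.inl ⟨a + a1, b + b1, c1, d, by positivity, by positivity, k1, hd, by
      linear_combination (norm := module) k⟩
  · rcases split4 (x := d • s + e1 • t) hα hβ hγ' hδ' h' (b := 0) (d := 0) hd le_rfl k1 le_rfl
      (by module) with ⟨d2, a2, b2, l1, l2, l3, l⟩ | ⟨e2, a2, b2, l1, l2, l3, l⟩
    · exact Or.inl ⟨a + a1 + a2, b + b1 + b2, 0, d2, by positivity, by positivity, le_rfl, l1, by
        linear_combination (norm := module) k + l⟩
    · exact Or.inr ⟨a + a1 + a2, b + b1 + b2, e2, by positivity, by positivity, l1, by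
        linear_combination (norm := module) k + l⟩

lemma sum_le_list [DecidableEq E] (f : E → ℝ) (hf : ∀ x, 0 ≤ f x) (W : Finset E) (l : List E)
    (h : ∀ x ∈ W, x ∈ l) : ∑ x ∈ W, f x ≤ (l.map f).sum := by
  have h1 : ∑ x ∈ l.toFinset, f x ≤ (l.map f).sum := by
    clear h
    induction l with
    | nil => simp
    | cons a l ih =>
      rw [List.toFinset_cons, List.map_cons, List.sum_cons]
      by_cases e : a ∈ l.toFinset
      · rw [insert_eq_of_mem e]; linarith [hf a]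
      · rw [sum_insert e]; linarith
  exact (sum_le_sum_of_subset_of_nonneg (fun x hx => List.mem_toFinset.2 (h x hx))
    (fun x _ _ => hf x)).trans h1

lemma step_caps [DecidableEq E] (hV : CP V) (h2 : 2 ≤ V.card) :
    volume.real (cv V) - 1 / 8 * ∑ s ∈ V, cap V s ≤ volume.real (cv (nxt V)) :=
  Vol.step_ge (E := E) (by simp) volume V h2 (cv (nxt V)) (cv_convex _) (cv_compact _)
    (fun a ha b hb hab => by
      have := mid_mem_cv_nxt hV ha hb hab
      rwa [midpoint_eq_smul_add, invOf_eq_inv, ← one_div] at this)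

lemma exists_func {p q r : E} (h : det3 p q r ≠ 0) (x y z : ℝ) :
    ∃ l : L, l p = x ∧ l q = y ∧ l r = z := by
  let e := (lin3 p q r).equivOfDetNeZero (by rwa [det_lin3])
  have he : ∀ v, e v = lin3 p q r v := fun v => rfl
  let f : L := x • LinearMap.proj 0 + y • LinearMap.proj 1 + z • LinearMap.proj 2
  have key : ∀ v, (f ∘ₗ e.symm.toLinearMap) (lin3 p q r v) = x * v 0 + y * v 1 + z * v 2 := by
    intro v
    rw [← he]
    simp [f]
  refine ⟨f ∘ₗ e.symm.toLinearMap, ?_, ?_, ?_⟩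
  · simpa [lin3_apply] using key ![1, 0, 0]
  · simpa [lin3_apply] using key ![0, 1, 0]
  · simpa [lin3_apply] using key ![0, 0, 1]

lemma exists_of_det {p q r : E} (h : det3 p q r = 0) :
    ∃ l : L, l ≠ 0 ∧ l p = 0 ∧ l q = 0 ∧ l r = 0 := by
  have h1 : LinearMap.range (lin3 p q r) < ⊤ :=
    LinearMap.range_lt_top_of_det_eq_zero (by rwa [det_lin3])
  obtain ⟨f, hf, hle⟩ := Submodule.exists_le_ker_of_lt_top _ h1
  refine ⟨f, hf, ?_, ?_, ?_⟩
  · simpa [lin3_apply] using hle (LinearMap.mem_range_self _ ![1, 0, 0])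
  · simpa [lin3_apply] using hle (LinearMap.mem_range_self _ ![0, 1, 0])
  · simpa [lin3_apply] using hle (LinearMap.mem_range_self _ ![0, 0, 1])

end Pool.Agent.Lib.MP_7fdcdd_gt.Asm
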