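import Pool.Agent.Lib.MP_7fdcdd_gt.Asm5

/-! Polyhedra with five vertices: two steps keep at least `15/32` of the volume. -/

namespace Pool.Agent.Lib.MP_7fdcdd_gt.Asm

open MeasureTheory H77 Finset

variable {V : Finset E} {a b c z w : E} {α β γ ζ η U : ℝ}

/-- five points with their affine relation -/
structure Five (V : Finset E) (a b c z w : E) (α β γ ζ η U : ℝ) : Prop where
  mem : ∀ v, v ∈ V ↔ v = a ∨ v = b ∨ v = c ∨ v = z ∨ v = w
  ab : a ≠ b
  ac : a ≠ c
  bc : b ≠ c
  az : a ≠ z
  bz : b ≠ z
  cz : c ≠ z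
  aw : a ≠ w
  bw : b ≠ w
  cw : c ≠ w
  zw : z ≠ w
  rel : α • a + β • b + γ • c = ζ • z + η • w
  sum : α + β + γ = ζ + η
  hα : 0 ≤ α
  hβ : 0 ≤ β
  hγ : 0 ≤ γ
  hζ : 0 < ζ
  hη : 0 < η
  hU : 0 < U
  det : |det3 (a - z) (b - z) (c - z)| = η * U

lemma Five.rot (h : Five V a b c z w α β γ ζ η U) : Five V b c a z w β γ α ζ η U :=
  ⟨fun v => by rw [h.mem]; tauto, h.bc, h.ab.symm, h.ac.symm, h.bz, h.cz, h.az, h.bw, h.cw, h.aw,
    h.zw, by rw [← h.rel]; abel, by linarith [h.sum], h.hβ, h.hγ, h.hα, h.hζ, h.hη, h.hU, by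
      rw [← h.det]; congr 1; simp only [det3]; ring⟩

lemma Five.flip (h : Five V a b c z w α β γ ζ η U) : Five V b a c z w β α γ ζ η U :=
  ⟨fun v => by rw [h.mem]; tauto, h.ab.symm, h.bc, h.ac, h.bz, h.az, h.cz, h.bw, h.aw, h.cw,
    h.zw, by rw [← h.rel]; abel, by linarith [h.sum], h.hβ, h.hα, h.hγ, h.hζ, h.hη, h.hU, by
      rw [← h.det, ← abs_neg]; congr 1; simp only [det3]; ring⟩

/-- transfer of determinants through the relation -/
lemma Five.abs_det (h : Five V a b c z w α β γ ζ η U) {D κ : ℝ} (hκ : 0 ≤ κ)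
    (e : η * D = κ * det3 (a - z) (b - z) (c - z) ∨ η * D = -(κ * det3 (a - z) (b - z) (c - z))) :
    |D| = κ * U := by
  have h1 : η * |D| = η * (κ * U) := by
    have : |η * D| = κ * (η * U) := by
      rcases e with e | e
      · rw [e, abs_mul, abs_of_nonneg hκ, h.det]
      · rw [e, abs_neg, abs_mul, abs_of_nonneg hκ, h.det]
    rw [abs_mul, abs_of_pos h.hη] at this
    linarith
  exact mul_left_cancel₀ h.hη.ne' h1

lemma Five.coord (h : Five V a b c z w α β γ ζ η U) (i : Fin 3) :
    w i = (α * a i + β * b i + γ * c i - (α + β + γ - η) * z i) / η := by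
  have := congrFun h.rel i
  simp only [Pi.add_apply, Pi.smul_apply, smul_eq_mul] at this
  rw [eq_div_iff h.hη.ne', h.sum]
  linarith

lemma Five.func (h : Five V a b c z w α β γ ζ η U) (l : L) :
    α * l a + β * l b + γ * l c = ζ * l z + η * l w := by
  simpa using congrArg l h.rel

lemma Five.swap (h : Five V a b c z w α β γ ζ η U) : Five V a b c w z α β γ η ζ U :=
  ⟨fun v => by rw [h.mem]; tauto, h.ab, h.ac, h.bc, h.aw, h.bw, h.cw, h.az, h.bz, h.cz,
    h.zw.symm, by rw [h.rel]; abel, by linarith [h.sum], h.hα, h.hβ, h.hγ, h.hη, h.hζ, h.hU,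
    h.abs_det h.hζ.le (Or.inr (by
      have := h.hη.ne'
      rw [show ζ = α + β + γ - η by linarith [h.sum]]
      simp only [det3, Pi.sub_apply, h.coord]
      field_simp
      ring))⟩

lemma Five.turn (h : Five V a b c z w α β 0 ζ η U) (h1 : 0 < α) (h2 : 0 < β) :
    Five V z w c a b ζ η 0 α β U :=
  ⟨fun v => by rw [h.mem]; tauto, h.zw, h.cz.symm, h.cw.symm, h.az.symm, h.aw.symm, h.ac.symm,
    h.bz.symm, h.bw.symm, h.bc.symm, h.ab, by simpa using h.rel.symm, by linarith [h.sum],
    h.hζ.le, h.hη.le, le_rfl, h1, h2, h.hU,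
    h.abs_det h2.le (Or.inr (by
      have := h.hη.ne'
      simp only [det3, Pi.sub_apply, h.coord]
      field_simp
      ring))⟩

lemma Five.exists_func (h : Five V a b c z w α β γ ζ η U) (x y t : ℝ) :
    ∃ l : L, l a = l z + x ∧ l b = l z + y ∧ l c = l z + t := by
  obtain ⟨l, h1, h2, h3⟩ := Asm.exists_func (p := a - z) (q := b - z) (r := c - z) (fun e => by
    have := h.det
    rw [e, abs_zero] at this
    exact (mul_pos h.hη h.hU).ne this) x y t
  rw [map_sub] at h1 h2 h3
  exact ⟨l, by linarith, by linarith, by linarith⟩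

lemma Five.adj_az (h : Five V a b c z w α β γ ζ η U) (hp : 0 < β + γ) : Adj V a z := by
  obtain ⟨l, h1, h2, h3⟩ := h.exists_func 0 (-1) (-1)
  have h4 := h.func l
  have h5 : l w < l z := by
    by_contra hc
    push Not at hc
    have := mul_le_mul_of_nonneg_left hc h.hη.le
    rw [h1, h2, h3] at h4
    have h6 : (α + β + γ) * l z = (ζ + η) * l z := by rw [h.sum]
    nlinarith
  refine ⟨(h.mem _).2 (by simp), (h.mem _).2 (by simp), h.az, l, fun v hv e1 e2 => ?_⟩
  rcases (h.mem v).1 hv with rfl | rfl | rfl | rfl | rfl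
  · exact absurd rfl e1
  · constructor <;> linarith
  · constructor <;> linarith
  · exact absurd rfl e2
  · constructor <;> linarith

lemma Five.adj_ab (h : Five V a b c z w α β γ ζ η U) (hp : 0 < γ) : Adj V a b := by
  obtain ⟨l, h1, h2, h3⟩ := h.exists_func 1 1 (1 - (ζ + η) / γ)
  have h4 := h.func l
  have h0 : 0 < (ζ + η) / γ := div_pos (by linarith [h.hζ, h.hη]) hp
  have h5 : l w = l z := by
    rw [h1, h2, h3] at h4
    have h6 : (α + β + γ) * l z = (ζ + η) * l z := by rw [h.sum]
    have h7 : γ * ((ζ + η) / γ) = ζ + η := by field_simp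
    have h8 : η * l w = η * l z := by nlinarith [h.sum]
    exact mul_left_cancel₀ h.hη.ne' h8
  refine ⟨(h.mem _).2 (by simp), (h.mem _).2 (by simp), h.ab, l, fun v hv e1 e2 => ?_⟩
  rcases (h.mem v).1 hv with rfl | rfl | rfl | rfl | rfl
  · exact absurd rfl e1
  · exact absurd rfl e2
  all_goals constructor <;> linarith

lemma Five.not_adj (h : Five V a b c z w α β γ ζ η U) : ¬ Adj V z w := by
  rintro ⟨-, -, -, l, hl⟩
  have h1 := hl a ((h.mem _).2 (by simp)) h.az h.aw
  have h2 := hl b ((h.mem _).2 (by simp)) h.bz h.bw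
  have h3 := hl c ((h.mem _).2 (by simp)) h.cz h.cw
  have h4 := h.func l
  have hs := h.sum
  set M := max (l a) (max (l b) (l c)) with hM
  have m1 : l a ≤ M := le_max_left _ _
  have m2 : l b ≤ M := (le_max_left _ _).trans (le_max_right _ _)
  have m3 : l c ≤ M := (le_max_right _ _).trans (le_max_right _ _)
  have m4 : M < l z := max_lt h1.1 (max_lt h2.1 h3.1)
  have m5 : M < l w := max_lt h1.2 (max_lt h2.2 h3.2)
  have := mul_le_mul_of_nonneg_left m1 h.hα
  have := mul_le_mul_of_nonneg_left m2 h.hβ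
  have := mul_le_mul_of_nonneg_left m3 h.hγ
  have := mul_lt_mul_of_pos_left m4 h.hζ
  have := mul_lt_mul_of_pos_left m5 h.hη
  have h6 : (α + β + γ) * M = (ζ + η) * M := by rw [hs]
  nlinarith

lemma nb_left [DecidableEq E] {a b x : E} (h : Adj V a x) (hx : x ≠ b) :
    midpoint ℝ a b + (1 / 2 : ℝ) • (x - b) ∈ cv ((nxt V).erase (midpoint ℝ a b)) := by
  have : midpoint ℝ a b + (1 / 2 : ℝ) • (x - b) = midpoint ℝ a x := by
    rw [midpoint_eq_smul_add, midpoint_eq_smul_add, invOf_eq_inv]
    module
  rw [this]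
  exact mem_cv_of_mem (mem_erase.2 ⟨mid_ne hx, h.mid_mem⟩)

lemma nb_right [DecidableEq E] {a b x : E} (h : Adj V b x) (hx : x ≠ a) :
    midpoint ℝ a b + (1 / 2 : ℝ) • (x - a) ∈ cv ((nxt V).erase (midpoint ℝ a b)) := by
  rw [midpoint_comm a b]
  exact nb_left h hx

/-- the cap at an edge between two triangles through `z` and `w` -/
lemma Five.capE [DecidableEq E] (h : Five V a b c z w α β γ ζ η U) (hγ : 0 < γ) (h1 : 0 < β + γ)
    (h2 : 0 < α + γ) : 8 * cap (nxt V) (midpoint ℝ a b) ≤ 2 * γ * U * c0 := by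
  have az := h.adj_az h1
  have aw := h.swap.adj_az h1
  have bz := h.flip.adj_az h2
  have bw := h.flip.swap.adj_az h2
  have hα := h.hα
  have hβ := h.hβ
  have hζ := h.hζ
  have hη := h.hη
  have hs : 0 < ζ + η := by linarith
  have hc : c = γ⁻¹ • (ζ • z + η • w - α • a - β • b) := by
    rw [← h.rel, show α • a + β • b + γ • c - α • a - β • b = γ • c by abel, smul_smul,
      inv_mul_cancel₀ hγ.ne', one_smul]
  have k := cap_le (W := nxt V) (σ := midpoint ℝ a b) (p1 := z - b) (q1 := w - b) (r1 := z - a)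
    (p2 := w - a) (q2 := w - b) (r2 := z - a) (p3 := z - a) (q3 := z - a) (r3 := z - a)
    (by
      intro g hg
      simp only [List.mem_cons, List.not_mem_nil, or_false] at hg
      rcases hg with rfl | rfl | rfl | rfl | rfl | rfl | rfl | rfl | rfl
      all_goals first
        | exact nb_left az h.bz.symm
        | exact nb_left aw h.bw.symm
        | exact nb_right bz h.az.symm
        | exact nb_right bw h.aw.symm)
    (fun x hx => by
      have := cone_mid (a := a) (b := b) (p := z - b) (q := w - b) (r := w - a) (s := z - a)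
        (t := 0) (fun v hv e1 e2 => by
          rcases (h.mem v).1 hv with rfl | rfl | rfl | rfl | rfl
          · exact absurd rfl e1
          · exact absurd rfl e2
          · constructor
            · refine ⟨β * ζ / (γ * (ζ + η)), β * η / (γ * (ζ + η)), (α + γ) * η / (γ * (ζ + η)),
                (α + γ) * ζ / (γ * (ζ + η)), 0, by positivity, by positivity, by positivity,
                by positivity, le_rfl, ?_⟩
              have e : α = ζ + η - β - γ := by linarith [h.sum]
              rw [hc, e]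
              match_scalars <;> field_simp <;> ring
            · refine ⟨(β + γ) * ζ / (γ * (ζ + η)), (β + γ) * η / (γ * (ζ + η)),
                α * η / (γ * (ζ + η)), α * ζ / (γ * (ζ + η)), 0, by positivity, by positivity,
                by positivity, by positivity, le_rfl, ?_⟩
              have e : α = ζ + η - β - γ := by linarith [h.sum]
              rw [hc, e]
              match_scalars <;> field_simp <;> ring
          · exact ⟨⟨0, 0, 0, 1, 0, le_rfl, le_rfl, le_rfl, zero_le_one, le_rfl, by module⟩,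
              ⟨1, 0, 0, 0, 0, zero_le_one, le_rfl, le_rfl, le_rfl, le_rfl, by module⟩⟩
          · exact ⟨⟨0, 0, 1, 0, 0, le_rfl, le_rfl, zero_le_one, le_rfl, le_rfl, by module⟩,
              ⟨0, 1, 0, 0, 0, le_rfl, zero_le_one, le_rfl, le_rfl, le_rfl, by module⟩⟩) hx
      obtain ⟨x1, x2, x3, x4, x5, k1, k2, k3, k4, -, e⟩ := this
      rcases split4 (p := z - b) (q := w - b) (r := w - a) (s := z - a) one_pos one_pos
        zero_le_one zero_le_one (by module) k1 k2 k3 k4 (e.trans (by rw [smul_zero, add_zero])) with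
        h | h
      · exact Or.inl h
      · exact Or.inr (Or.inl h))
  have d1 : |det3 (z - b) (w - b) (z - a)| = γ * U := h.abs_det hγ.le (Or.inl (by
    simp only [det3, Pi.sub_apply, h.coord]
    field_simp
    ring))
  have d2 : |det3 (w - a) (w - b) (z - a)| = γ * U := by
    rw [← d1, ← abs_neg]; congr 1; simp only [det3, Pi.sub_apply]; ring
  have d3 : |det3 (z - a) (z - a) (z - a)| = 0 := by
    rw [abs_eq_zero]; simp only [det3]; ring
  rw [d1, d2, d3] at k
  linarith

/-- the cap at an edge from the apex `z` of a bipyramid -/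
lemma Five.capA [DecidableEq E] (h : Five V a b c z w α β γ ζ η U) (hα : 0 < α) (hβ : 0 < β)
    (hγ : 0 < γ) : 8 * cap (nxt V) (midpoint ℝ a z) ≤ (2 * η + α) * U * c0 := by
  have ab := h.adj_ab hγ
  have ac := (h.rot.rot.adj_ab hβ).symm
  have aw := h.swap.adj_az (by linarith)
  have zb := (h.flip.adj_az (by linarith)).symm
  have zc := (h.rot.rot.adj_az (by linarith)).symm
  have hζ := h.hζ
  have hη := h.hη
  have e0 : ζ = α + β + γ - η := by linarith [h.sum]
  have hr := h.rel
  rw [e0] at hr
  have r1 : α • (b - a) + η • (w - z) = (α + β) • (b - z) + γ • (c - z) := by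
    linear_combination (norm := module) -hr
  have r2 : α • (c - a) + η • (w - z) = β • (b - z) + (α + γ) • (c - z) := by
    linear_combination (norm := module) -hr
  have hw : w = η⁻¹ • (α • a + β • b + γ • c - (α + β + γ - η) • z) := by
    rw [hr, add_sub_cancel_left, smul_smul, inv_mul_cancel₀ hη.ne', one_smul]
  have k := cap_le (W := nxt V) (σ := midpoint ℝ a z) (p1 := b - z) (q1 := c - z) (r1 := b - a)
    (p2 := c - a) (q2 := c - z) (r2 := b - a) (p3 := b - z) (q3 := c - z) (r3 := w - z)
    (by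
      intro g hg
      simp only [List.mem_cons, List.not_mem_nil, or_false] at hg
      rcases hg with rfl | rfl | rfl | rfl | rfl | rfl | rfl | rfl | rfl
      all_goals first
        | exact nb_left ab h.bz
        | exact nb_left ac h.cz
        | exact nb_left aw h.zw.symm
        | exact nb_right zb h.ab.symm
        | exact nb_right zc h.ac.symm)
    (fun x hx => by
      have := cone_mid (a := a) (b := z) (p := b - z) (q := c - z) (r := b - a) (s := c - a)
        (t := w - z) (fun v hv e1 e2 => by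
          rcases (h.mem v).1 hv with rfl | rfl | rfl | rfl | rfl
          · exact absurd rfl e1
          · exact ⟨⟨0, 0, 1, 0, 0, le_rfl, le_rfl, zero_le_one, le_rfl, le_rfl, by module⟩,
              ⟨1, 0, 0, 0, 0, zero_le_one, le_rfl, le_rfl, le_rfl, le_rfl, by module⟩⟩
          · exact ⟨⟨0, 0, 0, 1, 0, le_rfl, le_rfl, le_rfl, zero_le_one, le_rfl, by module⟩,
              ⟨0, 1, 0, 0, 0, le_rfl, zero_le_one, le_rfl, le_rfl, le_rfl, by module⟩⟩
          · exact absurd rfl e2
          · refine ⟨⟨0, 0, β / (α + β + γ), γ / (α + β + γ), (α + β + γ - η) / (α + β + γ), le_rfl,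
              le_rfl, by positivity, by positivity, by rw [← e0]; positivity, ?_⟩,
              ⟨0, 0, 0, 0, 1, le_rfl, le_rfl, le_rfl, le_rfl, zero_le_one, by module⟩⟩
            rw [hw]
            match_scalars <;> field_simp <;> ring) hx
      rcases split5 hα hη (by positivity) hγ.le hβ.le (by positivity) r1 r2 this with
        ⟨x1, x2, x3, x4, k1, k2, k3, k4, e⟩ | h
      · rcases split4 (p := b - z) (q := c - z) (r := c - a) (s := b - a) one_pos one_pos
          zero_le_one zero_le_one (by module) k1 k2 k4 k3 (x := x - midpoint ℝ a z)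
          (by rw [e]; module) with h | h
        · exact Or.inl h
        · exact Or.inr (Or.inl h)
      · exact Or.inr (Or.inr h))
  have d1 : |det3 (b - z) (c - z) (b - a)| = η * U := by
    rw [← h.det, ← abs_neg]; congr 1; simp only [det3, Pi.sub_apply]; ring
  have d2 : |det3 (c - a) (c - z) (b - a)| = η * U := by
    rw [← h.det]; congr 1; simp only [det3, Pi.sub_apply]; ring
  have d3 : |det3 (b - z) (c - z) (w - z)| = α * U := h.abs_det hα.le (Or.inl (by
    simp only [det3, Pi.sub_apply, h.coord]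
    field_simp
    ring))
  rw [d1, d2, d3] at k
  linarith

/-- the cap at a base edge of a pyramid with apex `c` -/
lemma Five.capB [DecidableEq E] (h : Five V a b c z w α β 0 ζ η U) (hα : 0 < α) (hβ : 0 < β) :
    8 * cap (nxt V) (midpoint ℝ a z) ≤ (ζ + 2 * η) * U * c0 := by
  have hζ := h.hζ
  have hη := h.hη
  have ac := (h.rot.rot.adj_ab hβ).symm
  have aw := h.swap.adj_az (by linarith)
  have zb := (h.flip.adj_az (by linarith)).symm
  have zc := (h.rot.rot.adj_az (by linarith)).symm
  have e0 : ζ = α + β - η := by linarith [h.sum]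
  have hr := h.rel
  rw [e0, zero_smul, add_zero] at hr
  have hw : w = η⁻¹ • (α • a + β • b - (α + β - η) • z) := by
    rw [hr, add_sub_cancel_left, smul_smul, inv_mul_cancel₀ hη.ne', one_smul]
  have r1 : η • (w - z) + α • (c - a) = β • (b - z) + α • (c - z) := by
    linear_combination (norm := module) -hr
  have r2 : (α + β) • (b - z) = α • (b - a) + η • (w - z) := by
    linear_combination (norm := module) hr
  have r3 : (η * α) • (w - z) + (α * (α + β)) • (c - a) =
      (α * β) • (b - a) + (α * (α + β)) • (c - z) := by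
    linear_combination (norm := module) (α + β) • r1 + β • r2
  have k := cap_le (W := nxt V) (σ := midpoint ℝ a z) (p1 := w - z) (q1 := b - a) (r1 := c - z)
    (p2 := c - a) (q2 := b - a) (r2 := c - z) (p3 := c - z) (q3 := c - z) (r3 := c - z)
    (by
      intro g hg
      simp only [List.mem_cons, List.not_mem_nil, or_false] at hg
      rcases hg with rfl | rfl | rfl | rfl | rfl | rfl | rfl | rfl | rfl
      all_goals first
        | exact nb_left ac h.cz
        | exact nb_left aw h.zw.symm
        | exact nb_right zb h.ab.symm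
        | exact nb_right zc h.ac.symm)
    (fun x hx => by
      have := cone_mid (a := a) (b := z) (p := w - z) (q := b - a) (r := c - a) (s := c - z)
        (t := 0) (fun v hv e1 e2 => by
          rcases (h.mem v).1 hv with rfl | rfl | rfl | rfl | rfl
          · exact absurd rfl e1
          · refine ⟨⟨0, 1, 0, 0, 0, le_rfl, zero_le_one, le_rfl, le_rfl, le_rfl, by module⟩,
              ⟨η / (α + β), α / (α + β), 0, 0, 0, by positivity, by positivity, le_rfl, le_rfl,
                le_rfl, ?_⟩⟩
            rw [hw]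
            match_scalars <;> field_simp <;> ring
          · exact ⟨⟨0, 0, 1, 0, 0, le_rfl, le_rfl, zero_le_one, le_rfl, le_rfl, by module⟩,
              ⟨0, 0, 0, 1, 0, le_rfl, le_rfl, le_rfl, zero_le_one, le_rfl, by module⟩⟩
          · exact absurd rfl e2
          · refine ⟨⟨(α + β - η) / (α + β), β / (α + β), 0, 0, 0, by rw [← e0]; positivity,
              by positivity, le_rfl, le_rfl, le_rfl, ?_⟩,
              ⟨1, 0, 0, 0, 0, zero_le_one, le_rfl, le_rfl, le_rfl, le_rfl, by module⟩⟩
            rw [hw]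
            match_scalars <;> field_simp <;> ring) hx
      obtain ⟨x1, x2, x3, x4, x5, k1, k2, k3, k4, -, e⟩ := this
      rcases split4 (by positivity) (by positivity) (by positivity) (by positivity) r3
        k1 k2 k3 k4 (e.trans (by rw [smul_zero, add_zero])) with h | h
      · exact Or.inl h
      · exact Or.inr (Or.inl h))
  have d1 : |det3 (w - z) (b - a) (c - z)| = (α + β) * U := h.abs_det (by positivity) (Or.inl (by
    simp only [det3, Pi.sub_apply, h.coord]
    field_simp
    ring))
  have d2 : |det3 (c - a) (b - a) (c - z)| = η * U := by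
    rw [← h.det, ← abs_neg]; congr 1; simp only [det3, Pi.sub_apply]; ring
  have d3 : |det3 (c - z) (c - z) (c - z)| = 0 := by
    rw [abs_eq_zero]; simp only [det3]; ring
  rw [d1, d2, d3] at k
  rw [e0]
  linarith

lemma Five.vol_ge (h : Five V a b c z w α β γ ζ η U) : (ζ + η) * U * c0 ≤ volume.real (cv V) := by
  classical
  obtain ⟨l, h1, h2, h3⟩ := h.exists_func 1 1 1
  have h4 := h.func l
  have h5 : l a ≤ l w := by
    rw [h1, h2, h3] at h4
    have h6 : (α + β + γ) * l z = (ζ + η) * l z := by rw [h.sum]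
    have h7 : η * (l z + 1) ≤ η * l w := by nlinarith [h.sum, h.hζ]
    rw [h1]
    exact le_of_mul_le_mul_left h7 h.hη
  have mem : ∀ v, v = a ∨ v = b ∨ v = c ∨ v = z ∨ v = w → v ∈ cv V := fun v hv =>
    mem_cv_of_mem ((h.mem v).2 hv)
  have s1 : Vol.tet z ![a - z, b - z, c - z] ⊆ cv V ∩ {x | l x ≤ l a} :=
    Vol.tet_subset ((cv_convex _).inter (convex_halfSpace_le l.isLinear _))
      ⟨mem _ (by simp), by show l z ≤ l a; linarith⟩ (fun i => by
        fin_cases i
        · exact ⟨mem _ (by simp), by simp⟩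
        · exact ⟨mem _ (by simp), by simp; linarith⟩
        · exact ⟨mem _ (by simp), by simp; linarith⟩)
  have s2 : Vol.tet w ![a - w, b - w, c - w] ⊆ cv V ∩ {x | l a ≤ l x} :=
    Vol.tet_subset ((cv_convex _).inter (convex_halfSpace_ge l.isLinear _))
      ⟨mem _ (by simp), h5⟩ (fun i => by
        fin_cases i
        · exact ⟨mem _ (by simp), by simp⟩
        · exact ⟨mem _ (by simp), by simp; linarith⟩
        · exact ⟨mem _ (by simp), by simp; linarith⟩)
  have hnull : volume {x : E | l x = l a} = 0 := by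
    have hl : l ≠ 0 := fun e => by rw [e] at h1; simp at h1
    have := Measure.addHaar_submodule (volume : Measure E) (LinearMap.ker l)
      (fun e => hl (LinearMap.ker_eq_top.1 e))
    rw [← measure_preimage_add_right volume (-a)] at this
    convert this using 2
    ext x
    simp [add_neg_eq_zero]
  have hd : AEDisjoint volume (Vol.tet z ![a - z, b - z, c - z])
      (Vol.tet w ![a - w, b - w, c - w]) :=
    measure_mono_null (fun x hx => le_antisymm (s1 hx.1).2 (s2 hx.2).2) hnull
  have k1 := measureReal_union₀ (Vol.isCompact_tet _ _).measurableSet.nullMeasurableSet hd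
    (Vol.isCompact_tet _ _).measure_lt_top.ne (Vol.isCompact_tet _ _).measure_lt_top.ne
  have k2 := measureReal_mono (μ := volume) (Set.union_subset (s1.trans Set.inter_subset_left)
    (s2.trans Set.inter_subset_left)) (cv_compact V).measure_lt_top.ne
  rw [k1, volT, volT, h.det, h.swap.det] at k2
  linarith

lemma Five.mem_list (h : Five V a b c z w α β γ ζ η U) {σ : E} (hσ : σ ∈ nxt V) :
    (Adj V a b ∧ σ = midpoint ℝ a b) ∨ σ ∈ [midpoint ℝ b c, midpoint ℝ c a, midpoint ℝ a z,
      midpoint ℝ b z, midpoint ℝ c z, midpoint ℝ a w, midpoint ℝ b w, midpoint ℝ c w] := by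
  obtain ⟨x, y, hxy, rfl⟩ := mem_nxt.1 hσ
  have hn := h.not_adj
  rcases (h.mem x).1 hxy.1 with rfl | rfl | rfl | rfl | rfl <;>
    rcases (h.mem y).1 hxy.2.1 with rfl | rfl | rfl | rfl | rfl
  all_goals first
    | exact absurd rfl hxy.2.2.1
    | exact absurd hxy hn
    | exact absurd hxy.symm hn
    | exact Or.inl ⟨hxy, rfl⟩
    | exact Or.inl ⟨hxy.symm, midpoint_comm _ _⟩
    | (right; simp; done)
    | (right; rw [midpoint_comm x y]; simp; done)

lemma Five.caps_bi [DecidableEq E] (h : Five V a b c z w α β γ ζ η U) (hα : 0 < α) (hβ : 0 < β)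
    (hγ : 0 < γ) : 8 * ∑ σ ∈ nxt V, cap (nxt V) σ ≤ 10 * ((ζ + η) * U * c0) := by
  have k := sum_le_list (cap (nxt V)) (cap_nonneg _) (nxt V) (midpoint ℝ a b :: _)
    (fun σ hσ => (h.mem_list hσ).elim (fun e => List.mem_cons.2 (Or.inl e.2))
      (fun e => List.mem_cons.2 (Or.inr e)))
  simp only [List.map_cons, List.map_nil, List.sum_cons, List.sum_nil] at k
  have k1 := h.capE hγ (by linarith) (by linarith)
  have k2 := h.rot.capE hα (by linarith) (by linarith)
  have k3 := h.rot.rot.capE hβ (by linarith) (by linarith)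
  have k4 := h.capA hα hβ hγ
  have k5 := h.rot.capA hβ hγ hα
  have k6 := h.rot.rot.capA hγ hα hβ
  have k7 := h.swap.capA hα hβ hγ
  have k8 := h.swap.rot.capA hβ hγ hα
  have k9 := h.swap.rot.rot.capA hγ hα hβ
  have e : (α + β + γ) * U * c0 = (ζ + η) * U * c0 := by rw [h.sum]
  linarith

lemma Five.caps_pyr [DecidableEq E] (h : Five V a b c z w α β 0 ζ η U) (hα : 0 < α) (hβ : 0 < β) :
    8 * ∑ σ ∈ nxt V, cap (nxt V) σ ≤ 10 * ((ζ + η) * U * c0) := by
  have h' := h.turn hα hβ
  have k := sum_le_list (cap (nxt V)) (cap_nonneg _) (nxt V) _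
    (fun σ hσ => (h.mem_list hσ).resolve_left (fun e => h'.not_adj e.1))
  simp only [List.map_cons, List.map_nil, List.sum_cons, List.sum_nil] at k
  have hζ := h.hζ
  have hη := h.hη
  have k2 := h.rot.capE hα (by linarith) (by linarith)
  have k3 := h.rot.rot.capE hβ (by linarith) (by linarith)
  have k4 := h.capB hα hβ
  have k5 := h.flip.capB hβ hα
  have k6 := h'.rot.rot.capE hη (by linarith) (by linarith)
  have k7 := h.swap.capB hα hβ
  have k8 := h.swap.flip.capB hβ hα
  have k9 := h'.flip.rot.rot.capE hζ (by linarith) (by linarith)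
  have e : (α + β + 0) * U * c0 = (ζ + η) * U * c0 := by rw [h.sum]
  linarith

lemma two_le_pos [DecidableEq E] (hV : CP V) (f : E → ℝ) (h1 : ∑ v ∈ V, f v • v = 0)
    (h2 : ∑ v ∈ V, f v = 0) (h3 : ∃ x ∈ V, f x ≠ 0) : 2 ≤ (V.filter (fun v => 0 < f v)).card := by
  obtain ⟨p, hp, hpos⟩ := Finset.exists_pos_of_sum_zero_of_exists_nonzero f h2 h3
  by_contra hc
  have h4 : ∀ v ∈ V, v ≠ p → f v ≤ 0 := fun v hv e => by
    by_contra h
    exact hc (one_lt_card.2 ⟨v, mem_filter.2 ⟨hv, not_le.1 h⟩, p, mem_filter.2 ⟨hp, hpos⟩, e⟩)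
  obtain ⟨l, hl⟩ := hV p hp
  have h5 : ∑ v ∈ V, f v * (l v - l p) = 0 := by
    have := congrArg l h1
    simp only [map_sum, map_smul, smul_eq_mul, map_zero] at this
    simp only [mul_sub, sum_sub_distrib, ← sum_mul, this, h2]
    ring
  have h6 : ∀ v ∈ V, 0 ≤ f v * (l v - l p) := fun v hv => by
    by_cases e : v = p
    · rw [e, sub_self, mul_zero]
    · exact mul_nonneg_of_nonpos_of_nonpos (h4 v hv e) (by linarith [hl v hv e])
  have h7 := (sum_eq_zero_iff_of_nonneg h6).1 h5
  have h8 : ∑ v ∈ V, f v = f p := sum_eq_single_of_mem p hp (fun v hv e =>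
    (mul_eq_zero.1 (h7 v hv)).resolve_right (by linarith [hl v hv e]))
  linarith

lemma exists_five_aux [DecidableEq E] (hS : Sp V) (h5 : V.card = 5) (f : E → ℝ)
    (h1 : ∑ v ∈ V, f v • v = 0) (h2 : ∑ v ∈ V, f v = 0)
    (hN : (V.filter (fun v => f v < 0)).card = 2)
    (hP : 2 ≤ (V.filter (fun v => 0 < f v)).card) :
    ∃ (a b c z w : E) (α β γ ζ η U : ℝ), Five V a b c z w α β γ ζ η U ∧ 0 < α ∧ 0 < β := by
  obtain ⟨z, w, hzw, hN'⟩ := card_eq_two.1 hN
  obtain ⟨a, ha, b, hb, hab⟩ := one_lt_card.1 (show 1 < _ from hP)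
  have hz : z ∈ V.filter (fun v => f v < 0) := by rw [hN']; simp
  have hw : w ∈ V.filter (fun v => f v < 0) := by rw [hN']; simp
  rw [mem_filter] at ha hb hz hw
  have az : a ≠ z := fun e => by rw [e] at ha; linarith [ha.2, hz.2]
  have aw : a ≠ w := fun e => by rw [e] at ha; linarith [ha.2, hw.2]
  have bz : b ≠ z := fun e => by rw [e] at hb; linarith [hb.2, hz.2]
  have bw : b ≠ w := fun e => by rw [e] at hb; linarith [hb.2, hw.2]
  have hc4 : ({a, b, z, w} : Finset E).card = 4 := by
    rw [card_insert_of_notMem (by simp [hab, az, aw]), card_insert_of_notMem (by simp [bz, bw]),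
      card_pair hzw]
  obtain ⟨c, hc, hcn⟩ := exists_mem_notMem_of_card_lt_card (s := {a, b, z, w}) (t := V) (by omega)
  have hV : V = insert c {a, b, z, w} := by
    refine (eq_of_subset_of_card_le ?_ (by rw [card_insert_of_notMem hcn]; omega)).symm
    intro x hx
    simp only [mem_insert, mem_singleton] at hx
    rcases hx with rfl | rfl | rfl | rfl | rfl
    exacts [hc, ha.1, hb.1, hz.1, hw.1]
  have hcn' := hcn
  simp only [mem_insert, mem_singleton, not_or] at hcn'
  obtain ⟨ca, cb, cz, cw⟩ := hcn'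
  have hγ : 0 ≤ f c := by
    by_contra h
    have : c ∈ V.filter (fun v => f v < 0) := mem_filter.2 ⟨hc, not_le.1 h⟩
    rw [hN'] at this
    simp [cz, cw] at this
  rw [hV, sum_insert hcn, sum_insert (by simp [hab, az, aw]), sum_insert (by simp [bz, bw]),
    sum_pair hzw] at h1 h2
  have hmem : ∀ v, v ∈ V ↔ v = a ∨ v = b ∨ v = c ∨ v = z ∨ v = w := fun v => by
    rw [hV]; simp only [mem_insert, mem_singleton]; tauto
  have hrel : f a • a + f b • b + f c • c = (-f z) • z + (-f w) • w := by
    linear_combination (norm := module) h1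
  have hD : det3 (a - z) (b - z) (c - z) ≠ 0 := by
    intro e
    obtain ⟨l, hl, e1, e2, e3⟩ := exists_of_det e
    rw [map_sub, sub_eq_zero] at e1 e2 e3
    have e4 : l w = l z := by
      have := congrArg l hrel
      simp only [map_add, map_smul, smul_eq_mul, e1, e2, e3] at this
      have h6 : (f c + (f a + (f b + (f z + f w)))) * l z = 0 := by rw [h2, zero_mul]
      have h7 : f w * l w = f w * l z := by linarith
      exact mul_left_cancel₀ hw.2.ne h7
    have hall : ∀ v ∈ V, l v = l z := fun v hv => by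
      rcases (hmem v).1 hv with rfl | rfl | rfl | rfl | rfl <;> first | assumption | rfl
    exact hl (hS l fun x hx y hy => (hall x hx).trans (hall y hy).symm)
  have hη : 0 < -f w := by linarith [hw.2]
  exact ⟨a, b, c, z, w, f a, f b, f c, -f z, -f w, |det3 (a - z) (b - z) (c - z)| / (-f w),
    ⟨hmem, hab, Ne.symm ca, Ne.symm cb, az, bz, cz, aw, bw, cw, hzw, hrel, by linarith, ha.2.le,
      hb.2.le, hγ, by linarith [hz.2], hη, div_pos (abs_pos.2 hD) hη,
      (mul_div_cancel₀ _ hη.ne').symm⟩, ha.2, hb.2⟩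

/-- five vertices form a bipyramid or a pyramid -/
theorem exists_five (hV : CP V) (hS : Sp V) (h5 : V.card = 5) :
    ∃ (a b c z w : E) (α β γ ζ η U : ℝ), Five V a b c z w α β γ ζ η U ∧ 0 < α ∧ 0 < β := by
  classical
  obtain ⟨f, h1, h2, h3⟩ :=
    Module.exists_nontrivial_relation_sum_zero_of_finrank_succ_lt_card (R := ℝ)
      (t := V) (by rw [Module.finrank_fin_fun]; omega)
  have k1 := two_le_pos hV f h1 h2 h3
  have k2 := two_le_pos hV (fun v => -f v)
    (by simp only [neg_smul, sum_neg_distrib, h1, neg_zero])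
    (by simp only [sum_neg_distrib, h2, neg_zero])
    (by obtain ⟨x, hx, e⟩ := h3; exact ⟨x, hx, neg_ne_zero.2 e⟩)
  simp only [neg_pos] at k2
  have k3 : (V.filter (fun v => 0 < f v)).card + (V.filter (fun v => f v < 0)).card ≤ 5 := by
    rw [← card_union_of_disjoint (disjoint_filter.2 fun x _ h => not_lt.2 h.le), ← h5]
    exact card_le_card (union_subset (filter_subset _ _) (filter_subset _ _))
  by_cases e : (V.filter (fun v => f v < 0)).card = 2
  · exact exists_five_aux hS h5 f h1 h2 e k1
  · refine exists_five_aux hS h5 (fun v => -f v)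
      (by simp only [neg_smul, sum_neg_distrib, h1, neg_zero])
      (by simp only [sum_neg_distrib, h2, neg_zero]) ?_ ?_
    · simp only [neg_lt_zero]; omega
    · simpa only [neg_pos] using k2

/-- Two steps keep at least `15/32` of the volume of a polyhedron with five vertices. -/
theorem two_steps5 (hV : CP V) (hS : Sp V) (h5 : V.card = 5) :
    15 / 32 * volume.real (cv V) ≤ volume.real (cv (nxt (nxt V))) := by
  classical
  obtain ⟨a, b, c, z, w, α, β, γ, ζ, η, U, h, hα, hβ⟩ := exists_five hV hS h5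
  have h1 := step_caps (CP.nxt V) (two_le_nxt hV hS)
  have h2 : 5 / 8 * volume.real (cv V) ≤ volume.real (cv (nxt V)) :=
    step_five_eighths hV (by omega)
  have h3 := h.vol_ge
  have h4 : 8 * ∑ σ ∈ nxt V, cap (nxt V) σ ≤ 10 * ((ζ + η) * U * c0) := by
    rcases h.hγ.lt_or_eq with e | e
    · exact h.caps_bi hα hβ e
    · subst e; exact h.caps_pyr hα hβ
  linarith

end Pool.Agent.Lib.MP_7fdcdd_gt.Asm
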