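import Pool.Agent.Lib.MP_7fdcdd_gt.Asm6
import Pool.Agent.Lib.MP_7fdcdd_gt.Sym3

/-! Reduction of the conjecture to depth inequalities, with the improved constants. -/

namespace Pool.Agent.Lib.MP_7fdcdd_gt.Asm

open MeasureTheory Finset H77

variable {V : Finset E}

/-- The conjecture follows from a lower bound for polyhedra with at least five vertices. -/
theorem final2 (H : ∀ V : Finset E, CP V → Sp V → 4 < V.card →
      23312 / 100000 * volume.real (cv V) ≤ volume.real (ker V))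
    (S : Finset E) (hS : affineSpan ℝ (S : Set E) = ⊤) (T : Fin 4 → E)
    (hT : AffineIndependent ℝ T) :
    rho (convexHull ℝ (Set.range T)) ≤ rho (convexHull ℝ (S : Set E)) := by
  obtain ⟨V, hV, he⟩ := exists_CP S
  have hSp := Sp_of_span hS he
  have e : convexHull ℝ (S : Set E) = cv V := he.symm
  rw [e]
  by_cases h4 : V.card ≤ 4
  · rw [rho_four hSp h4, rho_tet_eq T hT]
  · refine (Cub.rho_tet_le T hT).trans ?_
    rw [rho_cv hV]
    exact (le_div_iff₀ (vol_pos hSp)).2 (H V hV hSp (by omega))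

/-- the two depth inequalities at the third level, for some centre -/
def Depth (V : Finset E) (a1 a2 : ℝ) : Prop := ∃ o : E,
  (∀ u : L, ∀ v ∈ nxt (nxt V), ∃ c ∈ ker V, u o + a1 * (u v - u o) ≤ u c) ∧
    ∀ u : L, ∀ v ∈ nxt (nxt V), ∀ w ∈ nxt (nxt V), v ≠ w →
      ∃ c ∈ ker V, u o + a2 * (min (u v) (u w) - u o) ≤ u c

lemma Depth.vol (hV : CP V) (hS : Sp V) {a1 a2 : ℝ} (h0 : 0 ≤ a1) (h12 : a1 ≤ a2) (h1 : a2 < 1)
    (h : Depth V a1 a2) :
    a1 * a2 * volume.real (cv (nxt (nxt V))) ≤ volume.real (ker V) := by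
  obtain ⟨o, H1, H2⟩ := h
  have e : ker (nxt (nxt V)) = ker V := by rw [ker_nxt, ker_nxt]
  have h2 := vol_ker_ge (CP.nxt (nxt V)) ((hS.nxt hV).nxt (CP.nxt V)) o h0 h12 h1
    (by rw [e]; exact H1) (by rw [e]; exact H2)
  rwa [e] at h2

/-- Reduction with separate constants for five vertices and for more. -/
theorem assembly2 {a1 a2 b1 b2 : ℝ} (h0 : 0 ≤ a1) (h12 : a1 ≤ a2) (h1 : a2 < 1)
    (hp : 23312 / 100000 ≤ 15 / 32 * (a1 * a2)) (k0 : 0 ≤ b1) (k12 : b1 ≤ b2) (k1 : b2 < 1)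
    (kp : 23312 / 100000 ≤ 115 / 256 * (b1 * b2))
    (H5 : ∀ V : Finset E, CP V → Sp V → V.card = 5 → Depth V a1 a2)
    (H6 : ∀ V : Finset E, CP V → Sp V → 5 < V.card → Depth V b1 b2)
    (S : Finset E) (hS : affineSpan ℝ (S : Set E) = ⊤) (T : Fin 4 → E)
    (hT : AffineIndependent ℝ T) :
    rho (convexHull ℝ (Set.range T)) ≤ rho (convexHull ℝ (S : Set E)) := by
  refine final2 (fun V hV hSp h5 => ?_) S hS T hT
  have h4 := (vol_pos hSp).le
  by_cases e : V.card = 5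
  · have h2 := (H5 V hV hSp e).vol hV hSp h0 h12 h1
    have h3 := two_steps5 hV hSp e
    have h5 := mul_nonneg h0 (h0.trans h12)
    nlinarith [mul_le_mul_of_nonneg_left h3 h5, mul_le_mul_of_nonneg_right hp h4]
  · have h2 := (H6 V hV hSp (by omega)).vol hV hSp k0 k12 k1
    have h3 := two_steps6 hV hSp (by omega)
    have h5 := mul_nonneg k0 (k0.trans k12)
    nlinarith [mul_le_mul_of_nonneg_left h3 h5, mul_le_mul_of_nonneg_right kp h4]

/-- `ω` mixes the average height of an `N`-set containing `D` with the centroid bound -/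
def Mix (V : Finset E) (N : ℕ) (e : ℝ) (D : Finset E) (u : L) (ω : ℝ) : Prop :=
  ∃ (U : Finset E) (ω0 : ℝ), D ⊆ U ∧ U ⊆ V ∧ U.card = N ∧ Low V u ω0 ∧
    ω = (1 - e) * ((∑ w ∈ U, u w) / N) + e * ω0

/-- A centre below mixed heights, for any family of directions with chosen vertices. -/
theorem exists_mix {ι : Type} (hV : CP V) (hS : Sp V) (N d : ℕ) (h0 : 0 < N) (hN : N ≤ V.card)
    (hd : 4 * d ≤ N ∨ N = V.card) {e : ℝ} (e0 : 0 ≤ e) (e1 : e ≤ 1) (dir : ι → L)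
    (D : ι → Finset E) (hD : ∀ i, D i ⊆ V) (hc : ∀ i, (D i).card ≤ d) :
    ∃ o : E, ∀ i, ∃ ω, Mix V N e (D i) (dir i) ω ∧ dir i o ≤ ω := by
  classical
  have hU : ∀ I : Finset ι, I.card ≤ 4 →
      ∃ U : Finset E, (∀ i ∈ I, D i ⊆ U) ∧ U ⊆ V ∧ U.card = N := by
    intro I hI
    rcases hd with hd | hd
    · have h1 : (I.biUnion D).card ≤ N :=
        (card_biUnion_le_card_mul I D d (fun i _ => hc i)).trans
          ((Nat.mul_le_mul_right d hI).trans hd)
      obtain ⟨U, h2, h3, h4⟩ := exists_subsuperset_card_eq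
        (biUnion_subset.2 fun i _ => hD i) h1 hN
      exact ⟨U, fun i hi => (subset_biUnion_of_mem D hi).trans h2, h3, h4⟩
    · exact ⟨V, fun i _ => hD i, subset_rfl, hd.symm⟩
  have hb : ∀ i, ∃ U : Finset E, (D i ⊆ U ∧ U ⊆ V ∧ U.card = N) ∧
      ∀ W : Finset E, D i ⊆ W → W ⊆ V → W.card = N → ∑ w ∈ W, dir i w ≤ ∑ w ∈ U, dir i w := by
    intro i
    obtain ⟨U0, h1, h2, h3⟩ := hU {i} (by simp)
    obtain ⟨U, h4, h5⟩ := exists_max_image (V.powerset.filter (fun W => D i ⊆ W ∧ W.card = N))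
      (fun W => ∑ w ∈ W, dir i w) ⟨U0, by simp [h1, h2, h3]⟩
    simp only [mem_filter, mem_powerset] at h4 h5
    exact ⟨U, ⟨h4.2.1, h4.1, h4.2.2⟩, fun W k1 k2 k3 => h5 W ⟨k2, k1, k3⟩⟩
  choose B hB hB' using hb
  choose ω hω hω' using exists_low_cen hV hS
  have hcen : cen V ∈ cv V := cv_nxt_subset V (cen_mem hV hS)
  have hN' : (0 : ℝ) < N := by exact_mod_cast h0
  by_cases hι : Nonempty ι
  swap
  · exact ⟨0, fun i => absurd ⟨i⟩ hι⟩
  have h := Convex.helly_theorem_compact' (𝕜 := ℝ) (F := fun i : ι => cv V ∩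
      {o | dir i o ≤ (1 - e) * ((∑ w ∈ B i, dir i w) / N) + e * ω (dir i)})
    (fun i => (cv_convex V).inter (convex_halfSpace_le (dir i).isLinear _))
    (fun i => (cv_compact V).inter_right
      (isClosed_le (dir i).continuous_of_finiteDimensional continuous_const))
    (fun I hI => by
      rw [Module.finrank_fin_fun] at hI
      obtain ⟨U, h1, h2, h3⟩ := hU I hI
      have ha : avg U ∈ cv V := by
        rw [avg, smul_sum]
        exact (cv_convex V).sum_mem (fun _ _ => by positivity) (by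
          rw [sum_const, nsmul_eq_mul, h3, mul_inv_cancel₀ hN'.ne'])
          (fun w hw => mem_cv_of_mem (h2 hw))
      refine ⟨(1 - e) • avg U + e • cen V, Set.mem_iInter₂.2 fun i hi =>
        ⟨cv_convex V ha hcen (by linarith) e0 (by ring), ?_⟩⟩
      show dir i _ ≤ _
      rw [map_add, map_smul, map_smul, smul_eq_mul, smul_eq_mul]
      have k1 := map_avg U (by omega) (dir i)
      have k2 := hB' i U (h1 i hi) h2 h3
      have k3 : dir i (avg U) ≤ (∑ w ∈ B i, dir i w) / N := by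
        rw [le_div_iff₀ hN', mul_comm, ← h3, k1]; exact k2
      exact add_le_add (mul_le_mul_of_nonneg_left k3 (by linarith))
        (mul_le_mul_of_nonneg_left (hω' _) e0))
  obtain ⟨o, ho⟩ := h
  rw [Set.mem_iInter] at ho
  exact ⟨o, fun i => ⟨_, ⟨B i, _, (hB i).1, (hB i).2.1, (hB i).2.2, hω _, rfl⟩, (ho i).2⟩⟩

/-- The depth inequalities follow from their versions for mixed heights. -/
theorem depth_of_mix (hV : CP V) (hS : Sp V) (N d : ℕ) (h0 : 0 < N) (hN : N ≤ V.card)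
    (hd : 4 * d ≤ N ∨ N = V.card) {e : ℝ} (e0 : 0 ≤ e) (e1 : e ≤ 1) {a1 a2 : ℝ} (g1 : a1 ≤ 1)
    (g2 : a2 ≤ 1)
    (HI : ∀ u : L, ∃ D ⊆ V, D.card ≤ d ∧ ∀ ω, Mix V N e D u ω →
      ∀ v ∈ nxt (nxt V), ∃ c ∈ ker V, ω + a1 * (u v - ω) ≤ u c)
    (HII : ∀ u : L, ∃ D ⊆ V, D.card ≤ d ∧ ∀ ω, Mix V N e D u ω →
      ∀ v ∈ nxt (nxt V), ∀ w ∈ nxt (nxt V), v ≠ w →
        ∃ c ∈ ker V, ω + a2 * (min (u v) (u w) - ω) ≤ u c) : Depth V a1 a2 := by
  choose D1 hD1 hc1 H1 using HI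
  choose D2 hD2 hc2 H2 using HII
  obtain ⟨o, ho⟩ := exists_mix (ι := L ⊕ L) hV hS N d h0 hN hd e0 e1 (Sum.elim id id)
    (Sum.elim D1 D2) (by rintro (u | u); exacts [hD1 u, hD2 u])
    (by rintro (u | u); exacts [hc1 u, hc2 u])
  refine ⟨o, fun u v hv => ?_, fun u v hv w hw hvw => ?_⟩
  · obtain ⟨ω, h2, h3⟩ := ho (Sum.inl u)
    obtain ⟨c, hc, h4⟩ := H1 u ω h2 v hv
    have h5 : u o ≤ ω := h3
    exact ⟨c, hc, by nlinarith⟩
  · obtain ⟨ω, h2, h3⟩ := ho (Sum.inr u)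
    obtain ⟨c, hc, h4⟩ := H2 u ω h2 v hv w hw hvw
    have h5 : u o ≤ ω := h3
    exact ⟨c, hc, by nlinarith⟩

end Pool.Agent.Lib.MP_7fdcdd_gt.Asm
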