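import Mathlib

/-!
Convex polyhedra in three-space, the edge-midpoint operation and the kernel.
-/

namespace Pool.Agent.Lib.MP_7fdcdd_gt

/-- Euclidean three-space. -/
abbrev E3 : Type := EuclideanSpace ℝ (Fin 3)

/-- The convex hull of finitely many points not all in one plane. -/
def IsPolyhedron (P : Set E3) : Prop :=
  ∃ S : Set E3, S.Finite ∧ affineSpan ℝ S = ⊤ ∧ P = convexHull ℝ S

/-- The segment from `x` to `y` is an edge (a one-dimensional face) of `P`. -/
def IsEdge (P : Set E3) (x y : E3) : Prop := x ≠ y ∧ IsExposed ℝ P (segment ℝ x y)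

/-- The convex hull of the midpoints of all edges of `P`. -/
noncomputable def mid (P : Set E3) : Set E3 :=
  convexHull ℝ {z | ∃ x y, IsEdge P x y ∧ z = midpoint ℝ x y}

/-- The kernel: the intersection of all iterates. -/
def kernel (P : Set E3) : Set E3 := ⋂ k : ℕ, mid^[k] P

end Pool.Agent.Lib.MP_7fdcdd_gt
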