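import Pool.Agent.Lib.MP_7fdcdd_gt.Asm5

/-! Exact steps for point sets with the symmetry of the cube. -/

namespace Pool.Agent.Lib.MP_7fdcdd_gt.Cub

open MeasureTheory Finset H77

/-- sorted absolute values -/
def cn (p : H77.Z3) : H77.Z3 :=
  let a := p.1.natAbs
  let b := p.2.1.natAbs
  let c := p.2.2.natAbs
  let M := max a (max b c)
  let m := min a (min b c)
  ((M : ℤ), ((a + b + c - M - m : ℕ) : ℤ), (m : ℤ))

def ad (x y : H77.Z3) : H77.Z3 := (x.1 + y.1, x.2.1 + y.2.1, x.2.2 + y.2.2)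
def sb (x y : H77.Z3) : H77.Z3 := (x.1 - y.1, x.2.1 - y.2.1, x.2.2 - y.2.2)
def cr (a b : H77.Z3) : H77.Z3 :=
  (a.2.1 * b.2.2 - a.2.2 * b.2.1, a.2.2 * b.1 - a.1 * b.2.2, a.1 * b.2.1 - a.2.1 * b.1)
def eqb (x y : H77.Z3) : Bool :=
  decide (x.1 = y.1) && decide (x.2.1 = y.2.1) && decide (x.2.2 = y.2.2)
def memb (x : H77.Z3) (X : List H77.Z3) : Bool := X.any (fun y => eqb x y)

lemma eqb_iff {x y : H77.Z3} : eqb x y = true ↔ x = y := by
  obtain ⟨a, b, c⟩ := x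
  obtain ⟨d, e, f⟩ := y
  simp [eqb, and_assoc]

lemma memb_iff {x : H77.Z3} {X : List H77.Z3} : memb x X = true ↔ x ∈ X := by
  simp [memb, eqb_iff]

lemma cs_ad (x y : H77.Z3) : cs (ad x y) = cs x + cs y := by
  ext i; fin_cases i <;> simp [cs, ad]

lemma cs_sb (x y : H77.Z3) : cs (sb x y) = cs x - cs y := by
  ext i; fin_cases i <;> simp [cs, sb]

/-- a symmetry -/
def Sy (β : H77.Z3 → H77.Z3) : Prop :=
  (∃ B : E ≃ₗ[ℝ] E, ∀ x, cs (β x) = B (cs x)) ∧ (∀ x, cn (β x) = cn x) ∧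
    (∀ x y, dz (β x) (β y) = dz x y) ∧ Function.Surjective β

lemma Sy.id : Sy id :=
  ⟨⟨LinearEquiv.refl _ _, fun _ => rfl⟩, fun _ => rfl, fun _ _ => rfl, Function.surjective_id⟩

lemma Sy.comp {β γ : H77.Z3 → H77.Z3} (h : Sy β) (k : Sy γ) : Sy (β ∘ γ) := by
  obtain ⟨⟨B, h1⟩, h2, h3, h4⟩ := h
  obtain ⟨⟨C, k1⟩, k2, k3, k4⟩ := k
  exact ⟨⟨C.trans B, fun x => by simp [h1, k1]⟩, fun x => by simp [h2, k2],
    fun x y => by simp [h3, k3], h4.comp k4⟩

lemma sy_of (β : H77.Z3 → H77.Z3) (p q r : E) (h1 : ∀ x, cs (β x) = lin3 p q r (cs x))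
    (h0 : ∀ x, lin3 p q r (lin3 p q r x) = x) (h2 : ∀ x, cn (β x) = cn x)
    (h3 : ∀ x y, dz (β x) (β y) = dz x y) (h4 : ∀ x, β (β x) = x) : Sy β :=
  ⟨⟨LinearEquiv.ofInvolutive (lin3 p q r) h0, h1⟩, h2, h3, fun x => ⟨β x, h4 x⟩⟩

def s12 (p : H77.Z3) : H77.Z3 := (p.2.1, p.1, p.2.2)
def s23 (p : H77.Z3) : H77.Z3 := (p.1, p.2.2, p.2.1)
def n1 (p : H77.Z3) : H77.Z3 := (-p.1, p.2.1, p.2.2)

lemma sy12 : Sy s12 := sy_of _ ![0, 1, 0] ![1, 0, 0] ![0, 0, 1]
  (fun x => by ext i; fin_cases i <;> simp [cs, s12, lin3_apply])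
  (fun x => by ext i; fin_cases i <;> simp [lin3_apply])
  (fun x => by simp only [cn, s12, Prod.mk.injEq]; omega)
  (fun x y => by simp only [dz, s12]; ring) (fun _ => rfl)

lemma sy23 : Sy s23 := sy_of _ ![1, 0, 0] ![0, 0, 1] ![0, 1, 0]
  (fun x => by ext i; fin_cases i <;> simp [cs, s23, lin3_apply])
  (fun x => by ext i; fin_cases i <;> simp [lin3_apply])
  (fun x => by simp only [cn, s23, Prod.mk.injEq]; omega)
  (fun x y => by simp only [dz, s23]; ring) (fun _ => rfl)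

lemma syn1 : Sy n1 := sy_of _ ![-1, 0, 0] ![0, 1, 0] ![0, 0, 1]
  (fun x => by ext i; fin_cases i <;> simp [cs, n1, lin3_apply])
  (fun x => by ext i; fin_cases i <;> simp [lin3_apply])
  (fun x => by simp [cn, n1])
  (fun x y => by simp only [dz, n1]; ring) (fun x => by simp [n1])

lemma sy_abs1 (p : H77.Z3) : ∃ β, Sy β ∧ β p = ((p.1.natAbs : ℤ), p.2.1, p.2.2) := by
  rcases le_total 0 p.1 with h | h
  · exact ⟨id, Sy.id, by simp [abs_of_nonneg h]⟩
  · exact ⟨n1, syn1, by simp [n1, abs_of_nonpos h]⟩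

lemma sy_cn (p : H77.Z3) : ∃ β, Sy β ∧ β p = cn p := by
  obtain ⟨x, y, z⟩ := p
  obtain ⟨β1, h1, e1⟩ := sy_abs1 (x, y, z)
  obtain ⟨β2, h2, e2⟩ := sy_abs1 (y, (x.natAbs : ℤ), z)
  obtain ⟨β3, h3, e3⟩ := sy_abs1 (z, (y.natAbs : ℤ), (x.natAbs : ℤ))
  have h4 : Sy (β3 ∘ s12 ∘ s23 ∘ β2 ∘ s12 ∘ β1) :=
    h3.comp (sy12.comp (sy23.comp (h2.comp (sy12.comp h1))))
  have e4 : (β3 ∘ s12 ∘ s23 ∘ β2 ∘ s12 ∘ β1) (x, y, z) =
      ((z.natAbs : ℤ), (y.natAbs : ℤ), (x.natAbs : ℤ)) := by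
    simp only [Function.comp, e1, s12, e2, s23, e3]
  have key : ∀ γ, Sy γ → γ ((z.natAbs : ℤ), (y.natAbs : ℤ), (x.natAbs : ℤ)) = cn (x, y, z) →
      ∃ β, Sy β ∧ β (x, y, z) = cn (x, y, z) := fun γ hγ e =>
    ⟨_, hγ.comp h4, by rw [Function.comp, e4, e]⟩
  rcases le_total x.natAbs y.natAbs with a | a <;> rcases le_total y.natAbs z.natAbs with b | b <;>
    rcases le_total x.natAbs z.natAbs with c | c
  all_goals first
    | exact key _ Sy.id (by simp only [cn, id, Prod.mk.injEq]; omega)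
    | exact key _ sy12 (by simp only [cn, s12, Prod.mk.injEq]; omega)
    | exact key _ sy23 (by simp only [cn, s23, Prod.mk.injEq]; omega)
    | exact key _ (sy12.comp sy23) (by simp only [cn, s12, s23, Function.comp, Prod.mk.injEq]; omega)
    | exact key _ (sy23.comp sy12) (by simp only [cn, s12, s23, Function.comp, Prod.mk.injEq]; omega)
    | exact key _ (sy12.comp (sy23.comp sy12))
        (by simp only [cn, s12, s23, Function.comp, Prod.mk.injEq]; omega)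

lemma rearr_aux {n1 n2 n3 x1 x2 x3 y1 y2 y3 : ℤ} (h1 : n2 ≤ n1) (h2 : n3 ≤ n2) (h3 : 0 ≤ n3)
    (k1 : x1 ≤ y1) (k2 : x1 + x2 ≤ y1 + y2) (k3 : x1 + x2 + x3 ≤ y1 + y2 + y3) :
    n1 * x1 + n2 * x2 + n3 * x3 ≤ n1 * y1 + n2 * y2 + n3 * y3 := by
  nlinarith [mul_le_mul_of_nonneg_left k1 (sub_nonneg.2 h1),
    mul_le_mul_of_nonneg_left k2 (sub_nonneg.2 h2), mul_le_mul_of_nonneg_left k3 h3]

lemma rearr (n p : H77.Z3) : dz n p ≤ dz (cn n) (cn p) := by
  obtain ⟨β, ⟨-, h2, h3, -⟩, e⟩ := sy_cn n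
  rw [← h3, e, ← h2 p]
  generalize β p = q
  simp only [dz]
  apply rearr_aux <;> simp only [cn] <;> omega

lemma fin_cn (R : List H77.Z3) : {p : H77.Z3 | cn p ∈ R}.Finite := by
  have h : ∀ r : H77.Z3, {p : H77.Z3 | cn p = r}.Finite := fun r => by
    refine (Set.finite_Icc ((-r.1, -r.1, -r.1) : H77.Z3) (r.1, r.1, r.1)).subset ?_
    rintro p rfl
    simp only [Set.mem_Icc, Prod.le_def, cn]
    omega
  refine ((List.finite_toSet R).biUnion (fun r _ => h r)).subset fun p hp => ?_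
  exact Set.mem_biUnion hp rfl

open Classical in
/-- the symmetric point set with representatives `R`, at scale `s` -/
noncomputable def VS (s : ℝ) (R : List H77.Z3) : Finset E :=
  (fin_cn R).toFinset.image (fun p => s • cs p)

lemma mem_VS {s : ℝ} {R : List H77.Z3} {x : E} : x ∈ VS s R ↔ ∃ p, cn p ∈ R ∧ s • cs p = x := by
  simp [VS]

lemma adj_sy {s : ℝ} {R : List H77.Z3} {β : H77.Z3 → H77.Z3} (h : Sy β) {a b : H77.Z3} :
    Adj (VS s R) (s • cs (β a)) (s • cs (β b)) ↔ Adj (VS s R) (s • cs a) (s • cs b) := by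
  classical
  obtain ⟨⟨B, h1⟩, h2, -, h4⟩ := h
  have e : ∀ x, s • cs (β x) = af B 0 (s • cs x) := fun x => by simp [af_apply, h1]
  have e2 : (VS s R).image (af B 0) = VS s R := by
    ext x
    simp only [mem_image, mem_VS]
    constructor
    · rintro ⟨_, ⟨p, hp, rfl⟩, rfl⟩
      exact ⟨β p, by rwa [h2], e p⟩
    · rintro ⟨p, hp, rfl⟩
      obtain ⟨q, rfl⟩ := h4 p
      exact ⟨_, ⟨q, by rwa [h2] at hp, rfl⟩, (e q).symm⟩
  have := adj_image (V := VS s R) B 0 (a := s • cs a) (b := s • cs b)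
  rwa [e2, ← e, ← e] at this

lemma Sy.ad {β : H77.Z3 → H77.Z3} (h : Sy β) (a b : H77.Z3) : β (ad a b) = ad (β a) (β b) := by
  obtain ⟨⟨B, h1⟩, -⟩ := h
  apply cs_inj
  rw [h1, cs_ad, cs_ad, h1, h1, map_add]

lemma mid_VS (s : ℝ) (a b : H77.Z3) :
    midpoint ℝ (s • cs a) (s • cs b) = (s / 2) • cs (ad a b) := by
  rw [midpoint_eq_smul_add, cs_ad, invOf_eq_inv]
  module

/-- the plane through `a x y` supports -/
def fac (R : List H77.Z3) (a x y : H77.Z3) : Bool :=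
  let n := cr (sb x a) (sb y a)
  let m := cn n
  let h := dz n a
  R.all fun r => decide (dz m r + h ≤ 0)

def dt (a x y z : H77.Z3) : ℤ := dz (cr (sb x a) (sb y a)) (sb z a)

lemma fac_ok {R : List H77.Z3} {a x y c : H77.Z3} (h : fac R a x y = true) (hc : cn c ∈ R) :
    0 ≤ dt a x y c := by
  simp only [fac, List.all_eq_true, decide_eq_true_eq] at h
  have h1 := h _ hc
  unfold dt
  generalize cr (sb x a) (sb y a) = n at *
  have h2 := rearr (-n.1, -n.2.1, -n.2.2) c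
  have h3 : cn (-n.1, -n.2.1, -n.2.2) = cn n := by simp [cn]
  rw [h3] at h2
  simp only [dz, sb] at *
  linarith

lemma cramer (a x y z c : H77.Z3) : (dt a x y z : ℝ) • (cs c - cs a) =
    (dt a y z c : ℝ) • (cs x - cs a) + (dt a z x c : ℝ) • (cs y - cs a) +
      (dt a x y c : ℝ) • (cs z - cs a) := by
  ext i
  fin_cases i <;> simp [cs, dt, dz, cr, sb] <;> ring

lemma dt_swap (a x y c : H77.Z3) : dt a x y c = -dt a y x c := by
  simp only [dt, dz, cr, sb]; ring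

def fan (R : List H77.Z3) (a x : H77.Z3) : H77.Z3 → List H77.Z3 → Bool
  | y, [] => fac R a y x
  | y, z :: zs => fac R a y z && decide (0 < dt a x y z) && fan R a x z zs

lemma fan_ok {R : List H77.Z3} {a x c : H77.Z3} (hc : cn c ∈ R) :
    ∀ (zs : List H77.Z3) (y z : H77.Z3), fan R a x y (z :: zs) = true → 0 ≤ dt a x y c →
      ∃ y' ∈ y :: z :: zs, ∃ z' ∈ y :: z :: zs, 0 < dt a x y' z' ∧ 0 ≤ dt a y' z' c ∧
        0 ≤ dt a z' x c ∧ 0 ≤ dt a x y' c
  | [], y, z, h, h0 => by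
    simp only [fan, Bool.and_eq_true, decide_eq_true_eq] at h
    exact ⟨y, by simp, z, by simp, h.1.2, fac_ok h.1.1 hc, fac_ok h.2 hc, h0⟩
  | w :: ws, y, z, h, h0 => by
    rw [fan, Bool.and_eq_true, Bool.and_eq_true, decide_eq_true_eq] at h
    by_cases h1 : 0 ≤ dt a z x c
    · exact ⟨y, by simp, z, by simp, h.1.2, fac_ok h.1.1 hc, h1, h0⟩
    · obtain ⟨y', hy, z', hz, k⟩ := fan_ok hc ws z w h.2 (by rw [dt_swap]; omega)
      exact ⟨y', List.mem_cons_of_mem _ hy, z', List.mem_cons_of_mem _ hz, k⟩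

/-- all neighbours of `a` are listed -/
def okN (R R' : List H77.Z3) (a : H77.Z3) : List H77.Z3 → Bool
  | x :: y :: z :: zs => fac R a x y && fan R a x y (z :: zs) &&
      (x :: y :: z :: zs).all fun w => !(eqb w a) && memb (cn w) R && memb (cn (ad a w)) R'
  | _ => false

lemma okN_ok {s : ℝ} (hs : 0 < s) {R R' : List H77.Z3} (hV : CP (VS s R)) {a c : H77.Z3}
    {N : List H77.Z3} (h : okN R R' a N = true) (hc : cn c ∈ R)
    (hac : Adj (VS s R) (s • cs a) (s • cs c)) : cn (ad a c) ∈ R' := by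
  match N, h with
  | x :: y :: z :: zs, h =>
    rw [okN, Bool.and_eq_true, Bool.and_eq_true, List.all_eq_true] at h
    obtain ⟨⟨h1, h2⟩, h3⟩ := h
    simp only [Bool.and_eq_true, Bool.not_eq_true', memb_iff] at h3
    by_cases hm : c ∈ x :: y :: z :: zs
    · exact (h3 c hm).2
    exfalso
    obtain ⟨y', hy, z', hz, k0, k1, k2, k3⟩ := fan_ok hc zs y z h2 (fac_ok h1 hc)
    obtain ⟨l, e, hl⟩ := hac.strong hV
    have inj : ∀ p q : H77.Z3, s • cs p = s • cs q → p = q := fun p q h =>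
      cs_inj (smul_right_injective _ hs.ne' h)
    have neg : ∀ w ∈ x :: y :: z :: zs, l (cs w - cs a) < 0 := fun w hw => by
      have := hl (s • cs w) (mem_VS.2 ⟨w, (h3 w hw).1.2, rfl⟩) (fun h => by
        have h4 := (h3 w hw).1.1
        rw [eqb_iff.2 (inj _ _ h)] at h4
        exact absurd h4 (by simp)) (fun h => hm (inj _ _ h ▸ hw))
      simp only [map_smul, smul_eq_mul] at this
      rw [map_sub]
      linarith [lt_of_mul_lt_mul_left this hs.le]
    have e0 : l (cs c - cs a) = 0 := by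
      simp only [map_smul, smul_eq_mul] at e
      rw [map_sub, mul_left_cancel₀ hs.ne' e, sub_self]
    have cr0 := cramer a x y' z' c
    have cr1 := congrArg l cr0
    rw [map_add, map_add, map_smul, map_smul, map_smul, map_smul, e0] at cr1
    simp only [smul_eq_mul] at cr1
    have n1 := neg x (by simp)
    have n2 := neg y' (List.mem_cons_of_mem _ hy)
    have n3 := neg z' (List.mem_cons_of_mem _ hz)
    have g0 : (0 : ℝ) < dt a x y' z' := by exact_mod_cast k0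
    have g1 : (0 : ℝ) ≤ dt a y' z' c := by exact_mod_cast k1
    have g2 : (0 : ℝ) ≤ dt a z' x c := by exact_mod_cast k2
    have g3 : (0 : ℝ) ≤ dt a x y' c := by exact_mod_cast k3
    have m1 := mul_nonpos_of_nonneg_of_nonpos g1 n1.le
    have m2 := mul_nonpos_of_nonneg_of_nonpos g2 n2.le
    have m3 := mul_nonpos_of_nonneg_of_nonpos g3 n3.le
    have z1 : (dt a y' z' c : ℝ) = 0 := (mul_eq_zero.1 (by linarith)).resolve_right n1.ne
    have z2 : (dt a z' x c : ℝ) = 0 := (mul_eq_zero.1 (by linarith)).resolve_right n2.ne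
    have z3 : (dt a x y' c : ℝ) = 0 := (mul_eq_zero.1 (by linarith)).resolve_right n3.ne
    rw [z1, z2, z3, zero_smul, zero_smul, zero_smul, add_zero, add_zero, smul_eq_zero] at cr0
    have := cr0.resolve_left g0.ne'
    exact hac.2.2.1 (by rw [sub_eq_zero.1 this])

lemma adj_ok {s : ℝ} (hs : 0 < s) {R : List H77.Z3} (hV : CP (VS s R)) {a u v t : H77.Z3}
    (ha : cn a ∈ R) (hv : cn v ∈ R) (h1 : fac R a u v = true) (h2 : fac R a v t = true)
    (h3 : dt a u v t ≠ 0) : Adj (VS s R) (s • cs a) (s • cs v) := by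
  have hav : s • cs a ≠ s • cs v := fun h => h3 (by
    rw [← cs_inj (smul_right_injective _ hs.ne' h)]; simp [dt, dz, cr, sb])
  let n := ad (cr (sb u a) (sb v a)) (cr (sb v a) (sb t a))
  have hn : ∀ c, dz n c = dz n a + dt a u v c + dt a v t c := fun c => by
    simp only [n, dz, dt, ad, cr, sb]; ring
  have hnv : dz n v = dz n a := by
    rw [hn]; simp only [dz, dt, cr, sb]; ring
  refine ⟨mem_VS.2 ⟨a, ha, rfl⟩, mem_VS.2 ⟨v, hv, rfl⟩, hav, -dl n, fun x hx e1 e2 => ?_⟩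
  obtain ⟨c, hc, rfl⟩ := mem_VS.1 hx
  have k1 := fac_ok h1 hc
  have k2 := fac_ok h2 hc
  have k3 : dz n a < dz n c := by
    by_contra hcon
    have z1 : dt a u v c = 0 := by have := hn c; omega
    have z2 : dt a v t c = 0 := by have := hn c; omega
    have cr0 := cramer a u v t c
    rw [z1, z2] at cr0
    have := three_indep hV hx (mem_VS.2 ⟨a, ha, rfl⟩) (mem_VS.2 ⟨v, hv, rfl⟩) e1 e2 hav
      (x := dt a u v t) (y := dt a t u c - dt a u v t) (z := -dt a t u c) (by ring) (by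
        push_cast at cr0
        linear_combination (norm := module) s • cr0)
    exact h3 (by exact_mod_cast this.1)
  simp only [LinearMap.neg_apply, map_smul, smul_eq_mul, dl_cs, hnv]
  have : (dz n a : ℝ) < dz n c := by exact_mod_cast k3
  constructor <;> nlinarith

/-- representatives of the midpoints certified by consecutive triples -/
def mids (R : List H77.Z3) (a : H77.Z3) : List H77.Z3 → List H77.Z3
  | u :: v :: t :: ts =>
    if memb (cn v) R && fac R a u v && fac R a v t && !(decide (dt a u v t = 0)) then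
      cn (ad a v) :: mids R a (v :: t :: ts) else []
  | _ => []

lemma mids_ok {s : ℝ} (hs : 0 < s) {R : List H77.Z3} (hV : CP (VS s R)) {a : H77.Z3}
    (ha : cn a ∈ R) : ∀ (N : List H77.Z3), ∀ p ∈ mids R a N,
      ∃ v, Adj (VS s R) (s • cs a) (s • cs v) ∧ cn (ad a v) = p
  | [], p, h => by simp [mids] at h
  | [_], p, h => by simp [mids] at h
  | [_, _], p, h => by simp [mids] at h
  | u :: v :: t :: ts, p, h => by
    rw [mids] at h
    split_ifs at h with h1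
    · simp only [Bool.and_eq_true, memb_iff, Bool.not_eq_true', decide_eq_false_iff_not] at h1
      rcases List.mem_cons.1 h with rfl | h
      · exact ⟨v, adj_ok hs hV ha h1.1.1.1 h1.1.1.2 h1.1.2 h1.2, rfl⟩
      · exact mids_ok hs hV ha _ p h
    · simp at h

def okStep (C : List (H77.Z3 × List H77.Z3)) (R' : List H77.Z3) : Bool :=
  let R := C.map Prod.fst
  (C.all fun e => eqb (cn e.1) e.1 && okN R R' e.1 e.2) &&
    (let M := C.flatMap fun e => mids R e.1 (e.2 ++ e.2.take 2)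
     R'.all fun p => memb p M)

theorem step_ok {s : ℝ} (hs : 0 < s) {C : List (H77.Z3 × List H77.Z3)} {R' : List H77.Z3}
    (hV : CP (VS s (C.map Prod.fst))) (h : okStep C R' = true) :
    nxt (VS s (C.map Prod.fst)) = VS (s / 2) R' := by
  simp only [okStep, Bool.and_eq_true, List.all_eq_true, memb_iff, eqb_iff, List.mem_flatMap] at h
  obtain ⟨h1, h2⟩ := h
  ext m
  rw [mem_nxt, mem_VS]
  constructor
  · rintro ⟨x, y, hxy, rfl⟩
    obtain ⟨a, ha, rfl⟩ := mem_VS.1 hxy.1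
    obtain ⟨b, hb, rfl⟩ := mem_VS.1 hxy.2.1
    obtain ⟨β, hβ, e⟩ := sy_cn a
    obtain ⟨en, hen, e1⟩ := List.mem_map.1 ha
    refine ⟨ad a b, ?_, (mid_VS s a b).symm⟩
    rw [← hβ.2.1, hβ.ad, e, ← e1]
    refine okN_ok hs hV (h1 en hen).2 (by rwa [hβ.2.1]) ?_
    rw [e1, ← e]
    exact (adj_sy hβ).2 hxy
  · rintro ⟨p, hp, rfl⟩
    obtain ⟨en, hen, hm⟩ := h2 _ hp
    obtain ⟨v, hv, e⟩ := mids_ok hs hV (by
      rw [(h1 en hen).1]; exact List.mem_map_of_mem hen) _ _ hm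
    obtain ⟨β, hβ, e1⟩ := sy_cn p
    obtain ⟨γ, hγ, e2⟩ := sy_cn (ad en.1 v)
    obtain ⟨a, ea⟩ := hβ.2.2.2 (γ en.1)
    obtain ⟨b, eb⟩ := hβ.2.2.2 (γ v)
    refine ⟨s • cs a, s • cs b, ?_, ?_⟩
    · rw [← adj_sy hβ, ea, eb, adj_sy hγ]; exact hv
    · rw [mid_VS]
      obtain ⟨B, hB⟩ := hβ.1
      have : β (ad a b) = β p := by rw [hβ.ad, ea, eb, ← hγ.ad, e2, e, e1]
      have h3 := congrArg cs this
      rw [hB, hB] at h3
      rw [B.injective h3]

end Pool.Agent.Lib.MP_7fdcdd_gt.Cub
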