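import Pool.Agent.Lib.MP_7fdcdd_gt.Sym1

/-! Upper bounds for the volume of symmetric hulls. -/

namespace Pool.Agent.Lib.MP_7fdcdd_gt.Cub

open MeasureTheory Finset H77 Asm

inductive Tr : Type
  | leaf (i : ℕ)
  | rot (t : Tr)
  | cut (a c d : ℕ) (l r : Tr)

def comb (a c d : ℕ) (r1 r2 : H77.Z3) : H77.Z3 :=
  ((a * r1.1 + c * r2.1) / d, (a * r1.2.1 + c * r2.2.1) / d, (a * r1.2.2 + c * r2.2.2) / d)

def f0 : H77.Z3 × ℤ := ((0, 0, 0), 0)

def chk (F : List (H77.Z3 × ℤ)) : Tr → H77.Z3 → H77.Z3 → H77.Z3 → Bool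
  | .leaf i, r1, r2, r3 =>
    let f := F.getD i f0
    decide (i < F.length) && decide (0 < f.2) && decide (0 < dz f.1 r1) &&
      decide (0 < dz f.1 r2) && decide (0 < dz f.1 r3)
  | .rot t, r1, r2, r3 => chk F t r2 r3 r1
  | .cut a c d l r, r1, r2, r3 =>
    let m := comb a c d r1 r2
    decide (0 < a) && decide (0 < c) && decide (0 < d) &&
      decide (d * m.1 = a * r1.1 + c * r2.1) && decide (d * m.2.1 = a * r1.2.1 + c * r2.2.1) &&
      decide (d * m.2.2 = a * r1.2.2 + c * r2.2.2) && chk F l m r2 r3 && chk F r r1 m r3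

def val (F : List (H77.Z3 × ℤ)) (M : ℤ) : Tr → H77.Z3 → H77.Z3 → H77.Z3 → ℤ
  | .leaf i, r1, r2, r3 =>
    let f := F.getD i f0
    (|dz (cr r1 r2) r3| * (f.2 * f.2 * f.2) * M) / (dz f.1 r1 * dz f.1 r2 * dz f.1 r3) + 1
  | .rot t, r1, r2, r3 => val F M t r2 r3 r1
  | .cut a c d l r, r1, r2, r3 =>
    let m := comb a c d r1 r2
    val F M l m r2 r3 + val F M r r1 m r3

def cone (r1 r2 r3 : H77.Z3) : Set E := {x | C3 (cs r1) (cs r2) (cs r3) x}

lemma det3_cs (a b c : ℝ) (r1 r2 r3 : H77.Z3) :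
    det3 (a • cs r1) (b • cs r2) (c • cs r3) = a * b * c * dz (cr r1 r2) r3 := by
  simp [det3, cs, dz, cr]
  ring

lemma cone_bound {F : List (H77.Z3 × ℤ)} {M : ℤ} (hM : 0 < M) {K : Set E} (hK : volume K ≠ ⊤)
    {s : ℝ} (hs : 0 < s) (hF : ∀ f ∈ F, ∀ x ∈ K, dl f.1 x ≤ s * f.2) :
    ∀ (t : Tr) (r1 r2 r3 : H77.Z3), chk F t r1 r2 r3 = true →
      volume.real (K ∩ cone r1 r2 r3) ≤ s ^ 3 / M * val F M t r1 r2 r3 * c0
  | .leaf i, r1, r2, r3, h => by
    simp only [chk, Bool.and_eq_true, decide_eq_true_eq] at h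
    obtain ⟨⟨⟨⟨h1, h2⟩, h3⟩, h4⟩, h5⟩ := h
    have hf : F.getD i f0 ∈ F := by
      rw [List.getD_eq_getElem _ _ h1]; exact List.getElem_mem _
    simp only [val]
    generalize F.getD i f0 = f at *
    have g2 : (0 : ℝ) < f.2 := by exact_mod_cast h2
    have g3 : (0 : ℝ) < dz f.1 r1 := by exact_mod_cast h3
    have g4 : (0 : ℝ) < dz f.1 r2 := by exact_mod_cast h4
    have g5 : (0 : ℝ) < dz f.1 r3 := by exact_mod_cast h5
    have hsub : K ∩ cone r1 r2 r3 ⊆ Vol.tet 0 ![(s * f.2 / dz f.1 r1) • cs r1,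
        (s * f.2 / dz f.1 r2) • cs r2, (s * f.2 / dz f.1 r3) • cs r3] := by
      rintro x ⟨hx, t1, t2, t3, p1, p2, p3, rfl⟩
      have := hF f hf _ hx
      simp only [map_add, map_smul, dl_cs, smul_eq_mul] at this
      refine ⟨![t1 * dz f.1 r1 / (s * f.2), t2 * dz f.1 r2 / (s * f.2),
        t3 * dz f.1 r3 / (s * f.2)], ?_, ?_, ?_⟩
      · intro i
        fin_cases i <;> simp only [Fin.reduceFinMk, Matrix.cons_val] <;> positivity
      · simp only [Fin.sum_univ_three, Matrix.cons_val_zero, Matrix.cons_val_one, Matrix.cons_val]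
        rw [← add_div, ← add_div, div_le_one (by positivity)]
        linarith
      · simp only [Fin.sum_univ_three, Matrix.cons_val_zero, Matrix.cons_val_one, Matrix.cons_val]
        match_scalars <;> field_simp
    refine (measureReal_mono hsub (Vol.isCompact_tet _ _).measure_lt_top.ne).trans ?_
    rw [volT, det3_cs, abs_mul, abs_of_pos (by positivity)]
    apply mul_le_mul_of_nonneg_right _ c0_nonneg
    have hP : 0 < dz f.1 r1 * dz f.1 r2 * dz f.1 r3 := by positivity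
    have h6 := Int.lt_ediv_add_one_mul_self (|dz (cr r1 r2) r3| * (f.2 * f.2 * f.2) * M) hP
    generalize (|dz (cr r1 r2) r3| * (f.2 * f.2 * f.2) * M) /
      (dz f.1 r1 * dz f.1 r2 * dz f.1 r3) + 1 = v at *
    have h7 : (|(dz (cr r1 r2) r3 : ℝ)| * (f.2 * f.2 * f.2) * M) <
        v * (dz f.1 r1 * dz f.1 r2 * dz f.1 r3) := by exact_mod_cast h6
    have gM : (0 : ℝ) < M := by exact_mod_cast hM
    have e : s * f.2 / dz f.1 r1 * (s * f.2 / dz f.1 r2) * (s * f.2 / dz f.1 r3) *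
        |(dz (cr r1 r2) r3 : ℝ)| = s ^ 3 / M * ((|(dz (cr r1 r2) r3 : ℝ)| * (f.2 * f.2 * f.2) * M) /
          (dz f.1 r1 * dz f.1 r2 * dz f.1 r3)) := by field_simp
    rw [e]
    apply mul_le_mul_of_nonneg_left _ (by positivity)
    rw [div_le_iff₀ (by positivity)]
    exact h7.le
  | .rot t, r1, r2, r3, h => by
    have : cone r1 r2 r3 = cone r2 r3 r1 := by
      ext x
      constructor
      · rintro ⟨t1, t2, t3, p1, p2, p3, rfl⟩
        exact ⟨t2, t3, t1, p2, p3, p1, by abel⟩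
      · rintro ⟨t1, t2, t3, p1, p2, p3, rfl⟩
        exact ⟨t3, t1, t2, p3, p1, p2, by abel⟩
    rw [this]
    exact cone_bound hM hK hs hF t r2 r3 r1 h
  | .cut a e d l r, r1, r2, r3, h => by
    simp only [chk, Bool.and_eq_true, decide_eq_true_eq] at h
    obtain ⟨⟨⟨⟨⟨⟨⟨h1, h2⟩, h3⟩, h4⟩, h5⟩, h6⟩, h7⟩, h8⟩ := h
    have i1 := cone_bound hM hK hs hF l _ _ _ h7
    have i2 := cone_bound hM hK hs hF r _ _ _ h8
    simp only [val]
    generalize comb a e d r1 r2 = m at *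
    have g1 : (0 : ℝ) < a := by exact_mod_cast h1
    have g2 : (0 : ℝ) < e := by exact_mod_cast h2
    have g3 : (0 : ℝ) < d := by exact_mod_cast h3
    have hm : cs m = ((a : ℝ) / d) • cs r1 + ((e : ℝ) / d) • cs r2 := by
      have e4 : (m.1 : ℝ) = (a * r1.1 + e * r2.1) / d := by
        rw [eq_div_iff g3.ne', mul_comm]; exact_mod_cast h4
      have e5 : (m.2.1 : ℝ) = (a * r1.2.1 + e * r2.2.1) / d := by
        rw [eq_div_iff g3.ne', mul_comm]; exact_mod_cast h5
      have e6 : (m.2.2 : ℝ) = (a * r1.2.2 + e * r2.2.2) / d := by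
        rw [eq_div_iff g3.ne', mul_comm]; exact_mod_cast h6
      ext i
      fin_cases i <;> simp [cs, e4, e5, e6] <;> ring
    have hsub : K ∩ cone r1 r2 r3 ⊆ (K ∩ cone m r2 r3) ∪ (K ∩ cone r1 m r3) := by
      rintro x ⟨hx, t1, t2, t3, p1, p2, p3, rfl⟩
      by_cases hc : t1 * e ≤ t2 * a
      · left
        refine ⟨hx, t1 * d / a, t2 - t1 * e / a, t3, by positivity, ?_, p3, ?_⟩
        · rw [sub_nonneg, div_le_iff₀ g1]; exact hc
        · rw [hm]; match_scalars <;> (field_simp; try ring)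
      · right
        refine ⟨hx, t1 - t2 * a / e, t2 * d / e, t3, ?_, by positivity, p3, ?_⟩
        · rw [sub_nonneg, div_le_iff₀ g2]; linarith
        · rw [hm]; match_scalars <;> (field_simp; try ring)
    have := measureReal_mono hsub (μ := volume) (measure_union_ne_top
      (measure_ne_top_of_subset Set.inter_subset_left hK)
      (measure_ne_top_of_subset Set.inter_subset_left hK))
    have := measureReal_union_le (μ := volume) (K ∩ cone m r2 r3) (K ∩ cone r1 m r3)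
    push_cast
    linarith

def okF (R : List H77.Z3) (f : H77.Z3 × ℤ) : Bool :=
  let m := cn f.1
  R.all fun r => decide (dz m r ≤ f.2)

lemma okF_ok {s : ℝ} (hs : 0 < s) {R : List H77.Z3} {f : H77.Z3 × ℤ} (h : okF R f = true)
    {x : E} (hx : x ∈ cv (VS s R)) : dl f.1 x ≤ s * f.2 := by
  simp only [okF, List.all_eq_true, decide_eq_true_eq] at h
  refine le_of_mem_cv (fun v hv => ?_) hx
  obtain ⟨p, hp, rfl⟩ := mem_VS.1 hv
  rw [map_smul, dl_cs, smul_eq_mul]
  have := (rearr f.1 p).trans (h _ hp)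
  exact mul_le_mul_of_nonneg_left (by exact_mod_cast this) hs.le

lemma sg_mem {s : ℝ} {R : List H77.Z3} (e : Fin 3 → Bool) (π : Equiv.Perm (Fin 3)) {x : E}
    (hx : x ∈ cv (VS s R)) : sg e π x ∈ cv (VS s R) := by
  have : cv (VS s R) ⊆ sg e π ⁻¹' cv (VS s R) := by
    refine convexHull_min (fun v hv => ?_) ((cv_convex _).linear_preimage _)
    obtain ⟨p, hp, rfl⟩ := mem_VS.1 hv
    refine mem_cv_of_mem (mem_VS.2 ?_)
    let q : Fin 3 → ℤ := ![p.1, p.2.1, p.2.2]
    let g : Fin 3 → ℤ := fun i => (if e i then 1 else -1) * q (π i)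
    have hq : ∀ j, cs p j = q j := fun j => by fin_cases j <;> simp [cs, q]
    have ha : ∀ i, (g i).natAbs = (q (π i)).natAbs := fun i => by
      simp only [g]; split_ifs <;> simp
    refine ⟨(g 0, g 1, g 2), ?_, ?_⟩
    · have : cn (g 0, g 1, g 2) = cn p := by
        simp only [cn, ha]
        have h01 : π 0 ≠ π 1 := π.injective.ne (by decide)
        have h02 : π 0 ≠ π 2 := π.injective.ne (by decide)
        have h12 : π 1 ≠ π 2 := π.injective.ne (by decide)
        generalize π 0 = i at *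
        generalize π 1 = j at *
        generalize π 2 = k at *
        fin_cases i <;> fin_cases j <;> fin_cases k <;>
          first
          | exact absurd rfl h01
          | exact absurd rfl h02
          | exact absurd rfl h12
          | (simp only [q, Fin.reduceFinMk, Matrix.cons_val, Prod.mk.injEq] <;> omega)
      rwa [this]
    · ext i
      rw [map_smul, Pi.smul_apply, Pi.smul_apply, sg_apply, hq]
      congr 1
      fin_cases i <;> simp [cs, g]
  exact this hx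

theorem vol_VS {s : ℝ} (hs : 0 < s) {R : List H77.Z3} {F : List (H77.Z3 × ℤ)} {M : ℤ}
    (hM : 0 < M) {t : Tr} (h1 : F.all (okF R) = true)
    (h2 : chk F t (1, 0, 0) (1, 1, 0) (1, 1, 1) = true) :
    volume.real (cv (VS s R)) ≤
      48 * (s ^ 3 / M * val F M t (1, 0, 0) (1, 1, 0) (1, 1, 1) * c0) := by
  have hfin : volume (cv (VS s R)) ≠ ⊤ := (cv_compact _).measure_lt_top.ne
  have h3 := cone_bound hM hfin hs
    (fun f hf x hx => okF_ok hs (List.all_eq_true.1 h1 f hf) hx) t _ _ _ h2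
  set Ch := cv (VS s R) ∩ cone (1, 0, 0) (1, 1, 0) (1, 1, 1) with hCh
  have hc : cv (VS s R) ⊆ ⋃ p ∈ (univ : Finset ((Fin 3 → Bool) × Equiv.Perm (Fin 3))),
      sg p.1 p.2 '' Ch := fun x hx => by
    set σ := Tuple.sort (fun i => -|x i|) with hσ
    have hm := Tuple.monotone_sort (fun i => -|x i|)
    have m1 : -|x (σ 0)| ≤ -|x (σ 1)| := hm (show (0 : Fin 3) ≤ 1 by decide)
    have m2 : -|x (σ 1)| ≤ -|x (σ 2)| := hm (show (1 : Fin 3) ≤ 2 by decide)
    refine Set.mem_biUnion (mem_coe.2 (mem_univ (fun i => decide (0 ≤ x i), σ⁻¹)))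
      ⟨fun j => |x (σ j)|, ⟨?_, |x (σ 0)| - |x (σ 1)|, |x (σ 1)| - |x (σ 2)|, |x (σ 2)|,
        by linarith, by linarith, abs_nonneg _, ?_⟩, ?_⟩
    · convert sg_mem (fun j => decide (0 ≤ x (σ j))) σ hx using 1
      ext j
      rw [sg_apply]
      simp only [decide_eq_true_eq]
      split_ifs with h
      · rw [abs_of_nonneg h, one_mul]
      · rw [abs_of_neg (not_le.1 h)]; ring
    · ext j
      fin_cases j <;> simp [cs]
    · ext i
      rw [sg_apply]
      have hi : σ (σ⁻¹ i) = i := σ.apply_symm_apply i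
      simp only [hi, decide_eq_true_eq]
      split_ifs with h
      · rw [abs_of_nonneg h, one_mul]
      · rw [abs_of_neg (not_le.1 h)]; ring
  have hv : ∀ p : (Fin 3 → Bool) × Equiv.Perm (Fin 3), volume (sg p.1 p.2 '' Ch) = volume Ch :=
    fun p => by rw [Measure.addHaar_image_linearMap, det_sg]; simp
  have hf : volume Ch ≠ ⊤ := measure_ne_top_of_subset Set.inter_subset_left hfin
  have k1 := measureReal_mono (μ := volume) hc
    (measure_biUnion_ne_top (finite_toSet _) (fun p _ => by rw [hv]; exact hf))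
  have k2 := measureReal_biUnion_finset_le (μ := volume)
    (univ : Finset ((Fin 3 → Bool) × Equiv.Perm (Fin 3))) (fun p => sg p.1 p.2 '' Ch)
  simp only [Measure.real, hv, sum_const, card_univ, Fintype.card_prod, Fintype.card_pi,
    Fintype.card_bool, Fintype.card_perm, Fintype.card_fin, prod_const, nsmul_eq_mul] at k1 k2 h3 ⊢
  norm_num [Nat.factorial] at k2
  simp only [mem_univ, Set.iUnion_true] at k1
  linarith

lemma S2_eq : fs S2 = VS 4 [(1, 0, 0)] := by
  ext x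
  rw [mem_fs, mem_VS]
  have e : ∀ p : H77.Z3, (4 : ℝ) • cs p = cs (4 * p.1, 4 * p.2.1, 4 * p.2.2) := fun p => by
    ext i; fin_cases i <;> simp [cs]
  constructor
  · rintro ⟨p, hp, rfl⟩
    refine ⟨(p.1 / 4, p.2.1 / 4, p.2.2 / 4), ?_, ?_⟩
    · revert p; decide
    · rw [e]; congr 1; revert p; decide
  · rintro ⟨⟨a, b, c⟩, hp, rfl⟩
    refine ⟨_, ?_, (e _).symm⟩
    simp only [cn, List.mem_singleton, Prod.mk.injEq] at hp
    have h1 : -1 ≤ a ∧ a ≤ 1 := by omega
    have h2 : -1 ≤ b ∧ b ≤ 1 := by omega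
    have h3 : -1 ≤ c ∧ c ≤ 1 := by omega
    obtain ⟨h4, h5⟩ := h1
    obtain ⟨h6, h7⟩ := h2
    obtain ⟨h8, h9⟩ := h3
    revert hp
    interval_cases a <;> interval_cases b <;> interval_cases c <;> decide

lemma vol_S1 : 1024 * c0 ≤ volume.real (cv (fs S1)) := by
  have h : Vol.tet (cs (4, 4, 4)) ![cs (4, -4, -4) - cs (4, 4, 4), cs (-4, 4, -4) - cs (4, 4, 4),
      cs (-4, -4, 4) - cs (4, 4, 4)] ⊆ cv (fs S1) :=
    Vol.tet_subset (cv_convex _) (mem_cv_of_mem (mem_fs.2 ⟨_, by decide, rfl⟩)) (fun i => by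
      fin_cases i <;> simp only [Fin.reduceFinMk, Matrix.cons_val, add_sub_cancel] <;>
        exact mem_cv_of_mem (mem_fs.2 ⟨_, by decide, rfl⟩))
  have := measureReal_mono (μ := volume) h (cv_compact _).measure_lt_top.ne
  rw [volT] at this
  refine le_trans (le_of_eq ?_) this
  congr 1
  simp [det3, cs]
  norm_num

/-- decoding of a point -/
def dc (n : ℕ) : H77.Z3 :=
  (((n / 16777216 : ℕ) : ℤ) - 2048, ((n / 4096 % 4096 : ℕ) : ℤ) - 2048, ((n % 4096 : ℕ) : ℤ) - 2048)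

def dcC (l : List (List ℕ)) : List (H77.Z3 × List H77.Z3) :=
  l.map fun e => (dc (e.headD 0), e.tail.map dc)

def dcF (l : List (List ℕ)) : List (H77.Z3 × ℤ) :=
  l.map fun e => (((e.getD 0 0 : ℕ), (e.getD 1 0 : ℕ), (e.getD 2 0 : ℕ)), (e.getD 3 0 : ℕ))

end Pool.Agent.Lib.MP_7fdcdd_gt.Cub
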