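import Pool.Agent.Lib.MP_7fdcdd_gt.Width
import Pool.Agent.Shared.BrunnMinkowski

/-!
From chords to volume: the difference body inequality in three-space and the uniform bound.
-/

namespace Pool.Agent.Lib.MP_7fdcdd_gt

open Set MeasureTheory
open scoped Pointwise ENNReal

lemma lint_poly {a b : ℝ} (hab : a ≤ b) {f F : ℝ → ℝ} (hf : Continuous f) (h0 : ∀ s ∈ Icc a b, 0 ≤ f s)
    (hF : ∀ s, HasDerivAt F (f s) s) :
    ∫⁻ s in Icc a b, ENNReal.ofReal (f s) = ENNReal.ofReal (F b - F a) := by
  rw [← ofReal_integral_eq_lintegral_ofReal (hf.continuousOn.integrableOn_compact isCompact_Icc)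
    ((ae_restrict_iff' measurableSet_Icc).2 (Filter.Eventually.of_forall h0)),
    integral_Icc_eq_integral_Ioc, ← intervalIntegral.integral_of_le hab,
    intervalIntegral.integral_eq_sub_of_hasDerivAt (fun s _ => hF s) (hf.intervalIntegrable _ _)]

lemma self_conv {K : Set E3} (hK : IsCompact K) :
    ∫⁻ x, volume {y | y ∈ K ∧ y - x ∈ K} = volume K * volume K := by
  have hW : MeasurableSet {p : E3 × E3 | p.2 ∈ K ∧ p.2 - p.1 ∈ K} :=
    ((hK.isClosed.preimage continuous_snd).inter
      (hK.isClosed.preimage (continuous_snd.sub continuous_fst))).measurableSet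
  have h1 := Measure.prod_apply (μ := (volume : Measure E3)) (ν := (volume : Measure E3)) hW
  have h2 := Measure.prod_apply_symm (μ := (volume : Measure E3)) (ν := (volume : Measure E3)) hW
  have h3 : ∀ y : E3, volume ((fun x => (x, y)) ⁻¹' {p : E3 × E3 | p.2 ∈ K ∧ p.2 - p.1 ∈ K}) =
      K.indicator (fun _ => volume K) y := fun y => by
    by_cases hy : y ∈ K
    · rw [indicator_of_mem hy, ← (Measure.measurePreserving_sub_left volume y).measure_preimage
        hK.measurableSet.nullMeasurableSet]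
      congr 1
      ext x
      simp [hy]
    · rw [indicator_of_notMem hy]
      have : (fun x => (x, y)) ⁻¹' {p : E3 × E3 | p.2 ∈ K ∧ p.2 - p.1 ∈ K} = ∅ := by
        ext x
        simp [hy]
      rw [this, measure_empty]
  simp only [h3] at h2
  rw [lintegral_indicator_const hK.measurableSet] at h2
  rw [← h2, h1]
  rfl

lemma vol_smul (r : ℝ) (hr : 0 ≤ r) (B : Set E3) :
    volume (r • B) = ENNReal.ofReal (r ^ 3) * volume B := by
  rw [Measure.addHaar_smul]
  simp [abs_of_nonneg hr]

/-- The difference body inequality. -/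
lemma diff_body {K B : Set E3} (hK : IsCompact K) (hc : Convex ℝ K) (hB : IsCompact B)
    (h : ∀ b ∈ B, ∃ k ∈ K, k + b ∈ K) :
    volume K * (volume B * ENNReal.ofReal (1 / 20)) ≤ volume K * volume K := by
  set W : Set (E3 × ℝ) := (fun p : E3 × ℝ => (p.2 • p.1, p.2)) '' (B ×ˢ Icc 0 1) with hWd
  have hW : IsCompact W := (hB.prod isCompact_Icc).image (by fun_prop)
  have memW : ∀ x s, (x, s) ∈ W ↔ s ∈ Icc (0 : ℝ) 1 ∧ x ∈ s • B := fun x s => by
    constructor
    · rintro ⟨⟨b, t⟩, ⟨h1, h2⟩, e⟩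
      obtain ⟨rfl, rfl⟩ := Prod.mk.inj e
      exact ⟨h2, smul_mem_smul_set h1⟩
    · rintro ⟨h1, b, hb, rfl⟩
      exact ⟨(b, s), ⟨hb, h1⟩, rfl⟩
  set φ : E3 × ℝ → ℝ≥0∞ := W.indicator fun p => ENNReal.ofReal (3 * (1 - p.2) ^ 2) with hφ
  have hφm : Measurable φ := Measurable.indicator (by fun_prop) hW.measurableSet
  have pt : ∀ x, volume K * ∫⁻ s, φ (x, s) ≤ volume {y | y ∈ K ∧ y - x ∈ K} := fun x => by
    have hT : IsCompact {s | (x, s) ∈ W} :=
      isCompact_Icc.of_isClosed_subset (hW.isClosed.preimage (by fun_prop))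
        fun s hs => ((memW x s).1 hs).1
    rcases eq_empty_or_nonempty {s | (x, s) ∈ W} with he | hne
    · have : ∀ s, φ (x, s) = 0 := fun s => indicator_of_notMem (fun hs => by
        have : s ∈ {s | (x, s) ∈ W} := hs
        rw [he] at this
        exact this) _
      simp [this]
    obtain ⟨g, hg, hg'⟩ := hT.exists_isLeast hne
    obtain ⟨⟨g0, g1⟩, b, hb, rfl⟩ := (memW x g).1 hg
    obtain ⟨k, hk, hk'⟩ := h b hb
    have h1 : ∫⁻ s, φ (g • b, s) ≤ ENNReal.ofReal ((1 - g) ^ 3) := by
      have := lint_poly g1 (f := fun s => 3 * (1 - s) ^ 2) (F := fun s => -(1 - s) ^ 3)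
        (by fun_prop) (fun s _ => by positivity) fun s => by
          have := (((hasDerivAt_id s).const_sub 1).pow 3).neg
          exact this.congr_deriv (by simp)
      rw [show -(1 - (1 : ℝ)) ^ 3 - -(1 - g) ^ 3 = (1 - g) ^ 3 by ring,
        ← lintegral_indicator measurableSet_Icc] at this
      rw [← this]
      refine lintegral_mono fun s => ?_
      by_cases hs : (g • b, s) ∈ W
      · rw [hφ, indicator_of_mem hs, indicator_of_mem (show s ∈ Icc g 1 from
          ⟨hg' hs, ((memW _ s).1 hs).1.2⟩)]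
      · rw [hφ, indicator_of_notMem hs]; exact zero_le
    have h2 : (g • (k + b)) +ᵥ ((1 - g) • K) ⊆ {y | y ∈ K ∧ y - g • b ∈ K} := by
      rintro _ ⟨_, ⟨y, hy, rfl⟩, rfl⟩
      refine ⟨hc hk' hy g0 (by linarith) (by ring), ?_⟩
      have := hc hk hy g0 (show 0 ≤ 1 - g by linarith) (by ring)
      have e : g • (k + b) + (1 - g) • y - g • b = g • k + (1 - g) • y := by module
      show g • (k + b) + (1 - g) • y - g • b ∈ K
      rwa [e]
    calc _ ≤ volume K * ENNReal.ofReal ((1 - g) ^ 3) := by gcongr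
      _ = volume ((g • (k + b)) +ᵥ ((1 - g) • K)) := by
          rw [measure_vadd, vol_smul _ (by linarith), mul_comm]
      _ ≤ _ := measure_mono h2
  have sw : ∫⁻ x, ∫⁻ s, φ (x, s) = volume B * ENNReal.ofReal (1 / 20) := by
    rw [lintegral_lintegral_swap (f := fun x s => φ (x, s)) hφm.aemeasurable]
    have e : ∀ s : ℝ, ∫⁻ x, φ (x, s) = (Icc (0 : ℝ) 1).indicator
        (fun s => volume B * ENNReal.ofReal (3 * (1 - s) ^ 2 * s ^ 3)) s := fun s => by
      by_cases hs : s ∈ Icc (0 : ℝ) 1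
      · have : ∀ x, φ (x, s) = (s • B).indicator
            (fun _ => ENNReal.ofReal (3 * (1 - s) ^ 2)) x := fun x => by
          by_cases hx : x ∈ s • B
          · rw [hφ, indicator_of_mem ((memW x s).2 ⟨hs, hx⟩), indicator_of_mem hx]
          · rw [hφ, indicator_of_notMem fun h' => hx ((memW x s).1 h').2, indicator_of_notMem hx]
        simp only [this]
        rw [lintegral_indicator_const (hB.smul s).measurableSet, indicator_of_mem hs,
          vol_smul s hs.1, ENNReal.ofReal_mul (p := 3 * (1 - s) ^ 2) (by positivity)]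
        ring
      · have : ∀ x, φ (x, s) = 0 := fun x =>
          indicator_of_notMem (fun h' => hs ((memW x s).1 h').1) _
        simp [this, hs]
    simp only [e]
    rw [lintegral_indicator measurableSet_Icc, lintegral_const_mul _ (by fun_prop),
      lint_poly zero_le_one (f := fun s => 3 * (1 - s) ^ 2 * s ^ 3)
        (F := fun s => 3 / 4 * s ^ 4 - 6 / 5 * s ^ 5 + 1 / 2 * s ^ 6) (by fun_prop)
        (fun s hs => by have := hs.1; positivity) fun s => by
          have := ((((hasDerivAt_id s).pow 4).const_mul (3 / 4)).sub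
            (((hasDerivAt_id s).pow 5).const_mul (6 / 5))).add
            (((hasDerivAt_id s).pow 6).const_mul (1 / 2))
          exact this.congr_deriv (by simp; ring)]
    norm_num
  rw [← self_conv hK, ← sw, ← lintegral_const_mul _ hφm.lintegral_prod_right']
  exact lintegral_mono pt

namespace IsPolyhedron

variable {P : Set E3}

lemma vol_pos (h : IsPolyhedron P) : 0 < volume P := by
  refine Measure.measure_pos_of_nonempty_interior _ ?_
  rw [h.convex.interior_nonempty_iff_affineSpan_eq_top, ← h.hull, affineSpan_convexHull, h.span]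

lemma kernel_vol_pos (h : IsPolyhedron P) : 0 < volume (kernel P) := by
  refine Measure.measure_pos_of_nonempty_interior _ ?_
  obtain ⟨t, ht⟩ := h.vert_nonempty
  obtain ⟨k, hk, -⟩ := h.chord ht.1 ht.1
  rw [h.kernel_convex.interior_nonempty_iff_affineSpan_eq_top,
    AffineSubspace.affineSpan_eq_top_iff_vectorSpan_eq_top_of_nonempty _ _ _ ⟨k, hk⟩, eq_top_iff,
    ← h.vspan, vectorSpan_def ℝ (vert P), Submodule.span_le]
  rintro _ ⟨a, ha, b, hb, rfl⟩
  obtain ⟨k, m1, m2⟩ := h.chord ha.1 hb.1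
  have h1 := vsub_mem_vectorSpan ℝ m2 m1
  have e : a -ᵥ b = (5 : ℝ) • (k + (1 / 5 : ℝ) • (a - b) -ᵥ k) := by
    simp only [vsub_eq_sub]; module
  show a -ᵥ b ∈ vectorSpan ℝ _
  rw [e]
  exact Submodule.smul_mem _ _ h1

theorem uniform (h : IsPolyhedron P) :
    2 / 625 ≤ volume.real (kernel P) / volume.real P := by
  set D : Set E3 := (fun p : E3 × E3 => (1 / 2 : ℝ) • (p.1 - p.2)) '' (P ×ˢ P) with hD
  have cD : IsCompact D := (h.compact.prod h.compact).image (by fun_prop)
  have h1 : volume.real P ≤ volume.real D := by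
    refine Pool.Agent.Shared.BrunnMinkowski.le_volume_of_le (l := 1 / 2) (by norm_num)
      (by norm_num) h.compact h.compact.neg cD (fun a ha b hb => ⟨(a, -b), ⟨ha, hb⟩, ?_⟩) le_rfl ?_
    · simp only []; module
    · rw [measureReal_def, measureReal_def, Measure.measure_neg]
  have h2 := diff_body h.kernel_compact h.kernel_convex (cD.smul (2 / 5 : ℝ)) (by
    rintro _ ⟨_, ⟨⟨a, b⟩, ⟨ha, hb⟩, rfl⟩, rfl⟩
    obtain ⟨k, m1, m2⟩ := h.chord ha hb
    refine ⟨k, m1, ?_⟩
    have e : (2 / 5 : ℝ) • (1 / 2 : ℝ) • (a - b) = (1 / 5 : ℝ) • (a - b) := by module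
    show k + (2 / 5 : ℝ) • (1 / 2 : ℝ) • (a - b) ∈ kernel P
    rwa [e])
  have kf := h.kernel_compact.measure_lt_top (μ := volume)
  rw [ENNReal.mul_le_mul_iff_right h.kernel_vol_pos.ne' kf.ne, vol_smul _ (by norm_num)] at h2
  have h3 := ENNReal.toReal_mono kf.ne h2
  rw [ENNReal.toReal_mul, ENNReal.toReal_mul, ENNReal.toReal_ofReal (by norm_num),
    ENNReal.toReal_ofReal (by norm_num)] at h3
  have p0 : 0 < volume.real P :=
    ENNReal.toReal_pos h.vol_pos.ne' (h.compact.measure_lt_top (μ := volume)).ne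
  rw [le_div_iff₀ p0]
  simp only [measureReal_def] at h1 ⊢
  linarith

end IsPolyhedron

end Pool.Agent.Lib.MP_7fdcdd_gt
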