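import Pool.Agent.Lib.MP_7fdcdd_gt.Basic

/-!
The kernel has at least one fifth of the width of the polyhedron in every direction.
-/

namespace Pool.Agent.Lib.MP_7fdcdd_gt

open Set

lemma exists_max_nat {α : Type*} (s : Set α) (f : α → ℕ) (N : ℕ) (hN : ∀ a ∈ s, f a ≤ N)
    (hs : s.Nonempty) : ∃ a ∈ s, ∀ b ∈ s, f b ≤ f a := by
  have hf : (f '' s).Finite := (finite_Iic N).subset (by rintro _ ⟨a, ha, rfl⟩; exact hN a ha)
  obtain ⟨_, ⟨a, ha, rfl⟩, hm⟩ := Set.exists_max_image _ id hf (hs.image f)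
  exact ⟨a, ha, fun b hb => hm _ ⟨b, hb, rfl⟩⟩

namespace IsPolyhedron

variable {P : Set E3}

/-- A facet of the hull of the other vertices which is visible from the vertex `t`. -/
lemma exists_facet (h : IsPolyhedron P) {t : E3} (ht : t ∈ vert P) :
    ∃ η : E3 →L[ℝ] ℝ, (∀ x ∈ vert P, x ≠ t → η x ≤ η t - 1) ∧
      ¬ Collinear ℝ {x ∈ vert P | η x = η t - 1} := by
  classical
  obtain ⟨l, hl⟩ := h.expose ht
  have hfin : (vert P \ {t}).Finite := h.fin.subset sdiff_subset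
  have hne : (vert P \ {t}).Nonempty := by
    by_contra hc
    rw [not_nonempty_iff_eq_empty, sdiff_eq_empty] at hc
    exact h.not_col ((collinear_singleton ℝ t).subset hc)
  have feas : ∃ η : E3 →L[ℝ] ℝ, ∀ x ∈ vert P, x ≠ t → η x ≤ η t - 1 := by
    obtain ⟨x₀, hx₀, hm⟩ := hfin.toFinset.exists_max_image l (by simpa using hne)
    simp only [Finite.mem_toFinset, mem_sdiff, mem_singleton_iff] at hx₀ hm
    have h0 : 0 < l t - l x₀ := by linarith [hl x₀ hx₀.1 hx₀.2]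
    refine ⟨(l t - l x₀)⁻¹ • l, fun x hx hxt => ?_⟩
    have h1 := hm x ⟨hx, hxt⟩
    simp only [smul_apply, smul_eq_mul]
    rw [le_sub_iff_add_le, ← sub_nonneg,
      show (l t - l x₀)⁻¹ * l t - ((l t - l x₀)⁻¹ * l x + 1) =
        (l t - l x₀)⁻¹ * (l x₀ - l x) by field_simp; ring]
    exact mul_nonneg (inv_nonneg.2 h0.le) (by linarith)
  obtain ⟨η, hη, hmax⟩ := exists_max_nat
    {η : E3 →L[ℝ] ℝ | ∀ x ∈ vert P, x ≠ t → η x ≤ η t - 1}
    (fun η => {x ∈ vert P | η x = η t - 1}.ncard) (vert P).ncard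
    (fun η _ => ncard_le_ncard (sep_subset _ _) h.fin) feas
  refine ⟨η, hη, fun hc => ?_⟩
  obtain ⟨p₀, d, hd⟩ := (collinear_iff_exists_forall_eq_smul_vadd _).1 hc
  have hlt : Submodule.span ℝ ({t - p₀, d} : Set E3) < ⊤ := by
    refine Submodule.lt_top_of_finrank_lt_finrank ?_
    have h1 := finrank_span_finset_le_card (R := ℝ) ({t - p₀, d} : Finset E3)
    have h2 := Finset.card_le_two (a := t - p₀) (b := d)
    rw [Set.finrank, Finset.coe_pair] at h1
    simp only [finrank_euclideanSpace, Fintype.card_fin]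
    omega
  obtain ⟨f, hf0, hf⟩ := Submodule.exists_le_ker_of_lt_top _ hlt
  have hfA : ∀ x ∈ vert P, η x = η t - 1 → f x = f t := fun x hx hx' => by
    obtain ⟨r, rfl⟩ := hd x ⟨hx, hx'⟩
    have a1 : f (t - p₀) = 0 := hf (Submodule.subset_span (by simp))
    have a2 : f d = 0 := hf (Submodule.subset_span (by simp))
    rw [map_sub] at a1
    rw [vadd_eq_add, map_add, map_smul, a2, smul_zero]
    linarith
  obtain ⟨g, hgA, x₁, hx₁, hg⟩ : ∃ g : E3 →L[ℝ] ℝ, (∀ x ∈ vert P, η x = η t - 1 → g x = g t) ∧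
      ∃ x ∈ vert P, g t < g x := by
    by_contra hcon
    push Not at hcon
    have a1 := hcon (LinearMap.toContinuousLinearMap f) hfA
    have a2 := hcon (-LinearMap.toContinuousLinearMap f) fun x hx hx' => by
      simpa using hfA x hx hx'
    apply hf0
    rw [← LinearMap.ker_eq_top, eq_top_iff, ← h.vspan, vectorSpan_eq_span_vsub_set_right ℝ ht,
      Submodule.span_le]
    rintro _ ⟨x, hx, rfl⟩
    have b1 : f x ≤ f t := a1 x hx
    have b2 : -f x ≤ -f t := a2 x hx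
    simp only [vsub_eq_sub, SetLike.mem_coe, LinearMap.mem_ker, map_sub]
    linarith
  obtain ⟨x₀, hx₀, hm⟩ := Set.exists_min_image {x ∈ vert P | g t < g x}
    (fun x => (η t - 1 - η x) / (g x - g t)) (h.fin.subset (sep_subset _ _)) ⟨x₁, hx₁, hg⟩
  set s := (η t - 1 - η x₀) / (g x₀ - g t) with hs
  have hx₀t : x₀ ≠ t := fun e => by have := hx₀.2; rw [e] at this; exact lt_irrefl _ this
  have hg0 : 0 < g x₀ - g t := by linarith [hx₀.2]
  have hs0 : 0 ≤ s := div_nonneg (by linarith [hη x₀ hx₀.1 hx₀t]) hg0.le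
  have ev : ∀ x, (η + s • g) x = η x + s * g x := fun x => by simp
  have h1 := hmax (η + s • g) fun x hx hxt => by
    rw [ev, ev]
    have := hη x hx hxt
    rcases lt_or_ge (g t) (g x) with c | c
    · have h2 := hm x ⟨hx, c⟩
      rw [le_div_iff₀ (by linarith)] at h2
      linarith
    · nlinarith
  refine absurd h1 (not_le.2 (ncard_lt_ncard ⟨fun x hx => ⟨hx.1, ?_⟩, fun hsub => ?_⟩
    (h.fin.subset (sep_subset _ _))))
  · rw [ev, ev, hgA x hx.1 hx.2, hx.2]; ring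
  · have := hsub (show x₀ ∈ {x ∈ vert P | (η + s • g) x = (η + s • g) t - 1} from
      ⟨hx₀.1, by rw [ev, ev, hs]; field_simp; ring⟩)
    linarith [hgA x₀ this.1 this.2]

/-- The kernel meets the new facet cut at the vertex `t`. -/
lemma corner (h : IsPolyhedron P) {t : E3} (ht : t ∈ vert P) {η : E3 →L[ℝ] ℝ}
    (h1 : ∀ x ∈ vert P, x ≠ t → η x ≤ η t - 1)
    (h2 : ¬ Collinear ℝ {x ∈ vert P | η x = η t - 1}) (u : E3 →L[ℝ] ℝ) {β : ℝ}
    (hβ : ∀ x ∈ vert P, ∀ y ∈ vert P, η x = η t - 1 → η y = η t - 1 → x ≠ y → β ≤ u x + u y) :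
    ∃ k ∈ kernel P, u t / 2 + β / 4 ≤ u k := by
  have top : ∀ z ∈ pm (vert P), η z ≤ η t - 1 / 2 ∧
      (η z = η t - 1 / 2 → ∃ x ∈ vert P, η x = η t - 1 ∧ z = midpoint ℝ t x) := by
    rintro _ ⟨x, hx, y, hy, hne, rfl⟩
    rw [map_mid]
    by_cases a : x = t
    · subst a
      have := h1 y hy hne.symm
      exact ⟨by linarith, fun e => ⟨y, hy, by linarith, rfl⟩⟩
    have b1 := h1 x hx a
    by_cases b : y = t
    · subst b
      exact ⟨by linarith, fun e => ⟨x, hx, by linarith, midpoint_comm _ _⟩⟩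
    · have := h1 y hy b
      exact ⟨by linarith, fun e => by linarith⟩
  have hle : ∀ z ∈ vert (MP_7fdcdd_gt.mid P), η z ≤ η t - 1 / 2 := fun z hz =>
    (top z (h.vert_mid hz)).1
  obtain ⟨k, hk, hk'⟩ := h.mid.touch (h.mid.le hle) fun hc => h2 (by
    refine (Submodule.rank_mono ?_).trans hc
    rw [vectorSpan_def ℝ {x ∈ vert P | η x = η t - 1}, Submodule.span_le]
    rintro _ ⟨x, hx, y, hy, rfl⟩
    have m : ∀ x ∈ {x ∈ vert P | η x = η t - 1}, midpoint ℝ t x ∈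
        {z ∈ MP_7fdcdd_gt.mid P | η z = η t - 1 / 2} := fun x hx =>
      ⟨h.pm_sub ⟨t, ht, x, hx.1, fun e => by have := hx.2; rw [← e] at this; linarith, rfl⟩, by
        rw [map_mid, hx.2]; ring⟩
    have h3 := vsub_mem_vectorSpan ℝ (m x hx) (m y hy)
    have e : x -ᵥ y = (2 : ℝ) • (midpoint ℝ t x -ᵥ midpoint ℝ t y) := by
      simp only [mid_eq, vsub_eq_sub]; module
    show x -ᵥ y ∈ vectorSpan ℝ _
    rw [e]
    exact Submodule.smul_mem _ _ h3)
  refine ⟨k, h.kernel_mid hk, ?_⟩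
  have hk2 : k ∈ convexHull ℝ (pm (vert (MP_7fdcdd_gt.mid P))) := by
    rw [← h.mid.mid_hull]; exact mem_iInter.1 hk 1
  refine face_mem (C := {x | u t / 2 + β / 4 ≤ u x}) (l := η)
    (convex_halfSpace_ge u.toLinearMap.isLinear _) ?_ ?_ hk2 hk'
  · rintro _ ⟨x, hx, y, hy, -, rfl⟩
    rw [map_mid]; linarith [hle x hx, hle y hy]
  · rintro _ ⟨x, hx, y, hy, hne, rfl⟩ e
    rw [map_mid] at e
    obtain ⟨x', a1, a2, rfl⟩ := (top x (h.vert_mid hx)).2 (by linarith [hle x hx, hle y hy])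
    obtain ⟨y', b1, b2, rfl⟩ := (top y (h.vert_mid hy)).2 (by linarith [hle _ hx, hle y hy])
    have := hβ x' a1 y' b1 a2 b2 fun e' => hne (by rw [e'])
    simp only [mem_ofPred_eq, map_mid]
    linarith

lemma split (h : IsPolyhedron P) {t q : E3} {η : E3 →L[ℝ] ℝ}
    (h1 : ∀ x ∈ vert P, x ≠ t → η x ≤ η t - 1) (ht : t ∈ P) (hq : q ∈ P) :
    ∃ a : ℝ, 0 ≤ a ∧ a ≤ 1 ∧ ∃ y ∈ P, η y ≤ η t - 1 ∧ q = a • t + (1 - a) • y := by
  have hne : {y ∈ P | η y ≤ η t - 1}.Nonempty := by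
    by_contra hc
    refine h.not_col ((collinear_singleton ℝ t).subset fun x hx => ?_)
    by_contra hx'
    exact hc ⟨x, hx.1, h1 x hx hx'⟩
  have hcv : Convex ℝ {y ∈ P | η y ≤ η t - 1} :=
    h.convex.inter (convex_halfSpace_le η.toLinearMap.isLinear _)
  have : q ∈ convexHull ℝ (insert t {y ∈ P | η y ≤ η t - 1}) := by
    rw [← h.hull] at hq
    refine convexHull_mono (fun x hx => ?_) hq
    by_cases e : x = t
    · exact Or.inl e
    · exact Or.inr ⟨hx.1, h1 x hx e⟩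
  rw [convexHull_insert hne, hcv.convexHull_eq, mem_convexJoin] at this
  obtain ⟨_, rfl, y, hy, a, b, ha, hb, hab, rfl⟩ := this
  exact ⟨a, ha, by linarith, y, hy.1, hy.2, by rw [show 1 - a = b by linarith]⟩

/-- The second highest vertex of `mid P` shares a parent with the highest one. -/
lemma share (h : IsPolyhedron P) {v w : E3} (hv : v ∈ vert P) (hw : w ∈ vert P) (hne : v ≠ w)
    {η : E3 →L[ℝ] ℝ} (h1 : ∀ x ∈ vert (MP_7fdcdd_gt.mid P), x ≠ midpoint ℝ v w →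
      η x ≤ η (midpoint ℝ v w) - 1) {x : E3} (hx : x ∈ vert (MP_7fdcdd_gt.mid P))
    (hx' : η x = η (midpoint ℝ v w) - 1) :
    ∃ p ∈ vert P, x = midpoint ℝ v p ∨ x = midpoint ℝ w p := by
  have ht : midpoint ℝ v w ∈ MP_7fdcdd_gt.mid P := h.pm_sub ⟨v, hv, w, hw, hne, rfl⟩
  have key : ∀ z ∈ vert P, z ≠ v → z ≠ w → η z < η (midpoint ℝ v w) - 1 := by
    intro z hz a b
    by_contra hc
    push Not at hc
    obtain ⟨a1, p1, q1, y1, m1, l1, e1⟩ := h.mid.split h1 ht (h.pm_sub ⟨v, hv, z, hz, a.symm, rfl⟩)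
    obtain ⟨a2, p2, q2, y2, m2, l2, e2⟩ := h.mid.split h1 ht (h.pm_sub ⟨w, hw, z, hz, b.symm, rfl⟩)
    have ez : z = (a1 + a2 - 1) • midpoint ℝ v w + ((1 - a1) • y1 + (1 - a2) • y2) := by
      rw [mid_eq] at e1 e2
      rw [mid_eq] at e1 e2 ⊢
      linear_combination (norm := module) e1 + e2
    have hz' := congrArg η ez
    simp only [map_add, map_smul, smul_eq_mul] at hz'
    have h0 : 0 ≤ a1 + a2 - 1 := by
      nlinarith [mul_le_mul_of_nonneg_left l1 (sub_nonneg.2 q1),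
        mul_le_mul_of_nonneg_left l2 (sub_nonneg.2 q2)]
    apply h.vert_not_mid hz
    have := h.mid.convex.sum_mem (t := Finset.univ) (w := ![a1 + a2 - 1, 1 - a1, 1 - a2])
      (z := ![midpoint ℝ v w, y1, y2]) (fun i _ => by fin_cases i <;> simp <;> linarith)
      (by simp [Fin.sum_univ_three]) fun i _ => by fin_cases i <;> simpa
    rw [ez]
    simpa [Fin.sum_univ_three, add_assoc] using this
  obtain ⟨p, hp, q, hq, hpq, rfl⟩ := h.vert_mid hx
  by_cases c1 : p = v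
  · exact ⟨q, hq, Or.inl (by rw [c1])⟩
  by_cases c2 : p = w
  · exact ⟨q, hq, Or.inr (by rw [c2])⟩
  by_cases c3 : q = v
  · exact ⟨p, hp, Or.inl (by rw [c3, midpoint_comm])⟩
  by_cases c4 : q = w
  · exact ⟨p, hp, Or.inr (by rw [c4, midpoint_comm])⟩
  have := key p hp c1 c2
  have := key q hq c3 c4
  rw [map_mid η p q] at hx'
  linarith

lemma vert_nonempty (h : IsPolyhedron P) : (vert P).Nonempty := by
  by_contra hc
  rw [not_nonempty_iff_eq_empty] at hc
  exact h.not_col (hc ▸ collinear_empty ℝ E3)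

/-- The two lower bounds for the support function of the kernel. -/
lemma bounds (h : IsPolyhedron P) (u : E3 →L[ℝ] ℝ) : ∃ hi s : ℝ,
    (∀ x ∈ vert P, u x ≤ hi) ∧ (∀ x ∈ vert P, ∀ y ∈ vert P, x ≠ y → u x + u y ≤ s) ∧ s ≤ 2 * hi ∧
    ∀ lo s' : ℝ, (∀ x ∈ vert P, lo ≤ u x) →
      (∀ x ∈ vert P, ∀ y ∈ vert P, x ≠ y → s' ≤ u x + u y) →
      (∃ k ∈ kernel P, hi / 2 + s' / 4 ≤ u k) ∧
      ∃ k ∈ kernel P, s / 4 + min (2 * (s - hi) + s') (s + 2 * lo) / 8 ≤ u k := by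
  obtain ⟨t, ht, hmax⟩ := Set.exists_max_image _ u h.fin h.vert_nonempty
  obtain ⟨t₂, ht₂, hmax₂⟩ := Set.exists_max_image _ u h.mid.fin h.mid.vert_nonempty
  obtain ⟨v, hv, w, hw, hne, rfl⟩ := h.vert_mid ht₂
  refine ⟨u t, u v + u w, hmax, fun x hx y hy hxy => ?_, by linarith [hmax v hv, hmax w hw],
    fun lo s' hlo hs' => ⟨?_, ?_⟩⟩
  · have := h.mid.le hmax₂ _ (h.pm_sub ⟨x, hx, y, hy, hxy, rfl⟩)
    rw [map_mid, map_mid] at this
    linarith
  · obtain ⟨η, h1, h2⟩ := h.exists_facet ht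
    exact h.corner ht h1 h2 u fun x hx y hy _ _ hxy => hs' x hx y hy hxy
  · obtain ⟨η, h1, h2⟩ := h.mid.exists_facet ht₂
    obtain ⟨k, hk, hk'⟩ := h.mid.corner ht₂ h1 h2 u
      (β := min (2 * (u v + u w - u t) + s') (u v + u w + 2 * lo) / 2)
      fun x hx y hy ex ey hxy => by
        obtain ⟨p, hp, e1⟩ := h.share hv hw hne h1 hx ex
        obtain ⟨q, hq, e2⟩ := h.share hv hw hne h1 hy ey
        have m1 := min_le_left (2 * (u v + u w - u t) + s') (u v + u w + 2 * lo)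
        have m2 := min_le_right (2 * (u v + u w - u t) + s') (u v + u w + 2 * lo)
        have a1 := hmax v hv
        have a2 := hmax w hw
        have a3 := hlo p hp
        have a4 := hlo q hq
        rcases e1 with rfl | rfl <;> rcases e2 with rfl | rfl <;> rw [map_mid, map_mid]
        · linarith [hs' p hp q hq fun e => hxy (by rw [e])]
        · linarith
        · linarith
        · linarith [hs' p hp q hq fun e => hxy (by rw [e])]
    refine ⟨k, h.kernel_mid hk, ?_⟩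
    rw [map_mid] at hk'
    linarith

lemma width (h : IsPolyhedron P) (u : E3 →L[ℝ] ℝ) {a b : E3} (ha : a ∈ P) (hb : b ∈ P) :
    ∃ k ∈ kernel P, ∃ k' ∈ kernel P, (u a - u b) / 5 ≤ u k - u k' := by
  obtain ⟨hi, s, a1, a2, a3, a4⟩ := h.bounds u
  obtain ⟨hi', s', b1, b2, b3, b4⟩ := h.bounds (-u)
  simp only [neg_apply] at b1 b2 b4
  obtain ⟨⟨k1, m1, c1⟩, k2, m2, c2⟩ := a4 (-hi') (-s') (fun x hx => by linarith [b1 x hx])
    fun x hx y hy e => by linarith [b2 x hx y hy e]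
  obtain ⟨⟨k3, m3, c3⟩, k4, m4, c4⟩ := b4 (-hi) (-s) (fun x hx => by linarith [a1 x hx])
    fun x hx y hy e => by linarith [a2 x hx y hy e]
  have ea := h.le a1 a ha
  have eb := h.le (l := -u) b1 b hb
  rw [neg_apply] at eb
  by_cases c : 4 / 5 * (hi + hi') ≤ (2 * hi - s) + (2 * hi' - s')
  · exact ⟨k1, m1, k3, m3, by linarith⟩
  rcases le_total (2 * hi - s) (2 * hi' - s') with d | d
  · refine ⟨k2, m2, k3, m3, ?_⟩
    rw [min_eq_right (by linarith)] at c2
    linarith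
  · refine ⟨k1, m1, k4, m4, ?_⟩
    rw [min_eq_right (by linarith)] at c4
    linarith

lemma chord (h : IsPolyhedron P) {a b : E3} (ha : a ∈ P) (hb : b ∈ P) :
    ∃ k ∈ kernel P, k + (1 / 5 : ℝ) • (a - b) ∈ kernel P := by
  by_contra hc
  push Not at hc
  have h1 : (1 / 5 : ℝ) • (a - b) ∉ (fun p : E3 × E3 => p.1 - p.2) '' (kernel P ×ˢ kernel P) := by
    rintro ⟨⟨k, k'⟩, ⟨m, m'⟩, e⟩
    refine hc k' m' ?_
    rw [← e]
    simpa using m
  obtain ⟨l, c, l1, l2⟩ := geometric_hahn_banach_closed_point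
    ((h.kernel_convex.prod h.kernel_convex).is_linear_image
      (LinearMap.fst ℝ E3 E3 - LinearMap.snd ℝ E3 E3).isLinear)
    ((h.kernel_compact.prod h.kernel_compact).image (by fun_prop)).isClosed h1
  obtain ⟨k, m, k', m', e⟩ := h.width l ha hb
  have := l1 _ ⟨(k, k'), ⟨m, m'⟩, rfl⟩
  simp only [LinearMap.sub_apply, LinearMap.fst_apply, LinearMap.snd_apply, map_sub, map_smul,
    smul_eq_mul] at this l2
  linarith

end IsPolyhedron

end Pool.Agent.Lib.MP_7fdcdd_gt
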